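import Pool.Agent.K3P.Stmts
import Pool.Agent.K3E.E8b

/-!
# PG: the Lie algebra of a product of Kuga-Satake varieties, exact statements of the submodules
-/

open scoped BigOperators
open Matrix

namespace Pool.Agent.K3P

open Pool.Agent.DRB Pool.Agent.K3D Pool.Agent.K3E

noncomputable section

/-- The tuples of matrices by which the Lie algebra of the product acts on the spaces `T_i`. -/
def DD {g : ℕ} {A : AbVar g} {r : ℕ} {h : Fin r → ℕ} {B : ∀ i, AbVar (h i)} (D : Decomp A B)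
    {n m : Fin r → ℕ} (K : ∀ i, KSE (B i) (n i) (m i))
    (a : ∀ i, Matrix (Fin (n i)) (Fin (n i)) ℂ) : Prop :=
  ∃ (Y : Matrix (Idx g) (Idx g) ℂ) (ξ : ℂ), InLie (Gam A) Y ξ ∧
    ∀ i v, D.blk i Y * (K i).cl v - (K i).cl v * D.blk i Y = (K i).cl (a i *ᵥ v)

/-- The algebraic properties of the set of tuples. -/
structure TupAlg {r : ℕ} {h : Fin r → ℕ} {B : ∀ i, AbVar (h i)} {n m : Fin r → ℕ}
    (K : ∀ i, KSE (B i) (n i) (m i)) (d : (∀ i, Matrix (Fin (n i)) (Fin (n i)) ℂ) → Prop) : Prop where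
  lin : ∀ (a b : ∀ i, Matrix (Fin (n i)) (Fin (n i)) ℂ) (c : ℂ), d a → d b → d (fun i => a i + c • b i)
  zero : d (fun _ => 0)
  brk : ∀ (a b : ∀ i, Matrix (Fin (n i)) (Fin (n i)) ℂ), d a → d b → d (fun i => a i * b i - b i * a i)
  aut : ∀ (σ : ℂ ≃ₐ[ℚ] ℂ) (a : ∀ i, Matrix (Fin (n i)) (Fin (n i)) ℂ), d a → d (fun i => (a i).map σ)
  mem : ∀ a, d a → ∀ i, a i ∈ (K i).S
  onto : ∀ i, ∀ a ∈ (K i).S, ∃ t, d t ∧ t i = a

/-- Simultaneous hyperbolic logarithms. -/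
def TupLog {r : ℕ} {n : Fin r → ℕ} (d : (∀ i, Matrix (Fin (n i)) (Fin (n i)) ℂ) → Prop) : Prop :=
  ∀ a : (∀ i, Matrix (Fin (n i)) (Fin (n i)) ℝ), d (fun i => (a i).map Complex.ofReal) →
    ∃ h : (∀ i, Matrix (Fin (n i)) (Fin (n i)) ℝ), d (fun i => (h i).map Complex.ofReal) ∧
      ∀ i, IsHypLog (NormedSpace.exp (a i)) (h i)

/-- No intertwining isometries. -/
def TupNoIso {r : ℕ} {h : Fin r → ℕ} {B : ∀ i, AbVar (h i)} {n m : Fin r → ℕ}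
    (K : ∀ i, KSE (B i) (n i) (m i)) (d : (∀ i, Matrix (Fin (n i)) (Fin (n i)) ℂ) → Prop) : Prop :=
  ∀ i j, i ≠ j → ∀ Ψ : (Fin (n i) → ℂ) ≃ₗ[ℂ] (Fin (n j) → ℂ),
    (∀ v w, (K j).bil (Ψ v) (Ψ w) = (K i).bil v w) → ¬ ∀ t, d t → ∀ v, t j *ᵥ Ψ v = Ψ (t i *ᵥ v)

/-- G0. The set of tuples is a Lie algebra stable under automorphisms, onto the factors. -/
def Stmt_G0 : Prop :=
  ∀ (g : ℕ) (A : AbVar g) (r : ℕ) (h : Fin r → ℕ) (B : ∀ i, AbVar (h i)) (D : Decomp A B)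
    (n m : Fin r → ℕ) (K : ∀ i, KSE (B i) (n i) (m i)), (∀ i, m i = 3 ∨ 6 ≤ m i) → TupAlg K (DD D K)

/-- GL. Simultaneous hyperbolic logarithms (from PQ, last item, as in E8A). -/
def Stmt_GL : Prop :=
  ∀ (g : ℕ) (A : AbVar g) (r : ℕ) (h : Fin r → ℕ) (B : ∀ i, AbVar (h i)) (D : Decomp A B)
    (n m : Fin r → ℕ) (K : ∀ i, KSE (B i) (n i) (m i)), TupLog (DD D K)

/-- GA. Averages: an isometry between the spaces `T` gives an intertwining matrix. -/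
def Stmt_GA : Prop :=
  ∀ (g g' : ℕ) (A : AbVar g) (A' : AbVar g') (n m n' m' : ℕ) (K : KSE A n m) (K' : KSE A' n' m')
    (Ψ : (Fin n → ℂ) ≃ₗ[ℂ] (Fin n' → ℂ)), (∀ v w, K'.bil (Ψ v) (Ψ w) = K.bil v w) →
    ∃ F : Matrix (Idx g') (Idx g) ℂ, F ≠ 0 ∧
      (∀ v w, K'.cl (Ψ v) * K'.cl (Ψ w) * F = F * (K.cl v * K.cl w)) ∧
      ∀ (a : Matrix (Fin n) (Fin n) ℂ) (a' : Matrix (Fin n') (Fin n') ℂ),
        (∀ v, a' *ᵥ Ψ v = Ψ (a *ᵥ v)) → K'.Z a' * F = F * K.Z a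

/-- GN. No intertwining isometries (from GA and PH). -/
def Stmt_GN : Prop :=
  ∀ (g : ℕ) (A : AbVar g) (r : ℕ) (h : Fin r → ℕ) (B : ∀ i, AbVar (h i)) (D : Decomp A B),
    (∀ i j, i ≠ j → ∀ α, IsHom (B i) (B j) α → α = 0) →
    ∀ (n m : Fin r → ℕ) (K : ∀ i, KSE (B i) (n i) (m i)), (∀ i, m i = 3 ∨ 6 ≤ m i) →
    TupNoIso K (DD D K)

/-- GP. The real places where the forms are indefinite: a pair is free or there is a similitude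
(`PairHyp` holds, and PR). -/
def Stmt_GP : Prop :=
  ∀ (r : ℕ) (h : Fin r → ℕ) (B : ∀ i, AbVar (h i)) (n m : Fin r → ℕ) (K : ∀ i, KSE (B i) (n i) (m i))
    (d : (∀ i, Matrix (Fin (n i)) (Fin (n i)) ℂ) → Prop), TupAlg K d → TupLog d →
    (∀ i, m i = 3 ∨ 6 ≤ m i) → ∀ i j, i ≠ j →
    (∀ x ∈ E8Y.V0 (K i), ∀ y ∈ E8Y.V0 (K i), ∃ a : (∀ k, Matrix (Fin (n k)) (Fin (n k)) ℝ),
      d (fun k => (a k).map Complex.ofReal) ∧
      (∀ v ∈ E8Y.V0 (K i), a i *ᵥ v =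
        (∑ k, ((K i).q k : ℝ) * y k * v k) • x - (∑ k, ((K i).q k : ℝ) * x k * v k) • y) ∧
      ∀ w ∈ E8Y.V0 (K j), a j *ᵥ w = 0) ∨
    (∃ (ψ : E8Y.V0 (K i) ≃ₗ[ℝ] E8Y.V0 (K j)) (c : ℝ), c ≠ 0 ∧
      (∀ x y : E8Y.V0 (K i), ∑ k, ((K j).q k : ℝ) * (ψ x : Fin (n j) → ℝ) k * (ψ y : Fin (n j) → ℝ) k =
        c * ∑ k, ((K i).q k : ℝ) * (x : Fin (n i) → ℝ) k * (y : Fin (n i) → ℝ) k) ∧
      ∀ a : (∀ k, Matrix (Fin (n k)) (Fin (n k)) ℝ), d (fun k => (a k).map Complex.ofReal) →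
        ∀ x y : E8Y.V0 (K i), (y : Fin (n i) → ℝ) = a i *ᵥ (x : Fin (n i) → ℝ) →
          (ψ y : Fin (n j) → ℝ) = a j *ᵥ (ψ x : Fin (n j) → ℝ))

/-- GG. Goursat: the set of tuples is everything. -/
def Stmt_GG : Prop :=
  ∀ (r : ℕ) (h : Fin r → ℕ) (B : ∀ i, AbVar (h i)) (n m : Fin r → ℕ) (K : ∀ i, KSE (B i) (n i) (m i))
    (d : (∀ i, Matrix (Fin (n i)) (Fin (n i)) ℂ) → Prop), TupAlg K d → TupLog d → TupNoIso K d →
    (∀ i, m i = 3 ∨ 6 ≤ m i) → ∀ i, ∀ a ∈ (K i).S, ∃ t, d t ∧ t i = a ∧ ∀ j, j ≠ i → t j = 0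

/-- GE. From tuples to the Lie algebra. -/
def Stmt_GE : Prop :=
  ∀ (g : ℕ) (A : AbVar g) (r : ℕ) (h : Fin r → ℕ) (B : ∀ i, AbVar (h i)) (D : Decomp A B)
    (n m : Fin r → ℕ) (K : ∀ i, KSE (B i) (n i) (m i)), (∀ i, 3 ≤ m i) →
    (∀ i, ∀ a ∈ (K i).S, ∃ t, DD D K t ∧ t i = a ∧ ∀ j, j ≠ i → t j = 0) →
    ∀ i, ∀ a ∈ (K i).S, InLie (Gam A) (D.emb i ((K i).Z a)) 0

end

/-- Assembly of PG. -/
theorem PG_of (h0 : Stmt_G0) (hl : Stmt_GL) (hn : Stmt_GN) (hg : Stmt_GG) (he : Stmt_GE) : Stmt_PG := by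
  intro g A r h B D hH n m K hm i a ha
  refine he g A r h B D n m K (fun i => ?_) ?_ i a ha
  · rcases hm i with h | h <;> omega
  · exact hg r h B n m K (DD D K) (h0 g A r h B D n m K hm) (hl g A r h B D n m K)
      (hn g A r h B D hH n m K hm) hm

end Pool.Agent.K3P
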