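import Pool.Agent.K3P.RG
import Pool.Agent.K3E.E8c

/-!
# GG, first part: algebra of tuples
-/

set_option autoImplicit false

open scoped BigOperators
open Matrix Polynomial

namespace Pool.Agent.K3P

open Pool.Agent.DRB Pool.Agent.K3D Pool.Agent.K3E

namespace GGX

section one

variable {g n m : ℕ} {A : AbVar g} (K : KSE A n m)

/-- induction on the eigenspaces -/
theorem extT {M N : Matrix (Fin n) (Fin n) ℂ}
    (h : ∀ w : ℂ, aeval w K.P = 0 → ∀ v ∈ K.Tl w, M *ᵥ v = N *ᵥ v) : M = N := by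
  refine E5L.mat_ext fun v => ?_
  have hle : (⨆ z ∈ {z : ℂ | aeval z K.P = 0}, K.Tl z) ≤
      LinearMap.ker (Matrix.mulVecLin (M - N)) := by
    refine iSup₂_le fun z hz w hw => ?_
    rw [LinearMap.mem_ker, Matrix.mulVecLin_apply, Matrix.sub_mulVec, h z hz w hw, sub_self]
  have h3 := hle (E5L.top' K v)
  rw [LinearMap.mem_ker, Matrix.mulVecLin_apply, Matrix.sub_mulVec] at h3
  exact sub_eq_zero.1 h3

theorem bil_sub_left (x y w : Fin n → ℂ) : K.bil (x - y) w = K.bil x w - K.bil y w := by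
  rw [← E5L.bf_apply, map_sub, LinearMap.sub_apply, E5L.bf_apply, E5L.bf_apply]

theorem bil_sub_right (x y w : Fin n → ℂ) : K.bil w (x - y) = K.bil w x - K.bil w y := by
  rw [← E5L.bf_apply, map_sub, E5L.bf_apply, E5L.bf_apply]

theorem wm_add_left (x x' y : Fin n → ℂ) : E5L.wm K (x + x') y = E5L.wm K x y + E5L.wm K x' y := by
  ext i j
  simp only [E5L.wm, Matrix.of_apply, Matrix.add_apply, Pi.add_apply]
  ring

theorem wm_smul_left (c : ℂ) (x y : Fin n → ℂ) : E5L.wm K (c • x) y = c • E5L.wm K x y := by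
  ext i j
  simp only [E5L.wm, Matrix.of_apply, Matrix.smul_apply, Pi.smul_apply, smul_eq_mul]
  ring

theorem wm_swap (x y : Fin n → ℂ) : E5L.wm K x y = -E5L.wm K y x := by
  ext i j
  simp only [E5L.wm, Matrix.of_apply, Matrix.neg_apply]
  ring

theorem wm_self (x : Fin n → ℂ) : E5L.wm K x x = 0 := by
  ext i j
  simp only [E5L.wm, Matrix.of_apply, Matrix.zero_apply]
  ring

/-- brackets with `x ∧ y` -/
theorem comm_wm {a : Matrix (Fin n) (Fin n) ℂ} (ha : a ∈ K.S) (x y : Fin n → ℂ) :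
    a * E5L.wm K x y - E5L.wm K x y * a = E5L.wm K (a *ᵥ x) y + E5L.wm K x (a *ᵥ y) := by
  refine E5L.mat_ext fun v => ?_
  rw [Matrix.sub_mulVec, Matrix.add_mulVec, ← Matrix.mulVec_mulVec, ← Matrix.mulVec_mulVec,
    E5L.wm_mulVec, E5L.wm_mulVec, E5L.wm_mulVec, E5L.wm_mulVec, Matrix.mulVec_sub, Matrix.mulVec_smul,
    Matrix.mulVec_smul, DUAL.bil_skew K ha x v, DUAL.bil_skew K ha y v]
  module

/-- An ideal of `so(T_z)` containing `e ∧ f` is everything. -/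
theorem ideal (a : Submodule ℂ (Matrix (Fin n) (Fin n) ℂ)) {z : ℂ}
    (hbr : ∀ X ∈ a, X ∈ K.S → ∀ x ∈ K.Tl z, ∀ y ∈ K.Tl z,
      X * E5L.wm K x y - E5L.wm K x y * X ∈ a) {e f : Fin n → ℂ} (he : e ∈ K.Tl z) (hf : f ∈ K.Tl z)
    (hee : K.bil e e = 0) (hff : K.bil f f = 0) (hef : K.bil e f ≠ 0) (hin : E5L.wm K e f ∈ a)
    (x : Fin n → ℂ) (hx : x ∈ K.Tl z) (y : Fin n → ℂ) (hy : y ∈ K.Tl z) : E5L.wm K x y ∈ a := by
  have hfe : K.bil f e = K.bil e f := E5L.bil_comm K f e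
  -- e ∧ u, f ∧ u
  have h1 : ∀ u ∈ K.Tl z, K.bil e u = 0 → K.bil f u = 0 → E5L.wm K e u ∈ a ∧ E5L.wm K f u ∈ a := by
    intro u hu h1 h2
    have h3 := hbr _ hin (E5L.wm_mem K he hf) e he u hu
    have h4 := hbr _ hin (E5L.wm_mem K he hf) f hf u hu
    rw [comm_wm K (E5L.wm_mem K he hf), E5L.wm_mulVec, E5L.wm_mulVec] at h3 h4
    simp only [hee, hff, hfe, h1, h2, zero_smul, sub_zero, zero_sub] at h3 h4
    have h0 : E5L.wm K e (0 : Fin n → ℂ) = 0 := by
      ext i j; simp [E5L.wm]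
    have h0' : E5L.wm K f (0 : Fin n → ℂ) = 0 := by
      ext i j; simp [E5L.wm]
    rw [h0, add_zero, wm_smul_left] at h3
    rw [h0', add_zero, ← neg_smul, wm_smul_left] at h4
    refine ⟨?_, ?_⟩
    · have h5 := a.smul_mem (K.bil e f)⁻¹ h3
      rwa [smul_smul, inv_mul_cancel₀ hef, one_smul] at h5
    · have h5 := a.smul_mem (-(K.bil e f))⁻¹ h4
      rwa [smul_smul, inv_mul_cancel₀ (neg_ne_zero.2 hef), one_smul] at h5
  -- u ∧ u'
  have h2 : ∀ u ∈ K.Tl z, K.bil e u = 0 → K.bil f u = 0 → ∀ u' ∈ K.Tl z, K.bil e u' = 0 →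
      K.bil f u' = 0 → E5L.wm K u u' ∈ a := by
    intro u hu hu1 hu2 u' hu' hu1' hu2'
    have h3 := hbr _ (h1 u hu hu1 hu2).1 (E5L.wm_mem K he hu) f hf u' hu'
    rw [comm_wm K (E5L.wm_mem K he hu), E5L.wm_mulVec, E5L.wm_mulVec, E5L.bil_comm K u f, hu2,
      hu1'] at h3
    simp only [zero_smul, sub_zero, zero_sub] at h3
    rw [← neg_smul, wm_smul_left, wm_swap K f, wm_smul_left] at h3
    have h4 := a.smul_mem (-(K.bil e f))⁻¹ (a.add_mem h3 (a.smul_mem (K.bil u u') hin))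
    have h5 : (-(K.bil e f))⁻¹ • (-K.bil e f • E5L.wm K u u' + -(K.bil u u' • E5L.wm K e f) +
        K.bil u u' • E5L.wm K e f) = E5L.wm K u u' := by
      rw [neg_add_cancel_right, smul_smul, inv_mul_cancel₀ (neg_ne_zero.2 hef), one_smul]
    rwa [h5] at h4
  -- decomposition
  have hdec : ∀ x ∈ K.Tl z, ∃ (α β : ℂ), ∃ u ∈ K.Tl z, K.bil e u = 0 ∧ K.bil f u = 0 ∧
      x = α • e + β • f + u := by
    intro x hx
    refine ⟨K.bil f x / K.bil e f, K.bil e x / K.bil e f,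
      x - ((K.bil f x / K.bil e f) • e + (K.bil e x / K.bil e f) • f),
      Submodule.sub_mem _ hx (Submodule.add_mem _ (Submodule.smul_mem _ _ he)
        (Submodule.smul_mem _ _ hf)), ?_, ?_, by abel⟩
    · rw [bil_sub_right, ← E5L.bf_apply, ← E5L.bf_apply, map_add, map_smul, map_smul,
        E5L.bf_apply, E5L.bf_apply, E5L.bf_apply, hee, smul_zero, zero_add, smul_eq_mul,
        div_mul_cancel₀ _ hef, sub_self]
    · rw [bil_sub_right, ← E5L.bf_apply, ← E5L.bf_apply, map_add, map_smul, map_smul,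
        E5L.bf_apply, E5L.bf_apply, E5L.bf_apply, hff, hfe, smul_zero, add_zero, smul_eq_mul,
        div_mul_cancel₀ _ hef, sub_self]
  obtain ⟨α, β, u, hu, hu1, hu2, rfl⟩ := hdec x hx
  obtain ⟨α', β', u', hu', hu1', hu2', rfl⟩ := hdec y hy
  have k1 := h1 u hu hu1 hu2
  have k2 := h1 u' hu' hu1' hu2'
  have k3 := h2 u hu hu1 hu2 u' hu' hu1' hu2'
  have key : E5L.wm K (α • e + β • f + u) (α' • e + β' • f + u') =
      (α * β' - β * α') • E5L.wm K e f + α • E5L.wm K e u' + β • E5L.wm K f u' -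
        α' • E5L.wm K e u - β' • E5L.wm K f u + E5L.wm K u u' := by
    ext i j
    simp only [E5L.wm, Matrix.of_apply, Matrix.add_apply, Matrix.sub_apply, Matrix.smul_apply,
      Pi.add_apply, Pi.smul_apply, smul_eq_mul]
    ring
  rw [key]
  exact a.add_mem (a.sub_mem (a.sub_mem (a.add_mem (a.add_mem (a.smul_mem _ hin) (a.smul_mem _ k2.1))
    (a.smul_mem _ k2.2)) (a.smul_mem _ k1.1)) (a.smul_mem _ k1.2)) k3

/-- the action of a conjugate matrix -/
theorem map_mulVec (σ : ℂ ≃ₐ[ℚ] ℂ) (a : Matrix (Fin n) (Fin n) ℂ) (v : Fin n → ℂ) :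
    (a.map σ) *ᵥ v = fun i => σ ((a *ᵥ fun i => σ.symm (v i)) i) := by
  funext i
  simp only [Matrix.mulVec, dotProduct, Matrix.map_apply, map_sum, map_mul, AlgEquiv.apply_symm_apply]

end one

section tuples

variable {r : ℕ} {h : Fin r → ℕ} {B : ∀ i, AbVar (h i)} {n m : Fin r → ℕ}
  {K : ∀ i, KSE (B i) (n i) (m i)} {d : (∀ i, Matrix (Fin (n i)) (Fin (n i)) ℂ) → Prop}

/-- The tuples as a subspace. -/
def sub (T : TupAlg K d) : Submodule ℂ (∀ i, Matrix (Fin (n i)) (Fin (n i)) ℂ) where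
  carrier := {a | d a}
  add_mem' := by
    intro a b ha hb
    have h1 := T.lin a b 1 ha hb
    have h2 : (fun i => a i + (1 : ℂ) • b i) = a + b := by
      funext i
      rw [one_smul]; rfl
    rw [h2] at h1
    exact h1
  zero_mem' := T.zero
  smul_mem' := by
    intro c a ha
    have h1 := T.lin (fun _ => 0) a c T.zero ha
    have h2 : (fun i => (0 : Matrix (Fin (n i)) (Fin (n i)) ℂ) + c • a i) = c • a := by
      funext i
      rw [zero_add]; rfl
    rw [h2] at h1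
    exact h1

theorem mem_sub (T : TupAlg K d) (a : ∀ i, Matrix (Fin (n i)) (Fin (n i)) ℂ) : a ∈ sub T ↔ d a := Iff.rfl

variable (K d)

/-- The places `(i, z)` and `(j, w)` are independent. -/
def Free (i : Fin r) (z : ℂ) (j : Fin r) (w : ℂ) : Prop :=
  ∀ x ∈ (K i).Tl z, ∀ y ∈ (K i).Tl z, ∃ t, d t ∧
    (∀ v ∈ (K i).Tl z, t i *ᵥ v = E5L.wm (K i) x y *ᵥ v) ∧ ∀ v ∈ (K j).Tl w, t j *ᵥ v = 0

variable {K d}

theorem pres (T : TupAlg K d) {t : ∀ i, Matrix (Fin (n i)) (Fin (n i)) ℂ} (ht : d t) (j : Fin r)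
    {w : ℂ} {v : Fin (n j) → ℂ} (hv : v ∈ (K j).Tl w) : t j *ᵥ v ∈ (K j).Tl w :=
  E5L.S_pres (K j) (T.mem t ht j) hv

/-- From pairs of places to finite sets of places. -/
theorem kill (T : TupAlg K d) {i : Fin r} (hm : 3 ≤ m i) {z : ℂ} (hz : aeval z (K i).P = 0)
    (J : Finset (Fin r × ℂ)) (hJ : ∀ p ∈ J, Free K d i z p.1 p.2) :
    ∀ x ∈ (K i).Tl z, ∀ y ∈ (K i).Tl z, ∃ t, d t ∧
      (∀ v ∈ (K i).Tl z, t i *ᵥ v = E5L.wm (K i) x y *ᵥ v) ∧
      ∀ p ∈ J, ∀ v ∈ (K p.1).Tl p.2, t p.1 *ᵥ v = 0 := by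
  classical
  induction J using Finset.induction_on with
  | empty =>
    intro x hx y hy
    obtain ⟨t, ht, hti⟩ := T.onto i _ (E5L.wm_mem (K i) hx hy)
    exact ⟨t, ht, fun v _ => by rw [hti], fun p hp => absurd hp (Finset.notMem_empty p)⟩
  | insert p J hp ih =>
    intro x hx y hy
    have ih' := ih fun q hq => hJ q (Finset.mem_insert_of_mem hq)
    have hfp := hJ p (Finset.mem_insert_self _ _)
    obtain ⟨b, b', hb, hb', h0, h1, h2⟩ := DUAL.dual (K i) z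
    choose s hs1 hs2 hs3 using fun k => ih' x hx (b k) (hb k)
    choose u hu1 hu2 hu3 using fun k => hfp (b' k) (hb' k) y hy
    have hd0 : (Module.finrank ℂ ((K i).Tl z) : ℂ) - 2 ≠ 0 := by
      rw [E5L.finrank_Tl (K i) hz]
      intro h
      have h3 : ((m i : ℕ) : ℂ) = (2 : ℕ) := by
        push_cast
        linear_combination h
      have h4 : m i = 2 := by exact_mod_cast h3
      omega
    let t : ∀ j, Matrix (Fin (n j)) (Fin (n j)) ℂ := ((Module.finrank ℂ ((K i).Tl z) : ℂ) - 2)⁻¹ •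
      ∑ k, fun j => s k j * u k j - u k j * s k j
    have ht : d t := (sub T).smul_mem _ (Submodule.sum_mem _ fun k _ => T.brk _ _ (hs1 k) (hu1 k))
    have htj : ∀ j, t j = ((Module.finrank ℂ ((K i).Tl z) : ℂ) - 2)⁻¹ •
        ∑ k, (s k j * u k j - u k j * s k j) := by
      intro j
      simp only [t, Pi.smul_apply, Finset.sum_apply]
    refine ⟨t, ht, ?_, ?_⟩
    · intro v hv
      have h5 : E5L.wm (K i) x y = ((Module.finrank ℂ ((K i).Tl z) : ℂ) - 2)⁻¹ •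
          ∑ j, (E5L.wm (K i) x (b j) * E5L.wm (K i) (b' j) y -
            E5L.wm (K i) (b' j) y * E5L.wm (K i) x (b j)) := by
        rw [E8C.comm_sum (K i) hx hy b b' hb hb' h0 h1 h2, smul_smul, inv_mul_cancel₀ hd0, one_smul]
      rw [h5, htj, Matrix.smul_mulVec, Matrix.smul_mulVec, Matrix.sum_mulVec, Matrix.sum_mulVec]
      congr 1
      refine Finset.sum_congr rfl fun k _ => ?_
      rw [Matrix.sub_mulVec, Matrix.sub_mulVec, ← Matrix.mulVec_mulVec, ← Matrix.mulVec_mulVec,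
        ← Matrix.mulVec_mulVec, ← Matrix.mulVec_mulVec, hs2 k _ (pres T (hu1 k) i hv),
        hu2 k _ (pres T (hs1 k) i hv), hu2 k v hv, hs2 k v hv]
    · intro q hq v hv
      rw [htj, Matrix.smul_mulVec, Matrix.sum_mulVec, Finset.sum_eq_zero, smul_zero]
      intro k _
      rw [Matrix.sub_mulVec, ← Matrix.mulVec_mulVec, ← Matrix.mulVec_mulVec]
      rcases Finset.mem_insert.1 hq with hqp | hqJ
      · subst hqp
        rw [hu3 k v hv, hu3 k _ (pres T (hs1 k) q.1 hv), Matrix.mulVec_zero, sub_zero]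
      · rw [hs3 k q hqJ v hv, hs3 k q hqJ _ (pres T (hu1 k) q.1 hv), Matrix.mulVec_zero, sub_zero]

theorem free_self (T : TupAlg K d) (i : Fin r) {z w : ℂ} (hzw : z ≠ w) : Free K d i z i w := by
  intro x hx y hy
  obtain ⟨t, ht, hti⟩ := T.onto i _ (E5L.wm_mem (K i) hx hy)
  refine ⟨t, ht, fun v _ => by rw [hti], fun v hv => ?_⟩
  rw [hti, E5L.wm_mulVec, E5L.orth (K i) hzw hx hv, E5L.orth (K i) hzw hy hv, zero_smul, zero_smul,
    sub_zero]

/-- If all pairs of places are independent, everything is there. -/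
theorem all_of_free (T : TupAlg K d) {i : Fin r} (hm : 3 ≤ m i)
    (hfree : ∀ j, j ≠ i → ∀ z w : ℂ, aeval z (K i).P = 0 → aeval w (K j).P = 0 → Free K d i z j w)
    (a : Matrix (Fin (n i)) (Fin (n i)) ℂ) (ha : a ∈ (K i).S) :
    ∃ t, d t ∧ t i = a ∧ ∀ j, j ≠ i → t j = 0 := by
  classical
  let W : Submodule ℂ (Matrix (Fin (n i)) (Fin (n i)) ℂ) :=
    { carrier := {a | ∃ t, d t ∧ t i = a ∧ ∀ j, j ≠ i → t j = 0}
      add_mem' := by
        rintro a b ⟨t, ht, rfl, ht0⟩ ⟨s, hs, rfl, hs0⟩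
        refine ⟨t + s, (sub T).add_mem ht hs, rfl, fun j hj => ?_⟩
        rw [Pi.add_apply, ht0 j hj, hs0 j hj, add_zero]
      zero_mem' := ⟨0, (sub T).zero_mem, rfl, fun j _ => rfl⟩
      smul_mem' := by
        rintro c a ⟨t, ht, rfl, ht0⟩
        refine ⟨c • t, (sub T).smul_mem c ht, rfl, fun j hj => ?_⟩
        rw [Pi.smul_apply, ht0 j hj, smul_zero] }
  have hW : ∀ a, a ∈ W ↔ ∃ t, d t ∧ t i = a ∧ ∀ j, j ≠ i → t j = 0 := fun a => Iff.rfl
  let R : ∀ j, Finset ℂ := fun j => ((K j).P.aroots ℂ).toFinset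
  have hR : ∀ j w, w ∈ R j ↔ aeval w (K j).P = 0 := by
    intro j w
    rw [Multiset.mem_toFinset, Polynomial.mem_aroots]
    exact ⟨fun h => h.2, fun h => ⟨(K j).irr.ne_zero, h⟩⟩
  rw [← hW]
  refine Submodule.span_le.2 ?_ (DUAL.mem_span (K i) ha)
  rintro w ⟨z, x, y, hz, hx, hy, rfl⟩
  show E5L.wm (K i) x y ∈ W
  rw [hW]
  let J : Finset (Fin r × ℂ) := ((Finset.univ ×ˢ (Finset.univ.biUnion R)).filter
    fun p => aeval p.2 (K p.1).P = 0 ∧ p ≠ (i, z))
  have hJ : ∀ p ∈ J, Free K d i z p.1 p.2 := by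
    rintro ⟨j, w⟩ hp
    obtain ⟨-, hw, hne⟩ := Finset.mem_filter.1 hp
    by_cases hji : j = i
    · subst hji
      refine free_self T j fun h => hne ?_
      rw [h]
    · exact hfree j hji z w hz hw
  obtain ⟨t, ht, hti, htJ⟩ := kill T hm hz J hJ x hx y hy
  have hkill : ∀ j w, aeval w (K j).P = 0 → (j, w) ≠ (i, z) → ∀ v ∈ (K j).Tl w, t j *ᵥ v = 0 := by
    intro j w hw hne
    refine htJ (j, w) (Finset.mem_filter.2 ⟨Finset.mem_product.2 ⟨Finset.mem_univ _, ?_⟩, hw, hne⟩)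
    exact Finset.mem_biUnion.2 ⟨j, Finset.mem_univ _, (hR j w).2 hw⟩
  refine ⟨t, ht, ?_, ?_⟩
  · refine extT (K i) fun w hw v hv => ?_
    by_cases hwz : w = z
    · subst hwz
      exact hti v hv
    · rw [hkill i w hw (fun h => hwz (congrArg Prod.snd h)) v hv, E5L.wm_mulVec,
        E5L.orth (K i) (Ne.symm hwz) hx hv, E5L.orth (K i) (Ne.symm hwz) hy hv, zero_smul, zero_smul,
        sub_zero]
  · intro j hj
    refine extT (K j) fun w hw v hv => ?_
    rw [hkill j w hw (fun h => hj (congrArg Prod.fst h)) v hv, Matrix.zero_mulVec]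

/-- Galois transport. -/
theorem free_aut (T : TupAlg K d) (σ : ℂ ≃ₐ[ℚ] ℂ) {i j : Fin r} {z w : ℂ} (hf : Free K d i z j w) :
    Free K d i (σ z) j (σ w) := by
  intro x hx y hy
  have hx' := E5L.map_Tl (K i) σ.symm hx
  have hy' := E5L.map_Tl (K i) σ.symm hy
  rw [σ.symm_apply_apply] at hx' hy'
  obtain ⟨t, ht, h1, h2⟩ := hf _ hx' _ hy'
  refine ⟨fun i => (t i).map σ, T.aut σ t ht, fun v hv => ?_, fun v hv => ?_⟩
  · have hv' := E5L.map_Tl (K i) σ.symm hv
    rw [σ.symm_apply_apply] at hv'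
    rw [map_mulVec, h1 _ hv', ← map_mulVec, E8Y.wm_map]
    simp only [AlgEquiv.apply_symm_apply]
  · have hv' := E5L.map_Tl (K j) σ.symm hv
    rw [σ.symm_apply_apply] at hv'
    rw [map_mulVec, h2 _ hv']
    funext k
    simp

/-- Real lifts. -/
theorem real_lift (T : TupAlg K d) (i : Fin r) (a : Matrix (Fin (n i)) (Fin (n i)) ℝ)
    (ha : a.map Complex.ofReal ∈ (K i).S) :
    ∃ b : (∀ k, Matrix (Fin (n k)) (Fin (n k)) ℝ), d (fun k => (b k).map Complex.ofReal) ∧ b i = a := by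
  obtain ⟨t, ht, hti⟩ := T.onto i _ ha
  have h1 := T.aut E8Y.cc0 t ht
  have h2 : d ((1 / 2 : ℂ) • (t + fun k => (t k).map E8Y.cc0)) :=
    (sub T).smul_mem _ ((sub T).add_mem ht h1)
  refine ⟨fun k => (t k).map Complex.re, ?_, ?_⟩
  · have h3 : (fun k => ((t k).map Complex.re).map Complex.ofReal) =
        (1 / 2 : ℂ) • (t + fun k => (t k).map E8Y.cc0) := by
      funext k
      ext p q
      simp only [Pi.smul_apply, Pi.add_apply, Matrix.smul_apply, Matrix.add_apply, Matrix.map_apply,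
        smul_eq_mul, E8Y.cc0_apply]
      rw [Complex.re_eq_add_conj]
      ring
    rw [h3]
    exact h2
  · simp only [hti]
    ext p q
    simp

end tuples

end GGX

end Pool.Agent.K3P
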