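import Pool.Agent.K3P.GG2

/-!
# GG, third part: gluing the conjugates of a similitude, and the conclusion
-/

set_option autoImplicit false

open scoped BigOperators
open Matrix Polynomial

namespace Pool.Agent.K3P

open Pool.Agent.DRB Pool.Agent.K3D Pool.Agent.K3E
open Pool.Agent.K3D.K7w Pool.Agent.K3D.K7x

namespace GGX

section one

variable {g n m : ℕ} {A : AbVar g} (K : KSE A n m)

/-- nonzero elements of `so(T_z)` -/
theorem ex_ne (hm : 3 ≤ m) {z : ℂ} (hz : aeval z K.P = 0) :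
    ∃ x ∈ K.Tl z, ∃ y ∈ K.Tl z, ∃ u ∈ K.Tl z, E5L.wm K x y *ᵥ u ≠ 0 := by
  obtain ⟨b, b', hb, hb', h0, -, -⟩ := DUAL.dual K z
  have hf := E5L.finrank_Tl K hz
  let i0 : Fin (Module.finrank ℂ (K.Tl z)) := ⟨0, by omega⟩
  let i1 : Fin (Module.finrank ℂ (K.Tl z)) := ⟨1, by omega⟩
  have h01 : i0 ≠ i1 := by
    intro h
    have := congrArg Fin.val h
    simp [i0, i1] at this
  refine ⟨b' i1, hb' i1, b' i0, hb' i0, b i0, hb i0, fun h => ?_⟩
  rw [E5L.wm_mulVec, h0, h0, if_pos rfl, if_neg h01, one_smul, zero_smul, sub_zero] at h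
  have h1 := h0 i1 i1
  rw [if_pos rfl, h] at h1
  rw [← E5L.bf_apply, map_zero, LinearMap.zero_apply] at h1
  exact zero_ne_one h1

theorem V0_nondeg {x : Fin n → ℝ} (hx : x ∈ E8Y.V0 K)
    (h : ∀ y ∈ E8Y.V0 K, Bq (fun i => (K.q i : ℝ)) x y = 0) : x = 0 := by
  have h1 : (fun i => (x i : ℂ)) = 0 := by
    refine E5L.nondegT K (ofReal_mem K hx) fun w hw => ?_
    rw [← E8Y.cplx_V0, mem_cplx] at hw
    rw [re_im w, ← E5L.bf_apply, map_add, map_smul, E5L.bf_apply, E5L.bf_apply, bil_ofReal,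
      bil_ofReal, h _ hw.1, h _ hw.2, Complex.ofReal_zero, smul_zero, add_zero]
  funext i
  have h2 : (x i : ℂ) = 0 := congrFun h1 i
  rw [Pi.zero_apply]
  exact_mod_cast h2

/-- dual bases of the real space -/
theorem dualV0 : ∃ b b' : Fin (Module.finrank ℝ (E8Y.V0 K)) → E8Y.V0 K,
    ∀ v : E8Y.V0 K, ∑ j, Bq (fun i => (K.q i : ℝ)) (b' j : Fin n → ℝ) (v : Fin n → ℝ) • b j = v := by
  classical
  let B : LinearMap.BilinForm ℝ (E8Y.V0 K) :=
    LinearMap.BilinForm.restrict (Bq fun i => (K.q i : ℝ)) (E8Y.V0 K)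
  have hl : ∀ x : E8Y.V0 K, (∀ y : E8Y.V0 K, B x y = 0) → x = 0 := by
    intro x hx
    exact Subtype.ext (V0_nondeg K x.2 fun y hy => hx ⟨y, hy⟩)
  have hnd : B.Nondegenerate := by
    refine ⟨hl, fun y hy => hl y fun x => ?_⟩
    have h1 := hy x
    rw [← h1]
    exact Bq_symm _ _
  let b := Module.finBasis ℝ (E8Y.V0 K)
  let b' := B.dualBasis hnd b
  have h1 : ∀ i j, B (b' i) (b j) = if j = i then 1 else 0 := fun i j =>
    LinearMap.BilinForm.apply_dualBasis_left hnd b i j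
  refine ⟨b, b', fun v => ?_⟩
  have h2 : ∑ j, B (b' j) v • b j = v := by
    conv_rhs => rw [← b.sum_repr v]
    refine Finset.sum_congr rfl fun j _ => ?_
    congr 1
    conv_lhs => rw [← b.sum_repr v, map_sum]
    rw [Finset.sum_eq_single j]
    · rw [map_smul, h1, if_pos rfl, smul_eq_mul, mul_one]
    · intro i _ hij
      rw [map_smul, h1, if_neg hij, smul_zero]
    · intro h; exact absurd (Finset.mem_univ j) h
  exact h2

end one

section tuples

variable {r : ℕ} {h : Fin r → ℕ} {B : ∀ i, AbVar (h i)} {n m : Fin r → ℕ}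
  {K : ∀ i, KSE (B i) (n i) (m i)} {d : (∀ i, Matrix (Fin (n i)) (Fin (n i)) ℂ) → Prop}

variable (K d)

/-- `M` is an intertwining isometry from the place `z` of `K i` to the place `w` of `K j`. -/
structure Good (i j : Fin r) (z w : ℂ) (M : Matrix (Fin (n j)) (Fin (n i)) ℂ) : Prop where
  mem : ∀ v ∈ (K i).Tl z, M *ᵥ v ∈ (K j).Tl w
  zero : ∀ z' : ℂ, z' ≠ z → ∀ v ∈ (K i).Tl z', M *ᵥ v = 0
  iso : ∀ v ∈ (K i).Tl z, ∀ v' ∈ (K i).Tl z, (K j).bil (M *ᵥ v) (M *ᵥ v') = (K i).bil v v'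
  surj : ∀ u ∈ (K j).Tl w, ∃ v ∈ (K i).Tl z, M *ᵥ v = u
  int : ∀ t, d t → ∀ v ∈ (K i).Tl z, t j *ᵥ (M *ᵥ v) = M *ᵥ (t i *ᵥ v)

variable {K d}

theorem Good.inj {i j : Fin r} {z w : ℂ} {M : Matrix (Fin (n j)) (Fin (n i)) ℂ}
    (G : Good K d i j z w M) {v : Fin (n i) → ℂ} (hv : v ∈ (K i).Tl z) (h0 : M *ᵥ v = 0) : v = 0 := by
  refine E5L.nondegT (K i) hv fun v' hv' => ?_
  rw [← G.iso v hv v' hv', h0, ← E5L.bf_apply, map_zero, LinearMap.zero_apply]

/-- the other place is determined -/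
theorem good_right (T : TupAlg K d) {i j : Fin r} (hm : 3 ≤ m j) {z w w' : ℂ}
    {M M' : Matrix (Fin (n j)) (Fin (n i)) ℂ} (hw : aeval w (K j).P = 0)
    (G : Good K d i j z w M) (G' : Good K d i j z w' M') : w = w' := by
  by_contra hne
  obtain ⟨x, hx, y, hy, u, hu, hne0⟩ := ex_ne (K j) hm hw
  obtain ⟨t, ht, htj⟩ := T.onto j _ (E5L.wm_mem (K j) hx hy)
  have h1 : ∀ v ∈ (K i).Tl z, t i *ᵥ v = 0 := by
    intro v hv
    refine G'.inj (pres T ht i hv) ?_
    rw [← G'.int t ht v hv, htj, E5L.wm_mulVec, E5L.orth (K j) hne hx (G'.mem v hv),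
      E5L.orth (K j) hne hy (G'.mem v hv), zero_smul, zero_smul, sub_zero]
  obtain ⟨v, hv, rfl⟩ := G.surj u hu
  apply hne0
  rw [← htj, G.int t ht v hv, h1 v hv, Matrix.mulVec_zero]

/-- the first place is determined -/
theorem good_left (T : TupAlg K d) {i j : Fin r} (hm : 3 ≤ m i) {z z' w : ℂ}
    {M M' : Matrix (Fin (n j)) (Fin (n i)) ℂ} (hz : aeval z (K i).P = 0)
    (G : Good K d i j z w M) (G' : Good K d i j z' w M') : z = z' := by
  by_contra hne
  obtain ⟨x, hx, y, hy, u, hu, hne0⟩ := ex_ne (K i) hm hz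
  obtain ⟨t, ht, hti⟩ := T.onto i _ (E5L.wm_mem (K i) hx hy)
  have h1 : ∀ v ∈ (K j).Tl w, t j *ᵥ v = 0 := by
    intro v hv
    obtain ⟨v', hv', rfl⟩ := G'.surj v hv
    rw [G'.int t ht v' hv', hti, E5L.wm_mulVec, E5L.orth (K i) hne hx hv',
      E5L.orth (K i) hne hy hv', zero_smul, zero_smul, sub_zero, Matrix.mulVec_zero]
  apply hne0
  refine G.inj (E5L.S_pres (K i) (E5L.wm_mem (K i) hx hy) hu) ?_
  rw [← hti, ← G.int t ht u hu, h1 _ (G.mem u hu)]

/-- conjugates -/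
theorem map_mulVec' {p s : ℕ} (σ : ℂ ≃ₐ[ℚ] ℂ) (M : Matrix (Fin p) (Fin s) ℂ) (v : Fin s → ℂ) :
    (M.map σ) *ᵥ v = fun i => σ ((M *ᵥ fun i => σ.symm (v i)) i) := by
  funext i
  simp only [Matrix.mulVec, dotProduct, Matrix.map_apply, map_sum, map_mul, AlgEquiv.apply_symm_apply]

theorem bil_map {g n m : ℕ} {A : AbVar g} (K : KSE A n m) (σ : ℂ ≃ₐ[ℚ] ℂ) (v w : Fin n → ℂ) :
    K.bil (fun i => σ (v i)) (fun i => σ (w i)) = σ (K.bil v w) := by
  simp only [KSE.bil, map_sum, map_mul]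
  refine Finset.sum_congr rfl fun i _ => ?_
  have h : σ (K.q i : ℂ) = (K.q i : ℂ) := by simp
  rw [h]

theorem Good.aut (T : TupAlg K d) {i j : Fin r} {z w : ℂ} {M : Matrix (Fin (n j)) (Fin (n i)) ℂ}
    (G : Good K d i j z w M) (σ : ℂ ≃ₐ[ℚ] ℂ) : Good K d i j (σ z) (σ w) (M.map σ) := by
  have hb : ∀ v ∈ (K i).Tl (σ z), (fun k => σ.symm (v k)) ∈ (K i).Tl z := by
    intro v hv
    have h1 := E5L.map_Tl (K i) σ.symm hv
    rwa [σ.symm_apply_apply] at h1
  refine ⟨fun v hv => ?_, fun z' hz' v hv => ?_, fun v hv v' hv' => ?_, fun u hu => ?_,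
    fun t ht v hv => ?_⟩
  · rw [map_mulVec']
    exact E5L.map_Tl (K j) σ (G.mem _ (hb v hv))
  · rw [map_mulVec', G.zero (σ.symm z') (fun h => hz' (by rw [← h]; simp)) _
      (E5L.map_Tl (K i) σ.symm hv)]
    funext k
    simp
  · rw [map_mulVec', map_mulVec', bil_map, G.iso _ (hb v hv) _ (hb v' hv'), ← bil_map]
    simp only [AlgEquiv.apply_symm_apply]
  · have h1 := E5L.map_Tl (K j) σ.symm hu
    rw [σ.symm_apply_apply] at h1
    obtain ⟨v, hv, hvu⟩ := G.surj _ h1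
    refine ⟨fun k => σ (v k), E5L.map_Tl (K i) σ hv, ?_⟩
    rw [map_mulVec']
    simp only [AlgEquiv.symm_apply_apply]
    funext k
    rw [hvu]
    simp
  · have h1 := G.int _ (T.aut σ.symm t ht) _ (hb v hv)
    rw [map_mulVec', map_mulVec' σ M]
    have h2 : t j *ᵥ (fun k => σ ((M *ᵥ fun k => σ.symm (v k)) k)) =
        fun k => σ ((((t j).map σ.symm) *ᵥ (M *ᵥ fun k => σ.symm (v k))) k) := by
      rw [map_mulVec]
      simp only [AlgEquiv.symm_symm, AlgEquiv.apply_symm_apply]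
    have h3 : (fun k => σ.symm ((t i *ᵥ v) k)) = ((t i).map σ.symm) *ᵥ fun k => σ.symm (v k) := by
      rw [map_mulVec]
      simp only [AlgEquiv.symm_symm, AlgEquiv.apply_symm_apply]
    rw [h3, ← h1, h2]

/-- Gluing. -/
theorem no_good (T : TupAlg K d) (N : TupNoIso K d) {i j : Fin r} (hij : i ≠ j) (hmi : 3 ≤ m i)
    (hmj : 3 ≤ m j) {z w : ℂ} (hz : aeval z (K i).P = 0) (hw : aeval w (K j).P = 0)
    {M : Matrix (Fin (n j)) (Fin (n i)) ℂ} (G : Good K d i j z w M) : False := by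
  classical
  let R : Finset ℂ := ((K i).P.aroots ℂ).toFinset
  have hR : ∀ w, w ∈ R ↔ aeval w (K i).P = 0 := by
    intro w
    rw [Multiset.mem_toFinset, Polynomial.mem_aroots]
    exact ⟨fun h => h.2, fun h => ⟨(K i).irr.ne_zero, h⟩⟩
  have hroot : ∀ σ : ℂ ≃ₐ[ℚ] ℂ, aeval (σ w) (K j).P = 0 := by
    intro σ
    have h1 : aeval (σ w) (K j).P = σ (aeval w (K j).P) := by
      exact (Polynomial.aeval_algHom_apply (σ : ℂ →ₐ[ℚ] ℂ) w (K j).P)
    rw [h1, hw, map_zero]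
  have hrooti : ∀ σ : ℂ ≃ₐ[ℚ] ℂ, aeval (σ z) (K i).P = 0 := by
    intro σ
    have h1 : aeval (σ z) (K i).P = σ (aeval z (K i).P) := by
      exact (Polynomial.aeval_algHom_apply (σ : ℂ →ₐ[ℚ] ℂ) z (K i).P)
    rw [h1, hz, map_zero]
  -- the conjugates
  have hG : ∀ z', aeval z' (K i).P = 0 → ∃ (w' : ℂ) (M' : Matrix (Fin (n j)) (Fin (n i)) ℂ),
      aeval w' (K j).P = 0 ∧ Good K d i j z' w' M' := by
    intro z' hz'
    obtain ⟨σ, hσ⟩ := E5L.exists_aut (K i).irr hz hz'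
    exact ⟨σ w, M.map σ, hroot σ, hσ ▸ G.aut T σ⟩
  choose! W MM hWr hGG using hG
  let Ψ : Matrix (Fin (n j)) (Fin (n i)) ℂ := ∑ z' ∈ R, MM z'
  have hΨ : ∀ z', aeval z' (K i).P = 0 → ∀ v ∈ (K i).Tl z', Ψ *ᵥ v = MM z' *ᵥ v := by
    intro z' hz' v hv
    rw [Matrix.sum_mulVec, Finset.sum_eq_single z']
    · intro z'' hz'' hne
      exact (hGG z'' ((hR z'').1 hz'')).zero z' (Ne.symm hne) v hv
    · intro h
      exact absurd ((hR z').2 hz') h
  -- induction on the eigenspaces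
  have ind : ∀ S : Submodule ℂ (Fin (n i) → ℂ), (∀ z', aeval z' (K i).P = 0 → (K i).Tl z' ≤ S) →
      ∀ v, v ∈ S := fun S hS v => (iSup₂_le fun z' hz' => hS z' hz' :
        (⨆ z' ∈ {z' : ℂ | aeval z' (K i).P = 0}, (K i).Tl z') ≤ S) (E5L.top' (K i) v)
  have hiso : ∀ v v', (K j).bil (Ψ *ᵥ v) (Ψ *ᵥ v') = (K i).bil v v' := by
    intro v v'
    have h1 : v ∈ LinearMap.ker (((E5L.bf (K j)).compl₁₂ (Matrix.mulVecLin Ψ) (Matrix.mulVecLin Ψ) -
        E5L.bf (K i)).flip v') := by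
      refine ind _ (fun z' hz' v hv => ?_) v
      rw [LinearMap.mem_ker, LinearMap.flip_apply]
      have h2 : v' ∈ LinearMap.ker (((E5L.bf (K j)).compl₁₂ (Matrix.mulVecLin Ψ)
          (Matrix.mulVecLin Ψ) - E5L.bf (K i)) v) := by
        refine ind _ (fun z'' hz'' v' hv' => ?_) v'
        rw [LinearMap.mem_ker, LinearMap.sub_apply, LinearMap.sub_apply, LinearMap.compl₁₂_apply,
          Matrix.mulVecLin_apply, Matrix.mulVecLin_apply, E5L.bf_apply, E5L.bf_apply, sub_eq_zero,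
          hΨ z' hz' v hv, hΨ z'' hz'' v' hv']
        by_cases he : z' = z''
        · subst he
          exact (hGG z' hz').iso v hv v' hv'
        · rw [E5L.orth (K i) he hv hv']
          refine E5L.orth (K j) (fun hww => he ?_) ((hGG z' hz').mem v hv) ((hGG z'' hz'').mem v' hv')
          have h3 := hGG z'' hz''
          rw [← hww] at h3
          exact good_left T hmi hz' (hGG z' hz') h3
      exact LinearMap.mem_ker.1 h2
    rw [LinearMap.mem_ker, LinearMap.flip_apply, LinearMap.sub_apply, LinearMap.sub_apply,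
      LinearMap.compl₁₂_apply, sub_eq_zero] at h1
    exact h1
  have hinj : Function.Injective (Matrix.mulVecLin Ψ) := by
    rw [← LinearMap.ker_eq_bot, LinearMap.ker_eq_bot']
    intro v hv
    rw [Matrix.mulVecLin_apply] at hv
    refine E5L.bil_nondeg (K i) v fun v' => ?_
    rw [← hiso, hv, ← E5L.bf_apply, map_zero, LinearMap.zero_apply]
  have hsurj : Function.Surjective (Matrix.mulVecLin Ψ) := by
    rw [← LinearMap.range_eq_top, eq_top_iff]
    intro u _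
    have hle : (⨆ w' ∈ {w' : ℂ | aeval w' (K j).P = 0}, (K j).Tl w') ≤
        LinearMap.range (Matrix.mulVecLin Ψ) := by
      refine iSup₂_le fun w' hw' u hu => ?_
      obtain ⟨σ, hσ⟩ := E5L.exists_aut (K j).irr hw hw'
      have h1 : Good K d i j (σ z) w' (M.map σ) := hσ ▸ G.aut T σ
      have h2 := good_right T hmj hw' h1 (hGG (σ z) (hrooti σ))
      rw [h2] at hu
      obtain ⟨v, hv, hvu⟩ := (hGG (σ z) (hrooti σ)).surj u hu
      refine ⟨v, ?_⟩
      rw [Matrix.mulVecLin_apply, hΨ _ (hrooti σ) v hv, hvu]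
    exact hle (E5L.top' (K j) u)
  refine N i j hij (LinearEquiv.ofBijective (Matrix.mulVecLin Ψ) ⟨hinj, hsurj⟩) ?_ ?_
  · intro v v'
    simp only [LinearEquiv.ofBijective_apply, Matrix.mulVecLin_apply]
    exact hiso v v'
  · intro t ht v
    simp only [LinearEquiv.ofBijective_apply, Matrix.mulVecLin_apply]
    have h1 : v ∈ LinearMap.ker (Matrix.mulVecLin (t j * Ψ - Ψ * t i)) := by
      refine ind _ (fun z' hz' v hv => ?_) v
      rw [LinearMap.mem_ker, Matrix.mulVecLin_apply, Matrix.sub_mulVec, ← Matrix.mulVec_mulVec,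
        ← Matrix.mulVec_mulVec, hΨ z' hz' v hv, hΨ z' hz' _ (pres T ht i hv),
        (hGG z' hz').int t ht v hv, sub_self]
    rw [LinearMap.mem_ker, Matrix.mulVecLin_apply, Matrix.sub_mulVec, ← Matrix.mulVec_mulVec,
      ← Matrix.mulVec_mulVec, sub_eq_zero] at h1
    exact h1

/-- The real similitude gives a good matrix. -/
theorem good_real (T : TupAlg K d) {i j : Fin r} (ψ : E8Y.V0 (K i) ≃ₗ[ℝ] E8Y.V0 (K j)) {c : ℝ}
    (hc : c ≠ 0)
    (hψ : ∀ x y : E8Y.V0 (K i),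
      ∑ k, ((K j).q k : ℝ) * (ψ x : Fin (n j) → ℝ) k * (ψ y : Fin (n j) → ℝ) k =
        c * ∑ k, ((K i).q k : ℝ) * (x : Fin (n i) → ℝ) k * (y : Fin (n i) → ℝ) k)
    (hint : ∀ a : (∀ k, Matrix (Fin (n k)) (Fin (n k)) ℝ), d (fun k => (a k).map Complex.ofReal) →
        ∀ x y : E8Y.V0 (K i), (y : Fin (n i) → ℝ) = a i *ᵥ (x : Fin (n i) → ℝ) →
          (ψ y : Fin (n j) → ℝ) = a j *ᵥ (ψ x : Fin (n j) → ℝ)) :
    ∃ M, Good K d i j ((K i).lam : ℂ) ((K j).lam : ℂ) M := by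
  classical
  obtain ⟨b, b', hb⟩ := dualV0 (K i)
  obtain ⟨s, hs⟩ : ∃ s : ℂ, s * s = (c : ℂ)⁻¹ := by
    obtain ⟨s, hs⟩ := IsAlgClosed.exists_pow_nat_eq ((c : ℂ)⁻¹) (n := 2) two_pos
    exact ⟨s, by rw [← pow_two]; exact hs⟩
  have hcC : (c : ℂ) ≠ 0 := by exact_mod_cast hc
  have hs0 : s ≠ 0 := by
    rintro rfl
    rw [mul_zero] at hs
    exact inv_ne_zero hcC hs.symm
  let M : Matrix (Fin (n j)) (Fin (n i)) ℂ := Matrix.of fun p l =>
    s * ∑ k, (((ψ (b k) : Fin (n j) → ℝ) p : ℝ) : ℂ) *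
      (((K i).q l : ℂ) * (((b' k : Fin (n i) → ℝ) l : ℝ) : ℂ))
  have hM : ∀ v, M *ᵥ v = s • ∑ k, (K i).bil (fun l => (((b' k : Fin (n i) → ℝ) l : ℝ) : ℂ)) v •
      fun p => (((ψ (b k) : Fin (n j) → ℝ) p : ℝ) : ℂ) := by
    intro v
    funext p
    simp only [Matrix.mulVec, dotProduct, M, Matrix.of_apply, Pi.smul_apply, smul_eq_mul,
      Finset.sum_apply, KSE.bil, Finset.mul_sum, Finset.sum_mul]
    rw [Finset.sum_comm]
    refine Finset.sum_congr rfl fun k _ => Finset.sum_congr rfl fun l _ => ?_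
    ring
  -- on real vectors
  have hMr : ∀ x : E8Y.V0 (K i), M *ᵥ (fun l => (((x : Fin (n i) → ℝ) l : ℝ) : ℂ)) =
      s • fun p => (((ψ x : Fin (n j) → ℝ) p : ℝ) : ℂ) := by
    intro x
    rw [hM]
    congr 1
    funext p
    have h1 := congrArg (fun u : E8Y.V0 (K j) => (u : Fin (n j) → ℝ) p) (congrArg ψ (hb x))
    simp only [map_sum, map_smul, Submodule.coe_sum, Submodule.coe_smul, Finset.sum_apply,
      Pi.smul_apply, smul_eq_mul] at h1
    rw [← h1, Finset.sum_apply]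
    push_cast
    refine Finset.sum_congr rfl fun k _ => ?_
    rw [Pi.smul_apply, smul_eq_mul, bil_ofReal, Bq_apply]
  have hlin : ∀ v ∈ (K i).Tl ((K i).lam : ℂ), ∃ x y : E8Y.V0 (K i),
      v = (fun l => (((x : Fin (n i) → ℝ) l : ℝ) : ℂ)) +
        Complex.I • fun l => (((y : Fin (n i) → ℝ) l : ℝ) : ℂ) := by
    intro v hv
    rw [← E8Y.cplx_V0, mem_cplx] at hv
    exact ⟨⟨_, hv.1⟩, ⟨_, hv.2⟩, re_im v⟩
  have hisor : ∀ x y : E8Y.V0 (K i),
      (K j).bil (M *ᵥ fun l => (((x : Fin (n i) → ℝ) l : ℝ) : ℂ))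
        (M *ᵥ fun l => (((y : Fin (n i) → ℝ) l : ℝ) : ℂ)) =
      (K i).bil (fun l => (((x : Fin (n i) → ℝ) l : ℝ) : ℂ))
        (fun l => (((y : Fin (n i) → ℝ) l : ℝ) : ℂ)) := by
    intro x y
    have h1 := hψ x y
    rw [hMr, hMr, ← E5L.bf_apply, map_smul, map_smul, LinearMap.smul_apply, smul_eq_mul, smul_eq_mul,
      E5L.bf_apply, bil_ofReal, bil_ofReal, Bq_apply, Bq_apply, h1]
    push_cast
    rw [← mul_assoc, ← mul_assoc, hs, inv_mul_cancel₀ hcC, one_mul]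
  refine ⟨M, fun v hv => ?_, fun z' hz' v hv => ?_, fun v hv v' hv' => ?_, fun u hu => ?_,
    fun t ht v hv => ?_⟩
  · rw [hM]
    exact Submodule.smul_mem _ _ (Submodule.sum_mem _ fun k _ => Submodule.smul_mem _ _
      (ofReal_mem (K j) (ψ (b k)).2))
  · rw [hM, Finset.sum_eq_zero, smul_zero]
    intro k _
    rw [E5L.orth (K i) (Ne.symm hz') (ofReal_mem (K i) (b' k).2) hv, zero_smul]
  · obtain ⟨x, y, rfl⟩ := hlin v hv
    obtain ⟨x', y', rfl⟩ := hlin v' hv'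
    simp only [Matrix.mulVec_add, Matrix.mulVec_smul]
    simp only [← E5L.bf_apply, map_add, map_smul, LinearMap.add_apply, LinearMap.smul_apply]
    simp only [E5L.bf_apply, hisor]
  · rw [← E8Y.cplx_V0, mem_cplx] at hu
    obtain ⟨hu1, hu2⟩ := hu
    refine ⟨s⁻¹ • ((fun l => (((ψ.symm ⟨_, hu1⟩ : Fin (n i) → ℝ) l : ℝ) : ℂ)) +
      Complex.I • fun l => (((ψ.symm ⟨_, hu2⟩ : Fin (n i) → ℝ) l : ℝ) : ℂ)),
      Submodule.smul_mem _ _ (Submodule.add_mem _ (ofReal_mem (K i) (ψ.symm ⟨_, hu1⟩).2)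
        (Submodule.smul_mem _ _ (ofReal_mem (K i) (ψ.symm ⟨_, hu2⟩).2))), ?_⟩
    rw [Matrix.mulVec_smul, Matrix.mulVec_add, Matrix.mulVec_smul, hMr, hMr, ψ.apply_symm_apply,
      ψ.apply_symm_apply, smul_comm Complex.I s, ← smul_add, smul_smul, inv_mul_cancel₀ hs0, one_smul]
    exact (re_im u).symm
  · -- intertwining
    have hreal : ∀ a : (∀ k, Matrix (Fin (n k)) (Fin (n k)) ℝ), d (fun k => (a k).map Complex.ofReal) →
        ∀ v ∈ (K i).Tl ((K i).lam : ℂ), (a j).map Complex.ofReal *ᵥ (M *ᵥ v) =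
          M *ᵥ ((a i).map Complex.ofReal *ᵥ v) := by
      intro a ha v hv
      have h1 : ∀ x : E8Y.V0 (K i),
          (a j).map Complex.ofReal *ᵥ (M *ᵥ fun l => (((x : Fin (n i) → ℝ) l : ℝ) : ℂ)) =
          M *ᵥ ((a i).map Complex.ofReal *ᵥ fun l => (((x : Fin (n i) → ℝ) l : ℝ) : ℂ)) := by
        intro x
        have hp : a i *ᵥ (x : Fin (n i) → ℝ) ∈ E8Y.V0 (K i) := GPX.pres (K i) (T.mem _ ha i) x.2
        have h2 := hint a ha x ⟨_, hp⟩ rfl
        have h3 := hMr ⟨_, hp⟩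
        rw [hMr, Matrix.mulVec_smul, E8Y.ofReal_mulVec, E8Y.ofReal_mulVec, ← h2]
        exact h3.symm
      obtain ⟨x, y, rfl⟩ := hlin v hv
      simp only [Matrix.mulVec_add, Matrix.mulVec_smul, h1]
    have hcc := T.aut E8Y.cc0 t ht
    have hre : d (fun k => ((t k).map Complex.re).map Complex.ofReal) := by
      have h1 := T.lin _ _ (1 / 2) T.zero (T.lin _ _ 1 ht hcc)
      convert h1 using 2 with k
      ext p q
      simp only [Matrix.map_apply, Matrix.add_apply, Matrix.smul_apply, Matrix.zero_apply,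
        E8Y.cc0_apply, smul_eq_mul]
      rw [Complex.re_eq_add_conj]
      ring
    have him : d (fun k => ((t k).map Complex.im).map Complex.ofReal) := by
      have h1 := T.lin _ _ (1 / (2 * Complex.I)) T.zero (T.lin _ _ (-1) ht hcc)
      convert h1 using 2 with k
      ext p q
      simp only [Matrix.map_apply, Matrix.add_apply, Matrix.smul_apply, Matrix.zero_apply,
        E8Y.cc0_apply, smul_eq_mul]
      rw [Complex.im_eq_sub_conj]
      ring
    have ht' : ∀ k, t k = ((t k).map Complex.re).map Complex.ofReal +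
        Complex.I • ((t k).map Complex.im).map Complex.ofReal := by
      intro k
      ext p q
      simp only [Matrix.map_apply, Matrix.add_apply, Matrix.smul_apply, smul_eq_mul]
      rw [mul_comm]
      exact (Complex.re_add_im _).symm
    rw [ht' j, ht' i, Matrix.add_mulVec, Matrix.add_mulVec, Matrix.smul_mulVec, Matrix.smul_mulVec,
      Matrix.mulVec_add, Matrix.mulVec_smul]
    have e1 := hreal (fun k => (t k).map Complex.re) hre v hv
    have e2 := hreal (fun k => (t k).map Complex.im) him v hv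
    rw [e1, e2]

end tuples

end GGX

open GGX in
/-- GG. -/
theorem GG_proof (hGP : Stmt_GP) (hE5l : Stmt_E5l) : Stmt_GG := by
  intro r h B n m K d T Lg N hm i
  have hm3 : ∀ k, 3 ≤ m k := fun k => by rcases hm k with h | h <;> omega
  intro a ha
  refine all_of_free T (hm3 i) (fun j hj z w hz hw => ?_) a ha
  obtain ⟨σ, hσ⟩ := E5L.exists_aut (K i).irr (E8Y.lam_rootC (K i)) hz
  have hw' : aeval (σ.symm w) (K j).P = 0 := by
    have h1 : aeval (σ.symm w) (K j).P = σ.symm (aeval w (K j).P) := by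
      exact (Polynomial.aeval_algHom_apply (σ.symm : ℂ →ₐ[ℚ] ℂ) w (K j).P)
    rw [h1, hw, map_zero]
  have key : Free K d i ((K i).lam : ℂ) j (σ.symm w) := by
    by_cases hl : σ.symm w = ((K j).lam : ℂ)
    · rw [hl]
      rcases hGP r h B n m K d T Lg hm i j (Ne.symm hj) with h1 | ⟨ψ, c, hc, h1, h2⟩
      · exact free_real T h1
      · exfalso
        obtain ⟨M, G⟩ := good_real T ψ hc h1 h2
        exact no_good T N (Ne.symm hj) (hm3 i) (hm3 j) (E8Y.lam_rootC (K i)) (E8Y.lam_rootC (K j)) G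
    · have hfin := E8Y.finrank_V0 (K i) (hm3 i) hE5l
      exact free_compact T Lg (GPX.n_ge (K i) (hm3 i)) (by rw [hfin]; exact hm3 i) hw' hl
  have h1 := free_aut T σ key
  rwa [hσ, σ.apply_symm_apply] at h1

end Pool.Agent.K3P
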