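import Pool.Agent.K3E.Defs

/-!
# De Rham-Betti conjecture: products of Kuga-Satake abelian varieties

`IsHom A B α` : `α`, acting on `H_1`, is a homomorphism (up to isogeny) from `A` to `B`.
`Decomp A B` : the abelian variety `A` is isogenous to the product of the abelian varieties `B i`.
-/

open scoped BigOperators
open Matrix

namespace Pool.Agent.K3P

open Pool.Agent.DRB Pool.Agent.K3D Pool.Agent.K3E

noncomputable section

/-- A rational matrix as a complex matrix. -/
def toR {ι κ : Type} (α : Matrix ι κ ℚ) : Matrix ι κ ℂ := α.map (algebraMap ℚ ℂ)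

/-- `α`, acting on `H_1`, is a homomorphism (up to isogeny) from `A` to `B`: it acts on the algebraic de Rham
homology by a matrix `ρ` with algebraic entries which preserves the Hodge filtration. -/
def IsHom {g h : ℕ} (A : AbVar g) (B : AbVar h) (α : Matrix (Idx h) (Idx g) ℚ) : Prop :=
  ∃ ρ : Matrix (Idx h) (Idx g) ℂ, (∀ r s, IsAlgebraic ℚ (ρ r s)) ∧
    (∀ i j, ρ (Sum.inl i) (Sum.inr j) = 0) ∧ B.per * toR α = ρ * A.per

/-- The abelian variety `A` is isogenous to the product of the abelian varieties `B i`. -/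
structure Decomp {g : ℕ} (A : AbVar g) {r : ℕ} {h : Fin r → ℕ} (B : ∀ i, AbVar (h i)) where
  inc : ∀ i, Matrix (Idx g) (Idx (h i)) ℚ
  prj : ∀ i, Matrix (Idx (h i)) (Idx g) ℚ
  inc_hom : ∀ i, IsHom (B i) A (inc i)
  prj_hom : ∀ i, IsHom A (B i) (prj i)
  same : ∀ i, prj i * inc i = 1
  diff : ∀ i j, i ≠ j → prj i * inc j = 0
  total : ∑ i, inc i * prj i = 1

namespace Decomp

variable {g : ℕ} {A : AbVar g} {r : ℕ} {h : Fin r → ℕ} {B : ∀ i, AbVar (h i)} (D : Decomp A B)

/-- The block of a matrix. -/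
def blk (i : Fin r) (X : Matrix (Idx g) (Idx g) ℂ) : Matrix (Idx (h i)) (Idx (h i)) ℂ :=
  toR (D.prj i) * X * toR (D.inc i)

/-- The matrix with one block. -/
def emb (i : Fin r) (X : Matrix (Idx (h i)) (Idx (h i)) ℂ) : Matrix (Idx g) (Idx g) ℂ :=
  toR (D.inc i) * X * toR (D.prj i)

/-- The blocks of the elements of the Lie algebra. -/
def L (i : Fin r) (X : Matrix (Idx (h i)) (Idx (h i)) ℂ) (ξ : ℂ) : Prop :=
  ∃ Y, InLie (Gam A) Y ξ ∧ X = D.blk i Y

end Decomp

/-- The de Rham-Betti conjecture for products of Kuga-Satake varieties with real multiplication. -/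
def MainP : Prop :=
  ∀ (g : ℕ) (A : AbVar g) (r : ℕ) (h : Fin r → ℕ) (B : ∀ i, AbVar (h i)), Nonempty (Decomp A B) →
    (∀ i j, i ≠ j → ∀ α, IsHom (B i) (B j) α → α = 0) →
    ∀ (n m : Fin r → ℕ), (∀ i, m i = 3 ∨ 6 ≤ m i) → (∀ i, Nonempty (KSE (B i) (n i) (m i))) →
    ∀ (t : TData) (D : Submodule ℂ (TIdx t (Idx g) → ℂ)), IsDRB A t D → IsHodge A t D

end

end Pool.Agent.K3P
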