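import Pool.Agent.K3E.Stmts2
import Pool.Agent.K3P.Defs

/-!
# De Rham-Betti conjecture: products of Kuga-Satake abelian varieties, exact statements of the modules
-/

open scoped BigOperators
open Matrix

namespace Pool.Agent.K3P

open Pool.Agent.DRB Pool.Agent.K3D Pool.Agent.K3E

noncomputable section

/-! ## Part 1: abstract Lie algebras on one Kuga-Satake variety -/

/-- A family of pairs `(X, ξ)` with the properties of the Lie algebra of the de Rham-Betti group. -/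
structure LieFam {g : ℕ} (A : AbVar g) (L : Matrix (Idx g) (Idx g) ℂ → ℂ → Prop) : Prop where
  sub : ∀ X ξ, L X ξ → InLie (Gam A) X ξ
  lin : ∀ X Y ξ η (c : ℂ), L X ξ → L Y η → L (X + c • Y) (ξ + c * η)
  zero : L 0 0
  brk : ∀ X Y ξ η, L X ξ → L Y η → L (X * Y - Y * X) 0
  conj : ∀ X ξ, L X ξ → ∀ p ∈ Gam A, L (p.1.val * X * (p.1⁻¹).val) ξ
  aut : ∀ (σ : ℂ ≃ₐ[ℚ] ℂ) X ξ, L X ξ → L (X.map σ) (σ ξ)
  comm : ∀ Y : Matrix (Idx g) (Idx g) ℂ, (∀ X ξ, L X ξ → X * Y = Y * X) →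
    Y ∈ Submodule.span ℂ {Z | ∃ α ∈ A.EndQ, Z = AbVar.toC α}
  log : ∀ Xs : List (Matrix (Idx g) (Idx g) ℂ × ℂ), (∀ p ∈ Xs, L p.1 p.2) →
    ∃ (H : Matrix (Idx g) (Idx g) ℂ) (η : ℂ), L H η ∧ ∀ (β : ℂ) (v : Idx g → ℂ),
      (∃ k : ℕ, (((Xs.map fun p => NormedSpace.exp p.1).prod -
        β • (1 : Matrix (Idx g) (Idx g) ℂ)) ^ k) *ᵥ v = 0) → H *ᵥ v = (Real.log ‖β‖ : ℂ) • v

/-- P5C (variant of E5C). -/
def Stmt_P5c : Prop :=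
  ∀ (g : ℕ) (A : AbVar g) (L : Matrix (Idx g) (Idx g) ℂ → ℂ → Prop), LieFam A L →
    ∀ (n m : ℕ) (K : KSE A n m), 3 ≤ m → ∀ W : Submodule ℂ (Fin n → ℂ),
    (∀ X ξ, L X ξ → ∀ v ∈ W, ∃ w ∈ W, X * K.cl v - K.cl v * X = K.cl w) →
    (∀ v ∈ W, (∀ w ∈ W, K.bil v w = 0) → v = 0) →
    ∀ a ∈ K.S, ∀ v ∈ W, a *ᵥ v ∈ W

/-- P5D (variant of E5D). -/
def Stmt_P5d : Prop :=
  ∀ (g : ℕ) (A : AbVar g) (L : Matrix (Idx g) (Idx g) ℂ → ℂ → Prop), LieFam A L →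
    ∀ (n m : ℕ) (K : KSE A n m), 3 ≤ m → ∀ W : Submodule ℂ (Fin n → ℂ),
    (∀ X ξ, L X ξ → ∀ v ∈ W, ∃ w ∈ W, X * K.cl v - K.cl v * X = K.cl w) →
    ∀ a ∈ K.S, ∀ v ∈ W, a *ᵥ v ∈ W

/-- The real Lie algebra acting on `T`. -/
def lieL {g n m : ℕ} {A : AbVar g} (L : Matrix (Idx g) (Idx g) ℂ → ℂ → Prop) (K : KSE A n m)
    (a : Matrix (Fin n) (Fin n) ℝ) : Prop :=
  ∃ (X : Matrix (Idx g) (Idx g) ℂ) (ξ : ℂ), L X ξ ∧
    ∀ v, X * K.cl v - K.cl v * X = K.cl ((a.map Complex.ofReal) *ᵥ v)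

/-- P8A (variant of E8A). -/
def Stmt_P8a : Prop :=
  ∀ (g : ℕ) (A : AbVar g) (L : Matrix (Idx g) (Idx g) ℂ → ℂ → Prop), LieFam A L →
    ∀ (n m : ℕ) (K : KSE A n m) (as : List (Matrix (Fin n) (Fin n) ℝ)),
    (∀ a ∈ as, lieL L K a) → ∃ h, lieL L K h ∧ IsHypLog (as.map fun a => NormedSpace.exp a).prod h

/-- P8B (variant of E8B). -/
def Stmt_P8b : Prop :=
  ∀ (g : ℕ) (A : AbVar g) (L : Matrix (Idx g) (Idx g) ℂ → ℂ → Prop), LieFam A L →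
    ∀ (n m : ℕ) (K : KSE A n m), 3 ≤ m → m ≠ 5 →
    ∀ a ∈ K.S, ∃ (X : Matrix (Idx g) (Idx g) ℂ) (ξ : ℂ), L X ξ ∧
      ∀ v, X * K.cl v - K.cl v * X = K.cl (a *ᵥ v)

/-- P8C (variant of E8C). -/
def Stmt_P8c : Prop :=
  ∀ (g : ℕ) (A : AbVar g) (L : Matrix (Idx g) (Idx g) ℂ → ℂ → Prop), LieFam A L →
    ∀ (n m : ℕ) (K : KSE A n m), 3 ≤ m →
    (∀ a ∈ K.S, ∃ (X : Matrix (Idx g) (Idx g) ℂ) (ξ : ℂ), L X ξ ∧
      ∀ v, X * K.cl v - K.cl v * X = K.cl (a *ᵥ v)) →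
    ∀ a ∈ K.S, L (K.Z a) 0

/-! ## Part 2: blocks -/

/-- PQ. The blocks. -/
def Stmt_PQ : Prop :=
  ∀ (g : ℕ) (A : AbVar g) (r : ℕ) (h : Fin r → ℕ) (B : ∀ i, AbVar (h i)) (D : Decomp A B),
    (∀ X ξ, InLie (Gam A) X ξ → X = ∑ i, D.emb i (D.blk i X)) ∧
    (∀ p ∈ Gam A, ∀ i, ∃ q ∈ Gam (B i), q.1.val = D.blk i p.1.val ∧ q.2 = p.2) ∧
    (∀ i, ∀ q ∈ Gam (B i), ∃ p ∈ Gam A, q.1.val = D.blk i p.1.val ∧ q.2 = p.2) ∧
    (∀ i, LieFam (B i) (D.L i)) ∧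
    (∀ Xs : List (Matrix (Idx g) (Idx g) ℂ × ℂ), (∀ p ∈ Xs, InLie (Gam A) p.1 p.2) →
      ∃ (H : Matrix (Idx g) (Idx g) ℂ) (η : ℂ), InLie (Gam A) H η ∧
        ∀ (i : Fin r) (β : ℂ) (v : Idx (h i) → ℂ),
        (∃ k : ℕ, (((Xs.map fun p => NormedSpace.exp (D.blk i p.1)).prod -
          β • (1 : Matrix (Idx (h i)) (Idx (h i)) ℂ)) ^ k) *ᵥ v = 0) →
          D.blk i H *ᵥ v = (Real.log ‖β‖ : ℂ) • v)

/-- PH. Homomorphisms: matrices intertwining the blocks are combinations of homomorphisms. -/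
def Stmt_PH : Prop :=
  ∀ (g : ℕ) (A : AbVar g) (r : ℕ) (h : Fin r → ℕ) (B : ∀ i, AbVar (h i)) (D : Decomp A B) (i j : Fin r)
    (Y : Matrix (Idx (h j)) (Idx (h i)) ℂ),
    (∀ X ξ, InLie (Gam A) X ξ → D.blk j X * Y = Y * D.blk i X) →
    Y ∈ Submodule.span ℂ {Z | ∃ α, IsHom (B i) (B j) α ∧ Z = toR α}

/-! ## Part 3: pairs of orthogonal Lie algebras -/

/-- The data of a pair of quadratic spaces and a Lie algebra acting on both. -/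
structure PairHyp (V V' : Type) [AddCommGroup V] [Module ℝ V] [FiniteDimensional ℝ V]
    [AddCommGroup V'] [Module ℝ V'] [FiniteDimensional ℝ V'] (b : LinearMap.BilinForm ℝ V)
    (b' : LinearMap.BilinForm ℝ V') (l : Submodule ℝ (Module.End ℝ V × Module.End ℝ V')) : Prop where
  symm : ∀ x y, b x y = b y x
  symm' : ∀ x y, b' x y = b' y x
  nondeg : ∀ x, (∀ y, b x y = 0) → x = 0
  nondeg' : ∀ x, (∀ y, b' x y = 0) → x = 0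
  /-- the signatures are `(2, *)` -/
  pos : ∃ x y, 0 < b x x ∧ 0 < b y y ∧ b x y = 0 ∧ ∀ z, z ≠ 0 → b x z = 0 → b y z = 0 → b z z < 0
  pos' : ∃ x y, 0 < b' x x ∧ 0 < b' y y ∧ b' x y = 0 ∧ ∀ z, z ≠ 0 → b' x z = 0 → b' y z = 0 → b' z z < 0
  dim : Module.finrank ℝ V = 3 ∨ 6 ≤ Module.finrank ℝ V
  dim' : Module.finrank ℝ V' = 3 ∨ 6 ≤ Module.finrank ℝ V'
  skew : ∀ p ∈ l, ∀ x y, b (p.1 x) y + b x (p.1 y) = 0
  skew' : ∀ p ∈ l, ∀ x y, b' (p.2 x) y + b' x (p.2 y) = 0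
  brk : ∀ p ∈ l, ∀ q ∈ l, (p.1 * q.1 - q.1 * p.1, p.2 * q.2 - q.2 * p.2) ∈ l
  /-- both projections are onto -/
  onto : ∀ a : Module.End ℝ V, (∀ x y, b (a x) y + b x (a y) = 0) → ∃ a', (a, a') ∈ l
  onto' : ∀ a' : Module.End ℝ V', (∀ x y, b' (a' x) y + b' x (a' y) = 0) → ∃ a, (a, a') ∈ l
  /-- hyperbolic lifts: if `a` is diagonalizable over the real numbers, then it has a lift which is
  diagonalizable over the real numbers -/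
  hyp : ∀ p ∈ l, (⨆ c : ℝ, Module.End.eigenspace p.1 c = ⊤) →
    ∃ a', (p.1, a') ∈ l ∧ (⨆ c : ℝ, Module.End.eigenspace a' c = ⊤)

/-- PR. Either `l` contains `so(V) × 0` or it is the graph of a similitude. -/
def Stmt_PR : Prop :=
  ∀ (V V' : Type) [AddCommGroup V] [Module ℝ V] [FiniteDimensional ℝ V]
    [AddCommGroup V'] [Module ℝ V'] [FiniteDimensional ℝ V'] (b : LinearMap.BilinForm ℝ V)
    (b' : LinearMap.BilinForm ℝ V') (l : Submodule ℝ (Module.End ℝ V × Module.End ℝ V')),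
    PairHyp V V' b b' l →
    (∀ a : Module.End ℝ V, (∀ x y, b (a x) y + b x (a y) = 0) → (a, (0 : Module.End ℝ V')) ∈ l) ∨
    (∃ (ψ : V ≃ₗ[ℝ] V') (c : ℝ), 0 < c ∧ (∀ x y, b' (ψ x) (ψ y) = c * b x y) ∧
      ∀ p ∈ l, ∀ x, p.2 (ψ x) = ψ (p.1 x))

/-! ## Part 4: the Lie algebra of the product -/

/-- PG. The Lie algebra of the product. -/
def Stmt_PG : Prop :=
  ∀ (g : ℕ) (A : AbVar g) (r : ℕ) (h : Fin r → ℕ) (B : ∀ i, AbVar (h i)) (D : Decomp A B),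
    (∀ i j, i ≠ j → ∀ α, IsHom (B i) (B j) α → α = 0) →
    ∀ (n m : Fin r → ℕ) (K : ∀ i, KSE (B i) (n i) (m i)), (∀ i, m i = 3 ∨ 6 ≤ m i) →
    ∀ i, ∀ a ∈ (K i).S, InLie (Gam A) (D.emb i ((K i).Z a)) 0

/-- PF. The conclusion. -/
def Stmt_PF : Prop := MainP

end

end Pool.Agent.K3P
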