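import Pool.Agent.K3E.E8c
import Pool.Agent.K3P.Stmts

/-!
# P8c: removing the scalars, abstract Lie algebras
-/

set_option autoImplicit false

open scoped BigOperators
open Matrix Polynomial

namespace Pool.Agent.K3P

open Pool.Agent.DRB Pool.Agent.K3D Pool.Agent.K3E Pool.Agent.K3E.E8C

namespace P8C

variable {g n m : ℕ} {A : AbVar g} (K : KSE A n m) {L : Matrix (Idx g) (Idx g) ℂ → ℂ → Prop}

/-- The elements of the Lie algebra with multiplier zero. -/
noncomputable def LL (hL : LieFam A L) : Submodule ℂ (Matrix (Idx g) (Idx g) ℂ) where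
  carrier := {X | L X 0}
  add_mem' := by
    intro X Y hX hY
    have := hL.lin X Y 0 0 1 hX hY
    simpa using this
  zero_mem' := hL.zero
  smul_mem' := by
    intro c X hX
    have := hL.lin 0 X 0 0 c hL.zero hX
    simpa using this

/-- The lift of a commutator. -/
theorem lie_commL (hL : LieFam A L) (hK2c : Stmt_K2c) (h5a : Stmt_E5a)
    (H : ∀ a ∈ K.S, ∃ (X : Matrix (Idx g) (Idx g) ℂ) (ξ : ℂ), L X ξ ∧
      ∀ v, X * K.cl v - K.cl v * X = K.cl (a *ᵥ v))
    {a b : Matrix (Fin n) (Fin n) ℂ} (ha : a ∈ K.S) (hb : b ∈ K.S) :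
    K.Z (a * b - b * a) ∈ LL hL := by
  obtain ⟨-, -, hlift, hsc, -, hend⟩ := h5a g A n m K
  have hskew : ∀ {a : Matrix (Fin n) (Fin n) ℂ}, a ∈ K.S → ∀ v w,
      K.bil (a *ᵥ v) w + K.bil v (a *ᵥ w) = 0 := by
    intro a ha v w
    rw [DUAL.bil_skew K ha, neg_add_cancel]
  have key : ∀ {a : Matrix (Fin n) (Fin n) ℂ}, a ∈ K.S → ∃ (c ξ : ℂ),
      L (K.Z a + c • 1) ξ := by
    intro a ha
    obtain ⟨X, ξ, hX, hXa⟩ := H a ha
    obtain ⟨c, hc⟩ := hsc (X - K.Z a)
      (fun α hα => by rw [sub_mul, mul_sub, (hK2c g A X ξ (hL.sub X ξ hX)).1 α hα, hend α hα a ha])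
      (fun v => by
        have h1 := hXa v
        have h2 := hlift a (hskew ha) v
        rw [sub_mul, mul_sub, sub_eq_sub_iff_add_eq_add]
        have h3 : X * K.cl v - K.cl v * X = K.Z a * K.cl v - K.cl v * K.Z a := by rw [h1, h2]
        rw [sub_eq_sub_iff_add_eq_add] at h3
        rw [h3, add_comm])
    refine ⟨c, ξ, ?_⟩
    rw [← hc, add_sub_cancel]
    exact hX
  obtain ⟨c, ξ, h1⟩ := key ha
  obtain ⟨d, η, h2⟩ := key hb
  have h3 := hL.brk _ _ _ _ h1 h2
  have h4 : (K.Z a + c • 1) * (K.Z b + d • 1) - (K.Z b + d • 1) * (K.Z a + c • 1) =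
      K.Z a * K.Z b - K.Z b * K.Z a := by
    simp only [add_mul, mul_add, Matrix.smul_mul, Matrix.mul_smul, one_mul, mul_one]
    rw [smul_comm c d]
    abel
  rw [h4] at h3
  have hab := comm_mem_S K ha hb
  obtain ⟨e, he⟩ := hsc (K.Z a * K.Z b - K.Z b * K.Z a - K.Z (a * b - b * a))
    (fun α hα => by
      have e1 := hend α hα a ha
      have e2 := hend α hα b hb
      have e3 := hend α hα _ hab
      rw [sub_mul, sub_mul, mul_sub, mul_sub, e3, mul_assoc, e2, ← mul_assoc, e1, mul_assoc (K.Z b), e1,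
        ← mul_assoc (K.Z b), e2]
      simp only [mul_assoc])
    (fun v => by
      have e1 := hlift a (hskew ha)
      have e2 := hlift b (hskew hb)
      have e3 := hlift _ (hskew hab) v
      have e4 : K.cl ((a * b - b * a) *ᵥ v) = K.cl (a *ᵥ (b *ᵥ v)) - K.cl (b *ᵥ (a *ᵥ v)) := by
        rw [Matrix.sub_mulVec, ← Matrix.mulVec_mulVec, ← Matrix.mulVec_mulVec, cl_sub]
      have e5 : (K.Z a * K.Z b - K.Z b * K.Z a) * K.cl v - K.cl v * (K.Z a * K.Z b - K.Z b * K.Z a) =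
          K.cl (a *ᵥ (b *ᵥ v)) - K.cl (b *ᵥ (a *ᵥ v)) := by
        rw [← e1 (b *ᵥ v), ← e2 (a *ᵥ v), ← e1 v, ← e2 v]
        noncomm_ring
      have e6 : (K.Z a * K.Z b - K.Z b * K.Z a) * K.cl v - K.cl v * (K.Z a * K.Z b - K.Z b * K.Z a) =
          K.Z (a * b - b * a) * K.cl v - K.cl v * K.Z (a * b - b * a) := by
        rw [e5, e3, e4]
      rw [sub_mul _ (K.Z (a * b - b * a)), mul_sub (K.cl v) _ (K.Z (a * b - b * a))]
      rw [sub_eq_sub_iff_add_eq_add] at e6 ⊢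
      rw [e6, add_comm])
  have h5 : e = 0 := by
    have h6 := congrArg Matrix.trace he
    rw [Matrix.trace_sub, Matrix.trace_sub, Matrix.trace_mul_comm (K.Z a), sub_self,
      trace_Z K h5a hab, sub_zero, Matrix.trace_smul, Matrix.trace_one, smul_eq_mul] at h6
    have h7 : (Fintype.card (Idx g) : ℂ) ≠ 0 := by
      have : 0 < Fintype.card (Idx g) := by
        have := K.pos
        have : Nonempty (Fin g) := ⟨⟨0, this⟩⟩
        exact Fintype.card_pos
      exact_mod_cast this.ne'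
    rcases mul_eq_zero.1 h6.symm with h | h
    · exact h
    · exact absurd h h7
  rw [h5, zero_smul, sub_eq_zero] at he
  change L (K.Z (a * b - b * a)) 0
  rw [← he]
  exact h3

end P8C

open P8C in
/-- P8C. -/
theorem P8c_proof (hK2c : Stmt_K2c) (h5a : Stmt_E5a) : Stmt_P8c := by
  intro g A L hL n m K hm H a ha
  have hwm : ∀ (z : ℂ) (x y : Fin n → ℂ), aeval z K.P = 0 → x ∈ K.Tl z → y ∈ K.Tl z →
      K.Z (E5L.wm K x y) ∈ LL hL := by
    intro z x y hz hx hy
    obtain ⟨b, b', hb, hb', h0, h1, h2⟩ := DUAL.dual K z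
    have hd : (Module.finrank ℂ (K.Tl z) : ℂ) - 2 ≠ 0 := by
      rw [E5L.finrank_Tl K hz]
      intro h
      have h3 : (m : ℂ) = (2 : ℕ) := by
        push_cast
        linear_combination h
      have h4 : m = 2 := by exact_mod_cast h3
      omega
    have h5 : E5L.wm K x y = ((Module.finrank ℂ (K.Tl z) : ℂ) - 2)⁻¹ •
        ∑ j, (E5L.wm K x (b j) * E5L.wm K (b' j) y - E5L.wm K (b' j) y * E5L.wm K x (b j)) := by
      rw [comm_sum K hx hy b b' hb hb' h0 h1 h2, smul_smul, inv_mul_cancel₀ hd, one_smul]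
    rw [h5]
    change ZL K _ ∈ _
    rw [map_smul, map_sum]
    refine Submodule.smul_mem _ _ (Submodule.sum_mem _ fun j _ => ?_)
    exact lie_commL K hL hK2c h5a H (E5L.wm_mem K hx (hb j)) (E5L.wm_mem K (hb' j) hy)
  have hsub : Submodule.span ℂ {w : Matrix (Fin n) (Fin n) ℂ | ∃ (z : ℂ) (x y : Fin n → ℂ),
      aeval z K.P = 0 ∧ x ∈ K.Tl z ∧ y ∈ K.Tl z ∧ w = E5L.wm K x y} ≤
      (LL hL).comap (ZL K) := by
    rw [Submodule.span_le]
    rintro w ⟨z, x, y, hz, hx, hy, rfl⟩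
    exact hwm z x y hz hx hy
  exact hsub (DUAL.mem_span K ha)

end Pool.Agent.K3P
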