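import Pool.Agent.K3P.Q2

/-!
# Products of Kuga-Satake varieties: blocks, part 3 (PQ and PH)
-/

open scoped BigOperators
open Matrix

set_option linter.unusedSectionVars false

namespace Pool.Agent.K3P

open Pool.Agent.DRB Pool.Agent.K3D Pool.Agent.K3E

noncomputable section

namespace Q3

open Q1 Q2

theorem hom_comp {g h k : ℕ} {A : AbVar g} {B : AbVar h} {C : AbVar k} {α : Matrix (Idx h) (Idx g) ℚ}
    {β : Matrix (Idx k) (Idx h) ℚ} (hα : IsHom A B α) (hβ : IsHom B C β) : IsHom A C (β * α) := by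
  obtain ⟨ρ, h1, h2, h3⟩ := hα
  obtain ⟨ρ', h1', h2', h3'⟩ := hβ
  refine ⟨ρ' * ρ, fun r s => ?_, fun i j => ?_, ?_⟩
  · rw [Matrix.mul_apply]
    exact AbVar.isAlgebraic_sum _ _ fun l _ => (h1' r l).mul (h1 l s)
  · rw [Matrix.mul_apply, Fintype.sum_sum_type]
    simp [h2, h2']
  · rw [toR_mul, ← Matrix.mul_assoc, h3', Matrix.mul_assoc, h3, Matrix.mul_assoc]

theorem isHom_iff_isEnd {g : ℕ} (A : AbVar g) (α : Matrix (Idx g) (Idx g) ℚ) : IsHom A A α ↔ A.IsEnd α :=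
  Iff.rfl

variable {g : ℕ} {A : AbVar g} {r : ℕ} {h : Fin r → ℕ} {B : ∀ i, AbVar (h i)} (D : Decomp A B)

theorem pi_same (i : Fin r) : toR (D.prj i) * toR (D.inc i) = 1 := by
  rw [← toR_mul, D.same, toR_one]

theorem pi_diff {i j : Fin r} (hij : i ≠ j) : toR (D.prj i) * toR (D.inc j) = 0 := by
  rw [← toR_mul, D.diff i j hij, toR_zero]

theorem pi_total : ∑ i, toR (D.inc i) * toR (D.prj i) = 1 := by
  simp only [← toR_mul]
  rw [← toR_sum, D.total, toR_one]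

section lie

variable (hL : Stmt_Leg) (hK2c : Stmt_K2c)

include hK2c

theorem lie_inc (X : Matrix (Idx g) (Idx g) ℂ) (ξ : ℂ) (hX : InLie (Gam A) X ξ) (i : Fin r) :
    X * toR (D.inc i) = toR (D.inc i) * D.blk i X := by
  have h1 : A.IsEnd (D.inc i * D.prj i) := hom_comp (D.prj_hom i) (D.inc_hom i)
  have h2 := (hK2c g A X ξ hX).1 _ h1
  have h3 : AbVar.toC (D.inc i * D.prj i) = toR (D.inc i) * toR (D.prj i) := toR_mul _ _
  rw [h3] at h2
  unfold Decomp.blk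
  calc X * toR (D.inc i) = X * (toR (D.inc i) * toR (D.prj i)) * toR (D.inc i) := by
        rw [Matrix.mul_assoc, Matrix.mul_assoc, pi_same, Matrix.mul_one]
    _ = toR (D.inc i) * toR (D.prj i) * X * toR (D.inc i) := by rw [h2]
    _ = _ := by simp only [Matrix.mul_assoc]

theorem lie_prj (X : Matrix (Idx g) (Idx g) ℂ) (ξ : ℂ) (hX : InLie (Gam A) X ξ) (i : Fin r) :
    toR (D.prj i) * X = D.blk i X * toR (D.prj i) := by
  have h1 : A.IsEnd (D.inc i * D.prj i) := hom_comp (D.prj_hom i) (D.inc_hom i)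
  have h2 := (hK2c g A X ξ hX).1 _ h1
  have h3 : AbVar.toC (D.inc i * D.prj i) = toR (D.inc i) * toR (D.prj i) := toR_mul _ _
  rw [h3] at h2
  unfold Decomp.blk
  calc toR (D.prj i) * X = toR (D.prj i) * toR (D.inc i) * toR (D.prj i) * X := by
        rw [pi_same, Matrix.one_mul]
    _ = toR (D.prj i) * (toR (D.inc i) * toR (D.prj i) * X) := by simp only [Matrix.mul_assoc]
    _ = toR (D.prj i) * (X * (toR (D.inc i) * toR (D.prj i))) := by rw [h2]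
    _ = _ := by simp only [Matrix.mul_assoc]

theorem lie_sum (X : Matrix (Idx g) (Idx g) ℂ) (ξ : ℂ) (hX : InLie (Gam A) X ξ) :
    X = ∑ i, D.emb i (D.blk i X) := by
  have h1 : X = ∑ i, X * (toR (D.inc i) * toR (D.prj i)) := by
    rw [← Finset.mul_sum, pi_total, Matrix.mul_one]
  conv_lhs => rw [h1]
  refine Finset.sum_congr rfl fun i _ => ?_
  unfold Decomp.emb
  rw [← Matrix.mul_assoc, lie_inc D hK2c X ξ hX]

/-- The blocks belong to the Lie algebra. -/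
theorem blk_lie (X : Matrix (Idx g) (Idx g) ℂ) (ξ : ℂ) (hX : InLie (Gam A) X ξ) (i : Fin r) :
    InLie (Gam (B i)) (D.blk i X) ξ := by
  intro t E hE
  have hst : StabG (Gam A) t (E.map (TAct t (toR (D.inc i)) 1)) := by
    intro p hp
    obtain ⟨q, hq, a1, a2, a3⟩ := twin A (B i) p hp
    rintro _ ⟨_, ⟨u, hu, rfl⟩, rfl⟩
    refine ⟨TAct t q.1.val q.2.val u, hE q hq ⟨u, hu, rfl⟩, ?_⟩
    have h1 := LinearMap.congr_fun (TAct_comp t (toR (D.inc i)) q.1.val 1 q.2.val) u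
    have h2 := LinearMap.congr_fun (TAct_comp t p.1.val (toR (D.inc i)) p.2.val 1) u
    rw [LinearMap.comp_apply] at h1 h2
    rw [← h1, ← h2, a3 _ (D.inc_hom i), a1, one_mul, mul_one]
  have h1 := hX t _ hst
  rintro _ ⟨u, hu, rfl⟩
  obtain ⟨w, hw, h2⟩ := h1 ⟨_, ⟨u, hu, rfl⟩, rfl⟩
  have h3 := inter t (toR (D.inc i)) (D.blk i X) X (lie_inc D hK2c X ξ hX i) 1 ξ u
  rw [← h3] at h2
  have h4 : ∀ z : TIdx t (Idx (h i)) → ℂ, TAct t (toR (D.prj i)) 1 (TAct t (toR (D.inc i)) 1 z) = z := by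
    intro z
    have h5 := LinearMap.congr_fun (TAct_comp t (toR (D.prj i)) (toR (D.inc i)) 1 1) z
    rw [LinearMap.comp_apply] at h5
    rw [← h5, pi_same, one_mul, TAct_one, LinearMap.id_apply]
  have h6 : w = DAct t (D.blk i X) ξ u := by
    rw [← h4 w, h2, h4]
  rw [← h6]
  exact hw

end lie

theorem blk_add (i : Fin r) (X Y : Matrix (Idx g) (Idx g) ℂ) (c : ℂ) :
    D.blk i (X + c • Y) = D.blk i X + c • D.blk i Y := by
  unfold Decomp.blk
  rw [Matrix.mul_add, Matrix.add_mul, Matrix.mul_smul, Matrix.smul_mul]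

theorem blk_sub (i : Fin r) (X Y : Matrix (Idx g) (Idx g) ℂ) :
    D.blk i (X - Y) = D.blk i X - D.blk i Y := by
  unfold Decomp.blk
  rw [Matrix.mul_sub, Matrix.sub_mul]

theorem blk_zero (i : Fin r) : D.blk i 0 = 0 := by
  unfold Decomp.blk
  rw [Matrix.mul_zero, Matrix.zero_mul]

theorem blk_mul (hK2c : Stmt_K2c) (i : Fin r) (X Y : Matrix (Idx g) (Idx g) ℂ) (η : ℂ)
    (hY : InLie (Gam A) Y η) : D.blk i (X * Y) = D.blk i X * D.blk i Y := by
  have h1 := lie_inc D hK2c Y η hY i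
  calc D.blk i (X * Y) = toR (D.prj i) * X * (Y * toR (D.inc i)) := by
        unfold Decomp.blk; simp only [Matrix.mul_assoc]
    _ = toR (D.prj i) * X * (toR (D.inc i) * D.blk i Y) := by rw [h1]
    _ = D.blk i X * D.blk i Y := by
        conv_rhs => rw [Decomp.blk]
        simp only [Matrix.mul_assoc]

theorem blk_map (i : Fin r) (σ : ℂ ≃ₐ[ℚ] ℂ) (X : Matrix (Idx g) (Idx g) ℂ) :
    D.blk i (X.map σ) = (D.blk i X).map σ := by
  unfold Decomp.blk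
  rw [map_mulR, map_mulR, toR_map, toR_map]

theorem blk_emb (i : Fin r) (Y : Matrix (Idx (h i)) (Idx (h i)) ℂ) : D.blk i (D.emb i Y) = Y := by
  unfold Decomp.blk Decomp.emb
  calc toR (D.prj i) * (toR (D.inc i) * Y * toR (D.prj i)) * toR (D.inc i)
      = (toR (D.prj i) * toR (D.inc i)) * Y * (toR (D.prj i) * toR (D.inc i)) := by
        simp only [Matrix.mul_assoc]
    _ = Y := by rw [pi_same, Matrix.one_mul, Matrix.mul_one]

theorem blk_gam (i : Fin r) (p : GL (Idx g) ℂ × ℂˣ) (hp : p ∈ Gam A) :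
    ∃ q ∈ Gam (B i), q.1.val = D.blk i p.1.val ∧ q.2 = p.2 := by
  obtain ⟨q, hq, a1, a2, a3⟩ := twin A (B i) p hp
  refine ⟨q, hq, ?_, a1⟩
  unfold Decomp.blk
  rw [← a2 _ (D.prj_hom i), Matrix.mul_assoc, pi_same, Matrix.mul_one]

theorem gam_lift (i : Fin r) (q : GL (Idx (h i)) ℂ × ℂˣ) (hq : q ∈ Gam (B i)) :
    ∃ p ∈ Gam A, q.1.val = D.blk i p.1.val ∧ q.2 = p.2 ∧
      p.1.val * toR (D.inc i) = toR (D.inc i) * q.1.val ∧
      q.1.val * toR (D.prj i) = toR (D.prj i) * p.1.val := by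
  obtain ⟨p, hp, a1, a2, a3⟩ := twin (B i) A q hq
  refine ⟨p, hp, ?_, a1.symm, a2 _ (D.inc_hom i), a3 _ (D.prj_hom i)⟩
  unfold Decomp.blk
  rw [Matrix.mul_assoc, a2 _ (D.inc_hom i), ← Matrix.mul_assoc, pi_same, Matrix.one_mul]

theorem gam_conj (i : Fin r) (q : GL (Idx (h i)) ℂ × ℂˣ) (p : GL (Idx g) ℂ × ℂˣ)
    (h1 : p.1.val * toR (D.inc i) = toR (D.inc i) * q.1.val)
    (h2 : q.1.val * toR (D.prj i) = toR (D.prj i) * p.1.val) (Y : Matrix (Idx g) (Idx g) ℂ) :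
    D.blk i (p.1.val * Y * (p.1⁻¹).val) = q.1.val * D.blk i Y * (q.1⁻¹).val := by
  have h3 : (p.1⁻¹).val * toR (D.inc i) = toR (D.inc i) * (q.1⁻¹).val := by
    calc (p.1⁻¹).val * toR (D.inc i) = (p.1⁻¹).val * (toR (D.inc i) * q.1.val) * (q.1⁻¹).val := by
          rw [Matrix.mul_assoc, Matrix.mul_assoc, val_mul_inv, Matrix.mul_one]
      _ = (p.1⁻¹).val * (p.1.val * toR (D.inc i)) * (q.1⁻¹).val := by rw [h1]
      _ = _ := by rw [← Matrix.mul_assoc, val_inv_mul, Matrix.one_mul]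
  unfold Decomp.blk
  calc toR (D.prj i) * (p.1.val * Y * (p.1⁻¹).val) * toR (D.inc i)
      = (toR (D.prj i) * p.1.val) * Y * ((p.1⁻¹).val * toR (D.inc i)) := by simp only [Matrix.mul_assoc]
    _ = (q.1.val * toR (D.prj i)) * Y * (toR (D.inc i) * (q.1⁻¹).val) := by rw [h2, h3]
    _ = _ := by simp only [Matrix.mul_assoc]

/-- Matrices intertwining the blocks are combinations of homomorphisms. -/
theorem hom_span (hK2c : Stmt_K2c) (hK4 : Stmt_K4) (i j : Fin r) (Y : Matrix (Idx (h j)) (Idx (h i)) ℂ)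
    (hY : ∀ X ξ, InLie (Gam A) X ξ → D.blk j X * Y = Y * D.blk i X) :
    Y ∈ Submodule.span ℂ {Z | ∃ α, IsHom (B i) (B j) α ∧ Z = toR α} := by
  have h1 : ∀ X ξ, InLie (Gam A) X ξ →
      X * (toR (D.inc j) * Y * toR (D.prj i)) = toR (D.inc j) * Y * toR (D.prj i) * X := by
    intro X ξ hX
    calc X * (toR (D.inc j) * Y * toR (D.prj i)) = (X * toR (D.inc j)) * Y * toR (D.prj i) := by
          simp only [Matrix.mul_assoc]
      _ = toR (D.inc j) * (D.blk j X * Y) * toR (D.prj i) := by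
          rw [lie_inc D hK2c X ξ hX]; simp only [Matrix.mul_assoc]
      _ = toR (D.inc j) * Y * (D.blk i X * toR (D.prj i)) := by
          rw [hY X ξ hX]; simp only [Matrix.mul_assoc]
      _ = _ := by rw [← lie_prj D hK2c X ξ hX]; simp only [Matrix.mul_assoc]
  have h2 := hK4 g A _ h1
  let F : Matrix (Idx g) (Idx g) ℂ →ₗ[ℂ] Matrix (Idx (h j)) (Idx (h i)) ℂ :=
    { toFun := fun M => toR (D.prj j) * M * toR (D.inc i)
      map_add' := fun M N => by rw [Matrix.mul_add, Matrix.add_mul]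
      map_smul' := fun c M => by rw [Matrix.mul_smul, Matrix.smul_mul, RingHom.id_apply] }
  have h3 : F (toR (D.inc j) * Y * toR (D.prj i)) = Y := by
    show toR (D.prj j) * (toR (D.inc j) * Y * toR (D.prj i)) * toR (D.inc i) = Y
    calc toR (D.prj j) * (toR (D.inc j) * Y * toR (D.prj i)) * toR (D.inc i)
        = (toR (D.prj j) * toR (D.inc j)) * Y * (toR (D.prj i) * toR (D.inc i)) := by
          simp only [Matrix.mul_assoc]
      _ = Y := by rw [pi_same, pi_same, Matrix.one_mul, Matrix.mul_one]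
  have h4 : Submodule.map F (Submodule.span ℂ {Z | ∃ α ∈ A.EndQ, Z = AbVar.toC α}) ≤
      Submodule.span ℂ {Z | ∃ α, IsHom (B i) (B j) α ∧ Z = toR α} := by
    rw [Submodule.map_span, Submodule.span_le]
    rintro _ ⟨_, ⟨α, hα, rfl⟩, rfl⟩
    refine Submodule.subset_span ⟨D.prj j * α * D.inc i, ?_, ?_⟩
    · rw [Matrix.mul_assoc]
      exact hom_comp (hom_comp (D.inc_hom i) hα) (D.prj_hom j)
    · show toR (D.prj j) * AbVar.toC α * toR (D.inc i) = _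
      rw [toR_mul, toR_mul]
      rfl
  rw [← h3]
  exact h4 ⟨_, h2, rfl⟩

theorem lift_L (i : Fin r) (Xs : List (Matrix (Idx (h i)) (Idx (h i)) ℂ × ℂ))
    (hX : ∀ p ∈ Xs, D.L i p.1 p.2) :
    ∃ Ys : List (Matrix (Idx g) (Idx g) ℂ × ℂ), (∀ p ∈ Ys, InLie (Gam A) p.1 p.2) ∧
      Xs = Ys.map fun p => (D.blk i p.1, p.2) := by
  induction Xs with
  | nil => exact ⟨[], by simp, by simp⟩
  | cons p Xs ih =>
    obtain ⟨Ys, h1, h2⟩ := ih fun q hq => hX q (List.mem_cons_of_mem _ hq)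
    obtain ⟨Y, hY, h3⟩ := hX p List.mem_cons_self
    refine ⟨(Y, p.2) :: Ys, ?_, ?_⟩
    · intro q hq
      rcases List.mem_cons.1 hq with h4 | h4
      · rw [h4]; exact hY
      · exact h1 q h4
    · rw [List.map_cons, ← h2, ← h3]

theorem log_blk (hK1 : Stmt_K1) (hK3 : Stmt_K3) (hK2c : Stmt_K2c)
    (Xs : List (Matrix (Idx g) (Idx g) ℂ × ℂ)) (hX : ∀ p ∈ Xs, InLie (Gam A) p.1 p.2) :
    ∃ (H : Matrix (Idx g) (Idx g) ℂ) (η : ℂ), InLie (Gam A) H η ∧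
      ∀ (i : Fin r) (β : ℂ) (v : Idx (h i) → ℂ),
      (∃ k : ℕ, (((Xs.map fun p => NormedSpace.exp (D.blk i p.1)).prod -
        β • (1 : Matrix (Idx (h i)) (Idx (h i)) ℂ)) ^ k) *ᵥ v = 0) →
        D.blk i H *ᵥ v = (Real.log ‖β‖ : ℂ) • v := by
  obtain ⟨H, η, hH, h1⟩ := log_gen hK1 hK3 (Gam A) Xs hX
  refine ⟨H, η, hH, ?_⟩
  rintro i β v ⟨k, hk⟩
  have h2 := prod_rect Xs (D.blk i) (toR (D.inc i)) fun p hp => lie_inc D hK2c p.1 p.2 (hX p hp) i
  have h3 : ((Xs.map fun p => NormedSpace.exp p.1).prod - β • (1 : Matrix (Idx g) (Idx g) ℂ)) * toR (D.inc i) =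
      toR (D.inc i) * ((Xs.map fun p => NormedSpace.exp (D.blk i p.1)).prod -
        β • (1 : Matrix (Idx (h i)) (Idx (h i)) ℂ)) := by
    rw [Matrix.sub_mul, Matrix.mul_sub, h2, Matrix.smul_mul, Matrix.mul_smul, Matrix.one_mul, Matrix.mul_one]
  have h4 := pow_rect _ _ _ h3 k
  have h5 := h1 β (toR (D.inc i) *ᵥ v) ⟨k, by
    rw [Matrix.mulVec_mulVec, h4, ← Matrix.mulVec_mulVec, hk, Matrix.mulVec_zero]⟩
  unfold Decomp.blk
  rw [← Matrix.mulVec_mulVec, ← Matrix.mulVec_mulVec, h5, Matrix.mulVec_smul, Matrix.mulVec_mulVec, pi_same,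
    Matrix.one_mulVec]

end Q3

open Q1 Q2 Q3

/-- PH. -/
theorem PH_proof (hK2c : Stmt_K2c) (hK4 : Stmt_K4) : Stmt_PH := by
  intro g A r h B D i j Y hY
  exact hom_span D hK2c hK4 i j Y hY

/-- PQ. -/
theorem PQ_proof (hGb4 : Stmt_Gb4) (hK1 : Stmt_K1) (hK2a : Stmt_K2a) (hK2b : Stmt_K2b) (hK2c : Stmt_K2c)
    (hK3 : Stmt_K3) (hK4 : Stmt_K4) : Stmt_PQ := by
  intro g A r h B D
  refine ⟨fun X ξ hX => lie_sum D hK2c X ξ hX, fun p hp i => blk_gam D i p hp, ?_, ?_,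
    fun Xs hXs => log_blk D hK1 hK3 hK2c Xs hXs⟩
  · intro i q hq
    obtain ⟨p, hp, h1, h2, _⟩ := gam_lift D i q hq
    exact ⟨p, hp, h1, h2⟩
  · intro i
    obtain ⟨a1, a2, a3, a4⟩ := hK2a (Idx g) (Gam A)
    refine ⟨?_, ?_, ?_, ?_, ?_, ?_, ?_, ?_⟩
    · rintro X ξ ⟨Y, hY, rfl⟩
      exact blk_lie D hK2c Y ξ hY i
    · rintro X X' ξ η c ⟨Y, hY, rfl⟩ ⟨Y', hY', rfl⟩
      exact ⟨_, a1 Y Y' ξ η c hY hY', (blk_add D i Y Y' c).symm⟩
    · exact ⟨0, a2, (blk_zero D i).symm⟩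
    · rintro X X' ξ η ⟨Y, hY, rfl⟩ ⟨Y', hY', rfl⟩
      refine ⟨_, a3 Y Y' ξ η hY hY', ?_⟩
      rw [blk_sub, blk_mul D hK2c i Y Y' η hY', blk_mul D hK2c i Y' Y ξ hY]
    · rintro X ξ ⟨Y, hY, rfl⟩ q hq
      obtain ⟨p, hp, _, _, h3, h4⟩ := gam_lift D i q hq
      exact ⟨_, a4 Y ξ hY p hp, (gam_conj D i q p h3 h4 Y).symm⟩
    · rintro σ X ξ ⟨Y, hY, rfl⟩
      refine ⟨_, hK2b (Idx g) (Gam A) (fun σ p hp q h1 h2 => hGb4 g A σ p hp q h1 h2) σ Y ξ hY, ?_⟩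
      rw [blk_map]
    · intro Y hY
      have h1 := hom_span D hK2c hK4 i i Y fun X ξ hX => hY _ ξ ⟨X, hX, rfl⟩
      exact h1
    · intro Xs hXs
      obtain ⟨Ys, h1, h2⟩ := lift_L D i Xs hXs
      obtain ⟨H, η, hH, h3⟩ := log_blk D hK1 hK3 hK2c Ys h1
      refine ⟨D.blk i H, η, ⟨H, hH, rfl⟩, ?_⟩
      rintro β v ⟨k, hk⟩
      refine h3 i β v ⟨k, ?_⟩
      rw [h2, List.map_map] at hk
      exact hk

end

end Pool.Agent.K3P
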