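import Pool.Agent.K3P.StmtsG
import Pool.Agent.K3P.Q3
import Pool.Agent.K3P.P8c

/-!
# GE: from tuples to the Lie algebra
-/

set_option autoImplicit false

open scoped BigOperators
open Matrix Polynomial

namespace Pool.Agent.K3P

open Pool.Agent.DRB Pool.Agent.K3D Pool.Agent.K3E Pool.Agent.K3E.E8C

namespace GEX

section one

variable {g n m : ℕ} {A : AbVar g} (K : KSE A n m)

theorem skew {a : Matrix (Fin n) (Fin n) ℂ} (ha : a ∈ K.S) : ∀ v w,
    K.bil (a *ᵥ v) w + K.bil v (a *ᵥ w) = 0 := by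
  intro v w
  rw [DUAL.bil_skew K ha, neg_add_cancel]

/-- a matrix acting on `T` as `a` is `Z a` up to a scalar -/
theorem scal (h5a : Stmt_E5a) {a : Matrix (Fin n) (Fin n) ℂ} (ha : a ∈ K.S) (X : Matrix (Idx g) (Idx g) ℂ)
    (hX : ∀ α, A.IsEnd α → X * AbVar.toC α = AbVar.toC α * X)
    (hXa : ∀ v, X * K.cl v - K.cl v * X = K.cl (a *ᵥ v)) : ∃ c : ℂ, X = K.Z a + c • 1 := by
  obtain ⟨-, -, hlift, hsc, -, hend⟩ := h5a g A n m K
  obtain ⟨c, hc⟩ := hsc (X - K.Z a)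
    (fun α hα => by rw [sub_mul, mul_sub, hX α hα, hend α hα a ha])
    (fun v => by
      have h1 := hXa v
      have h2 := hlift a (skew K ha) v
      rw [sub_mul, mul_sub, sub_eq_sub_iff_add_eq_add]
      have h3 : X * K.cl v - K.cl v * X = K.Z a * K.cl v - K.cl v * K.Z a := by rw [h1, h2]
      rw [sub_eq_sub_iff_add_eq_add] at h3
      rw [h3, add_comm])
  refine ⟨c, ?_⟩
  rw [← hc, add_sub_cancel]

/-- the bracket of two lifts -/
theorem Z_brk (h5a : Stmt_E5a) {a b : Matrix (Fin n) (Fin n) ℂ} (ha : a ∈ K.S) (hb : b ∈ K.S) :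
    K.Z a * K.Z b - K.Z b * K.Z a = K.Z (a * b - b * a) := by
  obtain ⟨-, -, hlift, hsc, -, hend⟩ := h5a g A n m K
  have hab := comm_mem_S K ha hb
  obtain ⟨e, he⟩ := scal K h5a hab (K.Z a * K.Z b - K.Z b * K.Z a)
    (fun α hα => by
      have e1 := hend α hα a ha
      have e2 := hend α hα b hb
      rw [sub_mul, mul_sub, mul_assoc, e2, ← mul_assoc, e1, mul_assoc (K.Z b), e1,
        ← mul_assoc (K.Z b), e2]
      simp only [mul_assoc])
    (fun v => by
      have e1 := hlift a (skew K ha)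
      have e2 := hlift b (skew K hb)
      rw [Matrix.sub_mulVec, ← Matrix.mulVec_mulVec, ← Matrix.mulVec_mulVec, cl_sub,
        ← e1 (b *ᵥ v), ← e2 (a *ᵥ v), ← e1 v, ← e2 v]
      noncomm_ring)
  have h5 : e = 0 := by
    have h6 := congrArg Matrix.trace he
    rw [Matrix.trace_sub, Matrix.trace_mul_comm (K.Z a), sub_self, Matrix.trace_add,
      trace_Z K h5a hab, zero_add, Matrix.trace_smul, Matrix.trace_one, smul_eq_mul] at h6
    have h7 : (Fintype.card (Idx g) : ℂ) ≠ 0 := by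
      have : 0 < Fintype.card (Idx g) := by
        have := K.pos
        have : Nonempty (Fin g) := ⟨⟨0, this⟩⟩
        exact Fintype.card_pos
      exact_mod_cast this.ne'
    rcases mul_eq_zero.1 h6.symm with h | h
    · exact h
    · exact absurd h h7
  rw [he, h5, zero_smul, add_zero]

end one

section prod

variable {g : ℕ} {A : AbVar g} {r : ℕ} {h : Fin r → ℕ} {B : ∀ i, AbVar (h i)} (D : Decomp A B)

theorem emb_sub (i : Fin r) (X Y : Matrix (Idx (h i)) (Idx (h i)) ℂ) :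
    D.emb i (X - Y) = D.emb i X - D.emb i Y := by
  unfold Decomp.emb
  rw [Matrix.mul_sub, Matrix.sub_mul]

theorem emb_zero (i : Fin r) : D.emb i 0 = 0 := by
  unfold Decomp.emb
  rw [Matrix.mul_zero, Matrix.zero_mul]

/-- The lift of a commutator. -/
theorem lie_comm (hK2a : Stmt_K2a) (hK2c : Stmt_K2c) (h5a : Stmt_E5a) {n m : Fin r → ℕ}
    (K : ∀ i, KSE (B i) (n i) (m i)) (i : Fin r)
    (H : ∀ a ∈ (K i).S, ∃ t, DD D K t ∧ t i = a ∧ ∀ j, j ≠ i → t j = 0)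
    {a b : Matrix (Fin (n i)) (Fin (n i)) ℂ} (ha : a ∈ (K i).S) (hb : b ∈ (K i).S) :
    InLie (Gam A) (D.emb i ((K i).Z (a * b - b * a))) 0 := by
  have key : ∀ a ∈ (K i).S, ∃ (Y : Matrix (Idx g) (Idx g) ℂ) (ξ : ℂ), InLie (Gam A) Y ξ ∧
      (∃ c : ℂ, D.blk i Y = (K i).Z a + c • 1) ∧ ∀ j, j ≠ i → ∃ c : ℂ, D.blk j Y = c • 1 := by
    intro a ha
    obtain ⟨t, ⟨Y, ξ, hY, h1⟩, h2, h3⟩ := H a ha
    refine ⟨Y, ξ, hY, ?_, fun j hj => ?_⟩
    · refine scal (K i) h5a ha _ (hK2c _ _ _ ξ (Q3.blk_lie D hK2c Y ξ hY i)).1 fun v => ?_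
      rw [h1 i v, h2]
    · obtain ⟨-, -, -, hsc, -, -⟩ := h5a _ _ _ _ (K j)
      refine hsc _ (hK2c _ _ _ ξ (Q3.blk_lie D hK2c Y ξ hY j)).1 fun v => ?_
      have h4 := h1 j v
      rw [h3 j hj, Matrix.zero_mulVec] at h4
      have h5 : (K j).cl 0 = 0 := by simp [KSE.cl]
      rw [h5] at h4
      exact sub_eq_zero.1 h4
  obtain ⟨Y, ξ, hY, ⟨c, hc⟩, hY2⟩ := key a ha
  obtain ⟨Y', ξ', hY', ⟨c', hc'⟩, hY2'⟩ := key b hb
  have h1 := (hK2a (Idx g) (Gam A)).2.2.1 Y Y' ξ ξ' hY hY'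
  have h2 := Q3.lie_sum D hK2c _ 0 h1
  have h3 : ∀ j, D.blk j (Y * Y' - Y' * Y) = D.blk j Y * D.blk j Y' - D.blk j Y' * D.blk j Y := by
    intro j
    rw [Q3.blk_sub, Q3.blk_mul D hK2c j Y Y' ξ' hY', Q3.blk_mul D hK2c j Y' Y ξ hY]
  have h4 : ∑ j, D.emb j (D.blk j (Y * Y' - Y' * Y)) = D.emb i ((K i).Z (a * b - b * a)) := by
    rw [Finset.sum_eq_single i]
    · rw [h3, hc, hc', ← Z_brk (K i) h5a ha hb]
      congr 1
      simp only [add_mul, mul_add, Matrix.smul_mul, Matrix.mul_smul, one_mul, mul_one]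
      rw [smul_comm c c']
      abel
    · intro j _ hj
      obtain ⟨e, he⟩ := hY2 j hj
      obtain ⟨e', he'⟩ := hY2' j hj
      rw [h3, he, he']
      have : e • (1 : Matrix (Idx (h j)) (Idx (h j)) ℂ) * e' • 1 - e' • 1 * e • 1 = 0 := by
        simp only [Matrix.smul_mul, Matrix.mul_smul, one_mul, mul_one]
        rw [smul_comm e e', sub_self]
      rw [this, emb_zero]
    · intro hi
      exact absurd (Finset.mem_univ i) hi
  rw [← h4, ← h2]
  exact h1

/-- The elements with multiplier zero. -/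
noncomputable def L0 (hK2a : Stmt_K2a) (i : Fin r) : Submodule ℂ (Matrix (Idx (h i)) (Idx (h i)) ℂ) where
  carrier := {X | InLie (Gam A) (D.emb i X) 0}
  add_mem' := by
    intro X Y hX hY
    have h1 := (hK2a _ (Gam A)).1 _ _ 0 0 1 hX hY
    rw [one_smul, mul_zero, add_zero] at h1
    have h2 : D.emb i X + D.emb i Y = D.emb i (X + Y) := by
      unfold Decomp.emb
      rw [Matrix.mul_add, Matrix.add_mul]
    rw [h2] at h1
    exact h1
  zero_mem' := by
    change InLie (Gam A) (D.emb i 0) 0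
    rw [emb_zero]
    exact (hK2a _ (Gam A)).2.1
  smul_mem' := by
    intro c X hX
    have h1 := (hK2a _ (Gam A)).1 0 _ 0 0 c (hK2a _ (Gam A)).2.1 hX
    rw [zero_add, mul_zero, add_zero] at h1
    have h2 : c • D.emb i X = D.emb i (c • X) := by
      unfold Decomp.emb
      rw [Matrix.mul_smul, Matrix.smul_mul]
    rw [h2] at h1
    exact h1

end prod

end GEX

open GEX in
theorem GE_proof (hK2a : Stmt_K2a) (hK2c : Stmt_K2c) (h5a : Stmt_E5a) : Stmt_GE := by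
  intro g A r h B D n m K hm H i a ha
  have hwm : ∀ (z : ℂ) (x y : Fin (n i) → ℂ), aeval z (K i).P = 0 → x ∈ (K i).Tl z → y ∈ (K i).Tl z →
      (K i).Z (E5L.wm (K i) x y) ∈ L0 D hK2a i := by
    intro z x y hz hx hy
    obtain ⟨b, b', hb, hb', h0, h1, h2⟩ := DUAL.dual (K i) z
    have hd : (Module.finrank ℂ ((K i).Tl z) : ℂ) - 2 ≠ 0 := by
      rw [E5L.finrank_Tl (K i) hz]
      intro h
      have h3 : (m i : ℂ) = (2 : ℕ) := by
        push_cast
        linear_combination h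
      have h4 : m i = 2 := by exact_mod_cast h3
      have := hm i
      omega
    have h5 : E5L.wm (K i) x y = ((Module.finrank ℂ ((K i).Tl z) : ℂ) - 2)⁻¹ •
        ∑ j, (E5L.wm (K i) x (b j) * E5L.wm (K i) (b' j) y - E5L.wm (K i) (b' j) y * E5L.wm (K i) x (b j)) := by
      rw [comm_sum (K i) hx hy b b' hb hb' h0 h1 h2, smul_smul, inv_mul_cancel₀ hd, one_smul]
    rw [h5]
    change ZL (K i) _ ∈ _
    rw [map_smul, map_sum]
    refine Submodule.smul_mem _ _ (Submodule.sum_mem _ fun j _ => ?_)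
    exact GEX.lie_comm D hK2a hK2c h5a K i (H i) (E5L.wm_mem (K i) hx (hb j)) (E5L.wm_mem (K i) (hb' j) hy)
  have hsub : Submodule.span ℂ {w : Matrix (Fin (n i)) (Fin (n i)) ℂ | ∃ (z : ℂ) (x y : Fin (n i) → ℂ),
      aeval z (K i).P = 0 ∧ x ∈ (K i).Tl z ∧ y ∈ (K i).Tl z ∧ w = E5L.wm (K i) x y} ≤
      (L0 D hK2a i).comap (ZL (K i)) := by
    rw [Submodule.span_le]
    rintro w ⟨z, x, y, hz, hx, hy, rfl⟩
    exact hwm z x y hz hx hy
  exact hsub (DUAL.mem_span (K i) ha)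

end Pool.Agent.K3P
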