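import Pool.Agent.K3E.E9
import Pool.Agent.K3P.Q3
import Pool.Agent.SPG.MU

/-!
# PF: the conclusion for products
-/

open scoped BigOperators
open Matrix

namespace Pool.Agent.K3P

open Pool.Agent.DRB Pool.Agent.K3D Pool.Agent.K3E E5A

noncomputable section

namespace PFX

open Q1 Q3

/-- decomposition of the matrices commuting with the endomorphisms and normalizing `T` -/
theorem decomp {g n m : ℕ} {A : AbVar g} (K : KSE A n m) (hK5a : Stmt_E5a)
    (h5v : Stmt_E5v) (hn : 3 ≤ m)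
    (Y : Matrix (Idx g) (Idx g) ℂ) (h1 : ∀ α, A.IsEnd α → Y * AbVar.toC α = AbVar.toC α * Y)
    (h2 : ∀ v, ∃ w, Y * K.cl v - K.cl v * Y = K.cl w) :
    ∃ (a : Matrix (Fin n) (Fin n) ℂ) (c : ℂ), a ∈ K.S ∧ Y = K.Z a + c • 1 := by
  obtain ⟨hcl, hinj, hlift, hscal, -, hZend⟩ := hK5a g A n m K
  choose b hb using h2
  have hinj' : ∀ v w, K.cl v = K.cl w → v = w := by
    intro v w h
    have h3 := hinj (v - w) (by rw [E5dX.cl_sub, h, sub_self])
    exact sub_eq_zero.1 h3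
  let f : (Fin n → ℂ) →ₗ[ℂ] (Fin n → ℂ) :=
    { toFun := b
      map_add' := by
        intro v w
        apply hinj'
        rw [← hb, cl_add, cl_add, ← hb, ← hb, mul_add, add_mul]
        abel
      map_smul' := by
        intro c v
        apply hinj'
        rw [← hb, RingHom.id_apply, cl_smul, cl_smul, ← hb, Matrix.mul_smul, Matrix.smul_mul, smul_sub] }
  set a : Matrix (Fin n) (Fin n) ℂ := LinearMap.toMatrix' f with ha
  have hab : ∀ v, a *ᵥ v = b v := by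
    intro v
    rw [ha, LinearMap.toMatrix'_mulVec]
    rfl
  have hact : ∀ v, Y * K.cl v - K.cl v * Y = K.cl (a *ᵥ v) := by
    intro v
    rw [hab, hb]
  have hskew : ∀ v w, K.bil (a *ᵥ v) w + K.bil v (a *ᵥ w) = 0 := by
    intro v w
    have h1 := hcl v w
    have h2 := hcl (a *ᵥ v) w
    have h3 := hcl v (a *ᵥ w)
    rw [← hact v] at h2
    rw [← hact w] at h3
    have h4 : (2 * K.bil (a *ᵥ v) w) • (1 : Matrix (Idx g) (Idx g) ℂ) + (2 * K.bil v (a *ᵥ w)) • 1 =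
        Y * ((2 * K.bil v w) • (1 : Matrix (Idx g) (Idx g) ℂ)) - ((2 * K.bil v w) • 1) * Y := by
      rw [← h1, ← h2, ← h3]
      noncomm_ring
    rw [Matrix.mul_smul, Matrix.smul_mul, mul_one, one_mul, sub_self, ← add_smul] at h4
    have : Nonempty (Idx g) := ⟨Sum.inl ⟨0, K.pos⟩⟩
    have h5 : (2 * K.bil (a *ᵥ v) w) + (2 * K.bil v (a *ᵥ w)) = 0 := by
      have h6 := congrFun (congrFun h4 this.some) this.some
      simpa [Matrix.smul_apply] using h6
    linear_combination (1 / 2) * h5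
  have hS : a ∈ K.S := by
    refine ⟨?_, (h5v g A n m K hn).1 Y a h1 hact⟩
    have h3 : ∀ v w : Fin n → ℂ, v ⬝ᵥ ((aᵀ * Matrix.diagonal (fun i => (K.q i : ℂ)) +
        Matrix.diagonal (fun i => (K.q i : ℂ)) * a) *ᵥ w) = 0 := by
      intro v w
      have h4 := hskew v w
      rw [E5dX.bil_eq, E5dX.bil_eq] at h4
      rw [Matrix.add_mulVec, dotProduct_add, ← Matrix.mulVec_mulVec, ← Matrix.mulVec_mulVec,
        Matrix.dotProduct_mulVec v aᵀ, Matrix.vecMul_transpose]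
      exact h4
    ext i j
    have h4 := h3 (Pi.single i 1) (Pi.single j 1)
    rw [Matrix.mulVec_single_one, single_one_dotProduct] at h4
    exact h4
  obtain ⟨c, hc⟩ := hscal (Y - K.Z a) (by
      intro α hα
      rw [sub_mul, mul_sub, h1 α hα, hZend α hα a hS]) (by
      intro v
      have h3 := hact v
      have h4 := hlift a hskew v
      rw [← sub_eq_zero]
      have h5 : (Y - K.Z a) * K.cl v - K.cl v * (Y - K.Z a) =
          (Y * K.cl v - K.cl v * Y) - (K.Z a * K.cl v - K.cl v * K.Z a) := by noncomm_ring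
      rw [h5, h3, h4, sub_self])
  refine ⟨a, c, hS, ?_⟩
  rw [← hc]
  abel

/-- the projection normalizes `T` -/
theorem pi_norm {g n m : ℕ} {A : AbVar g} (K : KSE A n m) (π : Matrix (Idx g) (Idx g) ℂ) (hπ : π * π = π)
    (hmu : ∀ (z : ℂˣ) (x : GL (Idx g) ℂ), A.IsMu z x ↔ x.val = 1 + (z.val - 1) • π)
    (hex : ∀ z : ℂˣ, ∃ x : GL (Idx g) ℂ, A.IsMu z x) :
    ∀ v, ∃ w, π * K.cl v - K.cl v * π = K.cl w := by
  have h0 : ∀ i, π * AbVar.toC (K.t i) - AbVar.toC (K.t i) * π ∈ K.TC := by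
    intro i
    set y := AbVar.toC (K.t i) with hy
    have hf : ∀ z : ℂ, z ≠ 0 → y + (z - 1) • (π * y) + (z⁻¹ - 1) • (y * π) +
        ((z - 1) * (z⁻¹ - 1)) • (π * y * π) ∈ K.TC := by
      intro z hz
      obtain ⟨x, hx⟩ := hex (Units.mk0 z hz)
      have h1 := K.hdg _ x hx i
      have h2 : x.val = 1 + (z - 1) • π := (hmu _ x).1 hx
      have h3 : (x⁻¹).val = 1 + (z⁻¹ - 1) • π := by
        have h4 : x.val * (1 + (z⁻¹ - 1) • π) = 1 := by
          rw [h2]
          simp only [mul_add, add_mul, mul_one, one_mul, Matrix.smul_mul, Matrix.mul_smul, hπ,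
            smul_smul]
          have h5 : (z - 1) + ((z⁻¹ - 1) + (z⁻¹ - 1) * (z - 1)) = 0 := by field_simp; ring
          rw [add_assoc, ← add_smul, ← add_smul, h5, zero_smul, add_zero]
        have h6 : (x⁻¹).val * x.val = 1 := by rw [← Units.val_mul]; simp
        calc (x⁻¹).val = (x⁻¹).val * (x.val * (1 + (z⁻¹ - 1) • π)) := by rw [h4, mul_one]
          _ = _ := by rw [← mul_assoc, h6, one_mul]
      rw [h2, h3] at h1
      have h5 : (1 + (z - 1) • π) * y * (1 + (z⁻¹ - 1) • π) = y + (z - 1) • (π * y) +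
          (z⁻¹ - 1) • (y * π) + ((z - 1) * (z⁻¹ - 1)) • (π * y * π) := by
        simp only [mul_add, add_mul, mul_one, one_mul, Matrix.smul_mul, Matrix.mul_smul, smul_smul]
        rw [mul_comm (z⁻¹ - 1) (z - 1)]
        abel
      rw [← h5]
      exact h1
    have hy0 : y ∈ K.TC := Submodule.subset_span ⟨i, rfl⟩
    have h2 := hf 2 two_ne_zero
    have h3 := hf (-1) (by norm_num)
    -- combination
    have h4 : π * y - y * π = (4 / 3 : ℂ) • ((y + ((2 : ℂ) - 1) • (π * y) + ((2 : ℂ)⁻¹ - 1) • (y * π) +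
        (((2 : ℂ) - 1) * ((2 : ℂ)⁻¹ - 1)) • (π * y * π)) - y) +
        (1 / 6 : ℂ) • ((y + ((-1 : ℂ) - 1) • (π * y) + ((-1 : ℂ)⁻¹ - 1) • (y * π) +
        (((-1 : ℂ) - 1) * ((-1 : ℂ)⁻¹ - 1)) • (π * y * π)) - y) := by
      ext a b
      simp only [Matrix.add_apply, Matrix.sub_apply, Matrix.smul_apply, smul_eq_mul]
      norm_num
      ring
    rw [h4]
    exact Submodule.add_mem _ (Submodule.smul_mem _ _ (Submodule.sub_mem _ h2 hy0))
      (Submodule.smul_mem _ _ (Submodule.sub_mem _ h3 hy0))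
  intro v
  rw [← E5dX.mem_TC]
  unfold KSE.cl
  rw [Finset.mul_sum, Finset.sum_mul, ← Finset.sum_sub_distrib]
  refine Submodule.sum_mem _ fun i _ => ?_
  rw [Matrix.mul_smul, Matrix.smul_mul, ← smul_sub]
  exact Submodule.smul_mem _ _ (h0 i)

section mu

open SigX SPG.MU_

variable {g h : ℕ} {A : AbVar g} {B : AbVar h}

theorem hom_zL {α : Matrix (Idx h) (Idx g) ℚ} (hα : IsHom A B α) {v : Idx g → ℂ} (hv : zL A v = 0) :
    zL B (toR α *ᵥ v) = 0 := by
  obtain ⟨ρ, -, h2, h3⟩ := hα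
  rw [zL_apply] at hv ⊢
  rw [Matrix.mulVec_mulVec, h3, ← Matrix.mulVec_mulVec]
  funext i
  show (ρ *ᵥ (A.per *ᵥ v)) (Sum.inl i) = 0
  rw [Matrix.mulVec, dotProduct, Fintype.sum_sum_type]
  have e1 : ∀ j : Fin g, (A.per *ᵥ v) (Sum.inl j) = 0 := fun j => congrFun hv j
  simp [e1, h2]

theorem hom_cv (α : Matrix (Idx h) (Idx g) ℚ) (v : Idx g → ℂ) : cv (toR α *ᵥ v) = toR α *ᵥ cv v := by
  funext i
  simp only [cv, Matrix.mulVec, dotProduct, map_sum, map_mul]
  refine Finset.sum_congr rfl fun j _ => ?_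
  congr 1
  simp only [toR, Matrix.map_apply]
  rw [eq_ratCast, map_ratCast]

theorem mu_hom {z : ℂˣ} {x : GL (Idx g) ℂ} {y : GL (Idx h) ℂ} (hx : A.IsMu z x) (hy : B.IsMu z y)
    {α : Matrix (Idx h) (Idx g) ℚ} (hα : IsHom A B α) : y.val * toR α = toR α * x.val := by
  have key : ∀ v, (y.val * toR α) *ᵥ v = (toR α * x.val) *ᵥ v := by
    intro v
    obtain ⟨a, ha, b, hb, rfl⟩ := split A v
    have h1 : toR α *ᵥ a ∈ kk B := (mem_kk B _).2 (hom_zL hα ((mem_kk A a).1 ha))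
    have h2 : toR α *ᵥ b ∈ kb B := (mem_kb B _).2 (by
      rw [hom_cv]
      exact hom_zL hα ((mem_kb A b).1 hb))
    rw [Matrix.mulVec_add, Matrix.mulVec_add, ← Matrix.mulVec_mulVec, ← Matrix.mulVec_mulVec,
      ← Matrix.mulVec_mulVec, ← Matrix.mulVec_mulVec, mu_kk hx ha, mu_kb hx hb,
      mu_kk hy h1, mu_kb hy h2, Matrix.mulVec_smul]
  ext i j
  have := congrFun (key (Pi.single j 1)) i
  rw [Matrix.mulVec_single_one, Matrix.mulVec_single_one] at this
  exact this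

end mu

variable {g : ℕ} {A : AbVar g} {r : ℕ} {h : Fin r → ℕ} {B : ∀ i, AbVar (h i)} (D : Decomp A B)

theorem emb_add (i : Fin r) (X Y : Matrix (Idx (h i)) (Idx (h i)) ℂ) :
    D.emb i (X + Y) = D.emb i X + D.emb i Y := by
  unfold Decomp.emb
  rw [Matrix.mul_add, Matrix.add_mul]

theorem emb_smul_one (i : Fin r) (c : ℂ) :
    D.emb i (c • (1 : Matrix (Idx (h i)) (Idx (h i)) ℂ)) = c • (toR (D.inc i) * toR (D.prj i)) := by
  unfold Decomp.emb
  rw [Matrix.mul_smul, Matrix.smul_mul, Matrix.mul_one]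

/-- the sum of the scalar blocks -/
theorem sum_scalar (c : ℂ) :
    ∑ i, D.emb i (c • (1 : Matrix (Idx (h i)) (Idx (h i)) ℂ)) = c • (1 : Matrix (Idx g) (Idx g) ℂ) := by
  simp only [emb_smul_one]
  rw [← Finset.smul_sum, pi_total]

theorem sum_lie (hK2a : Stmt_K2a) (Z : Fin r → Matrix (Idx g) (Idx g) ℂ) (hZ : ∀ i, InLie (Gam A) (Z i) 0) :
    InLie (Gam A) (∑ i, Z i) 0 := by
  refine Finset.sum_induction Z (fun X => InLie (Gam A) X 0) ?_ ?_ fun i _ => hZ i
  · intro X Y hX hY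
    have h1 := (hK2a (Idx g) (Gam A)).1 X Y 0 0 1 hX hY
    rwa [one_smul, mul_zero, add_zero] at h1
  · exact (hK2a (Idx g) (Gam A)).2.1

theorem riem_half (hL : Stmt_Leg) {g : ℕ} {A : AbVar g} (hg : 0 < g) {Z : Matrix (Idx g) (Idx g) ℂ} {c ζ : ℂ}
    (h1 : Zᵀ * A.riem + A.riem * Z = 0)
    (h2 : (Z + c • 1)ᵀ * A.riem + A.riem * (Z + c • 1) = ζ • A.riem) : 2 * c = ζ := by
  have h3 : (2 * c - ζ) • A.riem = 0 := by
    rw [Matrix.transpose_add, Matrix.transpose_smul, Matrix.transpose_one, add_mul, mul_add,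
      Matrix.smul_mul, one_mul, Matrix.mul_smul, mul_one] at h2
    have h4 : Zᵀ * A.riem + c • A.riem + (A.riem * Z + c • A.riem) =
        (Zᵀ * A.riem + A.riem * Z) + (2 * c) • A.riem := by
      rw [two_mul, add_smul]; abel
    rw [h4, h1, zero_add] at h2
    rw [sub_smul, h2, sub_self]
  rcases smul_eq_zero.1 h3 with h | h
  · exact sub_eq_zero.1 h
  · exact absurd h (K9X.riem_ne hL hg)

end PFX

open PFX Q1 Q3

theorem PF_proof (hK1 : Stmt_K1) (hH : Stmt_Homx) (hTau : Stmt_TAU) (hPI : Stmt_PI) (hL : Stmt_Leg)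
    (hG2 : Stmt_Gb2) (hK2a : Stmt_K2a) (hK2c : Stmt_K2c) (hK2d : Stmt_E2d) (hK5a : Stmt_E5a)
    (h5v : Stmt_E5v) (hPG : Stmt_PG) : MainP := by
  rintro g A r h B ⟨D⟩ hHom n m hm hK t E hE
  have K : ∀ i, KSE (B i) (n i) (m i) := fun i => (hK i).some
  have hn : ∀ i, 3 ≤ m i := fun i => by rcases hm i with h | h <;> omega
  have h8 : ∀ i, ∀ a ∈ (K i).S, InLie (Gam A) (D.emb i ((K i).Z a)) 0 := hPG g A r h B D hHom n m K hm
  have h8' : ∀ i, ∀ a ∈ (K i).S, InLie (Gam (B i)) ((K i).Z a) 0 := by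
    intro i a ha
    have h1 := blk_lie D hK2c _ 0 (h8 i a ha) i
    rwa [blk_emb] at h1
  refine ⟨hE.1, ?_⟩
  -- the weight element
  have hw : InLie (Gam A) ((1 / 2 : ℂ) • (1 : Matrix (Idx g) (Idx g) ℂ)) 1 := by
    obtain ⟨p, hp, hpN⟩ := hTau g A
    obtain ⟨L, hLne⟩ : ∃ L : Additive ℂˣ →+ ℂ, L (Additive.ofMul p.2) ≠ 0 := by
      by_contra hcon
      push Not at hcon
      obtain ⟨N, hN, h1⟩ := K4X.tors_of_L hH p.2 hcon
      exact hpN N hN h1
    obtain ⟨S, α, N, M, -, -, -, -, hst⟩ := hK1 (Idx g) p.1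
    set X : Matrix (Idx g) (Idx g) ℂ := S.val * Matrix.diagonal (fun i => L (Additive.ofMul (α i))) *
      (S⁻¹).val with hX
    set ζ : ℂ := L (Additive.ofMul p.2) with hζ
    have hXm : InLie (Gam A) X ζ := fun t D hD => (hst p.2 t D (hD p hp)).1 L
    have h1 : ∀ i, ∃ a ∈ (K i).S, D.blk i X = (K i).Z a + (ζ / 2) • 1 := by
      intro i
      have h2 := blk_lie D hK2c X ζ hXm i
      obtain ⟨a, c, ha, h3⟩ := decomp (K i) hK5a h5v (hn i) (D.blk i X) (hK2c _ _ _ ζ h2).1 (fun v => by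
        have h1 := (hK2d _ _ _ _ (K i)).2 _ ζ h2 ((K i).cl v) ((E5dX.mem_TC (K i) _).2 ⟨v, rfl⟩)
        exact (E5dX.mem_TC (K i) _).1 h1)
      have h4 := (hK2c _ _ _ ζ h2).2
      rw [h3] at h4
      have h5 := (hK2c _ _ _ 0 (h8' i a ha)).2
      rw [zero_smul] at h5
      have h6 := riem_half hL (K i).pos h5 h4
      refine ⟨a, ha, ?_⟩
      rw [h3, ← h6]
      congr 2
      ring
    choose a ha h2 using h1
    have h3 : X = ∑ i, D.emb i ((K i).Z (a i)) + (ζ / 2) • 1 := by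
      conv_lhs => rw [lie_sum D hK2c X ζ hXm]
      rw [← sum_scalar D (ζ / 2), ← Finset.sum_add_distrib]
      refine Finset.sum_congr rfl fun i _ => ?_
      rw [h2, emb_add]
    have h4 := sum_lie hK2a _ fun i => h8 i (a i) (ha i)
    have h5 : InLie (Gam A) ((ζ / 2) • 1) ζ := by
      have h6 := (hK2a (Idx g) (Gam A)).1 X _ ζ 0 (-1) hXm h4
      rw [mul_zero, add_zero, neg_one_smul, h3] at h6
      have e : ∑ i, D.emb i ((K i).Z (a i)) + (ζ / 2) • (1 : Matrix (Idx g) (Idx g) ℂ) +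
          -∑ i, D.emb i ((K i).Z (a i)) = (ζ / 2) • 1 := by abel
      rwa [e] at h6
    have h6 := K2Y.inLie_smul hK2a h5 ζ⁻¹
    rw [inv_mul_cancel₀ hLne, smul_smul] at h6
    have e : ζ⁻¹ * (ζ / 2) = 1 / 2 := by
      field_simp
    rwa [e] at h6
  -- the projections
  obtain ⟨π, hπ, hmu, hex, hcomm, hsim⟩ := hPI g A
  have h1 : ∀ i, ∃ a ∈ (K i).S, D.blk i π = (K i).Z a + (1 / 2 : ℂ) • 1 := by
    intro i
    obtain ⟨π', hπ', hmu', hex', hcomm', hsim'⟩ := hPI (h i) (B i)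
    have h2 : π' * toR (D.prj i) = toR (D.prj i) * π := by
      obtain ⟨x, hx⟩ := hex (Units.mk0 (2 : ℂ) two_ne_zero)
      obtain ⟨y, hy⟩ := hex' (Units.mk0 (2 : ℂ) two_ne_zero)
      have h3 := mu_hom hx hy (D.prj_hom i)
      rw [(hmu _ x).1 hx, (hmu' _ y).1 hy, Units.val_mk0] at h3
      have h4 : ((2 : ℂ) - 1) • π = π := by norm_num
      have h5 : ((2 : ℂ) - 1) • π' = π' := by norm_num
      rw [h4, h5, Matrix.add_mul, Matrix.mul_add, Matrix.one_mul, Matrix.mul_one] at h3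
      exact add_left_cancel h3
    have h3 : D.blk i π = π' := by
      unfold Decomp.blk
      rw [← h2, Matrix.mul_assoc, pi_same, Matrix.mul_one]
    obtain ⟨a, c, ha, h4⟩ := decomp (K i) hK5a h5v (hn i) π' hcomm' (pi_norm (K i) π' hπ' hmu' hex')
    have h5 : 2 * c = 1 := by
      have h6 := (hK2c _ _ _ 0 (h8' i a ha)).2
      rw [zero_smul] at h6
      refine riem_half hL (K i).pos h6 ?_
      rw [← h4, one_smul]
      exact hsim'
    refine ⟨a, ha, ?_⟩
    rw [h3, h4]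
    congr 2
    linear_combination (1 / 2) * h5
  choose a ha h2 using h1
  have hπs : π = ∑ i, D.emb i (D.blk i π) := by
    have h3 : π = ∑ i, π * (toR (D.inc i) * toR (D.prj i)) := by
      rw [← Finset.mul_sum, pi_total, Matrix.mul_one]
    conv_lhs => rw [h3]
    refine Finset.sum_congr rfl fun i _ => ?_
    have h4 : A.IsEnd (D.inc i * D.prj i) := hom_comp (D.prj_hom i) (D.inc_hom i)
    have h5 := hcomm _ h4
    have h6 : AbVar.toC (D.inc i * D.prj i) = toR (D.inc i) * toR (D.prj i) := toR_mul _ _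
    rw [h6] at h5
    unfold Decomp.emb Decomp.blk
    calc π * (toR (D.inc i) * toR (D.prj i)) = π * (toR (D.inc i) * (toR (D.prj i) * toR (D.inc i)) *
          toR (D.prj i)) := by rw [pi_same, Matrix.mul_one]
      _ = π * (toR (D.inc i) * toR (D.prj i)) * (toR (D.inc i) * toR (D.prj i)) := by
          simp only [Matrix.mul_assoc]
      _ = _ := by rw [h5]; simp only [Matrix.mul_assoc]
  have hπZ : π = ∑ i, D.emb i ((K i).Z (a i)) + (1 / 2 : ℂ) • 1 := by
    conv_lhs => rw [hπs]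
    rw [← sum_scalar D (1 / 2), ← Finset.sum_add_distrib]
    refine Finset.sum_congr rfl fun i _ => ?_
    rw [h2, emb_add]
  have hπm : InLie (Gam A) π 1 := by
    have h3 := sum_lie hK2a _ fun i => h8 i (a i) (ha i)
    have h1 := (hK2a (Idx g) (Gam A)).1 _ _ 0 1 1 h3 hw
    rw [one_smul, one_mul, zero_add, ← hπZ] at h1
    exact h1
  intro z x hx
  have hz : Complex.exp (Complex.log z.val) = z.val := Complex.exp_log (Units.ne_zero z)
  have h1 := K2Y.inLie_smul hK2a hπm (Complex.log z.val)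
  rw [mul_one] at h1
  have h2 := K2Y.exp_stab_eq hK2a h1 t E (fun p hp => hG2 g A t E hE p hp)
  rw [K2Y.eX_val, K9X.exp_idem π hπ, hz] at h2
  rw [(hmu z x).1 hx]
  exact h2

end

end Pool.Agent.K3P
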