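import Pool.Agent.K3P.StmtsG
import Pool.Agent.K3P.PF
import Pool.Agent.K3P.GE

/-!
# GN: no intertwining isometries
-/

set_option autoImplicit false

open scoped BigOperators
open Matrix

namespace Pool.Agent.K3P

open Pool.Agent.DRB Pool.Agent.K3D Pool.Agent.K3E E5A

theorem GN_proof (hL : Stmt_Leg) (hK2c : Stmt_K2c) (hE2d : Stmt_E2d) (hE5a : Stmt_E5a) (hE5v : Stmt_E5v)
    (hE8b : Stmt_E8b) (hE8c : Stmt_E8c) (hPH : Stmt_PH) (hGA : Stmt_GA) : Stmt_GN := by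
  intro g A r h B D hHom n m K hm i j hij Ψ hΨ hcon
  obtain ⟨F, hF, -, hZ⟩ := hGA _ _ (B i) (B j) _ _ _ _ (K i) (K j) Ψ hΨ
  -- the blocks of the elements of the Lie algebra
  have key : ∀ (k : Fin r) (Y : Matrix (Idx g) (Idx g) ℂ) (ξ : ℂ), InLie (Gam A) Y ξ →
      ∃ a ∈ (K k).S, (∀ v, D.blk k Y * (K k).cl v - (K k).cl v * D.blk k Y = (K k).cl (a *ᵥ v)) ∧
        D.blk k Y = (K k).Z a + (ξ / 2) • 1 := by
    intro k Y ξ hY
    have hm3 : 3 ≤ m k := by rcases hm k with h | h <;> omega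
    have hm5 : m k ≠ 5 := by rcases hm k with h | h <;> omega
    have h2 := Q3.blk_lie D hK2c Y ξ hY k
    obtain ⟨a, c, ha, h3⟩ := PFX.decomp (K k) hE5a hE5v hm3 (D.blk k Y) (hK2c _ _ _ ξ h2).1 (fun v => by
      have h1 := (hE2d _ _ _ _ (K k)).2 _ ξ h2 ((K k).cl v) ((E5dX.mem_TC (K k) _).2 ⟨v, rfl⟩)
      exact (E5dX.mem_TC (K k) _).1 h1)
    have h4 := (hK2c _ _ _ ξ h2).2
    rw [h3] at h4
    have h8 : InLie (Gam (B k)) ((K k).Z a) 0 :=
      hE8c _ _ _ _ (K k) hm3 (hE8b _ _ _ _ (K k) hm3 hm5) a ha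
    have h5 := (hK2c _ _ _ 0 h8).2
    rw [zero_smul] at h5
    have h6 := PFX.riem_half hL (K k).pos h5 h4
    refine ⟨a, ha, fun v => ?_, ?_⟩
    · have h7 := (hE5a _ _ _ _ (K k)).2.2.1 a (GEX.skew (K k) ha) v
      rw [h3, ← h7]
      simp only [add_mul, mul_add, Matrix.smul_mul, Matrix.mul_smul, one_mul, mul_one]
      abel
    · rw [h3, ← h6]
      congr 2
      ring
  have hint : ∀ Y ξ, InLie (Gam A) Y ξ → D.blk j Y * F = F * D.blk i Y := by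
    intro Y ξ hY
    choose t ht h1 h2 using fun k => key k Y ξ hY
    have h3 := hcon t ⟨Y, ξ, hY, h1⟩
    rw [h2 j, h2 i, Matrix.add_mul, Matrix.mul_add, hZ (t i) (t j) h3, Matrix.smul_mul, Matrix.mul_smul,
      Matrix.one_mul, Matrix.mul_one]
  have h1 := hPH g A r h B D i j F hint
  have h2 : Submodule.span ℂ {Z | ∃ α, IsHom (B i) (B j) α ∧ Z = toR α} ≤ ⊥ := by
    rw [Submodule.span_le]
    rintro _ ⟨α, hα, rfl⟩
    rw [hHom i j hij α hα, Q1.toR_zero]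
    exact Submodule.zero_mem _
  exact hF ((Submodule.mem_bot ℂ).1 (h2 h1))

end Pool.Agent.K3P
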