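import Pool.Agent.K3E.E8b
import Pool.Agent.K3P.Stmts

/-!
# P8b, first part: the real Lie algebra of a family of elements of the Lie algebra
-/

open scoped BigOperators Matrix
open Matrix Polynomial

namespace Pool.Agent.K3P

open Pool.Agent.DRB Pool.Agent.K3D Pool.Agent.K3E

noncomputable section

namespace P8Y

open K8X (cj cj_apply cj_mulVec exp_ofReal)
open K8Y (exp_gen diag_real)

section lie

variable {g n m : ℕ} {A : AbVar g} {L : Matrix (Idx g) (Idx g) ℂ → ℂ → Prop} (K : KSE A n m)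

theorem cl_add (v w : Fin n → ℂ) : K.cl (v + w) = K.cl v + K.cl w := (E8X.clL K).map_add v w

theorem cl_sub (v w : Fin n → ℂ) : K.cl (v - w) = K.cl v - K.cl w := (E8X.clL K).map_sub v w

theorem cl_smul (c : ℂ) (v : Fin n → ℂ) : K.cl (c • v) = c • K.cl v := (E8X.clL K).map_smul c v

theorem cl_zero : K.cl 0 = 0 := (E8X.clL K).map_zero

theorem lie_lin (F : LieFam A L) {a b : Matrix (Fin n) (Fin n) ℝ} (c : ℝ) (ha : lieL L K a)
    (hb : lieL L K b) : lieL L K (a + c • b) := by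
  obtain ⟨X, ξ, hX, hXa⟩ := ha
  obtain ⟨Y, η, hY, hYb⟩ := hb
  refine ⟨X + (c : ℂ) • Y, ξ + c * η, F.lin X Y ξ η c hX hY, fun v => ?_⟩
  have h1 : ((a + c • b).map Complex.ofReal) *ᵥ v =
      (a.map Complex.ofReal) *ᵥ v + (c : ℂ) • ((b.map Complex.ofReal) *ᵥ v) := by
    have h2 : (a + c • b).map Complex.ofReal =
        a.map Complex.ofReal + (c : ℂ) • b.map Complex.ofReal := by
      ext i j; simp
    rw [h2, Matrix.add_mulVec, Matrix.smul_mulVec]
  rw [h1, cl_add, cl_smul, ← hXa, ← hYb]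
  simp only [add_mul, mul_add, smul_mul_assoc, mul_smul_comm, smul_sub]
  abel

theorem lie_zero (F : LieFam A L) : lieL L K 0 := by
  refine ⟨0, 0, F.zero, fun v => ?_⟩
  have h1 : ((0 : Matrix (Fin n) (Fin n) ℝ).map Complex.ofReal) *ᵥ v = 0 := by
    have : ((0 : Matrix (Fin n) (Fin n) ℝ).map Complex.ofReal) = 0 := by ext i j; simp
    rw [this, Matrix.zero_mulVec]
  rw [h1, cl_zero, zero_mul, mul_zero, sub_zero]

/-- The real Lie algebra as a subspace. -/
def lieSub (F : LieFam A L) : Submodule ℝ (Matrix (Fin n) (Fin n) ℝ) where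
  carrier := {a | lieL L K a}
  add_mem' := by
    intro a b ha hb
    have := lie_lin K F 1 ha hb
    rwa [one_smul] at this
  zero_mem' := lie_zero K F
  smul_mem' := by
    intro c a ha
    have := lie_lin K F c (lie_zero K F) ha
    rwa [zero_add] at this

theorem mem_lieSub (F : LieFam A L) (a : Matrix (Fin n) (Fin n) ℝ) :
    a ∈ lieSub K F ↔ lieL L K a := Iff.rfl

theorem lie_brk (F : LieFam A L) {a b : Matrix (Fin n) (Fin n) ℝ} (ha : lieL L K a)
    (hb : lieL L K b) : lieL L K (a * b - b * a) := by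
  obtain ⟨X, ξ, hX, hXa⟩ := ha
  obtain ⟨Y, η, hY, hYb⟩ := hb
  refine ⟨X * Y - Y * X, 0, F.brk X Y ξ η hX hY, fun v => ?_⟩
  have h2 : (a * b - b * a).map Complex.ofReal =
      a.map Complex.ofReal * b.map Complex.ofReal - b.map Complex.ofReal * a.map Complex.ofReal := by
    have h3 : (a * b).map Complex.ofReal = a.map Complex.ofReal * b.map Complex.ofReal :=
      Matrix.map_mul (f := Complex.ofRealHom)
    have h4 : (b * a).map Complex.ofReal = b.map Complex.ofReal * a.map Complex.ofReal :=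
      Matrix.map_mul (f := Complex.ofRealHom)
    rw [← h3, ← h4]
    ext i j; simp
  rw [h2, Matrix.sub_mulVec, ← Matrix.mulVec_mulVec, ← Matrix.mulVec_mulVec, cl_sub, ← hXa, ← hYb,
    ← hYb, ← hXa]
  noncomm_ring

theorem lie_bil (hE5a : Stmt_E5a) {a : Matrix (Fin n) (Fin n) ℝ} (ha : lieL L K a)
    (v w : Fin n → ℂ) :
    K.bil ((a.map Complex.ofReal) *ᵥ v) w + K.bil v ((a.map Complex.ofReal) *ᵥ w) = 0 := by
  obtain ⟨X, ξ, hX, hXa⟩ := ha
  have hr := (hE5a g A n m K).1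
  have h1 := hr v w
  have h2 := hr ((a.map Complex.ofReal) *ᵥ v) w
  have h3 := hr v ((a.map Complex.ofReal) *ᵥ w)
  have h4 : X * (K.cl v * K.cl w + K.cl w * K.cl v) - (K.cl v * K.cl w + K.cl w * K.cl v) * X = 0 := by
    rw [h1]
    simp
  have h5 : X * (K.cl v * K.cl w + K.cl w * K.cl v) - (K.cl v * K.cl w + K.cl w * K.cl v) * X =
      (K.cl ((a.map Complex.ofReal) *ᵥ v) * K.cl w + K.cl w * K.cl ((a.map Complex.ofReal) *ᵥ v)) +
      (K.cl v * K.cl ((a.map Complex.ofReal) *ᵥ w) +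
        K.cl ((a.map Complex.ofReal) *ᵥ w) * K.cl v) := by
    rw [← hXa, ← hXa]
    noncomm_ring
  rw [h5, h2, h3, ← add_smul] at h4
  have hg : Nonempty (Idx g) := ⟨Sum.inl ⟨0, K.pos⟩⟩
  obtain ⟨i⟩ := hg
  have h6 := congrFun (congrFun h4 i) i
  rw [Matrix.smul_apply, Matrix.one_apply_eq, smul_eq_mul, mul_one, Matrix.zero_apply] at h6
  have h7 : (2 : ℂ) * (K.bil ((a.map Complex.ofReal) *ᵥ v) w +
      K.bil v ((a.map Complex.ofReal) *ᵥ w)) = 0 := by
    rw [mul_add]; exact h6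
  rcases mul_eq_zero.1 h7 with h | h
  · exact absurd h two_ne_zero
  · exact h

theorem lie_skew (hE5a : Stmt_E5a) {a : Matrix (Fin n) (Fin n) ℝ} (ha : lieL L K a) :
    aᵀ * Matrix.diagonal (fun i => (K.q i : ℝ)) + Matrix.diagonal (fun i => (K.q i : ℝ)) * a = 0 := by
  ext i j
  have h1 := lie_bil K hE5a ha (Pi.single i 1) (Pi.single j 1)
  unfold KSE.bil at h1
  rw [Matrix.mulVec_single_one, Matrix.mulVec_single_one] at h1
  rw [Finset.sum_eq_single j, Finset.sum_eq_single i] at h1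
  · simp only [Pi.single_eq_same, mul_one, Matrix.col_apply, Matrix.map_apply] at h1
    rw [Matrix.add_apply, Matrix.mul_diagonal, Matrix.diagonal_mul, Matrix.transpose_apply,
      Matrix.zero_apply]
    have h2 : (((K.q j : ℝ) * a j i + (K.q i : ℝ) * a i j : ℝ) : ℂ) = 0 := by
      push_cast
      exact h1
    have h3 : (K.q j : ℝ) * a j i + (K.q i : ℝ) * a i j = 0 := by exact_mod_cast h2
    linarith
  · intro k _ hk
    rw [Pi.single_eq_of_ne hk]
    ring
  · intro h; exact absurd (Finset.mem_univ _) h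
  · intro k _ hk
    rw [Pi.single_eq_of_ne hk]
    ring
  · intro h; exact absurd (Finset.mem_univ _) h

/-- Complex conjugation. -/
def cc0 : ℂ ≃ₐ[ℚ] ℂ := Complex.conjAe.restrictScalars ℚ

theorem cc0_apply (z : ℂ) : cc0 z = (starRingEnd ℂ) z := rfl

theorem cl_conj (v : Fin n → ℂ) : (K.cl v).map cc0 = K.cl fun i => (starRingEnd ℂ) (v i) := by
  ext r s
  simp only [KSE.cl, Matrix.map_apply, Matrix.sum_apply, Matrix.smul_apply, smul_eq_mul, map_sum,
    map_mul, cc0_apply]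
  refine Finset.sum_congr rfl fun j _ => ?_
  congr 1
  simp [AbVar.toC]

theorem lie_stab (F : LieFam A L) (hE2d : Stmt_E2d)
    (W : Submodule ℂ (Fin n → ℂ))
    (hW : ∀ a, lieL L K a → ∀ v ∈ W, (a.map Complex.ofReal) *ᵥ v ∈ W) :
    ∀ X ξ, L X ξ → ∀ v ∈ W, ∃ w ∈ W, X * K.cl v - K.cl v * X = K.cl w := by
  intro X ξ hX v hv
  obtain ⟨b, hb⟩ := E8X.exists_mat K X ((hE2d g A n m K).2 X ξ (F.sub X ξ hX))
  have hXc : L (X.map cc0) (cc0 ξ) := F.aut cc0 X ξ hX
  have hbc : ∀ w, X.map cc0 * K.cl w - K.cl w * X.map cc0 = K.cl (cj b *ᵥ w) := by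
    intro w
    have h1 := hb fun i => (starRingEnd ℂ) (w i)
    have h2 : (X * (K.cl fun i => (starRingEnd ℂ) (w i)) -
        (K.cl fun i => (starRingEnd ℂ) (w i)) * X).map cc0 =
        (K.cl (b *ᵥ fun i => (starRingEnd ℂ) (w i))).map cc0 :=
      congrArg (fun Z : Matrix (Idx g) (Idx g) ℂ => Z.map cc0) h1
    have h3 : ∀ Z Z' : Matrix (Idx g) (Idx g) ℂ, (Z * Z').map cc0 = Z.map cc0 * Z'.map cc0 :=
      fun Z Z' => Matrix.map_mul (f := (cc0 : ℂ →+* ℂ))
    have h4 : (X * (K.cl fun i => (starRingEnd ℂ) (w i)) -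
        (K.cl fun i => (starRingEnd ℂ) (w i)) * X).map cc0 =
        X.map cc0 * (K.cl fun i => (starRingEnd ℂ) (w i)).map cc0 -
        (K.cl fun i => (starRingEnd ℂ) (w i)).map cc0 * X.map cc0 := by
      rw [← h3, ← h3]
      ext i j
      rw [Matrix.map_apply, Matrix.sub_apply, map_sub, Matrix.sub_apply, Matrix.map_apply,
        Matrix.map_apply]
    rw [h4, cl_conj, cl_conj, ← cj_mulVec] at h2
    simpa using h2
  -- real and imaginary parts
  have hre : lieL L K (b.map Complex.re) := by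
    refine ⟨0 + (1 / 2 : ℂ) • (X + (1 : ℂ) • X.map cc0), 0 + (1 / 2) * (ξ + 1 * cc0 ξ),
      F.lin _ _ _ _ _ F.zero
        (F.lin _ _ _ _ _ hX hXc), fun w => ?_⟩
    have h1 : (b.map Complex.re).map Complex.ofReal = (1 / 2 : ℂ) • (b + cj b) := by
      ext i j
      simp only [Matrix.map_apply, Matrix.smul_apply, Matrix.add_apply, cj_apply, smul_eq_mul]
      rw [Complex.re_eq_add_conj]
      ring
    rw [h1, Matrix.smul_mulVec, Matrix.add_mulVec, cl_smul, cl_add, ← hb, ← hbc]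
    simp only [zero_add, one_smul, add_mul, mul_add, smul_mul_assoc, mul_smul_comm, smul_sub,
      smul_add]
    abel
  have him : lieL L K (b.map Complex.im) := by
    refine ⟨0 + (1 / (2 * Complex.I) : ℂ) • (X + (-1 : ℂ) • X.map cc0),
      0 + (1 / (2 * Complex.I)) * (ξ + (-1) * cc0 ξ),
      F.lin _ _ _ _ _ F.zero
        (F.lin _ _ _ _ _ hX hXc), fun w => ?_⟩
    have h1 : (b.map Complex.im).map Complex.ofReal = (1 / (2 * Complex.I) : ℂ) • (b - cj b) := by
      ext i j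
      simp only [Matrix.map_apply, Matrix.smul_apply, Matrix.sub_apply, cj_apply, smul_eq_mul]
      rw [Complex.im_eq_sub_conj]
      ring
    rw [h1, Matrix.smul_mulVec, Matrix.sub_mulVec, cl_smul, cl_sub, ← hb, ← hbc]
    simp only [zero_add, add_mul, mul_add, smul_mul_assoc, mul_smul_comm, smul_sub,
      smul_add, neg_smul, one_smul, neg_mul, mul_neg, smul_neg]
    abel
  refine ⟨b *ᵥ v, ?_, hb v⟩
  have h1 : b = (b.map Complex.re).map Complex.ofReal +
      Complex.I • (b.map Complex.im).map Complex.ofReal := by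
    ext i j
    simp only [Matrix.add_apply, Matrix.smul_apply, Matrix.map_apply, smul_eq_mul]
    rw [mul_comm]
    exact (Complex.re_add_im _).symm
  rw [h1, Matrix.add_mulVec, Matrix.smul_mulVec]
  exact W.add_mem (hW _ hre v hv) (W.smul_mem _ (hW _ him v hv))

theorem lie_hyp (F : LieFam A L) (hP8a : Stmt_P8a) {a : Matrix (Fin n) (Fin n) ℝ} (ha : lieL L K a) :
    ∃ h, lieL L K h ∧ IsHypPart a h := by
  obtain ⟨h, hh, hlog⟩ := hP8a g A L F n m K [a] (by
    intro b hb
    rw [List.mem_singleton.1 hb]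
    exact ha)
  rw [List.map_cons, List.map_nil, List.prod_cons, List.prod_nil, mul_one] at hlog
  refine ⟨h, hh, ?_⟩
  rintro β v ⟨k, hk⟩
  have h1 := exp_gen (a.map Complex.ofReal) β k v hk
  rw [← exp_ofReal] at h1
  have h2 := hlog (Complex.exp β) v ⟨k, h1⟩
  rw [Complex.norm_exp, Real.log_exp] at h2
  exact h2

end lie

end P8Y

end

end Pool.Agent.K3P
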