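import Pool.Agent.K3P.StmtsG
import Pool.Agent.K3P.Q3
import Pool.Agent.K3P.P8b1

/-!
# G0: the set of tuples is a Lie algebra stable under automorphisms, onto the factors
-/

set_option autoImplicit false

open scoped BigOperators
open Matrix Polynomial

namespace Pool.Agent.K3P

open Pool.Agent.DRB Pool.Agent.K3D Pool.Agent.K3E

namespace G0X

variable {g n m : ℕ} {A : AbVar g} (K : KSE A n m)

theorem bil_zero (hE5a : Stmt_E5a) {X : Matrix (Idx g) (Idx g) ℂ} {a : Matrix (Fin n) (Fin n) ℂ}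
    (hXa : ∀ v, X * K.cl v - K.cl v * X = K.cl (a *ᵥ v)) (v w : Fin n → ℂ) :
    K.bil (a *ᵥ v) w + K.bil v (a *ᵥ w) = 0 := by
  have hr := (hE5a g A n m K).1
  have h1 := hr v w
  have h2 := hr (a *ᵥ v) w
  have h3 := hr v (a *ᵥ w)
  have h4 : X * (K.cl v * K.cl w + K.cl w * K.cl v) - (K.cl v * K.cl w + K.cl w * K.cl v) * X = 0 := by
    rw [h1]
    simp
  have h5 : X * (K.cl v * K.cl w + K.cl w * K.cl v) - (K.cl v * K.cl w + K.cl w * K.cl v) * X =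
      (K.cl (a *ᵥ v) * K.cl w + K.cl w * K.cl (a *ᵥ v)) +
      (K.cl v * K.cl (a *ᵥ w) + K.cl (a *ᵥ w) * K.cl v) := by
    rw [← hXa, ← hXa]
    noncomm_ring
  rw [h5, h2, h3, ← add_smul] at h4
  have hne : (1 : Matrix (Idx g) (Idx g) ℂ) ≠ 0 := by
    have h0 := K.pos
    have : Nonempty (Idx g) := ⟨Sum.inl ⟨0, h0⟩⟩
    exact one_ne_zero
  have h6 := (smul_eq_zero.1 h4).resolve_right hne
  linear_combination h6 / 2

theorem skewC {a : Matrix (Fin n) (Fin n) ℂ} (h : ∀ v w, K.bil (a *ᵥ v) w + K.bil v (a *ᵥ w) = 0) :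
    aᵀ * Matrix.diagonal (fun i => (K.q i : ℂ)) + Matrix.diagonal (fun i => (K.q i : ℂ)) * a = 0 := by
  ext i j
  have h1 := h (Pi.single i 1) (Pi.single j 1)
  rw [E5L.bil_single, E5L.bil_comm, E5L.bil_single, Matrix.mulVec_single_one,
    Matrix.mulVec_single_one] at h1
  rw [Matrix.add_apply, Matrix.mul_diagonal, Matrix.diagonal_mul, Matrix.transpose_apply,
    Matrix.zero_apply]
  simp only [Matrix.col_apply] at h1
  linear_combination h1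

end G0X

open G0X in
/-- G0. -/
theorem G0_proof (hGb4 : Stmt_Gb4) (hK2a : Stmt_K2a) (hK2b : Stmt_K2b) (hK2c : Stmt_K2c)
    (hE2d : Stmt_E2d) (hE5a : Stmt_E5a) (hE5v : Stmt_E5v) (hP8b : Stmt_P8b) (hPQ : Stmt_PQ) :
    Stmt_G0 := by
  intro g A r h B D n m K hm
  have hm3 : ∀ i, 3 ≤ m i := fun i => by rcases hm i with h | h <;> omega
  obtain ⟨a1, a2, a3, -⟩ := hK2a (Idx g) (Gam A)
  refine ⟨?_, ?_, ?_, ?_, ?_, ?_⟩
  · rintro a b c ⟨Y, ξ, hY, hYa⟩ ⟨Y', ξ', hY', hYb⟩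
    refine ⟨Y + c • Y', ξ + c * ξ', a1 Y Y' ξ ξ' c hY hY', fun i v => ?_⟩
    rw [Q3.blk_add, Matrix.add_mulVec, Matrix.smul_mulVec, E8Y.cl_add, E8Y.cl_smul, ← hYa, ← hYb,
      Matrix.add_mul, Matrix.mul_add, Matrix.smul_mul, Matrix.mul_smul, smul_sub]
    abel
  · refine ⟨0, 0, a2, fun i v => ?_⟩
    rw [Q3.blk_zero, Matrix.zero_mulVec, E8Y.cl_zero, Matrix.zero_mul, Matrix.mul_zero, sub_zero]
  · rintro a b ⟨Y, ξ, hY, hYa⟩ ⟨Y', ξ', hY', hYb⟩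
    refine ⟨Y * Y' - Y' * Y, 0, a3 Y Y' ξ ξ' hY hY', fun i v => ?_⟩
    rw [Q3.blk_sub, Q3.blk_mul D hK2c i Y Y' ξ' hY', Q3.blk_mul D hK2c i Y' Y ξ hY, Matrix.sub_mulVec,
      ← Matrix.mulVec_mulVec, ← Matrix.mulVec_mulVec, E8Y.cl_sub, ← hYa, ← hYb, ← hYb, ← hYa]
    noncomm_ring
  · rintro σ a ⟨Y, ξ, hY, hYa⟩
    refine ⟨Y.map σ, σ ξ,
      hK2b (Idx g) (Gam A) (fun σ p hp q h1 h2 => hGb4 g A σ p hp q h1 h2) σ Y ξ hY, fun i w => ?_⟩
    have h1 := congrArg (fun Z : Matrix (Idx (h i)) (Idx (h i)) ℂ => Z.map σ)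
      (hYa i fun k => σ.symm (w k))
    have h3 : ∀ Z Z' : Matrix (Idx (h i)) (Idx (h i)) ℂ, (Z * Z').map σ = Z.map σ * Z'.map σ :=
      fun Z Z' => Matrix.map_mul (f := (σ : ℂ →+* ℂ))
    have h4 : ∀ Z Z' : Matrix (Idx (h i)) (Idx (h i)) ℂ, (Z - Z').map σ = Z.map σ - Z'.map σ := by
      intro Z Z'
      ext i j
      rw [Matrix.map_apply, Matrix.sub_apply, map_sub, Matrix.sub_apply, Matrix.map_apply,
        Matrix.map_apply]
    simp only [h4, h3] at h1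
    rw [← E5X.cl_map, ← E5X.cl_map] at h1
    have h5 : (fun i => σ (σ.symm (w i))) = w := by funext i; simp
    rw [h5] at h1
    rw [Q3.blk_map, h1]
    congr 1
    funext k
    simp only [Matrix.mulVec, dotProduct, map_sum, map_mul, Matrix.map_apply,
      AlgEquiv.apply_symm_apply]
  · rintro a ⟨Y, ξ, hY, hYa⟩ i
    have hX := Q3.blk_lie D hK2c Y ξ hY i
    exact ⟨skewC (K i) (bil_zero (K i) hE5a (hYa i)),
      (hE5v (h i) (B i) (n i) (m i) (K i) (hm3 i)).1 _ _ (hK2c (h i) (B i) _ ξ hX).1 (hYa i)⟩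
  · intro i a ha
    obtain ⟨-, -, -, hF, -⟩ := hPQ g A r h B D
    have hm5 : m i ≠ 5 := by rcases hm i with h | h <;> omega
    obtain ⟨X, ξ, ⟨Y, hY, rfl⟩, hXa⟩ := hP8b (h i) (B i) (D.L i) (hF i) (n i) (m i) (K i) (hm3 i) hm5 a ha
    have hex : ∀ j, ∃ b : Matrix (Fin (n j)) (Fin (n j)) ℂ, ∀ v,
        D.blk j Y * (K j).cl v - (K j).cl v * D.blk j Y = (K j).cl (b *ᵥ v) := fun j =>
      E8X.exists_mat (K j) (D.blk j Y)
        ((hE2d (h j) (B j) (n j) (m j) (K j)).2 _ ξ (Q3.blk_lie D hK2c Y ξ hY j))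
    choose b hb using hex
    refine ⟨b, ⟨Y, ξ, hY, hb⟩, ?_⟩
    refine E5L.mat_ext fun v => ?_
    have h1 := (hb i v).symm.trans (hXa v)
    have h2 := (hE5a (h i) (B i) (n i) (m i) (K i)).2.1 (b i *ᵥ v - a *ᵥ v) (by
      rw [E8Y.cl_sub, h1, sub_self])
    exact sub_eq_zero.1 h2

end Pool.Agent.K3P
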