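import Pool.Agent.K3P.StmtsG
import Pool.Agent.K3E.E5x
import Pool.Agent.K3E.E5d

/-!
# GA: an isometry between the spaces `T` gives an intertwining matrix
-/

set_option autoImplicit false

open scoped BigOperators
open Matrix

namespace Pool.Agent.K3P

open Pool.Agent.DRB Pool.Agent.K3D Pool.Agent.K3E

namespace GAX

/-- Abstract averaging. -/
theorem average {ι ι' : Type} [Fintype ι] [DecidableEq ι] [Fintype ι'] [DecidableEq ι'] {n : ℕ}
    (e : Fin n → Matrix ι ι ℂ) (e' : Fin n → Matrix ι' ι' ℂ) (q : Fin n → ℂ) (hq : ∀ i, q i ≠ 0)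
    (he : ∀ i, e i * e i = q i • 1) (he' : ∀ i, e' i * e' i = q i • 1)
    (ha : ∀ i j, i ≠ j → e i * e j = -(e j * e i)) (ha' : ∀ i j, i ≠ j → e' i * e' j = -(e' j * e' i))
    (F₀ : Matrix ι' ι ℂ) (hF₀ : F₀ ≠ 0) :
    ∃ F : Matrix ι' ι ℂ, F ≠ 0 ∧ ∀ i j, e' i * e' j * F = F * (e i * e j) := by
  rcases Nat.eq_zero_or_pos n with hn | hn
  · subst hn
    exact ⟨F₀, hF₀, fun i => i.elim0⟩
  set o : Fin n := ⟨0, hn⟩ with ho
  have step : ∀ k : ℕ, ∃ F : Matrix ι' ι ℂ, F ≠ 0 ∧ ∀ j : Fin n, j ≠ o → (j : ℕ) ≤ k →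
      e' o * e' j * F = F * (e o * e j) := by
    intro k
    induction k with
    | zero =>
      refine ⟨F₀, hF₀, fun j hj hj0 => ?_⟩
      exact absurd (Fin.ext (Nat.le_zero.1 hj0)) hj
    | succ k ih =>
      obtain ⟨F, hF, h1⟩ := ih
      by_cases hk : k + 1 < n
      swap
      · refine ⟨F, hF, fun j hj hjk => h1 j hj ?_⟩
        have := j.2
        omega
      set l : Fin n := ⟨k + 1, hk⟩ with hl
      have hlo : l ≠ o := by
        intro h
        have := congrArg Fin.val h
        simp [hl, ho] at this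
      set u := e o * e l with hu
      set u' := e' o * e' l with hu'
      have hq0 : q o * q l ≠ 0 := mul_ne_zero (hq _) (hq _)
      have huu : u * u = (-(q o * q l)) • 1 := by
        calc u * u = e o * (e l * e o) * e l := by rw [hu]; simp only [Matrix.mul_assoc]
          _ = e o * (-(e o * e l)) * e l := by rw [ha l o hlo]
          _ = -((e o * e o) * (e l * e l)) := by
              simp only [Matrix.mul_neg, Matrix.neg_mul, Matrix.mul_assoc]
          _ = _ := by
              rw [he, he, Matrix.smul_mul, Matrix.mul_smul, Matrix.one_mul, smul_smul, neg_smul]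
      have huu' : u' * u' = (-(q o * q l)) • 1 := by
        calc u' * u' = e' o * (e' l * e' o) * e' l := by rw [hu']; simp only [Matrix.mul_assoc]
          _ = e' o * (-(e' o * e' l)) * e' l := by rw [ha' l o hlo]
          _ = -((e' o * e' o) * (e' l * e' l)) := by
              simp only [Matrix.mul_neg, Matrix.neg_mul, Matrix.mul_assoc]
          _ = _ := by
              rw [he', he', Matrix.smul_mul, Matrix.mul_smul, Matrix.one_mul, smul_smul, neg_smul]
      -- commutation of the elements `e o * e j`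
      have hc : ∀ j, j ≠ o → j ≠ l → (e o * e j) * u = -(u * (e o * e j)) := by
        intro j hj hjl
        rw [hu]
        calc e o * e j * (e o * e l) = e o * (e j * e o) * e l := by simp only [Matrix.mul_assoc]
          _ = -(e o * e o * (e j * e l)) := by
              rw [ha j o hj]; simp only [Matrix.mul_neg, Matrix.neg_mul, Matrix.mul_assoc]
          _ = e o * e o * (e l * e j) := by rw [ha j l hjl, Matrix.mul_neg, neg_neg]
          _ = e o * (e o * e l) * e j := by simp only [Matrix.mul_assoc]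
          _ = e o * (-(e l * e o)) * e j := by rw [ha o l hlo.symm]
          _ = _ := by simp only [Matrix.mul_neg, Matrix.neg_mul, Matrix.mul_assoc]
      have hc' : ∀ j, j ≠ o → j ≠ l → (e' o * e' j) * u' = -(u' * (e' o * e' j)) := by
        intro j hj hjl
        rw [hu']
        calc e' o * e' j * (e' o * e' l) = e' o * (e' j * e' o) * e' l := by simp only [Matrix.mul_assoc]
          _ = -(e' o * e' o * (e' j * e' l)) := by
              rw [ha' j o hj]; simp only [Matrix.mul_neg, Matrix.neg_mul, Matrix.mul_assoc]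
          _ = e' o * e' o * (e' l * e' j) := by rw [ha' j l hjl, Matrix.mul_neg, neg_neg]
          _ = e' o * (e' o * e' l) * e' j := by simp only [Matrix.mul_assoc]
          _ = e' o * (-(e' l * e' o)) * e' j := by rw [ha' o l hlo.symm]
          _ = _ := by simp only [Matrix.mul_neg, Matrix.neg_mul, Matrix.mul_assoc]
      by_cases hG : -(q o * q l) • F + u' * F * u = 0
      · -- `u' F u⁻¹ = - F`
        have h2 : u' * F * u = (q o * q l) • F := by
          rw [neg_smul] at hG
          exact (eq_of_sub_eq_zero (by rw [← hG]; abel))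
        have h3 : u' * F = -(F * u) := by
          have h4 : u' * F * (u * u) = (q o * q l) • (F * u) := by
            rw [← Matrix.mul_assoc, h2, Matrix.smul_mul]
          rw [huu, Matrix.mul_smul, Matrix.mul_one, neg_smul] at h4
          have h5 : (q o * q l) • (u' * F) = (q o * q l) • (-(F * u)) := by
            rw [smul_neg, ← h4, neg_neg]
          exact smul_right_injective _ hq0 h5
        refine ⟨e' l * F, ?_, ?_⟩
        · intro h0
          apply hF
          have h4 : e' l * (e' l * F) = q l • F := by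
            rw [← Matrix.mul_assoc, he', Matrix.smul_mul, Matrix.one_mul]
          rw [h0, Matrix.mul_zero] at h4
          exact (smul_eq_zero.1 h4.symm).resolve_left (hq l)
        · intro j hj hjk
          by_cases hjl : j = l
          · rw [hjl]
            calc e' o * e' l * (e' l * F) = e' o * (e' l * e' l) * F := by simp only [Matrix.mul_assoc]
              _ = q l • (e' o * F) := by
                  rw [he', Matrix.mul_smul, Matrix.mul_one, Matrix.smul_mul]
              _ = e' l * (-(e' o * e' l * F)) := by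
                  rw [Matrix.mul_neg]
                  calc q l • (e' o * F) = (e' l * e' l) * e' o * F := by
                        rw [he', Matrix.smul_mul, Matrix.smul_mul, Matrix.one_mul]
                    _ = e' l * (e' l * e' o) * F := by simp only [Matrix.mul_assoc]
                    _ = e' l * (-(e' o * e' l)) * F := by rw [ha' l o hlo]
                    _ = _ := by simp only [Matrix.mul_neg, Matrix.neg_mul, Matrix.mul_assoc]
              _ = e' l * F * (e o * e l) := by
                  have h4 : e' o * e' l * F = -(F * (e o * e l)) := h3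
                  rw [h4, neg_neg, Matrix.mul_assoc]
          · have hj1 : (j : ℕ) ≤ k := by
              have h4 : (j : ℕ) ≠ k + 1 := fun h => hjl (Fin.ext h)
              omega
            have h4 := h1 j hj hj1
            have h5 : e' o * e' j * e' l = e' l * (e' o * e' j) := by
              calc e' o * e' j * e' l = e' o * (e' j * e' l) := by rw [Matrix.mul_assoc]
                _ = -(e' o * e' l * e' j) := by
                    rw [ha' j l hjl, Matrix.mul_neg, Matrix.mul_assoc]
                _ = e' l * e' o * e' j := by rw [ha' o l hlo.symm, Matrix.neg_mul, neg_neg]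
                _ = _ := by rw [Matrix.mul_assoc]
            rw [← Matrix.mul_assoc, h5, Matrix.mul_assoc, h4, Matrix.mul_assoc]
      · refine ⟨_, hG, fun j hj hjk => ?_⟩
        by_cases hjl : j = l
        · rw [hjl]
          show u' * _ = _ * u
          rw [Matrix.mul_add, Matrix.add_mul, Matrix.mul_smul, Matrix.smul_mul]
          have h4 : u' * (u' * F * u) = (-(q o * q l)) • (F * u) := by
            rw [Matrix.mul_assoc u' F u, ← Matrix.mul_assoc u' u' (F * u), huu', Matrix.smul_mul,
              Matrix.one_mul]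
          have h5 : u' * F * u * u = (-(q o * q l)) • (u' * F) := by
            rw [Matrix.mul_assoc (u' * F) u u, huu, Matrix.mul_smul, Matrix.mul_one]
          rw [h4, h5, add_comm]
        · have hj1 : (j : ℕ) ≤ k := by
            have h4 : (j : ℕ) ≠ k + 1 := fun h => hjl (Fin.ext h)
            omega
          have h4 := h1 j hj hj1
          have h5 := hc j hj hjl
          have h6 := hc' j hj hjl
          rw [Matrix.mul_add, Matrix.add_mul, Matrix.mul_smul, Matrix.smul_mul, h4]
          congr 1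
          calc e' o * e' j * (u' * F * u) = (e' o * e' j * u') * F * u := by simp only [Matrix.mul_assoc]
            _ = -(u' * (e' o * e' j * F) * u) := by
                rw [h6]; simp only [Matrix.neg_mul, Matrix.mul_assoc]
            _ = -(u' * F * (e o * e j * u)) := by rw [h4]; simp only [Matrix.mul_assoc]
            _ = _ := by rw [h5]; simp only [Matrix.mul_neg, neg_neg, Matrix.mul_assoc]
  obtain ⟨F, hF, h1⟩ := step n
  have h2 : ∀ j, e' o * e' j * F = F * (e o * e j) := by
    intro j
    by_cases hj : j = o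
    · rw [hj, he, he', Matrix.smul_mul, Matrix.one_mul, Matrix.mul_smul, Matrix.mul_one]
    · exact h1 j hj j.2.le
  refine ⟨F, hF, fun i j => ?_⟩
  by_cases hi : i = o
  · rw [hi]; exact h2 j
  · have h3 : e i * e j = (-(q o))⁻¹ • ((e o * e i) * (e o * e j)) := by
      have h4 : (e o * e i) * (e o * e j) = (-(q o)) • (e i * e j) := by
        calc (e o * e i) * (e o * e j) = e o * (e i * e o) * e j := by simp only [Matrix.mul_assoc]
          _ = -((e o * e o) * (e i * e j)) := by
              rw [ha i o hi]; simp only [Matrix.mul_neg, Matrix.neg_mul, Matrix.mul_assoc]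
          _ = _ := by rw [he, Matrix.smul_mul, Matrix.one_mul, neg_smul]
      rw [h4, smul_smul, inv_mul_cancel₀ (neg_ne_zero.2 (hq o)), one_smul]
    have h3' : e' i * e' j = (-(q o))⁻¹ • ((e' o * e' i) * (e' o * e' j)) := by
      have h4 : (e' o * e' i) * (e' o * e' j) = (-(q o)) • (e' i * e' j) := by
        calc (e' o * e' i) * (e' o * e' j) = e' o * (e' i * e' o) * e' j := by simp only [Matrix.mul_assoc]
          _ = -((e' o * e' o) * (e' i * e' j)) := by
              rw [ha' i o hi]; simp only [Matrix.mul_neg, Matrix.neg_mul, Matrix.mul_assoc]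
          _ = _ := by rw [he', Matrix.smul_mul, Matrix.one_mul, neg_smul]
      rw [h4, smul_smul, inv_mul_cancel₀ (neg_ne_zero.2 (hq o)), one_smul]
    rw [h3, h3', Matrix.smul_mul, Matrix.mul_smul]
    congr 1
    rw [Matrix.mul_assoc, h2 j, ← Matrix.mul_assoc, h2 i, Matrix.mul_assoc]

section kse

open E5X

theorem cl_sumc {g n m : ℕ} {A : AbVar g} (K : KSE A n m) {κ : Type} (s : Finset κ) (c : κ → ℂ)
    (f : κ → (Fin n → ℂ)) : K.cl (∑ k ∈ s, c k • f k) = ∑ k ∈ s, c k • K.cl (f k) := by
  classical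
  induction s using Finset.induction_on with
  | empty => rw [Finset.sum_empty, Finset.sum_empty, cl_zero]
  | insert k s hk ih => rw [Finset.sum_insert hk, Finset.sum_insert hk, cl_add, cl_smul, ih]

theorem vec_sum {n : ℕ} (v : Fin n → ℂ) : v = ∑ k, v k • (Pi.single k 1 : Fin n → ℂ) := by
  funext j
  rw [Finset.sum_apply, Finset.sum_eq_single j]
  · simp
  · intro k _ hk
    rw [Pi.smul_apply, Pi.single_eq_of_ne (Ne.symm hk), smul_zero]
  · intro h
    exact absurd (Finset.mem_univ j) h

variable {g g' : ℕ} {A : AbVar g} {A' : AbVar g'} {n m n' m' : ℕ} (K : KSE A n m) (K' : KSE A' n' m')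
  (Ψ : (Fin n → ℂ) ≃ₗ[ℂ] (Fin n' → ℂ)) (hΨ : ∀ v w, K'.bil (Ψ v) (Ψ w) = K.bil v w)

include hΨ

/-- the canonical tensor in the basis `Ψ e_k` -/
theorem tensor (i j : Fin n') : ∑ k, ((K.q k : ℂ))⁻¹ * (Ψ (Pi.single k 1)) i * (Ψ (Pi.single k 1)) j =
    if i = j then ((K'.q i : ℂ))⁻¹ else 0 := by
  have hq : ∀ k, (K.q k : ℂ) ≠ 0 := fun k => by exact_mod_cast K.q_ne k
  have hq' : ∀ k, (K'.q k : ℂ) ≠ 0 := fun k => by exact_mod_cast K'.q_ne k
  set x := Ψ.symm (Pi.single i 1) with hx
  have h1 : ∀ k, x k = ((K.q k : ℂ))⁻¹ * ((K'.q i : ℂ) * (Ψ (Pi.single k 1)) i) := by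
    intro k
    have h2 : K.bil x (Pi.single k 1) = (K'.q i : ℂ) * (Ψ (Pi.single k 1)) i := by
      rw [← hΨ, hx, LinearEquiv.apply_symm_apply]
      exact E5dX.bil_single K' i _
    have h3 : K.bil x (Pi.single k 1) = (K.q k : ℂ) * x k := by
      rw [E5X.bil_comm]
      exact E5dX.bil_single K k x
    rw [← h2, h3, ← mul_assoc, inv_mul_cancel₀ (hq k), one_mul]
  have h2 : Ψ x = ∑ k, x k • Ψ (Pi.single k 1) := by
    conv_lhs => rw [vec_sum x]
    rw [map_sum]
    exact Finset.sum_congr rfl fun k _ => by rw [map_smul]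
  have h3 : (Pi.single i 1 : Fin n' → ℂ) j = ∑ k, x k * (Ψ (Pi.single k 1)) j := by
    have h4 : Ψ x = Pi.single i 1 := by rw [hx, LinearEquiv.apply_symm_apply]
    rw [← h4, h2, Finset.sum_apply]
    exact Finset.sum_congr rfl fun k _ => by rw [Pi.smul_apply, smul_eq_mul]
  have h4 : ∑ k, ((K.q k : ℂ))⁻¹ * (Ψ (Pi.single k 1)) i * (Ψ (Pi.single k 1)) j =
      (K'.q i : ℂ)⁻¹ * ∑ k, x k * (Ψ (Pi.single k 1)) j := by
    rw [Finset.mul_sum]
    refine Finset.sum_congr rfl fun k _ => ?_
    rw [h1 k]
    have := hq' i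
    field_simp
  rw [h4, ← h3]
  by_cases hij : i = j
  · rw [if_pos hij, hij, Pi.single_eq_same, mul_one]
  · rw [if_neg hij, Pi.single_eq_of_ne (Ne.symm hij), mul_zero]

theorem Z_eq (a' : Matrix (Fin n') (Fin n') ℂ) : K'.Z a' =
    ∑ k, ((4 * (K.q k : ℂ))⁻¹) • (K'.cl (a' *ᵥ Ψ (Pi.single k 1)) * K'.cl (Ψ (Pi.single k 1))) := by
  have h1 : ∀ k, K'.cl (a' *ᵥ Ψ (Pi.single k 1)) * K'.cl (Ψ (Pi.single k 1)) =
      ∑ i, ∑ j, ((Ψ (Pi.single k 1)) i * (Ψ (Pi.single k 1)) j) •
        (K'.cl (a' *ᵥ Pi.single i 1) * K'.cl (Pi.single j 1)) := by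
    intro k
    set u := Ψ (Pi.single k 1) with hu
    have h2 : a' *ᵥ u = ∑ i, u i • (a' *ᵥ (Pi.single i 1 : Fin n' → ℂ)) := by
      conv_lhs => rw [vec_sum u]
      rw [Matrix.mulVec_sum]
      exact Finset.sum_congr rfl fun i _ => by rw [Matrix.mulVec_smul]
    rw [h2, cl_sumc]
    conv_lhs => rw [vec_sum u]
    rw [cl_sumc, Finset.sum_mul]
    refine Finset.sum_congr rfl fun i _ => ?_
    rw [Finset.mul_sum]
    refine Finset.sum_congr rfl fun j _ => ?_
    rw [← vec_sum u, Matrix.smul_mul, Matrix.mul_smul, smul_smul]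
  have h2 : ∑ k, ((4 * (K.q k : ℂ))⁻¹) • (K'.cl (a' *ᵥ Ψ (Pi.single k 1)) * K'.cl (Ψ (Pi.single k 1))) =
      ∑ i, ∑ j, ((4 : ℂ)⁻¹ * ∑ k, ((K.q k : ℂ))⁻¹ * (Ψ (Pi.single k 1)) i * (Ψ (Pi.single k 1)) j) •
        (K'.cl (a' *ᵥ Pi.single i 1) * K'.cl (Pi.single j 1)) := by
    calc _ = ∑ k, ∑ i, ∑ j, ((4 * (K.q k : ℂ))⁻¹ * ((Ψ (Pi.single k 1)) i * (Ψ (Pi.single k 1)) j)) •
          (K'.cl (a' *ᵥ Pi.single i 1) * K'.cl (Pi.single j 1)) := by
          refine Finset.sum_congr rfl fun k _ => ?_
          rw [h1, Finset.smul_sum]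
          refine Finset.sum_congr rfl fun i _ => ?_
          rw [Finset.smul_sum]
          exact Finset.sum_congr rfl fun j _ => by rw [smul_smul]
      _ = ∑ i, ∑ k, ∑ j, ((4 * (K.q k : ℂ))⁻¹ * ((Ψ (Pi.single k 1)) i * (Ψ (Pi.single k 1)) j)) •
          (K'.cl (a' *ᵥ Pi.single i 1) * K'.cl (Pi.single j 1)) := Finset.sum_comm
      _ = _ := by
          refine Finset.sum_congr rfl fun i _ => ?_
          rw [Finset.sum_comm]
          refine Finset.sum_congr rfl fun j _ => ?_
          rw [← Finset.sum_smul]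
          congr 1
          rw [Finset.mul_sum]
          refine Finset.sum_congr rfl fun k _ => ?_
          rw [mul_inv]
          ring
  rw [h2]
  unfold KSE.Z
  refine Finset.sum_congr rfl fun i _ => ?_
  rw [Finset.sum_eq_single i]
  · rw [tensor K K' Ψ hΨ, if_pos rfl, mul_inv]
  · intro j _ hj
    rw [tensor K K' Ψ hΨ, if_neg (Ne.symm hj), mul_zero, zero_smul]
  · intro h
    exact absurd (Finset.mem_univ i) h

end kse

end GAX

open GAX E5X in
theorem GA_proof : Stmt_GA := by
  intro g g' A A' n m n' m' K K' Ψ hΨ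
  have hq : ∀ k, (K.q k : ℂ) ≠ 0 := fun k => by exact_mod_cast K.q_ne k
  have hbs : ∀ i j, K.bil (Pi.single i 1) (Pi.single j 1) = if i = j then (K.q i : ℂ) else 0 := by
    intro i j
    rw [E5dX.bil_single]
    by_cases h : i = j
    · rw [if_pos h, h, Pi.single_eq_same, mul_one]
    · rw [if_neg h, Pi.single_eq_of_ne h, mul_zero]
  have hne : (Matrix.of fun (_ : Idx g') (_ : Idx g) => (1 : ℂ)) ≠ 0 := by
    intro h
    have h1 := congrFun (congrFun h (Sum.inl ⟨0, K'.pos⟩)) (Sum.inl ⟨0, K.pos⟩)
    exact one_ne_zero h1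
  obtain ⟨F, hF, h1⟩ := average (fun i => K.cl (Pi.single i 1)) (fun i => K'.cl (Ψ (Pi.single i 1)))
    (fun i => (K.q i : ℂ)) hq
    (fun i => by
      rw [sq (rel K), hbs, if_pos rfl])
    (fun i => by
      rw [sq (rel K'), hΨ, hbs, if_pos rfl])
    (fun i j hij => anti (rel K) _ _ (by rw [hbs, if_neg hij]))
    (fun i j hij => anti (rel K') _ _ (by rw [hΨ, hbs, if_neg hij]))
    _ hne
  have hmul : ∀ v w, K'.cl (Ψ v) * K'.cl (Ψ w) * F = F * (K.cl v * K.cl w) := by
    intro v w
    have hv : Ψ v = ∑ i, v i • Ψ (Pi.single i 1) := by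
      conv_lhs => rw [vec_sum v]
      rw [map_sum]
      exact Finset.sum_congr rfl fun k _ => by rw [map_smul]
    have hw : Ψ w = ∑ i, w i • Ψ (Pi.single i 1) := by
      conv_lhs => rw [vec_sum w]
      rw [map_sum]
      exact Finset.sum_congr rfl fun k _ => by rw [map_smul]
    rw [hv, hw, cl_sumc, cl_sumc]
    conv_rhs => rw [vec_sum v, vec_sum w, cl_sumc, cl_sumc]
    simp only [Matrix.sum_mul, Matrix.mul_sum, Matrix.smul_mul, Matrix.mul_smul]
    simp only [h1]
  refine ⟨F, hF, hmul, fun a a' ha => ?_⟩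
  rw [Z_eq K K' Ψ hΨ a', Matrix.sum_mul]
  unfold KSE.Z
  rw [Matrix.mul_sum]
  refine Finset.sum_congr rfl fun k _ => ?_
  rw [Matrix.smul_mul, ha, hmul, Matrix.mul_smul]

end Pool.Agent.K3P
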