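import Pool.Agent.K3P.StmtsG
import Pool.Agent.K3E.E8b

/-!
# GP: the real places where the forms are indefinite, for a pair of factors
-/

open scoped BigOperators
open Matrix Polynomial

namespace Pool.Agent.K3P

open Pool.Agent.DRB Pool.Agent.K3D Pool.Agent.K3E Pool.Agent.K3D.K7w Pool.Agent.K3D.K7x

noncomputable section

namespace GPX

open K8X (exp_ofReal)
open K8Y (exp_gen)

/-- hyperbolic parts from hyperbolic logarithms -/
theorem hypPart_of_log {n : ℕ} {a h : Matrix (Fin n) (Fin n) ℝ} (hl : IsHypLog (NormedSpace.exp a) h) :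
    IsHypPart a h := by
  rintro β v ⟨k, hk⟩
  have h1 := exp_gen (a.map Complex.ofReal) β k v hk
  rw [← exp_ofReal] at h1
  have h2 := hl (Complex.exp β) v ⟨k, h1⟩
  rw [Complex.norm_exp, Real.log_exp] at h2
  exact h2

section one

variable {g n m : ℕ} {A : AbVar g} (K : KSE A n m)

/-- the real form -/
def qR : Fin n → ℝ := fun i => (K.q i : ℝ)

include K in
theorem n_ge (hm : 3 ≤ m) : 2 ≤ n := by
  have h1 := K.dim
  have h2 : 0 < K.P.natDegree := K.irr.natDegree_pos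
  nlinarith

/-- the sign -/
theorem exists_eps : ∃ ε : ℝ, (ε = 1 ∨ ε = -1) ∧
    (∀ i : Fin n, (i : ℕ) < 2 → 0 < ε * qR K i) ∧ (∀ i : Fin n, 2 ≤ (i : ℕ) → ε * qR K i < 0) ∧
    ∀ v : Fin n → ℝ, (∀ x ∈ E8Y.V0 K, ∑ i, qR K i * x i * v i = 0) → v ≠ 0 →
      ε * ∑ i, qR K i * v i * v i < 0 := by
  have hcast : ∀ i, (0 < qR K i ↔ 0 < K.q i) ∧ (qR K i < 0 ↔ K.q i < 0) := by
    intro i
    simp only [qR]
    constructor
    · exact_mod_cast Iff.rfl
    · exact_mod_cast Iff.rfl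
  have hp : ∀ v : Fin n → ℝ, (∀ x ∈ E8Y.V0 K, ∑ i, qR K i * x i * v i = 0) →
      ∀ w : Fin n → ℝ, (K.th.map (fun x => (x : ℝ))) *ᵥ w = K.lam • w →
        ∑ i, (K.q i : ℝ) * v i * w i = 0 := by
    intro v hv w hw
    rw [← hv w hw]
    exact Finset.sum_congr rfl fun i _ => by simp only [qR]; ring
  rcases K.sig with ⟨hs, hs2⟩ | ⟨hs, hs2⟩
  · refine ⟨1, Or.inl rfl, ?_, ?_, ?_⟩
    · intro i hi
      rw [one_mul, (hcast i).1, hs]; exact hi
    · intro i hi
      have h1 : ¬ 0 < K.q i := by rw [hs]; omega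
      rw [one_mul, (hcast i).2]
      exact lt_of_le_of_ne (not_lt.1 h1) (K.q_ne i)
    · intro v hv hv0
      rw [one_mul]
      exact hs2 v hv0 (hp v hv)
  · refine ⟨-1, Or.inr rfl, ?_, ?_, ?_⟩
    · intro i hi
      have h1 : qR K i < 0 := by rw [(hcast i).2, hs]; exact hi
      linarith
    · intro i hi
      have h1 : ¬ K.q i < 0 := by rw [hs]; omega
      have h2 : 0 < qR K i := by
        rw [(hcast i).1]
        exact lt_of_le_of_ne (not_lt.1 h1) (K.q_ne i).symm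
      linarith
    · intro v hv hv0
      have h1 := hs2 v hv0 (hp v hv)
      have h2 : ∑ i, qR K i * v i * v i = ∑ i, (K.q i : ℝ) * v i * v i := rfl
      rw [h2]
      linarith

/-- the data of one factor -/
structure Data (ε : ℝ) : Prop where
  e0 : ε = 1 ∨ ε = -1
  symm : ∀ x y, B0 (Bq fun i => ε * qR K i) (E8Y.V0 K) x y = B0 (Bq fun i => ε * qR K i) (E8Y.V0 K) y x
  nondeg : ∀ x, (∀ y, B0 (Bq fun i => ε * qR K i) (E8Y.V0 K) x y = 0) → x = 0
  pos : ∃ x y, 0 < B0 (Bq fun i => ε * qR K i) (E8Y.V0 K) x x ∧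
    0 < B0 (Bq fun i => ε * qR K i) (E8Y.V0 K) y y ∧ B0 (Bq fun i => ε * qR K i) (E8Y.V0 K) x y = 0 ∧
    ∀ z, z ≠ 0 → B0 (Bq fun i => ε * qR K i) (E8Y.V0 K) x z = 0 →
      B0 (Bq fun i => ε * qR K i) (E8Y.V0 K) y z = 0 →
      B0 (Bq fun i => ε * qR K i) (E8Y.V0 K) z z < 0

theorem exists_data (hm : 3 ≤ m) : ∃ ε, Data K ε := by
  obtain ⟨ε, hε, hqpos, hqneg, hneg'⟩ := exists_eps K
  have hε0 : ε ≠ 0 := by rcases hε with h | h <;> rw [h] <;> norm_num
  refine ⟨ε, ?_⟩
  set B := Bq fun i => ε * qR K i with hB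
  have hsum : ∀ x y : Fin n → ℝ, B x y = ε * ∑ i, qR K i * x i * y i := by
    intro x y
    rw [hB, Bq_apply, Finset.mul_sum]
    exact Finset.sum_congr rfl fun i _ => by ring
  have hsymm : ∀ x y, B x y = B y x := Bq_symm
  have hneg : ∀ v : Fin n → ℝ, (∀ x ∈ E8Y.V0 K, B x v = 0) → 0 ≤ B v v → v = 0 := by
    intro v hv h0
    by_contra hne
    have h1 := hneg' v (fun x hx => by
      have := hv x hx
      rw [hsum] at this
      exact (mul_eq_zero.1 this).resolve_left hε0) hne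
    rw [hsum] at h0
    linarith
  have hnd : ∀ x ∈ E8Y.V0 K, (∀ y ∈ E8Y.V0 K, B x y = 0) → x = 0 := by
    intro x hx h
    exact hneg x (fun y hy => by rw [hsymm]; exact h y hy) (h x hx).ge
  have hsig := sigq (n_ge K hm) hqpos hqneg
  have hdec : ∀ v, ∃ v0 ∈ E8Y.V0 K, ∃ v1, (∀ x ∈ E8Y.V0 K, B x v1 = 0) ∧ v = v0 + v1 := by
    have hrefl : (LinearMap.BilinForm.restrict B (E8Y.V0 K)).Nondegenerate := by
      refine ⟨?_, ?_⟩
      · intro x hx
        exact Subtype.ext (hnd x x.2 fun y hy => hx ⟨y, hy⟩)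
      · intro x hx
        exact Subtype.ext (hnd x x.2 fun y hy => by rw [hsymm]; exact hx ⟨y, hy⟩)
    have hcompl := LinearMap.BilinForm.isCompl_orthogonal_of_restrict_nondegenerate
      (B := B) (W := E8Y.V0 K) (fun x y h => by rw [hsymm]; exact h) hrefl
    intro v
    have htop : v ∈ E8Y.V0 K ⊔ LinearMap.BilinForm.orthogonal B (E8Y.V0 K) := by
      rw [hcompl.sup_eq_top]; exact Submodule.mem_top
    obtain ⟨k, hk, k', hk', hkk⟩ := Submodule.mem_sup.1 htop
    exact ⟨k, hk, k', fun x hx => hk' x hx, hkk.symm⟩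
  refine ⟨hε, fun x y => hsymm _ _, fun x hx => Subtype.ext (hnd x x.2 fun y hy => hx ⟨y, hy⟩), ?_⟩
  have hn2 := n_ge K hm
  let i0 : Fin n := ⟨0, by omega⟩
  let i1 : Fin n := ⟨1, by omega⟩
  have hi01 : i0 ≠ i1 := by
    intro h
    have := congrArg Fin.val h
    simp [i0, i1] at this
  obtain ⟨p0, hp0, r0, hr0, e0⟩ := hdec (Pi.single i0 1)
  obtain ⟨p1, hp1, r1, hr1, e1⟩ := hdec (Pi.single i1 1)
  have hle : ∀ v, (∀ x ∈ E8Y.V0 K, B x v = 0) → B v v ≤ 0 := by
    intro v hv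
    by_contra hcon
    rw [hneg v hv (not_le.1 hcon).le] at hcon
    exact hcon (by simp)
  have gen : ∀ P Q, B P Q = 0 → B Q P = 0 → B (P + Q) (P + Q) = B P P + B Q Q := by
    intro P Q h h'
    simp only [map_add, LinearMap.add_apply, h, h']
    ring
  -- positivity on combinations
  have hposc : ∀ c0 c1 : ℝ, (c0 ≠ 0 ∨ c1 ≠ 0) → 0 < B (c0 • p0 + c1 • p1) (c0 • p0 + c1 • p1) := by
    intro c0 c1 hc
    have h1 : B (c0 • r0 + c1 • r1) (c0 • r0 + c1 • r1) ≤ 0 := hle _ fun x hx => by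
      rw [map_add, map_smul, map_smul, hr0 x hx, hr1 x hx, smul_zero, smul_zero, add_zero]
    have h2 : B (c0 • p0 + c1 • p1) (c0 • r0 + c1 • r1) = 0 := by
      have hx : c0 • p0 + c1 • p1 ∈ E8Y.V0 K :=
        Submodule.add_mem _ (Submodule.smul_mem _ _ hp0) (Submodule.smul_mem _ _ hp1)
      rw [map_add, map_smul, map_smul, hr0 _ hx, hr1 _ hx, smul_zero, smul_zero, add_zero]
    have h3 : B (c0 • r0 + c1 • r1) (c0 • p0 + c1 • p1) = 0 := by rw [hsymm]; exact h2
    have h4 : c0 • (Pi.single i0 (1 : ℝ) : Fin n → ℝ) + c1 • Pi.single i1 (1 : ℝ) =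
        (c0 • p0 + c1 • p1) + (c0 • r0 + c1 • r1) := by
      rw [e0, e1]; module
    have h5 : B (c0 • (Pi.single i0 (1 : ℝ) : Fin n → ℝ) + c1 • Pi.single i1 (1 : ℝ))
        (c0 • (Pi.single i0 (1 : ℝ) : Fin n → ℝ) + c1 • Pi.single i1 (1 : ℝ)) =
        c0 * c0 * (ε * qR K i0) + c1 * c1 * (ε * qR K i1) := by
      simp only [map_add, map_smul, LinearMap.add_apply, LinearMap.smul_apply, smul_eq_mul, hB,
        Bq_single_left, Pi.single_eq_same, Pi.single_eq_of_ne hi01, Pi.single_eq_of_ne (Ne.symm hi01)]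
      ring
    have h6 : B (c0 • (Pi.single i0 (1 : ℝ) : Fin n → ℝ) + c1 • Pi.single i1 (1 : ℝ))
        (c0 • (Pi.single i0 (1 : ℝ) : Fin n → ℝ) + c1 • Pi.single i1 (1 : ℝ)) =
        B (c0 • p0 + c1 • p1) (c0 • p0 + c1 • p1) + B (c0 • r0 + c1 • r1) (c0 • r0 + c1 • r1) := by
      rw [h4]
      exact gen _ _ h2 h3
    have h7 : 0 < c0 * c0 * (ε * qR K i0) + c1 * c1 * (ε * qR K i1) := by
      have ha := hqpos i0 (by simp [i0])
      have hb := hqpos i1 (by simp [i1])
      rcases hc with h | h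
      · have := mul_pos (mul_self_pos.2 h) ha
        have := mul_nonneg (mul_self_nonneg c1) hb.le
        linarith
      · have := mul_pos (mul_self_pos.2 h) hb
        have := mul_nonneg (mul_self_nonneg c0) ha.le
        linarith
    rw [← h5, h6] at h7
    linarith
  have hp00 : 0 < B p0 p0 := by
    have := hposc 1 0 (Or.inl one_ne_zero)
    simpa using this
  set t := B p0 p1 / B p0 p0 with ht
  have hy : p1 - t • p0 ∈ E8Y.V0 K := Submodule.sub_mem _ hp1 (Submodule.smul_mem _ _ hp0)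
  have hxy : B p0 (p1 - t • p0) = 0 := by
    rw [map_sub, map_smul, smul_eq_mul, ht]
    field_simp
    ring
  have hyy : 0 < B (p1 - t • p0) (p1 - t • p0) := by
    have := hposc (-t) 1 (Or.inr one_ne_zero)
    have e : (-t) • p0 + (1 : ℝ) • p1 = p1 - t • p0 := by module
    rwa [e] at this
  refine ⟨⟨p0, hp0⟩, ⟨_, hy⟩, hp00, hyy, hxy, ?_⟩
  rintro ⟨z, hz⟩ hz0 h1 h2
  have hz0' : z ≠ 0 := fun h => hz0 (Subtype.ext h)
  have h1' : B p0 z = 0 := h1
  have h2' : B (p1 - t • p0) z = 0 := h2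
  show B z z < 0
  by_contra hcon
  have hcon := not_lt.1 hcon
  generalize p1 - t • p0 = y at *
  have s1 : B z p0 = 0 := by rw [hsymm]; exact h1'
  have s2 : B z y = 0 := by rw [hsymm]; exact h2'
  have s3 : B y p0 = 0 := by rw [hsymm]; exact hxy
  have hli : LinearIndependent ℝ ![p0, y, z] := by
    rw [Fintype.linearIndependent_iff]
    intro g hg
    simp only [Fin.sum_univ_three, Matrix.cons_val_zero, Matrix.cons_val_one,
      Matrix.cons_val_two, Matrix.head_cons, Matrix.tail_cons] at hg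
    have g0 : g 0 = 0 := by
      have := congrArg (fun x => B p0 x) hg
      simp only [map_add, map_smul, smul_eq_mul, hxy, h1', mul_zero, add_zero, map_zero] at this
      exact (mul_eq_zero.1 this).resolve_right hp00.ne'
    have g1 : g 1 = 0 := by
      have := congrArg (fun x => B y x) hg
      simp only [map_add, map_smul, smul_eq_mul, s3, h2', mul_zero, add_zero, map_zero,
        zero_add] at this
      exact (mul_eq_zero.1 this).resolve_right hyy.ne'
    rw [g0, g1, zero_smul, zero_smul, zero_add, zero_add, smul_eq_zero] at hg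
    intro i
    fin_cases i
    · exact g0
    · exact g1
    · exact hg.resolve_right hz0'
  obtain ⟨c, hc⟩ := hsig _ hli
  have hc' : B (∑ i, c i • (![p0, y, z] : Fin 3 → Fin n → ℝ) i)
      (∑ i, c i • (![p0, y, z] : Fin 3 → Fin n → ℝ) i) < 0 := hc
  simp only [Fin.sum_univ_three, Matrix.cons_val_zero, Matrix.cons_val_one,
    Matrix.cons_val_two, Matrix.head_cons, Matrix.tail_cons, map_add, map_smul,
    LinearMap.add_apply, LinearMap.smul_apply, smul_eq_mul, hxy, h1', h2', s1, s2, s3] at hc'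
  nlinarith [mul_nonneg (mul_self_nonneg (c 2)) hcon, mul_nonneg (mul_self_nonneg (c 0)) hp00.le,
    mul_nonneg (mul_self_nonneg (c 1)) hyy.le]

/-- real elements of `S` preserve `V0` -/
theorem pres {a : Matrix (Fin n) (Fin n) ℝ} (ha : a.map Complex.ofReal ∈ K.S) {v : Fin n → ℝ}
    (hv : v ∈ E8Y.V0 K) : a *ᵥ v ∈ E8Y.V0 K := by
  have hvC : (fun i => (v i : ℂ)) ∈ K.Tl (K.lam : ℂ) := by
    rw [← E8Y.cplx_V0, mem_cplx]
    refine ⟨by simpa using hv, ?_⟩
    have : (fun i : Fin n => ((v i : ℂ)).im) = 0 := by funext i; simp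
    rw [this]; exact Submodule.zero_mem _
  have h1 := E5L.S_pres K ha hvC
  rw [← E8Y.cplx_V0, mem_cplx, E8Y.ofReal_mulVec] at h1
  simpa using h1.1

/-- real elements of `S` are skew -/
theorem skew {a : Matrix (Fin n) (Fin n) ℝ} (ha : a.map Complex.ofReal ∈ K.S) (ε : ℝ)
    (x y : Fin n → ℝ) : Bq (fun i => ε * qR K i) (a *ᵥ x) y + Bq (fun i => ε * qR K i) x (a *ᵥ y) = 0 := by
  have h1 : aᵀ * Matrix.diagonal (qR K) + Matrix.diagonal (qR K) * a = 0 := by
    ext i j
    have h2 := congrFun (congrFun ha.1 i) j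
    rw [Matrix.add_apply, Matrix.mul_diagonal, Matrix.diagonal_mul, Matrix.transpose_apply,
      Matrix.zero_apply] at h2 ⊢
    rw [Matrix.map_apply, Matrix.map_apply] at h2
    have h3 : ((a j i * qR K j + qR K i * a i j : ℝ) : ℂ) = 0 := by
      simp only [qR]
      push_cast
      exact h2
    exact_mod_cast h3
  have h2 : aᵀ * Matrix.diagonal (fun i => ε * qR K i) + Matrix.diagonal (fun i => ε * qR K i) * a = 0 := by
    have h3 : Matrix.diagonal (fun i => ε * qR K i) = ε • Matrix.diagonal (qR K) := by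
      rw [← Matrix.diagonal_smul]; rfl
    rw [h3, Matrix.mul_smul, Matrix.smul_mul, ← smul_add, h1, smul_zero]
  have h3 := Bq_skew h2 x y
  rw [Matrix.toLin'_apply, Matrix.toLin'_apply] at h3
  linarith

end one

section tup

variable {r : ℕ} {h : Fin r → ℕ} {B : ∀ i, AbVar (h i)} {n m : Fin r → ℕ}
  (K : ∀ i, KSE (B i) (n i) (m i)) {d : (∀ i, Matrix (Fin (n i)) (Fin (n i)) ℂ) → Prop}

/-- the real tuples, restricted to two real places -/
def lij (F : TupAlg K d) (i j : Fin r) :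
    Submodule ℝ (Module.End ℝ (E8Y.V0 (K i)) × Module.End ℝ (E8Y.V0 (K j))) where
  carrier := {p | ∃ a : (∀ k, Matrix (Fin (n k)) (Fin (n k)) ℝ), d (fun k => (a k).map Complex.ofReal) ∧
    (∀ x : E8Y.V0 (K i), (p.1 x : Fin (n i) → ℝ) = a i *ᵥ (x : Fin (n i) → ℝ)) ∧
    (∀ x : E8Y.V0 (K j), (p.2 x : Fin (n j) → ℝ) = a j *ᵥ (x : Fin (n j) → ℝ))}
  zero_mem' := by
    refine ⟨fun k => 0, ?_, fun x => ?_, fun x => ?_⟩
    · have h1 := F.zero
      convert h1 using 2 with k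
      ext i j; simp
    · simp
    · simp
  add_mem' := by
    rintro p p' ⟨a, ha, h1, h2⟩ ⟨b, hb, h3, h4⟩
    refine ⟨fun k => a k + b k, ?_, fun x => ?_, fun x => ?_⟩
    · have h5 := F.lin _ _ 1 ha hb
      convert h5 using 2 with k
      ext i j; simp
    · rw [Prod.fst_add, LinearMap.add_apply, Submodule.coe_add, h1, h3, Matrix.add_mulVec]
    · rw [Prod.snd_add, LinearMap.add_apply, Submodule.coe_add, h2, h4, Matrix.add_mulVec]
  smul_mem' := by
    rintro c p ⟨a, ha, h1, h2⟩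
    refine ⟨fun k => c • a k, ?_, fun x => ?_, fun x => ?_⟩
    · have h5 := F.lin _ _ c F.zero ha
      convert h5 using 2 with k
      ext i j; simp
    · rw [Prod.smul_fst, LinearMap.smul_apply, Submodule.coe_smul, h1, Matrix.smul_mulVec]
    · rw [Prod.smul_snd, LinearMap.smul_apply, Submodule.coe_smul, h2, Matrix.smul_mulVec]

/-- real tuples with given real component -/
theorem real_onto (F : TupAlg K d) (i : Fin r) {w : Matrix (Fin (n i)) (Fin (n i)) ℝ}
    (hw : w.map Complex.ofReal ∈ (K i).S) :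
    ∃ a : (∀ k, Matrix (Fin (n k)) (Fin (n k)) ℝ), d (fun k => (a k).map Complex.ofReal) ∧ a i = w := by
  obtain ⟨t, ht, hti⟩ := F.onto i _ hw
  refine ⟨fun k => (t k).map Complex.re, ?_, ?_⟩
  · have h1 := F.lin _ _ (1 / 2) F.zero (F.lin _ _ 1 ht (F.aut E8Y.cc0 t ht))
    convert h1 using 2 with k
    ext p q
    simp only [Matrix.map_apply, Matrix.add_apply, Matrix.smul_apply, Matrix.zero_apply, E8Y.cc0_apply,
      smul_eq_mul]
    rw [Complex.re_eq_add_conj]
    ring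
  · show (t i).map Complex.re = w
    rw [hti]
    ext p q; simp

/-- the real matrix of `x ∧ y` -/
def rm {g n m : ℕ} {A : AbVar g} (K : KSE A n m) (x y : Fin n → ℝ) : Matrix (Fin n) (Fin n) ℝ :=
  Matrix.of fun i j => x i * (qR K j * y j) - y i * (qR K j * x j)

theorem rm_mulVec {g n m : ℕ} {A : AbVar g} (K : KSE A n m) (x y v : Fin n → ℝ) :
    rm K x y *ᵥ v = (∑ i, qR K i * y i * v i) • x - (∑ i, qR K i * x i * v i) • y := by
  ext i
  simp only [Matrix.mulVec, dotProduct, rm, Matrix.of_apply, Pi.sub_apply, Pi.smul_apply,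
    smul_eq_mul, Finset.sum_mul]
  rw [← Finset.sum_sub_distrib]
  exact Finset.sum_congr rfl fun j _ => by ring

theorem rm_mem {g n m : ℕ} {A : AbVar g} (K : KSE A n m) {x y : Fin n → ℝ} (hx : x ∈ E8Y.V0 K)
    (hy : y ∈ E8Y.V0 K) : (rm K x y).map Complex.ofReal ∈ K.S := by
  have hC : ∀ v ∈ E8Y.V0 K, (fun i => (v i : ℂ)) ∈ K.Tl (K.lam : ℂ) := by
    intro v hv
    rw [← E8Y.cplx_V0, mem_cplx]
    refine ⟨by simpa using hv, ?_⟩
    have : (fun i : Fin n => ((v i : ℂ)).im) = 0 := by funext i; simp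
    rw [this]; exact Submodule.zero_mem _
  have h1 := E5L.wm_mem K (hC x hx) (hC y hy)
  convert h1 using 1
  ext i j
  simp only [rm, E5L.wm, Matrix.map_apply, Matrix.of_apply, qR]
  push_cast
  ring

/-- the first projection is onto -/
theorem onto1 (F : TupAlg K d) (i j : Fin r) {ε : ℝ} (D : Data (K i) ε)
    (a : Module.End ℝ (E8Y.V0 (K i)))
    (ha : ∀ x y, B0 (Bq fun k => ε * qR (K i) k) (E8Y.V0 (K i)) (a x) y +
      B0 (Bq fun k => ε * qR (K i) k) (E8Y.V0 (K i)) x (a y) = 0) :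
    ∃ a', (a, a') ∈ lij K F i j := by
  have h1 := span_of_nondeg (B := B0 (Bq fun k => ε * qR (K i) k) (E8Y.V0 (K i))) D.symm D.nondeg
    (Y := a) (fun x y => by have := ha x y; linarith)
  have h2 : Submodule.span ℝ {Z | ∃ x y, Z = wd (B0 (Bq fun k => ε * qR (K i) k) (E8Y.V0 (K i))) x y} ≤
      (lij K F i j).map (LinearMap.fst ℝ _ _) := by
    refine Submodule.span_le.2 ?_
    rintro _ ⟨x, y, rfl⟩
    obtain ⟨t, ht, hti⟩ := real_onto K F i (rm_mem (K i) x.2 y.2)
    have hp : ∀ v ∈ E8Y.V0 (K j), t j *ᵥ v ∈ E8Y.V0 (K j) := fun v hv => pres (K j) (F.mem _ ht j) hv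
    let a' : Module.End ℝ (E8Y.V0 (K j)) := (Matrix.toLin' (t j)).restrict (fun v hv => by
      rw [Matrix.toLin'_apply]; exact hp v hv)
    refine ⟨(wd (B0 (Bq fun k => ε * qR (K i) k) (E8Y.V0 (K i))) x y, ε • a'), ?_, rfl⟩
    refine ⟨fun k => ε • t k, ?_, fun v => ?_, fun v => ?_⟩
    · have h5 := F.lin _ _ ε F.zero ht
      convert h5 using 2 with k
      ext i j; simp
    · show ((wd (B0 (Bq fun k => ε * qR (K i) k) (E8Y.V0 (K i))) x y v : E8Y.V0 (K i)) : Fin (n i) → ℝ) =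
        (ε • t i) *ᵥ _
      rw [hti, Matrix.smul_mulVec, rm_mulVec, wd_apply]
      have e1 : ∀ u : E8Y.V0 (K i), B0 (Bq fun k => ε * qR (K i) k) (E8Y.V0 (K i)) u v =
          ε * ∑ k, qR (K i) k * (u : Fin (n i) → ℝ) k * (v : Fin (n i) → ℝ) k := by
        intro u
        rw [B0_apply, Bq_apply, Finset.mul_sum]
        exact Finset.sum_congr rfl fun k _ => by ring
      rw [e1, e1, Submodule.coe_sub, Submodule.coe_smul, Submodule.coe_smul]
      module
    · show ((ε • a') v : Fin (n j) → ℝ) = (ε • t j) *ᵥ _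
      rw [Matrix.smul_mulVec]
      rfl
  obtain ⟨⟨a1, a'⟩, hp, ha1⟩ := h2 h1
  have ha1' : a1 = a := ha1
  rw [ha1'] at hp
  exact ⟨a', hp⟩

/-- swapping -/
theorem lij_swap (F : TupAlg K d) (i j : Fin r) {a : Module.End ℝ (E8Y.V0 (K i))}
    {a' : Module.End ℝ (E8Y.V0 (K j))} (hp : (a, a') ∈ lij K F i j) : (a', a) ∈ lij K F j i := by
  obtain ⟨t, h1, h2, h3⟩ := hp
  exact ⟨t, h1, h3, h2⟩

/-- the pair hypotheses -/
theorem pairHyp (F : TupAlg K d) (Lg : TupLog d) (hm : ∀ i, m i = 3 ∨ 6 ≤ m i)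
    (hE5l : Stmt_E5l) (i j : Fin r) {ε ε' : ℝ} (D : Data (K i) ε) (D' : Data (K j) ε') :
    PairHyp (E8Y.V0 (K i)) (E8Y.V0 (K j)) (B0 (Bq fun k => ε * qR (K i) k) (E8Y.V0 (K i)))
      (B0 (Bq fun k => ε' * qR (K j) k) (E8Y.V0 (K j))) (lij K F i j) := by
  have hm3 : ∀ i, 3 ≤ m i := fun i => by rcases hm i with h | h <;> omega
  refine ⟨D.symm, D'.symm, D.nondeg, D'.nondeg, D.pos, D'.pos, ?_, ?_, ?_, ?_, ?_, ?_, ?_, ?_⟩
  · rw [E8Y.finrank_V0 (K i) (hm3 i) hE5l]; exact hm i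
  · rw [E8Y.finrank_V0 (K j) (hm3 j) hE5l]; exact hm j
  · rintro ⟨p, p'⟩ ⟨a, ha, h1, h2⟩ x y
    rw [B0_apply, B0_apply, h1, h1]
    exact skew (K i) (F.mem _ ha i) ε _ _
  · rintro ⟨p, p'⟩ ⟨a, ha, h1, h2⟩ x y
    rw [B0_apply, B0_apply, h2, h2]
    exact skew (K j) (F.mem _ ha j) ε' _ _
  · rintro ⟨p, p'⟩ ⟨a, ha, h1, h2⟩ ⟨s, s'⟩ ⟨b, hb, h3, h4⟩
    refine ⟨fun k => a k * b k - b k * a k, ?_, fun x => ?_, fun x => ?_⟩
    · have h5 := F.brk _ _ ha hb
      convert h5 using 2 with k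
      have e1 : ((a k * b k - b k * a k).map Complex.ofReal) =
          (a k * b k).map Complex.ofReal - (b k * a k).map Complex.ofReal := by
        ext i j; simp
      rw [e1, E8Y.map_mul_real, E8Y.map_mul_real]
    · show ((p * s - s * p) x : Fin (n i) → ℝ) = _
      rw [LinearMap.sub_apply, Module.End.mul_apply, Module.End.mul_apply, Submodule.coe_sub]
      dsimp only at h1 h3
      rw [h1, h3, h3, h1, Matrix.sub_mulVec, ← Matrix.mulVec_mulVec, ← Matrix.mulVec_mulVec]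
    · show ((p' * s' - s' * p') x : Fin (n j) → ℝ) = _
      rw [LinearMap.sub_apply, Module.End.mul_apply, Module.End.mul_apply, Submodule.coe_sub]
      dsimp only at h2 h4
      rw [h2, h4, h4, h2, Matrix.sub_mulVec, ← Matrix.mulVec_mulVec, ← Matrix.mulVec_mulVec]
  · exact fun a ha => onto1 K F i j D a ha
  · intro a ha
    obtain ⟨a', h1⟩ := onto1 K F j i D' a ha
    exact ⟨a', lij_swap K F j i h1⟩
  · rintro ⟨p, p'⟩ ⟨a, ha, h1, h2⟩ htop
    obtain ⟨u, hu, hul⟩ := Lg a ha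
    have hi := hypq (hypPart_of_log (hul i))
    have hj := hypq (hypPart_of_log (hul j))
    have hpj : ∀ v ∈ E8Y.V0 (K j), Matrix.toLin' (u j) v ∈ E8Y.V0 (K j) := fun v hv => by
      rw [Matrix.toLin'_apply]; exact pres (K j) (F.mem _ hu j) hv
    refine ⟨(Matrix.toLin' (u j)).restrict hpj, ⟨u, hu, ?_, fun x => ?_⟩, ?_⟩
    · intro x
      dsimp only
      have hx : x ∈ ⨆ c : ℝ, Module.End.eigenspace p c := by rw [htop]; exact Submodule.mem_top
      refine Submodule.iSup_induction _ (motive := fun x => (p x : Fin (n i) → ℝ) =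
        u i *ᵥ (x : Fin (n i) → ℝ)) hx ?_ ?_ ?_
      · intro c y hy
        rw [Module.End.mem_eigenspace_iff] at hy
        have h3 : Matrix.toLin' (a i) (y : Fin (n i) → ℝ) = c • (y : Fin (n i) → ℝ) := by
          rw [Matrix.toLin'_apply, ← h1]
          show (p y : Fin (n i) → ℝ) = _
          rw [hy]; rfl
        have h4 := hi.2 c _ h3
        rw [Matrix.toLin'_apply] at h4
        rw [h4, hy]; rfl
      · rw [map_zero, Submodule.coe_zero, Matrix.mulVec_zero]
      · intro y z hy hz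
        rw [map_add, Submodule.coe_add, hy, hz, Submodule.coe_add, Matrix.mulVec_add]
    · rfl
    · exact Module.End.genEigenspace_restrict_eq_top (f := Matrix.toLin' (u j)) (k := 1) hpj hj.1

end tup

end GPX

open GPX in
/-- GP. -/
theorem GP_proof (hPR : Stmt_PR) (hE5l : Stmt_E5l) : Stmt_GP := by
  intro r h B n m K d F Lg hm i j hij
  have hm3 : ∀ i, 3 ≤ m i := fun i => by rcases hm i with h | h <;> omega
  obtain ⟨ε, D⟩ := exists_data (K i) (hm3 i)
  obtain ⟨ε', D'⟩ := exists_data (K j) (hm3 j)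
  have hε0 : ε * ε = 1 := by rcases D.e0 with h | h <;> rw [h] <;> norm_num
  have hε0' : ε' * ε' = 1 := by rcases D'.e0 with h | h <;> rw [h] <;> norm_num
  have hsum : ∀ x y : Fin (n i) → ℝ, Bq (fun k => ε * qR (K i) k) x y =
      ε * ∑ k, qR (K i) k * x k * y k := by
    intro x y
    rw [Bq_apply, Finset.mul_sum]
    exact Finset.sum_congr rfl fun k _ => by ring
  have hsum' : ∀ x y : Fin (n j) → ℝ, Bq (fun k => ε' * qR (K j) k) x y =
      ε' * ∑ k, qR (K j) k * x k * y k := by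
    intro x y
    rw [Bq_apply, Finset.mul_sum]
    exact Finset.sum_congr rfl fun k _ => by ring
  rcases hPR (E8Y.V0 (K i)) (E8Y.V0 (K j)) _ _ _ (pairHyp K F Lg hm hE5l i j D D') with h1 | ⟨ψ, c, hc, h1, h2⟩
  · left
    intro x hx y hy
    obtain ⟨a, ha, h3, h4⟩ := h1 (wd (B0 (Bq fun k => ε * qR (K i) k) (E8Y.V0 (K i))) ⟨x, hx⟩ ⟨y, hy⟩)
      (fun u v => by
        rw [wd_skew D.symm]; ring)
    refine ⟨fun k => ε • a k, ?_, ?_, ?_⟩
    · have h5 := F.lin _ _ ε F.zero ha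
      convert h5 using 2 with k
      ext i j; simp
    · intro v hv
      have h5 := h3 ⟨v, hv⟩
      dsimp only at h5
      rw [Matrix.smul_mulVec, ← h5, wd_apply, B0_apply, B0_apply, hsum, hsum]
      simp only [Submodule.coe_sub, Submodule.coe_smul, qR]
      rw [smul_sub, smul_smul, smul_smul, ← mul_assoc, ← mul_assoc, hε0, one_mul, one_mul]
    · intro w hw
      have h5 := h4 ⟨w, hw⟩
      dsimp only at h5
      rw [Matrix.smul_mulVec, ← h5]
      simp
  · right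
    refine ⟨ψ, ε' * (c * ε), ?_, ?_, ?_⟩
    · intro h0
      have hε : ε ≠ 0 := fun h => by rw [h] at hε0; simp at hε0
      have hε' : ε' ≠ 0 := fun h => by rw [h] at hε0'; simp at hε0'
      exact (mul_ne_zero hε' (mul_ne_zero hc.ne' hε)) h0
    · intro x y
      have h3 := h1 x y
      rw [B0_apply, B0_apply, hsum, hsum'] at h3
      simp only [qR] at h3
      have h4 := congrArg (fun s => ε' * s) h3
      rw [← mul_assoc, hε0', one_mul] at h4
      rw [h4]; ring
    · intro a ha x y hxy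
      let p : Module.End ℝ (E8Y.V0 (K i)) := (Matrix.toLin' (a i)).restrict (fun v hv => by
        rw [Matrix.toLin'_apply]; exact pres (K i) (F.mem _ ha i) hv)
      let p' : Module.End ℝ (E8Y.V0 (K j)) := (Matrix.toLin' (a j)).restrict (fun v hv => by
        rw [Matrix.toLin'_apply]; exact pres (K j) (F.mem _ ha j) hv)
      have h3 := h2 (p, p') ⟨a, ha, fun x => rfl, fun x => rfl⟩ x
      have h4 : p x = y := Subtype.ext hxy.symm
      dsimp only at h3
      rw [h4] at h3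
      rw [← h3]
      rfl

end

end Pool.Agent.K3P
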