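import Pool.Agent.K3E.E5c
import Pool.Agent.K3P.Stmts

/-!
# P5c: a nondegenerate subspace stable under the Lie algebra is stable under `so_E(T)`
-/

open scoped BigOperators
open Matrix

namespace Pool.Agent.K3P

open Pool.Agent.DRB Pool.Agent.K3D Pool.Agent.K3E

theorem P5c_proof (hq : DRB.Stmt_DescQ) (h2d : Stmt_E2d) : Stmt_P5c := by
  intro g A L F n m K _ W hstab hnd a ha v hv
  obtain ⟨l, e, ρ, hV⟩ := E5X.exists_Vol K W hnd
  have hT : ∀ X ξ, L X ξ → ∀ v, ∃ v', X * K.cl v - K.cl v * X = K.cl v' :=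
    fun X ξ hX v => (E5X.mem_TC K).1 ((h2d g A n m K).2 X ξ (F.sub X ξ hX) _ ((E5X.mem_TC K).2 ⟨v, rfl⟩))
  have hR := F.comm (E5X.pr K l) fun X ξ hX => hV.ad_comm X (hT X ξ hX) (hstab X ξ hX)
  exact hV.S_stab hq hR a ha v hv

end Pool.Agent.K3P
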