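import Pool.Agent.K3E.E5d
import Pool.Agent.K3P.Stmts

/-!
# P5d: a subspace stable under the Lie algebra is stable under `so_E(T)`
-/

open scoped BigOperators
open Matrix

namespace Pool.Agent.K3P

open Pool.Agent.DRB Pool.Agent.K3D Pool.Agent.K3E E5A

noncomputable section

namespace P5X

open E5dX hiding St st_sup st_inf st_bot st_top st_sv st_comap soc_top

variable {g n m : ℕ} {A : AbVar g} (L : Matrix (Idx g) (Idx g) ℂ → ℂ → Prop) (K : KSE A n m)

/-- stable subspaces -/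
def St (W : Submodule ℂ (Fin n → ℂ)) : Prop :=
  ∀ X ξ, L X ξ → ∀ v ∈ W, ∃ w ∈ W, X * K.cl v - K.cl v * X = K.cl w

theorem st_sup {W W' : Submodule ℂ (Fin n → ℂ)} (h : St L K W) (h' : St L K W') : St L K (W ⊔ W') := by
  intro X ξ hX v hv
  obtain ⟨a, ha, b, hb, rfl⟩ := Submodule.mem_sup.1 hv
  obtain ⟨w, hw, h1⟩ := h X ξ hX a ha
  obtain ⟨w', hw', h2⟩ := h' X ξ hX b hb
  refine ⟨w + w', Submodule.add_mem_sup hw hw', ?_⟩
  rw [cl_add, cl_add, mul_add, add_mul, ← h1, ← h2]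
  abel

theorem st_inf (hK5a : Stmt_E5a) {W W' : Submodule ℂ (Fin n → ℂ)} (h : St L K W) (h' : St L K W') :
    St L K (W ⊓ W') := by
  intro X ξ hX v hv
  obtain ⟨w, hw, h1⟩ := h X ξ hX v hv.1
  obtain ⟨w', hw', h2⟩ := h' X ξ hX v hv.2
  have h3 : w = w' := cl_inj K hK5a (by rw [← h1, ← h2])
  exact ⟨w, ⟨hw, h3 ▸ hw'⟩, h1⟩

theorem st_bot : St L K ⊥ := by
  intro X ξ _ v hv
  rw [Submodule.mem_bot] at hv
  refine ⟨0, Submodule.zero_mem _, ?_⟩
  rw [hv, cl_zero, mul_zero, zero_mul, sub_zero]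

theorem st_top (F : LieFam A L) (hK2d : Stmt_E2d) : St L K ⊤ := by
  intro X ξ hX v _
  obtain ⟨w, hw⟩ := (mem_TC K _).1 ((hK2d g A n m K).2 X ξ (F.sub X ξ hX) (K.cl v) ((mem_TC K _).2 ⟨v, rfl⟩))
  exact ⟨w, Submodule.mem_top, hw⟩

theorem st_sv (F : LieFam A L) (σ : ℂ ≃ₐ[ℚ] ℂ) {W : Submodule ℂ (Fin n → ℂ)}
    (h : St L K W) : St L K (K2X.Dsv σ W) := by
  intro X ξ hX v hv
  have h1 : L (X.map σ) (σ ξ) := F.aut σ X ξ hX
  obtain ⟨w, hw, h2⟩ := h _ _ h1 _ hv
  refine ⟨K2X.sv σ.symm w, ?_, ?_⟩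
  · rw [K2X.mem_Dsv]
    have : K2X.sv σ (K2X.sv σ.symm w) = w := by
      funext k; simp [K2X.sv]
    rw [this]
    exact hw
  · have h3 := congrArg (fun M : Matrix (Idx g) (Idx g) ℂ => M.map σ.symm) h2
    rw [← cl_map] at h3
    have e : ∀ M : Matrix (Idx g) (Idx g) ℂ, (M.map σ).map σ.symm = M := by
      intro M
      ext a b
      simp
    have h4 : (X.map σ * (K.cl v).map σ - (K.cl v).map σ * X.map σ).map σ.symm =
        X * K.cl v - K.cl v * X := by
      rw [← FinX.map_mul', ← FinX.map_mul']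
      have : ((X * K.cl v).map σ - (K.cl v * X).map σ) = (X * K.cl v - K.cl v * X).map σ := by
        ext a b
        show σ _ - σ _ = σ (_ - _)
        rw [map_sub]
      rw [this, e]
    rw [← cl_map]
    rw [← h4]
    exact h3

theorem st_comap (F : LieFam A L) (p : GL (Idx g) ℂ × ℂˣ) (hp : p ∈ Gam A)
    (b b' : (Fin n → ℂ) →ₗ[ℂ] (Fin n → ℂ))
    (hb : ∀ v, p.1.val * K.cl v * (p.1⁻¹).val = K.cl (b v))
    (hb' : ∀ v, (p.1⁻¹).val * K.cl v * p.1.val = K.cl (b' v))
    (hbb : ∀ v, b (b' v) = v)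
    {W : Submodule ℂ (Fin n → ℂ)} (h : St L K W) : St L K (W.comap b) := by
  intro X ξ hX v hv
  have h1 := F.conj X ξ hX p hp
  obtain ⟨w, hw, h2⟩ := h _ _ h1 (b v) hv
  refine ⟨b' w, ?_, ?_⟩
  · rw [Submodule.mem_comap, hbb]
    exact hw
  · have e1 : p.1.val * (p.1⁻¹).val = 1 := by rw [← Units.val_mul]; simp
    have e2 : (p.1⁻¹).val * p.1.val = 1 := by rw [← Units.val_mul]; simp
    rw [← hb', ← h2, ← hb]
    have h3 : (p.1⁻¹).val * (p.1.val * X * (p.1⁻¹).val * (p.1.val * K.cl v * (p.1⁻¹).val) -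
        p.1.val * K.cl v * (p.1⁻¹).val * (p.1.val * X * (p.1⁻¹).val)) * p.1.val =
        ((p.1⁻¹).val * p.1.val) * X * ((p.1⁻¹).val * p.1.val) * K.cl v * ((p.1⁻¹).val * p.1.val) -
        ((p.1⁻¹).val * p.1.val) * K.cl v * ((p.1⁻¹).val * p.1.val) * X * ((p.1⁻¹).val * p.1.val) := by
      simp only [mul_sub, sub_mul, mul_assoc]
    rw [h3, e2]
    simp only [one_mul, mul_one]

/-- the socle is everything -/
theorem soc_top (F : LieFam A L) (hn : 3 ≤ m) (hK2d : Stmt_E2d)
    (hK5a : Stmt_E5a) (hK5b : Stmt_E5b) : K5dX.soc (St L K) = ⊤ := by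
  have hnp : 0 < n := n_pos K hn
  have hne : K5dX.soc (St L K) ≠ ⊥ := by
    have h0 : (⊤ : Submodule ℂ (Fin n → ℂ)) ≠ ⊥ := by
      intro h
      have h1 : (Pi.single ⟨0, by omega⟩ 1 : Fin n → ℂ) ∈ (⊥ : Submodule ℂ (Fin n → ℂ)) := by
        rw [← h]; exact Submodule.mem_top
      rw [Submodule.mem_bot] at h1
      have := congrFun h1 ⟨0, by omega⟩
      simp at this
    obtain ⟨M, hM, -⟩ := K5dX.exists_min (St L K) ⊤ (st_top L K F hK2d) h0
    intro h
    apply hM.2.1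
    apply le_bot_iff.1
    rw [← h]
    exact le_sSup hM
  refine (hK5b g A n m K hn (K5dX.soc (St L K)) ?_ ?_).resolve_left hne
  · intro σ v hv
    have hmono : ∀ σ : ℂ ≃ₐ[ℚ] ℂ, Monotone (K2X.Dsv (κ := Fin n) σ) := by
      intro σ W W' hWW u hu
      exact hWW hu
    have e1 : ∀ (σ : ℂ ≃ₐ[ℚ] ℂ) (W : Submodule ℂ (Fin n → ℂ)),
        K2X.Dsv σ (K2X.Dsv σ.symm W) = W := by
      intro σ W
      ext u
      rw [K2X.mem_Dsv, K2X.mem_Dsv]
      have : K2X.sv σ.symm (K2X.sv σ u) = u := by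
        funext k; simp [K2X.sv]
      rw [this]
    have e2 : ∀ (σ : ℂ ≃ₐ[ℚ] ℂ) (W : Submodule ℂ (Fin n → ℂ)),
        K2X.Dsv σ.symm (K2X.Dsv σ W) = W := by
      intro σ W
      ext u
      rw [K2X.mem_Dsv, K2X.mem_Dsv]
      have : K2X.sv σ (K2X.sv σ.symm u) = u := by
        funext k; simp [K2X.sv]
      rw [this]
    have h1 := K5dX.soc_le (St L K) (K2X.Dsv σ) (K2X.Dsv σ.symm) (hmono σ) (hmono σ.symm) (e1 σ) (e2 σ)
      (fun W hW => st_sv L K F σ hW) (fun W hW => st_sv L K F σ.symm hW)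
    exact h1 hv
  · intro p hp v hv
    obtain ⟨b, hb⟩ := exists_conj K hK5a hK2d p hp
    obtain ⟨b', hb'0⟩ := exists_conj K hK5a hK2d p⁻¹ (inv_mem hp)
    have hb' : ∀ v, (p.1⁻¹).val * K.cl v * p.1.val = K.cl (b' v) := by
      intro v
      have h1 := hb'0 v
      have e3 : ((p⁻¹).1⁻¹).val = p.1.val := by
        show ((p.1⁻¹)⁻¹).val = _
        rw [inv_inv]
      have e4 : (p⁻¹).1.val = (p.1⁻¹).val := rfl
      rwa [e3, e4] at h1
    have e1 : p.1.val * (p.1⁻¹).val = 1 := by rw [← Units.val_mul]; simp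
    have e2 : (p.1⁻¹).val * p.1.val = 1 := by rw [← Units.val_mul]; simp
    have hbb : ∀ v, b (b' v) = v := by
      intro v
      apply cl_inj K hK5a
      rw [← hb, ← hb']
      calc _ = (p.1.val * (p.1⁻¹).val) * K.cl v * (p.1.val * (p.1⁻¹).val) := by simp only [mul_assoc]
        _ = _ := by rw [e1, one_mul, mul_one]
    have hbb' : ∀ v, b' (b v) = v := by
      intro v
      apply cl_inj K hK5a
      rw [← hb', ← hb]
      calc _ = ((p.1⁻¹).val * p.1.val) * K.cl v * ((p.1⁻¹).val * p.1.val) := by simp only [mul_assoc]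
        _ = _ := by rw [e2, one_mul, mul_one]
    have h1 := K5dX.soc_le (St L K) (fun W => W.comap b) (fun W => W.comap b')
      (fun W W' h => Submodule.comap_mono h) (fun W W' h => Submodule.comap_mono h)
      (fun W => by
        ext u
        rw [Submodule.mem_comap, Submodule.mem_comap, hbb'])
      (fun W => by
        ext u
        rw [Submodule.mem_comap, Submodule.mem_comap, hbb])
      (fun W hW => st_comap L K F p hp b b' hb hb' hbb hW)
      (fun W hW => st_comap L K F p⁻¹ (inv_mem hp) b' b (by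
          intro v
          have e3 : ((p⁻¹).1⁻¹).val = p.1.val := by
            show ((p.1⁻¹)⁻¹).val = _
            rw [inv_inv]
          have e4 : (p⁻¹).1.val = (p.1⁻¹).val := rfl
          rw [e3, e4]
          exact hb' v) (by
          intro v
          have e3 : ((p⁻¹).1⁻¹).val = p.1.val := by
            show ((p.1⁻¹)⁻¹).val = _
            rw [inv_inv]
          have e4 : (p⁻¹).1.val = (p.1⁻¹).val := rfl
          rw [e3, e4]
          exact hb v) hbb' hW)
    exact ⟨b v, h1 hv, hb v⟩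

end P5X

open E5dX hiding St st_sup st_inf st_bot st_top st_sv st_comap soc_top

open P5X in
theorem P5d_proof (hK2c : Stmt_K2c) (hK2d : Stmt_E2d)
    (hK5a : Stmt_E5a) (hK5b : Stmt_E5b) (hK5c : Stmt_P5c) (h5l : Stmt_E5l) : Stmt_P5d := by
  intro g A L F n m K hn W hW
  obtain ⟨hcl, hinj, hlift, hscal, hend, hendS⟩ := hK5a g A n m K
  obtain ⟨M, hM, hc⟩ := K5dX.exists_compl (St L K) (fun _ _ h h' => st_sup L K h h')
    (fun _ _ h h' => st_inf L K hK5a h h') (st_bot L K) (soc_top L K F hn hK2d hK5a hK5b) W hW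
  refine hK5c g A L F n m K hn W hW ?_
  -- the projection
  let Pl : (Fin n → ℂ) →ₗ[ℂ] (Fin n → ℂ) := W.subtype ∘ₗ W.projectionOnto M hc
  have hPW : ∀ v ∈ W, Pl v = v := by
    intro v hv
    show ((W.projectionOnto M hc v : W) : Fin n → ℂ) = v
    have := Submodule.projectionOnto_apply_left hc ⟨v, hv⟩
    rw [this]
  have hPM : ∀ v ∈ M, Pl v = 0 := by
    intro v hv
    show ((W.projectionOnto M hc v : W) : Fin n → ℂ) = 0
    rw [(Submodule.projectionOnto_apply_eq_zero_iff hc).2 hv]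
    rfl
  have hdec : ∀ v : Fin n → ℂ, ∃ w ∈ W, ∃ m ∈ M, v = w + m := by
    intro v
    have h1 : v ∈ W ⊔ M := by
      rw [hc.sup_eq_top]; exact Submodule.mem_top
    obtain ⟨w, hw, m, hm, h⟩ := Submodule.mem_sup.1 h1
    exact ⟨w, hw, m, hm, h.symm⟩
  set P : Matrix (Fin n) (Fin n) ℂ := LinearMap.toMatrix' Pl with hPdef
  have hP : ∀ v, P *ᵥ v = Pl v := by
    intro v
    rw [hPdef, LinearMap.toMatrix'_mulVec]
  set S : Matrix (Fin n) (Fin n) ℂ := P - adj K P with hSdef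
  have hSkew : ∀ v w, K.bil (S *ᵥ v) w + K.bil v (S *ᵥ w) = 0 := by
    intro v w
    rw [hSdef, Matrix.sub_mulVec, Matrix.sub_mulVec, bil_sub, bil_sub_right, bil_adj K P v w, E5dX.bil_comm K (adj K P *ᵥ v) w,
      ← bil_adj K P w v, E5dX.bil_comm K (P *ᵥ w) v]
    ring
  have hZa : ∀ v, K.Z S * K.cl v - K.cl v * K.Z S = K.cl (S *ᵥ v) := hlift S hSkew
  have hZe : K.Z S ∈ EW K := by
    unfold KSE.Z
    refine Submodule.sum_mem _ fun i _ => Submodule.smul_mem _ _ ?_
    rw [cl_eq, cl_single, Finset.sum_mul]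
    refine Submodule.sum_mem _ fun j _ => ?_
    rw [Matrix.smul_mul]
    refine Submodule.smul_mem _ _ (Submodule.subset_span ⟨[j, i], by simp, ?_⟩)
    rw [M_cons, M_cons, M_nil, mul_one]
  -- infinitesimal action
  have hZX : ∀ X ξ, L X ξ → X * K.Z S = K.Z S * X := by
    intro X ξ hX
    have hact : ∀ v, ∃ w, X * K.cl v - K.cl v * X = K.cl w := fun v => by
      obtain ⟨w, -, h⟩ := st_top L K F hK2d X ξ hX v Submodule.mem_top
      exact ⟨w, h⟩
    choose a ha using hact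
    have hadd : ∀ v w, a (v + w) = a v + a w := by
      intro v w
      apply cl_inj K hK5a
      rw [← ha, cl_add, cl_add, ← ha, ← ha, mul_add, add_mul]
      abel
    have hak : ∀ v w, K.bil (a v) w + K.bil v (a w) = 0 := by
      intro v w
      have h1 := hcl v w
      have h2 := hcl (a v) w
      have h3 := hcl v (a w)
      rw [← ha v] at h2
      rw [← ha w] at h3
      have h4 : (2 * K.bil (a v) w) • (1 : Matrix (Idx g) (Idx g) ℂ) + (2 * K.bil v (a w)) • 1 =
          X * ((2 * K.bil v w) • (1 : Matrix (Idx g) (Idx g) ℂ)) - ((2 * K.bil v w) • 1) * X := by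
        rw [← h1, ← h2, ← h3]
        noncomm_ring
      rw [Matrix.mul_smul, Matrix.smul_mul, mul_one, one_mul, sub_self, ← add_smul] at h4
      have : Nonempty (Idx g) := ⟨Sum.inl ⟨0, K.pos⟩⟩
      have h5 : (2 * K.bil (a v) w) + (2 * K.bil v (a w)) = 0 := by
        have h6 := congrFun (congrFun h4 this.some) this.some
        simpa [Matrix.smul_apply] using h6
      linear_combination (1 / 2) * h5
    have haW : ∀ v ∈ W, a v ∈ W := by
      intro v hv
      obtain ⟨w, hw, h⟩ := hW X ξ hX v hv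
      have : a v = w := cl_inj K hK5a (by rw [← ha, h])
      rw [this]; exact hw
    have haM : ∀ v ∈ M, a v ∈ M := by
      intro v hv
      obtain ⟨w, hw, h⟩ := hM X ξ hX v hv
      have : a v = w := cl_inj K hK5a (by rw [← ha, h])
      rw [this]; exact hw
    have haP : ∀ v, P *ᵥ (a v) = a (P *ᵥ v) := by
      intro v
      obtain ⟨w, hw, m, hm, rfl⟩ := hdec v
      rw [hP, hP, hadd, map_add, map_add, hPW _ hw, hPM _ hm, hPW _ (haW _ hw), hPM _ (haM _ hm), add_zero,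
        add_zero]
    have haP' : ∀ v, adj K P *ᵥ (a v) = a (adj K P *ᵥ v) := by
      intro v
      rw [← sub_eq_zero]
      apply E5dX.bil_nondeg K
      intro w
      rw [E5dX.bil_comm, bil_sub_right, ← bil_adj]
      have h1 := hak (P *ᵥ w) v
      have h2 := hak w (adj K P *ᵥ v)
      have h3 : K.bil (a (P *ᵥ w)) v = K.bil (a w) (adj K P *ᵥ v) := by
        rw [← haP w, bil_adj]
      linear_combination h1 - h2 - h3
    have haS : ∀ v, S *ᵥ (a v) = a (S *ᵥ v) := by
      intro v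
      have hsub : ∀ v w, a (v - w) = a v - a w := by
        intro v w
        have := hadd (v - w) w
        rw [sub_add_cancel] at this
        rw [this]; abel
      rw [hSdef, Matrix.sub_mulVec, Matrix.sub_mulVec, haP, haP', hsub]
    -- the commutator is scalar
    have hXe : X ∈ EW K := mem_EW K X fun α hα => (hK2c g A X ξ (F.sub X ξ hX)).1 α hα
    obtain ⟨c, hc'⟩ := scalar_of_EW K (X * K.Z S - K.Z S * X)
      (Submodule.sub_mem _ (EW_mul K hXe hZe) (EW_mul K hZe hXe)) (by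
        intro i
        rw [← cl_single]
        set v : Fin n → ℂ := Pi.single i 1
        rw [← sub_eq_zero]
        have h1 : (X * K.Z S - K.Z S * X) * K.cl v - K.cl v * (X * K.Z S - K.Z S * X) =
            (X * (K.Z S * K.cl v - K.cl v * K.Z S) - (K.Z S * K.cl v - K.cl v * K.Z S) * X) -
            (K.Z S * (X * K.cl v - K.cl v * X) - (X * K.cl v - K.cl v * X) * K.Z S) := by noncomm_ring
        rw [h1, hZa v, ha v, ha (S *ᵥ v), hZa (a v), haS, sub_self])
    have : Nonempty (Idx g) := ⟨Sum.inl ⟨0, K.pos⟩⟩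
    have hc0 : c = 0 := by
      have h1 := congrArg Matrix.trace hc'
      rw [Matrix.trace_sub, Matrix.trace_mul_comm, sub_self, Matrix.trace_smul, Matrix.trace_one, smul_eq_mul] at h1
      have h2 : ((Fintype.card (Idx g) : ℕ) : ℂ) ≠ 0 := by
        exact_mod_cast Fintype.card_ne_zero
      exact (mul_eq_zero.1 h1.symm).resolve_right h2
    rw [hc0, zero_smul] at hc'
    exact sub_eq_zero.1 hc'
  have hZmem := F.comm (K.Z S) hZX
  have hS0 : ∀ v, S *ᵥ v = 0 := by
    refine skew_zero K hn h5l S hSkew fun s hs v => ?_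
    have hsk : ∀ v w, K.bil (s *ᵥ v) w + K.bil v (s *ᵥ w) = 0 := by
      intro v w
      rw [bil_eq, bil_eq, ← Matrix.vecMul_transpose, Matrix.dotProduct_mulVec, Matrix.dotProduct_mulVec,
        Matrix.dotProduct_mulVec, Matrix.vecMul_vecMul, Matrix.vecMul_vecMul, ← add_dotProduct,
        ← Matrix.vecMul_add, hs.1, Matrix.vecMul_zero, zero_dotProduct]
    have hZs := hlift s hsk
    have h1 := hend (K.Z S) hZmem s hs
    rw [← sub_eq_zero]
    apply hinj
    rw [cl_sub, ← hZa (s *ᵥ v), ← hZs (S *ᵥ v)]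
    have h2 : K.Z S * (K.Z s * K.cl v - K.cl v * K.Z s) - (K.Z s * K.cl v - K.cl v * K.Z s) * K.Z S -
        (K.Z s * (K.Z S * K.cl v - K.cl v * K.Z S) - (K.Z S * K.cl v - K.cl v * K.Z S) * K.Z s) =
        (K.Z S * K.Z s - K.Z s * K.Z S) * K.cl v - K.cl v * (K.Z S * K.Z s - K.Z s * K.Z S) := by noncomm_ring
    rw [← hZs v, ← hZa v, h2, h1, sub_self, zero_mul, mul_zero, sub_zero]
  have hself : ∀ v w, K.bil (P *ᵥ v) w = K.bil v (P *ᵥ w) := by
    intro v w
    have h1 := hS0 w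
    rw [hSdef, Matrix.sub_mulVec, sub_eq_zero] at h1
    rw [bil_adj, h1]
  intro v hv hvw
  apply E5dX.bil_nondeg K
  intro u
  obtain ⟨w, hw, m, hm, rfl⟩ := hdec u
  rw [bil_add_right, hvw w hw, zero_add]
  have h1 := hself v m
  rw [hP, hP, hPW v hv, hPM m hm] at h1
  rw [h1]
  unfold KSE.bil
  simp

end

end Pool.Agent.K3P
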