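import Pool.Agent.K3P.P8b1

/-!
# P8b: the Lie algebra is everything, for a family of elements of the Lie algebra
-/

open scoped BigOperators Matrix
open Matrix Polynomial

namespace Pool.Agent.K3P

open Pool.Agent.DRB Pool.Agent.K3D Pool.Agent.K3E

noncomputable section

namespace P8Y

section kse

variable {g n m : ℕ} {A : AbVar g} {L : Matrix (Idx g) (Idx g) ℂ → ℂ → Prop} (K : KSE A n m)

theorem lie_pres (F : LieFam A L) (hK2c : Stmt_K2c) (hE5v : Stmt_E5v) (hm : 3 ≤ m) {a : Matrix (Fin n) (Fin n) ℝ}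
    (ha : lieL L K a) {v : Fin n → ℝ} (hv : v ∈ E8Y.V0 K) : a *ᵥ v ∈ E8Y.V0 K := by
  obtain ⟨X, ξ, hX, hXa⟩ := ha
  have hc := (hE5v g A n m K hm).1 X _ ((hK2c g A X ξ (F.sub X ξ hX)).1) hXa
  have hvC : (fun i => (v i : ℂ)) ∈ K.Tl (K.lam : ℂ) := by
    rw [← E8Y.cplx_V0, mem_cplx]
    refine ⟨by simpa using hv, ?_⟩
    have : (fun i : Fin n => ((v i : ℂ)).im) = 0 := by funext i; simp
    rw [this]; exact Submodule.zero_mem _
  have h1 : (a.map Complex.ofReal) *ᵥ (fun i => (v i : ℂ)) ∈ K.Tl (K.lam : ℂ) := by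
    rw [E5L.mem_Tl] at hvC ⊢
    rw [Matrix.mulVec_mulVec, ← hc, ← Matrix.mulVec_mulVec, hvC, Matrix.mulVec_smul]
  rw [← E8Y.cplx_V0, mem_cplx, E8Y.ofReal_mulVec] at h1
  simpa using h1.1

/-- The complex Lie algebra acting on `T`. -/
def LC (F : LieFam A L) : Submodule ℂ (Matrix (Fin n) (Fin n) ℂ) where
  carrier := {a | ∃ (X : Matrix (Idx g) (Idx g) ℂ) (ξ : ℂ), L X ξ ∧
    ∀ v, X * K.cl v - K.cl v * X = K.cl (a *ᵥ v)}
  add_mem' := by
    rintro a b ⟨X, ξ, hX, hXa⟩ ⟨Y, η, hY, hYb⟩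
    refine ⟨X + (1 : ℂ) • Y, ξ + 1 * η, F.lin X Y ξ η 1 hX hY, fun v => ?_⟩
    rw [Matrix.add_mulVec, cl_add, ← hXa, ← hYb, one_smul, add_mul, mul_add]
    abel
  zero_mem' := by
    refine ⟨0, 0, F.zero, fun v => ?_⟩
    rw [Matrix.zero_mulVec, cl_zero, zero_mul, mul_zero, sub_zero]
  smul_mem' := by
    rintro c a ⟨X, ξ, hX, hXa⟩
    refine ⟨0 + c • X, 0 + c * ξ, F.lin 0 X 0 ξ c
      F.zero hX, fun v => ?_⟩
    rw [Matrix.smul_mulVec, cl_smul, ← hXa, zero_add, smul_sub, Matrix.smul_mul, Matrix.mul_smul]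

theorem LC_map (F : LieFam A L) (σ : ℂ ≃ₐ[ℚ] ℂ)
    {a : Matrix (Fin n) (Fin n) ℂ} (ha : a ∈ LC K F) : a.map σ ∈ LC K F := by
  obtain ⟨X, ξ, hX, hXa⟩ := ha
  refine ⟨X.map σ, σ ξ, F.aut σ X ξ hX, fun w => ?_⟩
  have h1 := congrArg (fun Z : Matrix (Idx g) (Idx g) ℂ => Z.map σ) (hXa fun i => σ.symm (w i))
  have h3 : ∀ Z Z' : Matrix (Idx g) (Idx g) ℂ, (Z * Z').map σ = Z.map σ * Z'.map σ :=
    fun Z Z' => Matrix.map_mul (f := (σ : ℂ →+* ℂ))
  have h4 : ∀ Z Z' : Matrix (Idx g) (Idx g) ℂ, (Z - Z').map σ = Z.map σ - Z'.map σ := by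
    intro Z Z'
    ext i j
    rw [Matrix.map_apply, Matrix.sub_apply, map_sub, Matrix.sub_apply, Matrix.map_apply,
      Matrix.map_apply]
  simp only [h4, h3] at h1
  rw [← E5X.cl_map, ← E5X.cl_map] at h1
  have h5 : (fun i => σ (σ.symm (w i))) = w := by funext i; simp
  rw [h5] at h1
  rw [h1]
  congr 1
  funext i
  simp only [Matrix.mulVec, dotProduct, map_sum, map_mul, Matrix.map_apply, AlgEquiv.apply_symm_apply]

/-- From the real place to all the eigenspaces. -/
theorem all_roots (F : LieFam A L)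
    (h0 : ∀ x ∈ E8Y.V0 K, ∀ y ∈ E8Y.V0 K, E5L.wm K (fun i => (x i : ℂ)) (fun i => (y i : ℂ)) ∈ LC K F)
    {a : Matrix (Fin n) (Fin n) ℂ} (ha : a ∈ K.S) : a ∈ LC K F := by
  -- complexify
  have hx : ∀ x ∈ E8Y.V0 K, ∀ y ∈ K.Tl (K.lam : ℂ), E5L.wm K (fun i => (x i : ℂ)) y ∈ LC K F := by
    intro x hx y hy
    rw [← E8Y.cplx_V0, mem_cplx] at hy
    have h1 : E5L.wm K (fun i => (x i : ℂ)) y =
        E5L.wm K (fun i => (x i : ℂ)) (fun i => (((y i).re : ℝ) : ℂ)) +
        Complex.I • E5L.wm K (fun i => (x i : ℂ)) (fun i => (((y i).im : ℝ) : ℂ)) := by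
      ext i j
      have e1 : y i = ((y i).re : ℂ) + ((y i).im : ℂ) * Complex.I := (Complex.re_add_im _).symm
      have e2 : y j = ((y j).re : ℂ) + ((y j).im : ℂ) * Complex.I := (Complex.re_add_im _).symm
      simp only [E5L.wm, Matrix.add_apply, Matrix.smul_apply, Matrix.of_apply, smul_eq_mul]
      conv_lhs => rw [e1, e2]
      ring
    rw [h1]
    exact Submodule.add_mem _ (h0 x hx _ hy.1) (Submodule.smul_mem _ _ (h0 x hx _ hy.2))
  have hxy : ∀ x ∈ K.Tl (K.lam : ℂ), ∀ y ∈ K.Tl (K.lam : ℂ), E5L.wm K x y ∈ LC K F := by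
    intro x hx' y hy
    rw [← E8Y.cplx_V0, mem_cplx] at hx'
    have h1 : E5L.wm K x y = E5L.wm K (fun i => (((x i).re : ℝ) : ℂ)) y +
        Complex.I • E5L.wm K (fun i => (((x i).im : ℝ) : ℂ)) y := by
      ext i j
      have e1 : x i = ((x i).re : ℂ) + ((x i).im : ℂ) * Complex.I := (Complex.re_add_im _).symm
      have e2 : x j = ((x j).re : ℂ) + ((x j).im : ℂ) * Complex.I := (Complex.re_add_im _).symm
      simp only [E5L.wm, Matrix.add_apply, Matrix.smul_apply, Matrix.of_apply, smul_eq_mul]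
      conv_lhs => rw [e1, e2]
      ring
    rw [h1]
    exact Submodule.add_mem _ (hx _ hx'.1 y hy) (Submodule.smul_mem _ _ (hx _ hx'.2 y hy))
  have hz : ∀ z : ℂ, aeval z K.P = 0 → ∀ x ∈ K.Tl z, ∀ y ∈ K.Tl z, E5L.wm K x y ∈ LC K F := by
    intro z hz x hx y hy
    obtain ⟨σ, hσ⟩ := E5L.exists_aut K.irr (E8Y.lam_rootC K) hz
    have hσ' : σ.symm z = (K.lam : ℂ) := by rw [← hσ]; simp
    have h1 := E5L.map_Tl K σ.symm hx
    have h2 := E5L.map_Tl K σ.symm hy
    rw [hσ'] at h1 h2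
    have h3 := LC_map K F σ (hxy _ h1 _ h2)
    rw [E8Y.wm_map] at h3
    simpa using h3
  have hspan := DUAL.mem_span K ha
  refine Submodule.span_le.2 ?_ hspan
  rintro w ⟨z, x, y, hz', hx', hy', rfl⟩
  exact hz z hz' x hx' y hy'

end kse

end P8Y

open P8Y in
/-- P8B. -/
theorem P8b_proof (hK2c : Stmt_K2c)
    (hK6 : Stmt_K6) (hK7E : Stmt_K7E) (hE2d : Stmt_E2d) (hE5a : Stmt_E5a) (hE5v : Stmt_E5v)
    (hE5l : Stmt_E5l) (hP5d : Stmt_P5d) (hP8a : Stmt_P8a) : Stmt_P8b := by
  intro g A L F n m K hm hm5 a ha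
  set qR : Fin n → ℝ := fun i => (K.q i : ℝ) with hqR
  let l := lieSub K F
  have hfin := E8Y.finrank_V0 K hm hE5l
  have hn2 : 2 ≤ n := by
    have h1 := K.dim
    have h2 : 0 < K.P.natDegree := K.irr.natDegree_pos
    nlinarith
  have hpres : ∀ a ∈ l, ∀ v ∈ E8Y.V0 K, a *ᵥ v ∈ E8Y.V0 K := fun a ha v hv =>
    lie_pres K F hK2c hE5v hm ha hv
  have hskew : ∀ a ∈ l, aᵀ * Matrix.diagonal qR + Matrix.diagonal qR * a = 0 :=
    fun a ha => lie_skew K hE5a ha
  have hbrk : ∀ a ∈ l, ∀ b ∈ l, a * b - b * a ∈ l := fun a ha b hb => lie_brk K F ha hb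
  have hirr : ∀ W : Submodule ℂ (Fin n → ℂ), W ≤ cplx (E8Y.V0 K) →
      (∀ a ∈ l, ∀ v ∈ W, (a.map Complex.ofReal) *ᵥ v ∈ W) → W = ⊥ ∨ W = cplx (E8Y.V0 K) := by
    intro W hW hstab
    have h1 := hP5d g A L F n m K hm W (lie_stab K F hE2d W hstab)
    rw [E8Y.cplx_V0] at hW ⊢
    exact (hE5l g A n m K hm).2.2.2.2.2.2.1 _ W hW h1
  have hhyp : ∀ a ∈ l, ∃ h ∈ l, IsHypPart a h := by
    intro a ha
    obtain ⟨h, h1, h2⟩ := lie_hyp K F hP8a ha
    exact ⟨h, h1, h2⟩
  have hlog : ∀ as : List (Matrix (Fin n) (Fin n) ℝ), (∀ a ∈ as, a ∈ l) →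
      ∃ h ∈ l, IsHypLog (as.map fun a => NormedSpace.exp a).prod h := by
    intro as has
    obtain ⟨h, h1, h2⟩ := hP8a g A L F n m K as has
    exact ⟨h, h1, h2⟩
  have hcast : ∀ i, (0 < qR i ↔ 0 < K.q i) ∧ (qR i < 0 ↔ K.q i < 0) := by
    intro i
    simp only [hqR]
    constructor
    · exact_mod_cast Iff.rfl
    · exact_mod_cast Iff.rfl
  -- the real matrices x ∧ y
  have key : ∀ x ∈ E8Y.V0 K, ∀ y ∈ E8Y.V0 K, ∀ a : Matrix (Fin n) (Fin n) ℝ,
      (∀ v, a *ᵥ v = (∑ i, qR i * y i * v i) • x - (∑ i, qR i * x i * v i) • y) → a ∈ l := by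
    rcases K.sig with ⟨hs, hs2⟩ | ⟨hs, hs2⟩
    · have hL : LHypE n qR (E8Y.V0 K) l :=
        { n2 := hn2
          qpos := fun i hi => by rw [(hcast i).1, hs]; exact hi
          qneg := fun i hi => by
            have h1 : ¬ 0 < K.q i := by rw [hs]; omega
            rw [(hcast i).2]
            exact lt_of_le_of_ne (not_lt.1 h1) (K.q_ne i)
          neg := fun v hv hv0 => by
            refine hs2 v hv0 fun w hw => ?_
            rw [← hv w hw]
            exact Finset.sum_congr rfl fun i _ => by simp only [hqR]; ring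
          dim := by rw [hfin]; exact hm5
          pres := hpres
          skew := hskew
          brk := hbrk
          irr := hirr
          hyp := hhyp }
      exact E8Y.real_main hK6 hK7E hL (by rw [hfin]; exact hm) hlog
    · have hneg : ∀ a : Matrix (Fin n) (Fin n) ℝ,
          aᵀ * Matrix.diagonal qR + Matrix.diagonal qR * a = 0 →
          aᵀ * Matrix.diagonal (fun i => - qR i) + Matrix.diagonal (fun i => - qR i) * a = 0 := by
        intro a ha
        have h1 : Matrix.diagonal (fun i => - qR i) = - Matrix.diagonal qR := by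
          rw [← Matrix.diagonal_neg]
        rw [h1, Matrix.mul_neg, Matrix.neg_mul, ← neg_add, ha, neg_zero]
      have hL : LHypE n (fun i => - qR i) (E8Y.V0 K) l :=
        { n2 := hn2
          qpos := fun i hi => by
            have h1 : qR i < 0 := by rw [(hcast i).2, hs]; exact hi
            linarith
          qneg := fun i hi => by
            have h1 : ¬ K.q i < 0 := by rw [hs]; omega
            have h2 : 0 < qR i := by
              rw [(hcast i).1]
              exact lt_of_le_of_ne (not_lt.1 h1) (K.q_ne i).symm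
            linarith
          neg := fun v hv hv0 => by
            have h1 := hs2 v hv0 fun w hw => by
              have h2 := hv w hw
              have h3 : ∑ i, -qR i * w i * v i = -∑ i, (K.q i : ℝ) * v i * w i := by
                rw [← Finset.sum_neg_distrib]
                exact Finset.sum_congr rfl fun i _ => by simp only [hqR]; ring
              rw [h3] at h2
              linarith
            have h3 : ∑ i, -qR i * v i * v i = -∑ i, (K.q i : ℝ) * v i * v i := by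
              rw [← Finset.sum_neg_distrib]
              exact Finset.sum_congr rfl fun i _ => by simp only [hqR]; ring
            rw [h3]
            linarith
          dim := by rw [hfin]; exact hm5
          pres := hpres
          skew := fun a ha => hneg a (hskew a ha)
          brk := hbrk
          irr := hirr
          hyp := hhyp }
      intro x hx y hy a ha
      refine E8Y.real_main hK6 hK7E hL (by rw [hfin]; exact hm) hlog y hy x hx a fun v => ?_
      rw [ha v]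
      have h3 : ∀ y : Fin n → ℝ, ∑ i, -qR i * y i * v i = -∑ i, qR i * y i * v i := by
        intro y
        rw [← Finset.sum_neg_distrib]
        exact Finset.sum_congr rfl fun i _ => by ring
      rw [h3, h3, neg_smul, neg_smul]
      abel
  refine all_roots K F (fun x hx y hy => ?_) ha
  have h1 := key x hx y hy (Matrix.of fun i j => x i * (qR j * y j) - y i * (qR j * x j)) (by
    intro v
    ext i
    simp only [Matrix.mulVec, dotProduct, Matrix.of_apply, Pi.sub_apply, Pi.smul_apply,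
      smul_eq_mul, Finset.sum_mul]
    rw [← Finset.sum_sub_distrib]
    exact Finset.sum_congr rfl fun j _ => by ring)
  obtain ⟨X, ξ, hX, hXa⟩ := h1
  refine ⟨X, ξ, hX, fun v => ?_⟩
  rw [hXa v]
  congr 2
  ext i j
  simp only [Matrix.map_apply, Matrix.of_apply, E5L.wm, hqR]
  push_cast
  ring

end

end Pool.Agent.K3P
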