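import Pool.Agent.K3P.Stmts

/-!
# PR: pairs of orthogonal Lie algebras
-/

set_option autoImplicit false

namespace Pool.Agent.K3P

open Module

noncomputable section

namespace PRX

/-! ### One quadratic space -/

/-- hypotheses on one space -/
structure QH {V : Type} [AddCommGroup V] [Module ℝ V] (b : LinearMap.BilinForm ℝ V) : Prop where
  symm : ∀ x y, b x y = b y x
  nondeg : ∀ x, (∀ y, b x y = 0) → x = 0
  pos : ∃ x y, 0 < b x x ∧ 0 < b y y ∧ b x y = 0 ∧ ∀ z, z ≠ 0 → b x z = 0 → b y z = 0 → b z z < 0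
  dim : finrank ℝ V = 3 ∨ 6 ≤ finrank ℝ V

variable {V : Type} [AddCommGroup V] [Module ℝ V]

/-- skew maps -/
def Sk (b : LinearMap.BilinForm ℝ V) (a : Module.End ℝ V) : Prop := ∀ x y, b (a x) y + b x (a y) = 0

/-- the wedge -/
def wd (b : LinearMap.BilinForm ℝ V) : V →ₗ[ℝ] V →ₗ[ℝ] Module.End ℝ V :=
  LinearMap.mk₂ ℝ (fun x y => (b y).smulRight x - (b x).smulRight y)
    (by
      intro x x' y
      ext v
      simp only [LinearMap.sub_apply, LinearMap.smulRight_apply, LinearMap.add_apply, map_add]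
      module)
    (by
      intro c x y
      ext v
      simp only [LinearMap.sub_apply, LinearMap.smulRight_apply, LinearMap.smul_apply, map_smul,
        smul_eq_mul]
      module)
    (by
      intro x y y'
      ext v
      simp only [LinearMap.sub_apply, LinearMap.smulRight_apply, LinearMap.add_apply, map_add]
      module)
    (by
      intro c x y
      ext v
      simp only [LinearMap.sub_apply, LinearMap.smulRight_apply, LinearMap.smul_apply, map_smul,
        smul_eq_mul]
      module)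

variable {b : LinearMap.BilinForm ℝ V}

theorem wd_apply (x y v : V) : wd b x y v = b y v • x - b x v • y := rfl

theorem wd_self (x : V) : wd b x x = 0 := by
  ext v
  rw [wd_apply, sub_self, LinearMap.zero_apply]

theorem wd_swap (x y : V) : wd b x y = - wd b y x := by
  ext v
  rw [LinearMap.neg_apply, wd_apply, wd_apply, neg_sub]

theorem wd_skew (hs : ∀ x y, b x y = b y x) (x y : V) : Sk b (wd b x y) := by
  intro v w
  simp only [wd_apply, map_sub, map_smul, LinearMap.sub_apply, LinearMap.smul_apply, smul_eq_mul]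
  rw [hs v x, hs v y]
  ring

theorem comm_wd {a : Module.End ℝ V} (ha : Sk b a) (x y : V) :
    a * wd b x y - wd b x y * a = wd b (a x) y + wd b x (a y) := by
  ext v
  simp only [LinearMap.sub_apply, Module.End.mul_apply, LinearMap.add_apply, wd_apply, map_sub,
    map_smul]
  have h1 := ha x v
  have h2 := ha y v
  have h3 : b x (a v) = - b (a x) v := by linarith
  have h4 : b y (a v) = - b (a y) v := by linarith
  rw [h3, h4]
  module

theorem wd_eq_zero (hn : ∀ x, (∀ y, b x y = 0) → x = 0) {x y : V} (hxy : wd b x y = 0)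
    (hx : x ≠ 0) : ∃ t : ℝ, y = t • x := by
  obtain ⟨v, hv⟩ : ∃ v, b x v ≠ 0 := by
    by_contra hcon
    push Not at hcon
    exact hx (hn x hcon)
  have h1 := congrArg (fun F : Module.End ℝ V => F v) hxy
  simp only [wd_apply, LinearMap.zero_apply] at h1
  refine ⟨(b x v)⁻¹ * b y v, ?_⟩
  rw [sub_eq_zero] at h1
  rw [mul_smul, h1, smul_smul, inv_mul_cancel₀ hv, one_smul]

theorem exists_ker [FiniteDimensional ℝ V] {k : ℕ} (F : Fin k → (V →ₗ[ℝ] ℝ)) (M : Submodule ℝ V)
    (h : k < finrank ℝ M) : ∃ z ∈ M, z ≠ 0 ∧ ∀ i, F i z = 0 := by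
  have h1 : LinearMap.ker ((LinearMap.pi F).comp M.subtype) ≠ ⊥ := by
    apply LinearMap.ker_ne_bot_of_finrank_lt
    rw [Module.finrank_fin_fun]
    exact h
  obtain ⟨z, hz, hz0⟩ := Submodule.exists_mem_ne_zero_of_ne_bot h1
  refine ⟨z, z.2, fun h => hz0 (Subtype.ext h), fun i => ?_⟩
  exact congrFun (LinearMap.mem_ker.1 hz) i

theorem le_two [FiniteDimensional ℝ V] (h : QH b) (M : Submodule ℝ V) (hM : ∀ z ∈ M, 0 ≤ b z z) :
    finrank ℝ M ≤ 2 := by
  by_contra hcon
  push Not at hcon
  obtain ⟨x, y, -, -, -, hneg⟩ := h.pos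
  obtain ⟨z, hz, hz0, hF⟩ := exists_ker ![b x, b y] M hcon
  have := hneg z hz0 (hF 0) (hF 1)
  exact absurd (hM z hz) (not_le.2 this)

theorem exists_P (h : QH b) : ∃ P : Submodule ℝ V, finrank ℝ P = 2 ∧ ∀ z ∈ P, b z z ≤ 0 → z = 0 := by
  obtain ⟨x, y, hx, hy, hxy, -⟩ := h.pos
  have hyx : b y x = 0 := by rw [h.symm]; exact hxy
  have hli : LinearIndependent ℝ ![x, y] := by
    rw [LinearIndependent.pair_iff]
    intro s t hst
    have h1 := congrArg (b x) hst
    have h2 := congrArg (b y) hst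
    simp only [map_add, map_smul, smul_eq_mul, map_zero, hxy, hyx, mul_zero, add_zero,
      zero_add] at h1 h2
    exact ⟨(mul_eq_zero.1 h1).resolve_right hx.ne', (mul_eq_zero.1 h2).resolve_right hy.ne'⟩
  refine ⟨Submodule.span ℝ (Set.range ![x, y]), ?_, ?_⟩
  · rw [finrank_span_eq_card hli, Fintype.card_fin]
  · intro z hz' h1
    rw [Matrix.range_cons, Matrix.range_cons, Matrix.range_empty, Set.union_empty,
      Set.singleton_union, Submodule.mem_span_pair] at hz'
    obtain ⟨s, t, rfl⟩ := hz'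
    simp only [map_add, map_smul, LinearMap.add_apply, LinearMap.smul_apply, smul_eq_mul, hxy, hyx,
      mul_zero, add_zero, zero_add] at h1
    have h2 : 0 ≤ s * (s * b x x) := by
      have := mul_nonneg (mul_self_nonneg s) hx.le
      linarith
    have h3 : 0 ≤ t * (t * b y y) := by
      have := mul_nonneg (mul_self_nonneg t) hy.le
      linarith
    have h4 : s * s * b x x = 0 := by linarith
    have h5 : t * t * b y y = 0 := by linarith
    have h6 : s = 0 := by
      rcases mul_eq_zero.1 h4 with h | h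
      · exact mul_self_eq_zero.1 h
      · exact absurd h hx.ne'
    have h7 : t = 0 := by
      rcases mul_eq_zero.1 h5 with h | h
      · exact mul_self_eq_zero.1 h
      · exact absurd h hy.ne'
    rw [h6, h7, zero_smul, zero_smul, add_zero]

theorem le_sub [FiniteDimensional ℝ V] (h : QH b) (N : Submodule ℝ V) (hN : ∀ z ∈ N, b z z ≤ 0) :
    finrank ℝ N + 2 ≤ finrank ℝ V := by
  obtain ⟨P, hP, hpos⟩ := exists_P h
  have hdis : Disjoint N P := by
    rw [Submodule.disjoint_def]
    intro z hz hz'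
    exact hpos z hz' (hN z hz)
  have h1 := Submodule.finrank_add_finrank_le_of_disjoint hdis
  rw [hP] at h1
  exact h1

/-- skew maps are combinations of wedges -/
theorem Sk_mem [FiniteDimensional ℝ V] (h : QH b) {a : Module.End ℝ V} (ha : Sk b a) :
    a ∈ Submodule.span ℝ {c | ∃ x y, c = wd b x y} := by
  classical
  have hnd : b.Nondegenerate :=
    ⟨h.nondeg, fun y hy => h.nondeg y fun x => by rw [h.symm]; exact hy x⟩
  let B := Module.finBasis ℝ V
  let B' := b.dualBasis hnd B
  have h1 : ∀ i j, b (B' i) (B j) = if j = i then 1 else 0 := fun i j =>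
    LinearMap.BilinForm.apply_dualBasis_left hnd B i j
  have h2 : ∀ v, ∑ i, b (B' i) v • B i = v := by
    intro v
    conv_rhs => rw [← B.sum_repr v]
    refine Finset.sum_congr rfl fun i _ => ?_
    congr 1
    conv_lhs => rw [← B.sum_repr v]
    rw [map_sum, Finset.sum_eq_single i]
    · rw [map_smul, h1, if_pos rfl, smul_eq_mul, mul_one]
    · intro j _ hj
      rw [map_smul, h1, if_neg hj, smul_zero]
    · intro h; exact absurd (Finset.mem_univ i) h
  have h3 : ∀ v, ∑ i, b (B i) v • B' i = v := by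
    intro v
    have h4 : ∀ w, b (∑ i, b (B i) v • B' i - v) w = 0 := by
      intro w
      rw [map_sub, LinearMap.sub_apply, map_sum, LinearMap.sum_apply]
      simp only [map_smul, LinearMap.smul_apply, smul_eq_mul]
      have h5 : b v w = ∑ i, b (B i) v * b (B' i) w := by
        conv_lhs => rw [← h2 w]
        rw [map_sum]
        refine Finset.sum_congr rfl fun i _ => ?_
        rw [map_smul, smul_eq_mul, h.symm v (B i)]
        ring
      rw [h5, sub_self]
    exact sub_eq_zero.1 (h.nondeg _ h4)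
  have h4 : a = (1 / 2 : ℝ) • ∑ i, wd b (a (B i)) (B' i) := by
    ext v
    rw [LinearMap.smul_apply, LinearMap.sum_apply]
    simp only [wd_apply]
    rw [Finset.sum_sub_distrib]
    have h5 : ∑ i, b (B' i) v • a (B i) = a v := by
      conv_rhs => rw [← h2 v]
      rw [map_sum]
      exact Finset.sum_congr rfl fun i _ => by rw [map_smul]
    have h6 : ∑ i, b (a (B i)) v • B' i = - a v := by
      conv_rhs => rw [← h3 (a v)]
      rw [← Finset.sum_neg_distrib]
      refine Finset.sum_congr rfl fun i _ => ?_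
      rw [← neg_smul]
      congr 1
      have := ha (B i) v
      linarith
    rw [h5, h6]
    module
  rw [h4]
  refine Submodule.smul_mem _ _ (Submodule.sum_mem _ fun i _ => ?_)
  exact Submodule.subset_span ⟨_, _, rfl⟩

/-! ### Hyperbolic pairs -/

/-- hyperbolic pairs -/
structure HP (b : LinearMap.BilinForm ℝ V) (e f : V) : Prop where
  symm : ∀ x y, b x y = b y x
  ee : b e e = 0
  ff : b f f = 0
  ef : b e f = 1

namespace HP

variable {e f : V} (hp : HP b e f)

include hp

theorem fe : b f e = 1 := by rw [hp.symm, hp.ef]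

theorem swap : HP b f e := ⟨hp.symm, hp.ff, hp.ee, hp.fe⟩

theorem he : wd b e f e = e := by
  rw [wd_apply, hp.fe, hp.ee, one_smul, zero_smul, sub_zero]

theorem hf : wd b e f f = -f := by
  rw [wd_apply, hp.ff, hp.ef, one_smul, zero_smul, zero_sub]

theorem hu {u : V} (h1 : b e u = 0) (h2 : b f u = 0) : wd b e f u = 0 := by
  have := hp
  rw [wd_apply, h1, h2, zero_smul, zero_smul, sub_zero]

theorem wef {u : V} (h2 : b f u = 0) : wd b e u f = -u := by
  rw [wd_apply, hp.ef, hp.symm u f, h2, zero_smul, one_smul, zero_sub]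

/-- the projection to the orthogonal complement -/
theorem pe (v : V) : b e (v - b f v • e - b e v • f) = 0 := by
  simp only [map_sub, map_smul, smul_eq_mul, hp.ee, hp.ef]
  ring

theorem pf (v : V) : b f (v - b f v • e - b e v • f) = 0 := by
  simp only [map_sub, map_smul, smul_eq_mul, hp.ff, hp.fe]
  ring

theorem ind (W : Submodule ℝ V) (h1 : e ∈ W) (h2 : f ∈ W)
    (h3 : ∀ u, b e u = 0 → b f u = 0 → u ∈ W) (v : V) : v ∈ W := by
  have h4 := h3 _ (hp.pe v) (hp.pf v)
  have h5 := W.add_mem (W.add_mem h4 (W.smul_mem (b f v) h1)) (W.smul_mem (b e v) h2)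
  have h6 : v - b f v • e - b e v • f + b f v • e + b e v • f = v := by abel
  rwa [h6] at h5

theorem ext {W : Type} [AddCommGroup W] [Module ℝ W] {a a' : V →ₗ[ℝ] W} (h1 : a e = a' e)
    (h2 : a f = a' f) (h3 : ∀ u, b e u = 0 → b f u = 0 → a u = a' u) : a = a' := by
  ext v
  exact hp.ind (LinearMap.eqLocus a a') h1 h2 h3 v

/-- commutator with the hyperbolic element -/
theorem ad {a : Module.End ℝ V} (ha : Sk b a) :
    b e (a f + b f (a e) • f) = 0 ∧ b f (a f + b f (a e) • f) = 0 ∧
    b e (a e - b f (a e) • e) = 0 ∧ b f (a e - b f (a e) • e) = 0 ∧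
    wd b e f * a - a * wd b e f =
      wd b f (a e - b f (a e) • e) - wd b e (a f + b f (a e) • f) := by
  have h1 := ha e e
  have h2 := ha f f
  have h3 := ha e f
  have s1 := hp.symm (a e) e
  have s2 := hp.symm (a f) f
  have s3 := hp.symm (a e) f
  refine ⟨?_, ?_, ?_, ?_, ?_⟩
  · simp only [map_add, map_smul, smul_eq_mul, hp.ef]
    linarith
  · simp only [map_add, map_smul, smul_eq_mul, hp.ff]
    linarith
  · simp only [map_sub, map_smul, smul_eq_mul, hp.ee]
    linarith
  · simp only [map_sub, map_smul, smul_eq_mul, hp.fe]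
    linarith
  · have h4 := comm_wd ha e f
    rw [← neg_sub, h4, map_sub, map_smul, map_add, map_smul, wd_swap (a e) f, wd_swap f e]
    module

theorem adE {u : V} (h1 : b e u = 0) (h2 : b f u = 0) :
    wd b e f * wd b e u - wd b e u * wd b e f = wd b e u := by
  rw [comm_wd (wd_skew hp.symm e f), hp.he, hp.hu h1 h2, map_zero, add_zero]

theorem adF {u : V} (h1 : b e u = 0) (h2 : b f u = 0) :
    wd b e f * wd b f u - wd b f u * wd b e f = - wd b f u := by
  rw [comm_wd (wd_skew hp.symm e f), hp.hf, hp.hu h1 h2, map_zero, add_zero, map_neg,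
    LinearMap.neg_apply]

theorem adEF {u w : V} (h2 : b f u = 0) (h3 : b e w = 0) :
    wd b e u * wd b f w - wd b f w * wd b e u = - wd b u w - b u w • wd b e f := by
  rw [comm_wd (wd_skew hp.symm e u), hp.wef h2, wd_apply, h3, zero_smul, sub_zero, map_smul,
    wd_swap f e, map_neg, LinearMap.neg_apply]
  module

/-- the eigenspace of the commutator -/
theorem g1 {a : Module.End ℝ V} (ha : Sk b a) (hc : wd b e f * a - a * wd b e f = a) :
    b e (-a f) = 0 ∧ b f (-a f) = 0 ∧ a = wd b e (-a f) := by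
  obtain ⟨h1, h2, h3, h4, h5⟩ := hp.ad ha
  set u1 := a f + b f (a e) • f with hu1
  set u2 := a e - b f (a e) • e with hu2
  have h6 : a = wd b f u2 - wd b e u1 := by rw [← h5, hc]
  have h7 : wd b e f * a - a * wd b e f = - wd b f u2 - wd b e u1 := by
    conv_lhs => rw [h6]
    have e1 := hp.adF h3 h4
    have e2 := hp.adE h1 h2
    rw [mul_sub, sub_mul]
    calc _ = (wd b e f * wd b f u2 - wd b f u2 * wd b e f) -
        (wd b e f * wd b e u1 - wd b e u1 * wd b e f) := by abel
      _ = _ := by rw [e1, e2]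
  have h8 : wd b f u2 = 0 := by
    have h9 : a = - wd b f u2 - wd b e u1 := by rw [← h7, hc]
    have h10 : wd b f u2 - wd b e u1 = - wd b f u2 - wd b e u1 := by rw [← h6, ← h9]
    have h11 : (2 : ℝ) • wd b f u2 = 0 := by
      rw [two_smul]
      exact add_eq_zero_iff_eq_neg.2 (sub_left_inj.1 h10)
    exact (smul_eq_zero.1 h11).resolve_left two_ne_zero
  have h9 : a = wd b e (-u1) := by rw [h6, h8, zero_sub, map_neg]
  have h10 : a f = u1 := by
    have h11 := hp.wef (u := -u1) (by rw [map_neg, h2, neg_zero])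
    rw [← h9, neg_neg] at h11
    exact h11
  rw [h10]
  exact ⟨by rw [map_neg, h1, neg_zero], by rw [map_neg, h2, neg_zero], h9⟩

end HP

theorem exists_HP [FiniteDimensional ℝ V] (h : QH b) : ∃ e f, HP b e f := by
  obtain ⟨x, y, hx, hy, hxy, hneg⟩ := h.pos
  have hd : 2 < finrank ℝ (⊤ : Submodule ℝ V) := by
    rw [finrank_top]
    rcases h.dim with h | h <;> omega
  obtain ⟨z, -, hz0, hF⟩ := exists_ker ![b x, b y] ⊤ hd
  have hz := hneg z hz0 (hF 0) (hF 1)
  have hxz : b x z = 0 := hF 0
  have hzx : b z x = 0 := by rw [h.symm]; exact hxz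
  set p := Real.sqrt (b x x) with hp
  set q := Real.sqrt (- b z z) with hq
  have hp0 : p ≠ 0 := (Real.sqrt_pos.2 hx).ne'
  have hq0 : q ≠ 0 := (Real.sqrt_pos.2 (by linarith)).ne'
  have hpp : b x x = p * p := (Real.mul_self_sqrt hx.le).symm
  have hqq : b z z = - (q * q) := by
    rw [hq, Real.mul_self_sqrt (by linarith)]; ring
  refine ⟨p⁻¹ • x + q⁻¹ • z, (2⁻¹ : ℝ) • (p⁻¹ • x - q⁻¹ • z), h.symm, ?_, ?_, ?_⟩
  · simp only [map_add, map_smul, LinearMap.add_apply, LinearMap.smul_apply, smul_eq_mul, hxz, hzx,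
      hpp, hqq]
    field_simp
    ring
  · simp only [map_sub, map_smul, LinearMap.sub_apply, LinearMap.smul_apply, smul_eq_mul, hxz, hzx,
      hpp, hqq]
    field_simp
    ring
  · simp only [map_add, map_sub, map_smul, LinearMap.add_apply, LinearMap.smul_apply, smul_eq_mul,
      hxz, hzx, hpp, hqq]
    field_simp
    ring

/-! ### Simplicity -/

/-- from the hyperbolic element to everything -/
theorem all_of_h [FiniteDimensional ℝ V] (h : QH b) {e f : V} (hp : HP b e f)
    (K : Submodule ℝ (Module.End ℝ V))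
    (hid : ∀ s, Sk b s → ∀ a ∈ K, s * a - a * s ∈ K) (hh : wd b e f ∈ K) {a : Module.End ℝ V}
    (ha : Sk b a) : a ∈ K := by
  have hE : ∀ u, b e u = 0 → b f u = 0 → wd b e u ∈ K := by
    intro u h1 h2
    have h3 := hid _ (wd_skew hp.symm e u) _ hh
    have h4 := hp.adE h1 h2
    have h5 := K.neg_mem h3
    rw [neg_sub, h4] at h5
    exact h5
  have hF : ∀ u, b e u = 0 → b f u = 0 → wd b f u ∈ K := by
    intro u h1 h2
    have h3 := hid _ (wd_skew hp.symm f u) _ hh
    have h4 := hp.adF h1 h2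
    have h5 : wd b f u * wd b e f - wd b e f * wd b f u = wd b f u := by
      rw [← neg_sub, h4, neg_neg]
    rw [h5] at h3
    exact h3
  have hU : ∀ u w, b e u = 0 → b f u = 0 → b e w = 0 → b f w = 0 → wd b u w ∈ K := by
    intro u w h1 h2 h3 h4
    have h5 := hid _ (wd_skew hp.symm e u) _ (hF w h3 h4)
    rw [hp.adEF h2 h3] at h5
    have h6 := K.neg_mem (K.add_mem h5 (K.smul_mem (b u w) hh))
    have h7 : -(- wd b u w - b u w • wd b e f + b u w • wd b e f) = wd b u w := by abel
    rwa [h7] at h6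
  have hsw : ∀ x y, wd b x y ∈ K → wd b y x ∈ K := by
    intro x y hxy
    rw [wd_swap]
    exact K.neg_mem hxy
  have hall : ∀ x y, wd b x y ∈ K := by
    have hx : ∀ x, (∀ y, y = e ∨ y = f ∨ (b e y = 0 ∧ b f y = 0) → wd b x y ∈ K) →
        ∀ y, wd b x y ∈ K := by
      intro x hx y
      exact hp.ind (K.comap (wd b x)) (hx e (Or.inl rfl)) (hx f (Or.inr (Or.inl rfl)))
        (fun u h1 h2 => hx u (Or.inr (Or.inr ⟨h1, h2⟩))) y
    have hy : ∀ y, y = e ∨ y = f ∨ (b e y = 0 ∧ b f y = 0) → ∀ x, wd b y x ∈ K := by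
      rintro y (rfl | rfl | ⟨h1, h2⟩)
      · refine hx _ ?_
        rintro z (rfl | rfl | ⟨h3, h4⟩)
        · rw [wd_self]; exact K.zero_mem
        · exact hh
        · exact hE z h3 h4
      · refine hx _ ?_
        rintro z (rfl | rfl | ⟨h3, h4⟩)
        · exact hsw _ _ hh
        · rw [wd_self]; exact K.zero_mem
        · exact hF z h3 h4
      · refine hx _ ?_
        rintro z (rfl | rfl | ⟨h3, h4⟩)
        · exact hsw _ _ (hE y h1 h2)
        · exact hsw _ _ (hF y h1 h2)
        · exact hU y z h1 h2 h3 h4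
    intro x
    exact hx x fun y hy' => hsw _ _ (hy y hy' x)
  have h1 := Sk_mem h ha
  refine (Submodule.span_le.2 ?_) h1
  rintro _ ⟨x, y, rfl⟩
  exact hall x y

/-- from one element of the root space to the hyperbolic element -/
theorem h_of_E [FiniteDimensional ℝ V] (h : QH b) {e f : V} (hp : HP b e f)
    (K : Submodule ℝ (Module.End ℝ V))
    (hid : ∀ s, Sk b s → ∀ a ∈ K, s * a - a * s ∈ K) {u : V} (hu0 : u ≠ 0) (h1 : b e u = 0)
    (h2 : b f u = 0) (hu : wd b e u ∈ K) : wd b e f ∈ K := by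
  have key : ∀ y, b e y = 0 → b f y = 0 → b y y ≠ 0 → wd b e y ∈ K → wd b e f ∈ K := by
    intro y h3 h4 h5 h6
    have h7 := hid _ (wd_skew hp.symm f y) _ h6
    have h8 := hp.adEF (u := y) (w := y) h4 h3
    rw [wd_self, neg_zero, zero_sub] at h8
    have h9 : wd b f y * wd b e y - wd b e y * wd b f y = b y y • wd b e f := by
      rw [← neg_sub, h8, neg_neg]
    rw [h9] at h7
    have h10 := K.smul_mem (b y y)⁻¹ h7
    rwa [smul_smul, inv_mul_cancel₀ h5, one_smul] at h10
  by_cases huu : b u u = 0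
  · -- `w` with `b u w = 1` in the complement
    obtain ⟨w, hw1, hw2, hw3⟩ : ∃ w, b e w = 0 ∧ b f w = 0 ∧ b u w = 1 := by
      obtain ⟨v, hv⟩ : ∃ v, b u v ≠ 0 := by
        by_contra hcon
        push Not at hcon
        exact hu0 (h.nondeg u hcon)
      refine ⟨(b u v)⁻¹ • (v - b f v • e - b e v • f), ?_, ?_, ?_⟩
      · rw [map_smul, hp.pe, smul_zero]
      · rw [map_smul, hp.pf, smul_zero]
      · have e1 : b u e = 0 := by rw [h.symm]; exact h1
        have e2 : b u f = 0 := by rw [h.symm]; exact h2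
        simp only [map_smul, map_sub, smul_eq_mul, e1, e2, mul_zero, sub_zero]
        exact inv_mul_cancel₀ hv
    have hwu : b w u = 1 := by rw [h.symm]; exact hw3
    -- dimension
    rcases h.dim with hd | hd
    · exfalso
      have hli : LinearIndependent ℝ ![e, f, u, w] := by
        rw [Fintype.linearIndependent_iff]
        intro c hc
        rw [Fin.sum_univ_four] at hc
        simp only [Matrix.cons_val_zero, Matrix.cons_val_one, Matrix.cons_val] at hc
        have c1 := congrArg (b f) hc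
        have c2 := congrArg (b e) hc
        have c3 := congrArg (b w) hc
        have c4 := congrArg (b u) hc
        have e1 : b u e = 0 := by rw [h.symm]; exact h1
        have e2 : b u f = 0 := by rw [h.symm]; exact h2
        have e3 : b w e = 0 := by rw [h.symm]; exact hw1
        have e4 : b w f = 0 := by rw [h.symm]; exact hw2
        simp only [map_add, map_smul, smul_eq_mul, map_zero, hp.ee, hp.ff, hp.ef, hp.fe, h1, h2, hw1,
          hw2, hw3, hwu, huu, e1, e2, e3, e4, mul_zero, mul_one, add_zero, zero_add] at c1 c2 c3 c4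
        have c3' : c 2 = 0 := by
          rw [c4, zero_mul, add_zero] at c3
          exact c3
        intro i
        fin_cases i
        · exact c1
        · exact c2
        · exact c3'
        · exact c4
      have := hli.fintype_card_le_finrank
      rw [Fintype.card_fin, hd] at this
      omega
    · obtain ⟨x, y0, -, -, -, hneg⟩ := h.pos
      obtain ⟨y, -, hy0, hF⟩ := exists_ker ![b x, b y0, b e, b f, b u] ⊤ (by
        rw [finrank_top]; omega)
      have hyy := hneg y hy0 (hF 0) (hF 1)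
      have hye : b e y = 0 := hF 2
      have hyf : b f y = 0 := hF 3
      have hyu : b u y = 0 := hF 4
      refine key y hye hyf hyy.ne ?_
      have h3 := hid _ (wd_skew hp.symm w y) _ hu
      rw [comm_wd (wd_skew hp.symm w y)] at h3
      have e1 : wd b w y e = 0 := by
        rw [wd_apply, h.symm y e, hye, h.symm w e, hw1, zero_smul, zero_smul, sub_zero]
      have e2 : wd b w y u = -y := by
        rw [wd_apply, h.symm y u, hyu, hwu, zero_smul, one_smul, zero_sub]
      rw [e1, e2, map_zero, LinearMap.zero_apply, zero_add, map_neg] at h3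
      have h4 := K.neg_mem h3
      rwa [neg_neg] at h4
  · exact key u h1 h2 huu hu

/-- `so(V)` is simple -/
theorem simple [FiniteDimensional ℝ V] (h : QH b) (K : Submodule ℝ (Module.End ℝ V))
    (hK : ∀ a ∈ K, Sk b a) (hid : ∀ s, Sk b s → ∀ a ∈ K, s * a - a * s ∈ K) (hne : K ≠ ⊥)
    {a : Module.End ℝ V} (ha : Sk b a) : a ∈ K := by
  obtain ⟨e, f, hp⟩ := exists_HP h
  have hh : wd b e f ∈ K := by
    by_contra hcon
    have hE0 : ∀ u, b e u = 0 → b f u = 0 → wd b e u ∈ K → u = 0 := by
      intro u h1 h2 h3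
      by_contra hu0
      exact hcon (h_of_E h hp K hid hu0 h1 h2 h3)
    have hF0 : ∀ u, b e u = 0 → b f u = 0 → wd b f u ∈ K → u = 0 := by
      intro u h1 h2 h3
      by_contra hu0
      apply hcon
      rw [wd_swap]
      exact K.neg_mem (h_of_E h hp.swap K hid hu0 h2 h1 h3)
    apply hne
    rw [Submodule.eq_bot_iff]
    intro a ha
    have haS := hK a ha
    obtain ⟨h1, h2, h3, h4, h5⟩ := hp.ad haS
    set u1 := a f + b f (a e) • f with hu1
    set u2 := a e - b f (a e) • e with hu2
    have hs := wd_skew hp.symm e f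
    have k1 := hid _ hs a ha
    have k2 := hid _ hs _ k1
    have h7 : wd b e f * (wd b e f * a - a * wd b e f) - (wd b e f * a - a * wd b e f) * wd b e f =
        - wd b f u2 - wd b e u1 := by
      rw [h5]
      have e1 := hp.adF h3 h4
      have e2 := hp.adE h1 h2
      rw [mul_sub, sub_mul]
      calc _ = (wd b e f * wd b f u2 - wd b f u2 * wd b e f) -
          (wd b e f * wd b e u1 - wd b e u1 * wd b e f) := by abel
        _ = _ := by rw [e1, e2]
    rw [h7] at k2
    rw [h5] at k1
    have m1 : wd b e u1 ∈ K := by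
      have := K.smul_mem (-(1 / 2) : ℝ) (K.add_mem k1 k2)
      have e1 : (-(1 / 2) : ℝ) • (wd b f u2 - wd b e u1 + (-wd b f u2 - wd b e u1)) = wd b e u1 := by
        module
      rwa [e1] at this
    have m2 : wd b f u2 ∈ K := by
      have := K.add_mem k1 m1
      rwa [sub_add_cancel] at this
    have z1 := hE0 u1 h1 h2 m1
    have z2 := hF0 u2 h3 h4 m2
    -- `a` commutes with the hyperbolic element
    have hcomm : wd b e f * a - a * wd b e f = 0 := by
      rw [h5, z1, z2, map_zero, map_zero, sub_zero]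
    set t := b f (a e) with ht
    have hae : a e = t • e := sub_eq_zero.1 (hu2 ▸ z2)
    have haf : a f = - (t • f) := by
      rw [eq_neg_iff_add_eq_zero]
      exact hu1 ▸ z1
    -- `a` on the complement
    have hau : ∀ u, b e u = 0 → b f u = 0 → a u = - (t • u) := by
      intro u g1 g2
      have c1 := haS e u
      have c2 := haS f u
      have d1 : b e (a u) = 0 := by
        rw [hae, map_smul, LinearMap.smul_apply, g1, smul_zero, zero_add] at c1
        exact c1
      have d2 : b f (a u) = 0 := by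
        rw [haf, map_neg, map_smul, LinearMap.neg_apply, LinearMap.smul_apply, g2, smul_zero,
          neg_zero, zero_add] at c2
        exact c2
      have c3 := hid _ (wd_skew hp.symm e u) a ha
      have c4 : wd b e u * a - a * wd b e u = - wd b e (t • u + a u) := by
        rw [← neg_sub, comm_wd haS, hae, map_smul, LinearMap.smul_apply, map_add, map_smul]
      rw [c4] at c3
      have c5 := K.neg_mem c3
      rw [neg_neg] at c5
      have c6 := hE0 (t • u + a u) (by rw [map_add, map_smul, g1, d1, smul_zero, add_zero])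
        (by rw [map_add, map_smul, g2, d2, smul_zero, add_zero]) c5
      rw [add_comm] at c6
      exact eq_neg_of_add_eq_zero_left c6
    -- `t = 0`
    have ht0 : t = 0 := by
      obtain ⟨y, hy1, hy2, hy3⟩ : ∃ y, b e y = 0 ∧ b f y = 0 ∧ b y y ≠ 0 := by
        by_contra hcon2
        push Not at hcon2
        obtain ⟨u, -, hu0, hF⟩ := exists_ker ![b e, b f] (⊤ : Submodule ℝ V) (by
          rw [finrank_top]; rcases h.dim with h | h <;> omega)
        have e1 : b e u = 0 := hF 0
        have e2 : b f u = 0 := hF 1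
        apply hu0
        refine h.nondeg u fun y => ?_
        have hy : ∀ w, b e w = 0 → b f w = 0 → b u w = 0 := by
          intro w e3 e4
          have e5 := hcon2 (u + w) (by rw [map_add, e1, e3, add_zero])
            (by rw [map_add, e2, e4, add_zero])
          have e6 := hcon2 u e1 e2
          have e7 := hcon2 w e3 e4
          simp only [map_add, LinearMap.add_apply, e6, e7, h.symm w u] at e5
          linarith
        exact hp.ind (LinearMap.ker (b u)) (by rw [LinearMap.mem_ker, h.symm]; exact e1)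
          (by rw [LinearMap.mem_ker, h.symm]; exact e2) (fun w e3 e4 => hy w e3 e4) y
      have c1 := haS y y
      rw [hau y hy1 hy2] at c1
      simp only [map_neg, map_smul, LinearMap.neg_apply, LinearMap.smul_apply, smul_eq_mul] at c1
      have c2 : t * b y y = 0 := by linarith
      exact (mul_eq_zero.1 c2).resolve_right hy3
    refine hp.ext ?_ ?_ ?_
    · rw [hae, ht0, zero_smul, LinearMap.zero_apply]
    · rw [haf, ht0, zero_smul, neg_zero, LinearMap.zero_apply]
    · intro u g1 g2
      rw [hau u g1 g2, ht0, zero_smul, neg_zero, LinearMap.zero_apply]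
  exact all_of_h h hp K hid hh ha

/-! ### Real-diagonalizable elements with eigenvalues `0, 1, -1` of the adjoint action -/

theorem hyp_form [FiniteDimensional ℝ V] (h : QH b) {k : Module.End ℝ V} (hk : Sk b k) (hk0 : k ≠ 0)
    (hdiag : ⨆ c : ℝ, Module.End.eigenspace k c = ⊤)
    (had : ∀ a, Sk b a → k * (k * (k * a - a * k) - (k * a - a * k) * k) -
      (k * (k * a - a * k) - (k * a - a * k) * k) * k = k * a - a * k) :
    ∃ e f, HP b e f ∧ k = wd b e f := by
  have me : ∀ {c : ℝ} {x : V}, x ∈ Module.End.eigenspace k c ↔ k x = c • x := fun {c x} =>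
    Module.End.mem_eigenspace_iff
  have orth : ∀ (c d : ℝ) (x y : V), k x = c • x → k y = d • y → c + d ≠ 0 → b x y = 0 := by
    intro c d x y hx hy hcd
    have h1 := hk x y
    rw [hx, hy] at h1
    simp only [map_smul, LinearMap.smul_apply, smul_eq_mul] at h1
    have h2 : (c + d) * b x y = 0 := by linarith
    exact (mul_eq_zero.1 h2).resolve_left hcd
  have cube : ∀ (c d : ℝ) (x y : V), k x = c • x → k y = d • y → wd b x y ≠ 0 →
      (c + d) ^ 3 = c + d := by
    intro c d x y hx hy hne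
    have e1 : k * wd b x y - wd b x y * k = (c + d) • wd b x y := by
      rw [comm_wd hk, hx, hy, map_smul, map_smul, LinearMap.smul_apply]
      module
    have e2 := had _ (wd_skew h.symm x y)
    have e3 : ∀ r : ℝ, k * (r • wd b x y) - (r • wd b x y) * k = (r * (c + d)) • wd b x y := by
      intro r
      rw [mul_smul_comm, smul_mul_assoc, ← smul_sub, e1, smul_smul]
    rw [e1, e3, e3] at e2
    have e4 : (((c + d) * (c + d) * (c + d)) - (c + d)) • wd b x y = 0 := by
      rw [sub_smul, e2, sub_self]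
    have e5 := (smul_eq_zero.1 e4).resolve_right hne
    linarith
  have extk : ∀ {W : Type} [AddCommGroup W] [Module ℝ W] (a a' : V →ₗ[ℝ] W),
      (∀ (c : ℝ) (x : V), k x = c • x → a x = a' x) → a = a' := by
    intro W _ _ a a' haa
    ext v
    have h1 : (⨆ c : ℝ, Module.End.eigenspace k c) ≤ LinearMap.eqLocus a a' :=
      iSup_le fun c x hx => haa c x (me.1 hx)
    rw [hdiag] at h1
    exact h1 Submodule.mem_top
  -- a zero eigenvector
  obtain ⟨x0, hx0, hkx0⟩ : ∃ x0 : V, x0 ≠ 0 ∧ k x0 = 0 := by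
    by_contra hcon
    push Not at hcon
    have hiso : ∀ S : Set ℝ, (∀ c ∈ S, ∀ d ∈ S, c + d ≠ 0) →
        ∀ z ∈ (⨆ c ∈ S, Module.End.eigenspace k c), b z z = 0 := by
      intro S hS z hz
      have h1 : ∀ d ∈ S, ∀ y, k y = d • y →
          (⨆ c ∈ S, Module.End.eigenspace k c) ≤ LinearMap.ker (b y) := by
        intro d hd y hy
        refine iSup₂_le fun c hc x hx => ?_
        rw [LinearMap.mem_ker]
        exact orth d c y x hy (me.1 hx) (hS d hd c hc)
      have h2 : (⨆ c ∈ S, Module.End.eigenspace k c) ≤ LinearMap.ker (b z) := by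
        refine iSup₂_le fun c hc x hx => ?_
        rw [LinearMap.mem_ker, h.symm]
        exact LinearMap.mem_ker.1 (h1 c hc x (me.1 hx) hz)
      exact LinearMap.mem_ker.1 (h2 hz)
    have i1 := hiso (Set.Ioi 0) (fun c hc d hd => (add_pos hc hd).ne')
    have i2 := hiso (Set.Iio 0) (fun c hc d hd => (add_neg hc hd).ne)
    have htop : (⊤ : Submodule ℝ V) ≤ (⨆ c ∈ Set.Ioi (0 : ℝ), Module.End.eigenspace k c) ⊔
        (⨆ c ∈ Set.Iio (0 : ℝ), Module.End.eigenspace k c) := by
      rw [← hdiag]
      refine iSup_le fun c => ?_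
      rcases lt_trichotomy c 0 with hc | hc | hc
      · exact le_sup_of_le_right (le_iSup₂_of_le c hc le_rfl)
      · intro x hx
        have h1 := me.1 hx
        rw [hc, zero_smul] at h1
        by_cases hx0 : x = 0
        · rw [hx0]; exact Submodule.zero_mem _
        · exact absurd h1 (hcon x hx0)
      · exact le_sup_of_le_left (le_iSup₂_of_le c hc le_rfl)
    have d1 := Submodule.finrank_mono htop
    rw [finrank_top] at d1
    have d2 := Submodule.finrank_add_le_finrank_add_finrank
      (⨆ c ∈ Set.Ioi (0 : ℝ), Module.End.eigenspace k c)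
      (⨆ c ∈ Set.Iio (0 : ℝ), Module.End.eigenspace k c)
    have d3 := le_two h _ (fun z hz => (i1 z hz).ge)
    have d4 := le_two h _ (fun z hz => (i2 z hz).ge)
    have d5 := le_sub h _ (fun z hz => (i1 z hz).le)
    have d6 := le_sub h _ (fun z hz => (i2 z hz).le)
    rcases h.dim with hd | hd <;> omega
  -- the other eigenvalues
  have heig : ∀ (c : ℝ) (x : V), k x = c • x → x ≠ 0 → c ≠ 0 → c = 1 ∨ c = -1 := by
    intro c x hx hxn hc
    have h1 : wd b x x0 ≠ 0 := by
      intro h2
      obtain ⟨t, ht⟩ := wd_eq_zero h.nondeg h2 hxn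
      have h3 : (t * c) • x = 0 := by
        rw [mul_smul, ← hx, ← map_smul, ← ht, hkx0]
      rcases smul_eq_zero.1 h3 with h4 | h4
      · rcases mul_eq_zero.1 h4 with h5 | h5
        · rw [h5, zero_smul] at ht; exact hx0 ht
        · exact hc h5
      · exact hxn h4
    have h2 := cube c 0 x x0 hx (by rw [hkx0, zero_smul]) h1
    rw [add_zero] at h2
    have h3 : c * ((c - 1) * (c + 1)) = 0 := by linarith
    rcases mul_eq_zero.1 h3 with h4 | h4
    · exact absurd h4 hc
    · rcases mul_eq_zero.1 h4 with h5 | h5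
      · exact Or.inl (by linarith)
      · exact Or.inr (by linarith)
  obtain ⟨c, x, hx, hxn, hc⟩ : ∃ (c : ℝ) (x : V), k x = c • x ∧ x ≠ 0 ∧ c ≠ 0 := by
    by_contra hcon
    push Not at hcon
    apply hk0
    refine extk _ _ fun c x hx => ?_
    rw [LinearMap.zero_apply, hx]
    by_cases hxn : x = 0
    · rw [hxn, smul_zero]
    · rw [hcon c x hx hxn, zero_smul]
  obtain ⟨y, hy, hxy⟩ : ∃ y, k y = (-c) • y ∧ b x y ≠ 0 := by
    by_contra hcon
    push Not at hcon
    apply hxn
    refine h.nondeg x fun y => ?_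
    have : b x = 0 := by
      refine extk _ _ fun d y hy => ?_
      rw [LinearMap.zero_apply]
      by_cases hd : d = -c
      · rw [hd] at hy; exact hcon y hy
      · exact orth c d x y hx hy fun h => hd (by linarith)
    rw [this, LinearMap.zero_apply]
  obtain ⟨e, f, he, hf, hef⟩ : ∃ e f, k e = e ∧ k f = -f ∧ b e f = 1 := by
    rcases heig c x hx hxn hc with hc1 | hc1
    · refine ⟨x, (b x y)⁻¹ • y, by rw [hx, hc1, one_smul], ?_, ?_⟩
      · rw [map_smul, hy, hc1]; module
      · rw [map_smul, smul_eq_mul, inv_mul_cancel₀ hxy]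
    · refine ⟨(b x y)⁻¹ • y, x, ?_, by rw [hx, hc1]; module, ?_⟩
      · rw [map_smul, hy, hc1]; module
      · rw [map_smul, LinearMap.smul_apply, smul_eq_mul, h.symm y x, inv_mul_cancel₀ hxy]
  have hee : b e e = 0 := orth 1 1 e e (by rw [he, one_smul]) (by rw [he, one_smul]) (by norm_num)
  have hff : b f f = 0 := orth (-1) (-1) f f (by rw [hf]; module) (by rw [hf]; module) (by norm_num)
  have hp : HP b e f := ⟨h.symm, hee, hff, hef⟩
  have he0 : e ≠ 0 := by
    rintro rfl
    rw [map_zero, LinearMap.zero_apply] at hef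
    exact zero_ne_one hef
  have hf0 : f ≠ 0 := by
    rintro rfl
    rw [map_zero] at hef
    exact zero_ne_one hef
  refine ⟨e, f, hp, extk _ _ fun d v hv => ?_⟩
  by_cases hv0 : v = 0
  · rw [hv0, map_zero, map_zero]
  by_cases hd : d = 0
  · rw [hd, zero_smul] at hv
    rw [hv, hp.hu]
    · exact orth 1 0 e v (by rw [he, one_smul]) (by rw [hv, zero_smul]) (by norm_num)
    · exact orth (-1) 0 f v (by rw [hf]; module) (by rw [hv, zero_smul]) (by norm_num)
  · rcases heig d v hv hv0 hd with hd1 | hd1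
    · have h1 : wd b e v = 0 := by
        by_contra hne
        have := cube 1 d e v (by rw [he, one_smul]) hv hne
        rw [hd1] at this
        norm_num at this
      obtain ⟨t, rfl⟩ := wd_eq_zero h.nondeg h1 he0
      rw [map_smul, map_smul, he, hp.he]
    · have h1 : wd b f v = 0 := by
        by_contra hne
        have := cube (-1) d f v (by rw [hf]; module) hv hne
        rw [hd1] at this
        norm_num at this
      obtain ⟨t, rfl⟩ := wd_eq_zero h.nondeg h1 hf0
      rw [map_smul, map_smul, hf, hp.hf]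

/-! ### The graph case -/

variable {V' : Type} [AddCommGroup V'] [Module ℝ V'] {b' : LinearMap.BilinForm ℝ V'}

/-- `l` is the graph of an isomorphism -/
structure GC (b : LinearMap.BilinForm ℝ V) (b' : LinearMap.BilinForm ℝ V')
    (l : Submodule ℝ (Module.End ℝ V × Module.End ℝ V')) : Prop where
  skew : ∀ p ∈ l, Sk b p.1
  skew' : ∀ p ∈ l, Sk b' p.2
  brk : ∀ p ∈ l, ∀ q ∈ l, (p.1 * q.1 - q.1 * p.1, p.2 * q.2 - q.2 * p.2) ∈ l
  onto : ∀ a, Sk b a → ∃ a', (a, a') ∈ l
  onto' : ∀ a', Sk b' a' → ∃ a, (a, a') ∈ l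
  uq : ∀ a', ((0 : Module.End ℝ V), a') ∈ l → a' = 0
  uq' : ∀ a, (a, (0 : Module.End ℝ V')) ∈ l → a = 0

theorem GC.uq2 {l : Submodule ℝ (Module.End ℝ V × Module.End ℝ V')} (G : GC b b' l)
    {a : Module.End ℝ V} {a' a'' : Module.End ℝ V'} (h1 : (a, a') ∈ l) (h2 : (a, a'') ∈ l) :
    a' = a'' := by
  have h3 := l.sub_mem h1 h2
  rw [Prod.mk_sub_mk, sub_self] at h3
  exact sub_eq_zero.1 (G.uq _ h3)

theorem GC.uq2' {l : Submodule ℝ (Module.End ℝ V × Module.End ℝ V')} (G : GC b b' l)
    {a a₂ : Module.End ℝ V} {a' : Module.End ℝ V'} (h1 : (a, a') ∈ l) (h2 : (a₂, a') ∈ l) :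
    a = a₂ := by
  have h3 := l.sub_mem h1 h2
  rw [Prod.mk_sub_mk, sub_self] at h3
  exact sub_eq_zero.1 (G.uq' _ h3)

theorem graph_iso [FiniteDimensional ℝ V] [FiniteDimensional ℝ V'] (h : QH b) (h' : QH b')
    {l : Submodule ℝ (Module.End ℝ V × Module.End ℝ V')} (G : GC b b' l) {e f : V} {e' f' : V'}
    (hp : HP b e f) (hp' : HP b' e' f') (hl : (wd b e f, wd b' e' f') ∈ l) :
    ∃ (ψ : V ≃ₗ[ℝ] V') (c : ℝ), c ≠ 0 ∧ (∀ x y, b' (ψ x) (ψ y) = c * b x y) ∧
      ∀ p ∈ l, ∀ x, p.2 (ψ x) = ψ (p.1 x) := by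
  have he'0 : e' ≠ 0 := by
    rintro rfl
    have := hp'.ef
    rw [map_zero, LinearMap.zero_apply] at this
    exact zero_ne_one this
  choose E hE using fun u => G.onto (wd b e u) (wd_skew h.symm e u)
  choose F hF using fun u => G.onto (wd b f u) (wd_skew h.symm f u)
  have hEadd : ∀ u w, E (u + w) = E u + E w := by
    intro u w
    refine G.uq2 (hE _) ?_
    have := l.add_mem (hE u) (hE w)
    rwa [Prod.mk_add_mk, ← map_add] at this
  have hEsmul : ∀ (r : ℝ) u, E (r • u) = r • E u := by
    intro r u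
    refine G.uq2 (hE _) ?_
    have := l.smul_mem r (hE u)
    rwa [Prod.smul_mk, ← map_smul] at this
  have hFadd : ∀ u w, F (u + w) = F u + F w := by
    intro u w
    refine G.uq2 (hF _) ?_
    have := l.add_mem (hF u) (hF w)
    rwa [Prod.mk_add_mk, ← map_add] at this
  have hFsmul : ∀ (r : ℝ) u, F (r • u) = r • F u := by
    intro r u
    refine G.uq2 (hF _) ?_
    have := l.smul_mem r (hF u)
    rwa [Prod.smul_mk, ← map_smul] at this
  let θ : V →ₗ[ℝ] V' :=
    { toFun := fun u => -(E u f')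
      map_add' := by intro u w; rw [hEadd, LinearMap.add_apply, neg_add]
      map_smul' := by intro r u; rw [hEsmul, LinearMap.smul_apply, RingHom.id_apply, smul_neg] }
  let θ' : V →ₗ[ℝ] V' :=
    { toFun := fun u => -(F u e')
      map_add' := by intro u w; rw [hFadd, LinearMap.add_apply, neg_add]
      map_smul' := by intro r u; rw [hFsmul, LinearMap.smul_apply, RingHom.id_apply, smul_neg] }
  have hθ : ∀ u, b e u = 0 → b f u = 0 →
      b' e' (θ u) = 0 ∧ b' f' (θ u) = 0 ∧ E u = wd b' e' (θ u) := by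
    intro u h1 h2
    have h3 := G.brk _ hl _ (hE u)
    simp only at h3
    rw [hp.adE h1 h2] at h3
    exact hp'.g1 (G.skew' _ (hE u)) (G.uq2 h3 (hE u))
  have hθ' : ∀ u, b e u = 0 → b f u = 0 →
      b' f' (θ' u) = 0 ∧ b' e' (θ' u) = 0 ∧ F u = wd b' f' (θ' u) := by
    intro u h1 h2
    have h3 := G.brk _ hl _ (hF u)
    simp only at h3
    rw [hp.adF h1 h2] at h3
    have h4 := l.neg_mem (hF u)
    rw [Prod.neg_mk] at h4
    have h5 := G.uq2 h3 h4
    refine hp'.swap.g1 (G.skew' _ (hF u)) ?_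
    rw [wd_swap f' e', neg_mul, mul_neg, sub_neg_eq_add, neg_add_eq_sub, ← neg_sub, h5, neg_neg]
  -- the main relation
  have star : ∀ u w, b e u = 0 → b f u = 0 → b e w = 0 → b f w = 0 →
      (wd b u w, wd b' (θ u) (θ' w) + (b' (θ u) (θ' w) - b u w) • wd b' e' f') ∈ l := by
    intro u w h1 h2 h3 h4
    have h5 := G.brk _ (hE u) _ (hF w)
    simp only at h5
    obtain ⟨a1, a2, a3⟩ := hθ u h1 h2
    obtain ⟨a4, a5, a6⟩ := hθ' w h3 h4
    rw [hp.adEF h2 h3, a3, a6, hp'.adEF a2 a5] at h5
    have h6 := l.sub_mem (l.neg_mem h5) (l.smul_mem (b u w) hl)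
    rw [Prod.neg_mk, Prod.smul_mk, Prod.mk_sub_mk] at h6
    convert h6 using 2
    · abel
    · module
  have hself : ∀ u, b e u = 0 → b f u = 0 →
      b' (θ u) (θ' u) = b u u ∧ wd b' (θ u) (θ' u) = 0 := by
    intro u h1 h2
    obtain ⟨a1, a2, a3⟩ := hθ u h1 h2
    obtain ⟨a4, a5, a6⟩ := hθ' u h1 h2
    have h3 := star u u h1 h2 h1 h2
    rw [wd_self] at h3
    have h4 := G.uq _ h3
    have h5 := congrArg (fun T : Module.End ℝ V' => T e') h4
    simp only [LinearMap.add_apply, LinearMap.smul_apply, LinearMap.zero_apply] at h5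
    rw [wd_apply, hp'.he, h'.symm (θ' u) e', a5, h'.symm (θ u) e', a1, zero_smul, zero_smul, sub_zero,
      zero_add] at h5
    have h6 := (smul_eq_zero.1 h5).resolve_right he'0
    refine ⟨sub_eq_zero.1 h6, ?_⟩
    rw [h6, zero_smul, add_zero] at h4
    exact h4
  have hinj : ∀ u, b e u = 0 → b f u = 0 → θ u = 0 → u = 0 := by
    intro u h1 h2 h3
    obtain ⟨a1, a2, a3⟩ := hθ u h1 h2
    rw [h3, map_zero] at a3
    have h4 := hE u
    rw [a3] at h4
    have h5 := G.uq' _ h4
    have h6 := hp.wef (u := u) h2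
    rw [h5, LinearMap.zero_apply] at h6
    exact neg_eq_zero.1 h6.symm
  -- a non-isotropic vector
  obtain ⟨u0, v1, v2, v3⟩ : ∃ y, b e y = 0 ∧ b f y = 0 ∧ b y y ≠ 0 := by
    by_contra hcon2
    push Not at hcon2
    obtain ⟨u, -, hu0, hF⟩ := exists_ker ![b e, b f] (⊤ : Submodule ℝ V) (by
      rw [finrank_top]; rcases h.dim with h | h <;> omega)
    have e1 : b e u = 0 := hF 0
    have e2 : b f u = 0 := hF 1
    apply hu0
    refine h.nondeg u fun y => ?_
    have hy : ∀ w, b e w = 0 → b f w = 0 → b u w = 0 := by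
      intro w e3 e4
      have e5 := hcon2 (u + w) (by rw [map_add, e1, e3, add_zero])
        (by rw [map_add, e2, e4, add_zero])
      have e6 := hcon2 u e1 e2
      have e7 := hcon2 w e3 e4
      simp only [map_add, LinearMap.add_apply, e6, e7, h.symm w u] at e5
      linarith
    exact hp.ind (LinearMap.ker (b u)) (by rw [LinearMap.mem_ker, h.symm]; exact e1)
      (by rw [LinearMap.mem_ker, h.symm]; exact e2) (fun w e3 e4 => hy w e3 e4) y
  have hu0 : u0 ≠ 0 := by
    rintro rfl
    rw [map_zero] at v3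
    exact v3 rfl
  have hθu0 : θ u0 ≠ 0 := fun h => hu0 (hinj u0 v1 v2 h)
  obtain ⟨s1, s2⟩ := hself u0 v1 v2
  obtain ⟨c, hc⟩ := wd_eq_zero h'.nondeg s2 hθu0
  have hθc : ∀ u, b e u = 0 → b f u = 0 → θ' u = c • θ u := by
    intro u h1 h2
    obtain ⟨s3, s4⟩ := hself u h1 h2
    obtain ⟨s5, s6⟩ := hself (u0 + u) (by rw [map_add, v1, h1, add_zero])
      (by rw [map_add, v2, h2, add_zero])
    simp only [map_add, LinearMap.add_apply] at s6
    rw [s2, s4, hc, map_smul, zero_add, add_zero] at s6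
    have s7 : wd b' (θ u0) (θ' u - c • θ u) = 0 := by
      rw [map_sub, map_smul, ← s6, wd_swap (θ u) (θ u0)]
      module
    obtain ⟨t, ht⟩ := wd_eq_zero h'.nondeg s7 hθu0
    by_cases ht0 : t = 0
    · rw [ht0, zero_smul] at ht
      exact sub_eq_zero.1 ht
    · have s8 : wd b' (θ u0) (θ u) = 0 := by
        have s9 : wd b' (θ u) (θ' u - c • θ u) = 0 := by
          rw [map_sub, map_smul, s4, wd_self, smul_zero, sub_zero]
        rw [ht, map_smul] at s9
        rw [wd_swap, (smul_eq_zero.1 s9).resolve_left ht0, neg_zero]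
      obtain ⟨r, hr⟩ := wd_eq_zero h'.nondeg s8 hθu0
      have s9 : u = r • u0 := by
        have := hinj (u - r • u0) (by rw [map_sub, map_smul, h1, v1, smul_zero, sub_zero])
          (by rw [map_sub, map_smul, h2, v2, smul_zero, sub_zero])
          (by rw [map_sub, map_smul, hr, sub_self])
        exact sub_eq_zero.1 this
      rw [s9, map_smul, map_smul, hc, smul_comm]
  have hform : ∀ u w, b e u = 0 → b f u = 0 → b e w = 0 → b f w = 0 →
      b u w = c * b' (θ u) (θ w) := by
    intro u w h1 h2 h3 h4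
    have s5 := (hself (u + w) (by rw [map_add, h1, h3, add_zero])
      (by rw [map_add, h2, h4, add_zero])).1
    have s6 := (hself u h1 h2).1
    have s7 := (hself w h3 h4).1
    rw [hθc _ h1 h2] at s6
    rw [hθc _ h3 h4] at s7
    rw [hθc _ (by rw [map_add, h1, h3, add_zero]) (by rw [map_add, h2, h4, add_zero])] at s5
    simp only [map_add, map_smul, LinearMap.add_apply, smul_eq_mul, mul_add] at s5 s6 s7
    have s8 := h.symm w u
    have s9 := h'.symm (θ w) (θ u)
    rw [s8, s9] at s5
    linarith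
  have hc0 : c ≠ 0 := by
    rintro rfl
    apply v3
    rw [hform u0 u0 v1 v2 v1 v2, zero_mul]
  -- the similitude
  let pU : V →ₗ[ℝ] V := LinearMap.id - (b f).smulRight e - (b e).smulRight f
  have hpU : ∀ v, pU v = v - b f v • e - b e v • f := fun v => rfl
  let ψ : V →ₗ[ℝ] V' := θ.comp pU + (b f).smulRight (c⁻¹ • e') + (b e).smulRight f'
  have hψ : ∀ v, ψ v = θ (v - b f v • e - b e v • f) + b f v • (c⁻¹ • e') + b e v • f' := fun v => rfl
  have hθd : ∀ u, θ u = -(E u f') := fun u => rfl
  clear_value ψ θ θ'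
  have hψe : ψ e = c⁻¹ • e' := by
    rw [hψ, hp.fe, hp.ee, one_smul, zero_smul, sub_self, sub_zero, map_zero, one_smul, zero_smul,
      zero_add, add_zero]
  have hψf : ψ f = f' := by
    rw [hψ, hp.ef, hp.ff, one_smul, zero_smul, sub_zero, sub_self, map_zero, one_smul, zero_smul,
      zero_add, zero_add]
  have hψu : ∀ u, b e u = 0 → b f u = 0 → ψ u = θ u := by
    intro u h1 h2
    rw [hψ, h1, h2, zero_smul, zero_smul, sub_zero, sub_zero, zero_smul, zero_smul, add_zero, add_zero]
  -- the form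
  have hB : b'.compl₁₂ ψ ψ = c⁻¹ • b := by
    refine hp.ext ?_ ?_ ?_
    · refine hp.ext ?_ ?_ ?_
      · simp only [LinearMap.compl₁₂_apply, LinearMap.smul_apply, hψe, map_smul, smul_eq_mul, hp'.ee,
          hp.ee, mul_zero]
      · simp only [LinearMap.compl₁₂_apply, LinearMap.smul_apply, hψe, hψf, map_smul, smul_eq_mul,
          hp'.ef, hp.ef, mul_one]
      · intro w h1 h2
        simp only [LinearMap.compl₁₂_apply, LinearMap.smul_apply, hψe, hψu w h1 h2, map_smul,
          smul_eq_mul, (hθ w h1 h2).1, h1, mul_zero]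
    · refine hp.ext ?_ ?_ ?_
      · simp only [LinearMap.compl₁₂_apply, LinearMap.smul_apply, hψe, hψf, map_smul, smul_eq_mul,
          hp'.fe, hp.fe, mul_one]
      · simp only [LinearMap.compl₁₂_apply, LinearMap.smul_apply, hψf, smul_eq_mul, hp'.ff,
          hp.ff, mul_zero]
      · intro w h1 h2
        simp only [LinearMap.compl₁₂_apply, LinearMap.smul_apply, hψf, hψu w h1 h2,
          smul_eq_mul, (hθ w h1 h2).2.1, h2, mul_zero]
    · intro u h1 h2
      have g1 : b u e = 0 := by rw [h.symm]; exact h1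
      have g2 : b u f = 0 := by rw [h.symm]; exact h2
      have g3 : b' (θ u) e' = 0 := by rw [h'.symm]; exact (hθ u h1 h2).1
      have g4 : b' (θ u) f' = 0 := by rw [h'.symm]; exact (hθ u h1 h2).2.1
      refine hp.ext ?_ ?_ ?_
      · simp only [LinearMap.compl₁₂_apply, LinearMap.smul_apply, hψe, hψu u h1 h2, map_smul,
          smul_eq_mul, g1, g3, mul_zero]
      · simp only [LinearMap.compl₁₂_apply, LinearMap.smul_apply, hψf, hψu u h1 h2,
          smul_eq_mul, g2, g4, mul_zero]
      · intro w h3 h4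
        simp only [LinearMap.compl₁₂_apply, LinearMap.smul_apply, hψu u h1 h2, hψu w h3 h4,
          smul_eq_mul]
        rw [hform u w h1 h2 h3 h4, ← mul_assoc, inv_mul_cancel₀ hc0, one_mul]
  have hB' : ∀ x y, b' (ψ x) (ψ y) = c⁻¹ * b x y := by
    intro x y
    have := congrArg (fun T : V →ₗ[ℝ] V →ₗ[ℝ] ℝ => T x y) hB
    simpa only [LinearMap.compl₁₂_apply, LinearMap.smul_apply, smul_eq_mul] using this
  -- the wedges
  have hsw : ∀ x y, (wd b x y, c • wd b' (ψ x) (ψ y)) ∈ l →
      (wd b y x, c • wd b' (ψ y) (ψ x)) ∈ l := by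
    intro x y hxy
    have := l.neg_mem hxy
    rw [Prod.neg_mk, ← wd_swap, ← smul_neg, ← wd_swap] at this
    exact this
  have hxx : ∀ x, (wd b x x, c • wd b' (ψ x) (ψ x)) ∈ l := by
    intro x
    rw [wd_self, wd_self, smul_zero]
    exact l.zero_mem
  have hef : (wd b e f, c • wd b' (ψ e) (ψ f)) ∈ l := by
    rw [hψe, hψf, map_smul, LinearMap.smul_apply, smul_smul, mul_inv_cancel₀ hc0, one_smul]
    exact hl
  have heu : ∀ u, b e u = 0 → b f u = 0 → (wd b e u, c • wd b' (ψ e) (ψ u)) ∈ l := by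
    intro u h1 h2
    rw [hψe, hψu u h1 h2, map_smul, LinearMap.smul_apply, smul_smul, mul_inv_cancel₀ hc0, one_smul,
      ← (hθ u h1 h2).2.2]
    exact hE u
  have hfu : ∀ u, b e u = 0 → b f u = 0 → (wd b f u, c • wd b' (ψ f) (ψ u)) ∈ l := by
    intro u h1 h2
    have := hF u
    rw [(hθ' u h1 h2).2.2, hθc u h1 h2, map_smul] at this
    rw [hψf, hψu u h1 h2]
    exact this
  have huw : ∀ u w, b e u = 0 → b f u = 0 → b e w = 0 → b f w = 0 →
      (wd b u w, c • wd b' (ψ u) (ψ w)) ∈ l := by
    intro u w h1 h2 h3 h4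
    have := star u w h1 h2 h3 h4
    rw [hθc w h3 h4, map_smul, map_smul, smul_eq_mul, hform u w h1 h2 h3 h4, sub_self, zero_smul,
      add_zero] at this
    rw [hψu u h1 h2, hψu w h3 h4]
    exact this
  have hall : ∀ x y, (wd b x y, c • wd b' (ψ x) (ψ y)) ∈ l := by
    have hx : ∀ x, (∀ y, y = e ∨ y = f ∨ (b e y = 0 ∧ b f y = 0) →
        (wd b x y, c • wd b' (ψ x) (ψ y)) ∈ l) → ∀ y, (wd b x y, c • wd b' (ψ x) (ψ y)) ∈ l := by
      intro x hx y
      exact hp.ind (l.comap ((wd b x).prod (c • (wd b' (ψ x)).comp ψ))) (hx e (Or.inl rfl))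
        (hx f (Or.inr (Or.inl rfl))) (fun u h1 h2 => hx u (Or.inr (Or.inr ⟨h1, h2⟩))) y
    have hy : ∀ y, y = e ∨ y = f ∨ (b e y = 0 ∧ b f y = 0) →
        ∀ x, (wd b y x, c • wd b' (ψ y) (ψ x)) ∈ l := by
      rintro y (rfl | rfl | ⟨h1, h2⟩)
      · refine hx _ ?_
        rintro z (rfl | rfl | ⟨h3, h4⟩)
        · exact hxx _
        · exact hef
        · exact heu z h3 h4
      · refine hx _ ?_
        rintro z (rfl | rfl | ⟨h3, h4⟩)
        · exact hsw _ _ hef
        · exact hxx _
        · exact hfu z h3 h4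
      · refine hx _ ?_
        rintro z (rfl | rfl | ⟨h3, h4⟩)
        · exact hsw _ _ (heu y h1 h2)
        · exact hsw _ _ (hfu y h1 h2)
        · exact huw y z h1 h2 h3 h4
    intro x
    exact hx x fun y hy' => hsw _ _ (hy y hy' x)
  -- `ψ` is bijective
  have hψinj : Function.Injective ψ := by
    rw [injective_iff_map_eq_zero]
    intro x hx
    refine h.nondeg x fun y => ?_
    have := hB' x y
    rw [hx, map_zero, LinearMap.zero_apply] at this
    exact (mul_eq_zero.1 this.symm).resolve_left (inv_ne_zero hc0)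
  have hψsurj : Function.Surjective ψ := by
    intro v'
    refine hp'.ind (LinearMap.range ψ) ⟨c • e, ?_⟩ ⟨f, hψf⟩ ?_ v'
    · rw [map_smul, hψe, smul_smul, mul_inv_cancel₀ hc0, one_smul]
    · intro u' h1 h2
      obtain ⟨a, ha⟩ := G.onto' (wd b' e' u') (wd_skew h'.symm e' u')
      have h3 := G.brk _ hl _ ha
      simp only at h3
      rw [hp'.adE h1 h2] at h3
      obtain ⟨g1, g2, g3⟩ := hp.g1 (G.skew _ ha) (G.uq2' h3 ha)
      refine ⟨-a f, ?_⟩
      rw [hψu _ g1 g2]
      have h4 := hE (-a f)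
      rw [← g3] at h4
      have h5 := G.uq2 h4 ha
      rw [hθd, h5, hp'.wef h2, neg_neg]
  refine ⟨LinearEquiv.ofBijective ψ ⟨hψinj, hψsurj⟩, c⁻¹, inv_ne_zero hc0, hB', ?_⟩
  intro p hpl x
  change p.2 (ψ x) = ψ (p.1 x)
  have h1 := Sk_mem h (G.skew p hpl)
  have h2 : ∀ a ∈ Submodule.span ℝ {c | ∃ x y, c = wd b x y}, ∃ a', (a, a') ∈ l ∧
      ∀ x, a' (ψ x) = ψ (a x) := by
    intro a ha
    induction ha using Submodule.span_induction with
    | mem a ha =>
      obtain ⟨x, y, rfl⟩ := ha
      refine ⟨_, hall x y, fun v => ?_⟩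
      rw [LinearMap.smul_apply, wd_apply, wd_apply, hB', hB', map_sub, map_smul, map_smul, smul_sub,
        smul_smul, smul_smul, ← mul_assoc, ← mul_assoc, mul_inv_cancel₀ hc0, one_mul, one_mul]
    | zero => exact ⟨0, l.zero_mem, fun v => by rw [LinearMap.zero_apply, LinearMap.zero_apply, map_zero]⟩
    | add a a₂ _ _ h1 h2 =>
      obtain ⟨a', h3, h4⟩ := h1
      obtain ⟨a'', h5, h6⟩ := h2
      exact ⟨a' + a'', l.add_mem h3 h5, fun v => by
        rw [LinearMap.add_apply, LinearMap.add_apply, map_add, h4, h6]⟩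
    | smul r a _ h1 =>
      obtain ⟨a', h3, h4⟩ := h1
      exact ⟨r • a', l.smul_mem r h3, fun v => by
        rw [LinearMap.smul_apply, LinearMap.smul_apply, map_smul, h4]⟩
  obtain ⟨a', h3, h4⟩ := h2 p.1 h1
  rw [G.uq2 (a := p.1) (a' := p.2) hpl h3]
  exact h4 x

/-- the similitude factor is positive -/
theorem pos_factor [FiniteDimensional ℝ V] [FiniteDimensional ℝ V'] (h : QH b) (h' : QH b')
    (ψ : V ≃ₗ[ℝ] V') {s : ℝ} (hs : s ≠ 0) (hB : ∀ x y, b' (ψ x) (ψ y) = s * b x y) : 0 < s := by
  by_contra hcon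
  have hs' : s < 0 := lt_of_le_of_ne (not_lt.1 hcon) hs
  rcases h.dim with hd | hd
  · obtain ⟨P, hP, hpos⟩ := exists_P h
    have h1 := le_sub h' (P.map (ψ : V →ₗ[ℝ] V')) (by
      rintro _ ⟨z, hz, rfl⟩
      by_cases hz0 : z = 0
      · rw [hz0, map_zero, map_zero]
      · have h2 : 0 < b z z := by
          by_contra hc
          exact hz0 (hpos z hz (not_lt.1 hc))
        have h3 := hB z z
        change b' (ψ z) (ψ z) ≤ 0
        rw [h3]
        exact (mul_neg_of_neg_of_pos hs' h2).le)
    rw [LinearEquiv.finrank_map_eq, hP, ← ψ.finrank_eq, hd] at h1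
    omega
  · obtain ⟨x, y, -, -, -, hneg⟩ := h.pos
    obtain ⟨x', y', -, -, -, hneg'⟩ := h'.pos
    obtain ⟨z, -, hz0, hF⟩ := exists_ker
      ![b x, b y, (b' x').comp (ψ : V →ₗ[ℝ] V'), (b' y').comp (ψ : V →ₗ[ℝ] V')] ⊤ (by
      rw [finrank_top]; omega)
    have h1 := hneg z hz0 (hF 0) (hF 1)
    have h2 := hneg' (ψ z) (fun h0 => hz0 (ψ.map_eq_zero_iff.1 h0)) (hF 2) (hF 3)
    rw [hB] at h2
    have h3 := mul_pos_of_neg_of_neg hs' h1
    linarith

/-- the cube of the adjoint action -/
theorem HP.cube {e f : V} (hp : HP b e f) {a : Module.End ℝ V} (ha : Sk b a) :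
    wd b e f * (wd b e f * (wd b e f * a - a * wd b e f) - (wd b e f * a - a * wd b e f) * wd b e f) -
      (wd b e f * (wd b e f * a - a * wd b e f) - (wd b e f * a - a * wd b e f) * wd b e f) *
        wd b e f = wd b e f * a - a * wd b e f := by
  obtain ⟨h1, h2, h3, h4, h5⟩ := hp.ad ha
  set u1 := a f + b f (a e) • f
  set u2 := a e - b f (a e) • e
  have e1 := hp.adF h3 h4
  have e2 := hp.adE h1 h2
  have e3 : ∀ r s : ℝ, wd b e f * (r • wd b f u2 - s • wd b e u1) -
      (r • wd b f u2 - s • wd b e u1) * wd b e f = (-r) • wd b f u2 - s • wd b e u1 := by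
    intro r s
    calc _ = r • (wd b e f * wd b f u2 - wd b f u2 * wd b e f) -
        s • (wd b e f * wd b e u1 - wd b e u1 * wd b e f) := by
          rw [mul_sub, sub_mul, mul_smul_comm, mul_smul_comm, smul_mul_assoc, smul_mul_assoc,
            smul_sub, smul_sub]
          abel
      _ = _ := by rw [e1, e2, smul_neg, neg_smul]
  have e4 : wd b e f * a - a * wd b e f = (1 : ℝ) • wd b f u2 - (1 : ℝ) • wd b e u1 := by
    rw [h5, one_smul, one_smul]
  rw [e4, e3, e3, neg_neg]

end PRX

open PRX in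
/-- PR. -/
theorem PR_proof : Stmt_PR := by
  intro V V' _ _ _ _ _ _ b b' l H
  have h : QH b := ⟨H.symm, H.nondeg, H.pos, H.dim⟩
  have h' : QH b' := ⟨H.symm', H.nondeg', H.pos', H.dim'⟩
  let K : Submodule ℝ (Module.End ℝ V) := l.comap (LinearMap.inl ℝ _ _)
  let K' : Submodule ℝ (Module.End ℝ V') := l.comap (LinearMap.inr ℝ _ _)
  have mK : ∀ a, a ∈ K ↔ (a, (0 : Module.End ℝ V')) ∈ l := fun a => Iff.rfl
  have mK' : ∀ a, a ∈ K' ↔ ((0 : Module.End ℝ V), a) ∈ l := fun a => Iff.rfl
  by_cases hK : K = ⊥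
  swap
  · left
    intro a ha
    refine (mK a).1 (simple h K (fun a ha => H.skew _ ha) ?_ hK ha)
    intro s hs a ha
    obtain ⟨s', hs'⟩ := H.onto s hs
    have := H.brk _ hs' _ ((mK a).1 ha)
    simp only [mul_zero, zero_mul, sub_zero] at this
    exact this
  by_cases hK' : K' = ⊥
  swap
  · left
    intro a ha
    obtain ⟨a', ha'⟩ := H.onto a ha
    have h1 : a' ∈ K' := by
      refine simple h' K' (fun a ha => H.skew' _ ha) ?_ hK' (H.skew' _ ha')
      intro s hs a ha
      obtain ⟨s', hs'⟩ := H.onto' s hs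
      have := H.brk _ hs' _ ((mK' a).1 ha)
      simp only [mul_zero, zero_mul, sub_zero] at this
      exact this
    have h2 := l.sub_mem ha' ((mK' a').1 h1)
    rwa [Prod.mk_sub_mk, sub_zero, sub_self] at h2
  right
  have G : GC b b' l := ⟨H.skew, H.skew', H.brk, H.onto, H.onto',
    fun a' ha' => by
      have : a' ∈ K' := ha'
      rw [hK'] at this
      exact this,
    fun a ha => by
      have : a ∈ K := ha
      rw [hK] at this
      exact this⟩
  obtain ⟨e, f, hp⟩ := exists_HP h
  obtain ⟨s', hs'⟩ := H.onto _ (wd_skew h.symm e f)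
  obtain ⟨k, hk, hkd⟩ := H.hyp _ hs' (by
    rw [eq_top_iff]
    intro v _
    refine hp.ind _ ?_ ?_ ?_ v
    · refine (le_iSup (fun c : ℝ => Module.End.eigenspace (wd b e f) c) 1) ?_
      rw [Module.End.mem_eigenspace_iff, hp.he, one_smul]
    · refine (le_iSup (fun c : ℝ => Module.End.eigenspace (wd b e f) c) (-1)) ?_
      rw [Module.End.mem_eigenspace_iff, hp.hf, neg_smul, one_smul]
    · intro u h1 h2
      refine (le_iSup (fun c : ℝ => Module.End.eigenspace (wd b e f) c) 0) ?_
      rw [Module.End.mem_eigenspace_iff, hp.hu h1 h2, zero_smul])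
  have hk' : (wd b e f, k) ∈ l := hk
  have hk0 : k ≠ 0 := by
    rintro rfl
    have h1 := G.uq' _ hk'
    have h2 := hp.he
    rw [h1, LinearMap.zero_apply] at h2
    have h3 := hp.ef
    rw [← h2, map_zero, LinearMap.zero_apply] at h3
    exact zero_ne_one h3
  obtain ⟨e', f', hp', hkk⟩ := hyp_form h' (G.skew' _ hk') hk0 hkd (by
    intro a' ha'
    obtain ⟨a, ha⟩ := G.onto' a' ha'
    have h1 := G.brk _ hk' _ ha
    have h2 := G.brk _ hk' _ h1
    have h3 := G.brk _ hk' _ h2
    simp only at h3 h1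
    rw [hp.cube (G.skew _ ha)] at h3
    exact G.uq2 h3 h1)
  have hkk' : k = wd b' e' f' := hkk
  rw [hkk'] at hk'
  obtain ⟨ψ, s, hs, hB, hψ⟩ := graph_iso h h' G hp hp' hk'
  exact ⟨ψ, s, pos_factor h h' ψ hs hB, hB, hψ⟩

end

end Pool.Agent.K3P
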