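import Pool.Agent.K3E.Assembly
import Pool.Agent.K3P.P5c
import Pool.Agent.K3P.P5d
import Pool.Agent.K3P.P8a
import Pool.Agent.K3P.P8b
import Pool.Agent.K3P.P8c
import Pool.Agent.K3P.Q3
import Pool.Agent.K3P.PF
import Pool.Agent.K3P.PR
import Pool.Agent.K3P.G0
import Pool.Agent.K3P.GA
import Pool.Agent.K3P.GE
import Pool.Agent.K3P.GG
import Pool.Agent.K3P.GL
import Pool.Agent.K3P.GN
import Pool.Agent.K3P.GP

/-!
# De Rham-Betti conjecture for products of Kuga-Satake varieties: assembly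
-/

namespace Pool.Agent.K3P

open Pool.Agent.DRB Pool.Agent.K3D Pool.Agent.K3E

theorem p5cC : Stmt_P5c := P5c_proof descqC e2dC

theorem p5dC : Stmt_P5d := P5d_proof k2cC e2dC E5a_proof e5bC p5cC E5l_proof

theorem p8aC : Stmt_P8a := P8a_proof e2dC E5a_proof

theorem p8bC : Stmt_P8b := P8b_proof k2cC K6_proof K7E_proof e2dC E5a_proof e5vC E5l_proof p5dC p8aC

theorem p8cC : Stmt_P8c := P8c_proof k2cC E5a_proof

theorem pqC : Stmt_PQ := PQ_proof gb4_proof k1C k2aC k2b_proof k2cC k3_proof k4C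

theorem phC : Stmt_PH := PH_proof k2cC k4C

theorem glC : Stmt_GL := GL_proof pqC e2dC E5a_proof

theorem gpC : Stmt_GP := GP_proof PR_proof E5l_proof

theorem ggC : Stmt_GG := GG_proof gpC E5l_proof

theorem geC : Stmt_GE := GE_proof k2aC k2cC E5a_proof

theorem gnC : Stmt_GN := GN_proof leg_proof k2cC e2dC E5a_proof e5vC e8bC e8cC phC GA_proof

theorem g0C : Stmt_G0 := G0_proof gb4_proof k2aC k2b_proof k2cC e2dC E5a_proof e5vC p8bC pqC

theorem pgC : Stmt_PG := PG_of g0C glC gnC ggC geC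

/-- The main theorem. -/
theorem mainP : MainP :=
  PF_proof k1C homx_proof tauC piC leg_proof gb2_proof k2aC k2cC e2dC E5a_proof e5vC pgC

end Pool.Agent.K3P
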