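import Pool.Agent.K3P.GG1
import Pool.Agent.K3P.GP

/-!
# GG, second part: the places where one of the forms is definite, and the real place
-/

set_option autoImplicit false

open scoped BigOperators
open Matrix Polynomial

namespace Pool.Agent.K3P

open Pool.Agent.DRB Pool.Agent.K3D Pool.Agent.K3E
open Pool.Agent.K3D.K7w Pool.Agent.K3D.K7x

namespace GGX

section one

variable {g n m : ℕ} {A : AbVar g} (K : KSE A n m)

/-- real vectors -/
theorem ofReal_mem {v : Fin n → ℝ} (hv : v ∈ E8Y.V0 K) : (fun i => (v i : ℂ)) ∈ K.Tl (K.lam : ℂ) := by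
  rw [← E8Y.cplx_V0, mem_cplx]
  refine ⟨by simpa using hv, ?_⟩
  have : (fun i : Fin n => ((v i : ℂ)).im) = 0 := by funext i; simp
  rw [this]; exact Submodule.zero_mem _

/-- the form on real vectors -/
theorem bil_ofReal (v w : Fin n → ℝ) : K.bil (fun i => (v i : ℂ)) (fun i => (w i : ℂ)) =
    ((Bq (fun i => (K.q i : ℝ)) v w : ℝ) : ℂ) := by
  rw [KSE.bil, Bq_apply]
  push_cast
  rfl

/-- real and imaginary parts -/
theorem re_im (v : Fin n → ℂ) : v = (fun i => (((v i).re : ℝ) : ℂ)) +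
    Complex.I • fun i => (((v i).im : ℝ) : ℂ) := by
  funext i
  rw [Pi.add_apply, Pi.smul_apply, smul_eq_mul, mul_comm]
  exact (Complex.re_add_im _).symm

/-- The real eigenspaces. -/
def Vw (w : ℝ) : Submodule ℝ (Fin n → ℝ) where
  carrier := {v | (K.th.map (fun x => (x : ℝ))) *ᵥ v = w • v}
  add_mem' := by
    intro a b (h1 : _ = _) (h2 : _ = _)
    show _ = _
    rw [Matrix.mulVec_add, h1, h2, smul_add]
  zero_mem' := by
    show _ = _
    rw [Matrix.mulVec_zero, smul_zero]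
  smul_mem' := by
    intro c a (h : _ = _)
    show _ = _
    rw [Matrix.mulVec_smul, h, smul_comm]

theorem mem_Vw (w : ℝ) (v : Fin n → ℝ) :
    v ∈ Vw K w ↔ (K.th.map (fun x => (x : ℝ))) *ᵥ v = w • v := Iff.rfl

theorem cplx_Vw (w : ℝ) : cplx (Vw K w) = K.Tl (w : ℂ) := by
  ext v
  rw [E5L.mem_Tl, mem_cplx, mem_Vw, mem_Vw]
  constructor
  · rintro ⟨h1, h2⟩
    funext i
    refine Complex.ext ?_ ?_
    · rw [E8Y.th_re, h1]; simp
    · rw [E8Y.th_im, h2]; simp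
  · intro h
    refine ⟨?_, ?_⟩
    · funext i
      rw [← E8Y.th_re, h]; simp
    · funext i
      rw [← E8Y.th_im, h]; simp

theorem ofReal_mem_w {w : ℝ} {v : Fin n → ℝ} (hv : v ∈ Vw K w) :
    (fun i => (v i : ℂ)) ∈ K.Tl (w : ℂ) := by
  rw [← cplx_Vw, mem_cplx]
  refine ⟨by simpa using hv, ?_⟩
  have : (fun i : Fin n => ((v i : ℂ)).im) = 0 := by funext i; simp
  rw [this]; exact Submodule.zero_mem _

theorem pres_w {a : Matrix (Fin n) (Fin n) ℝ} (ha : a.map Complex.ofReal ∈ K.S) {w : ℝ}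
    {v : Fin n → ℝ} (hv : v ∈ Vw K w) : a *ᵥ v ∈ Vw K w := by
  have h1 := E5L.S_pres K ha (ofReal_mem_w K hv)
  rw [← cplx_Vw, mem_cplx, E8Y.ofReal_mulVec] at h1
  simpa using h1.1

/-- A real diagonalizable element of `so_E(T)` vanishes at the places where the form is definite. -/
theorem compact_zero {a : Matrix (Fin n) (Fin n) ℝ} (ha : a.map Complex.ofReal ∈ K.S)
    (hd : ⨆ μ : ℝ, Module.End.eigenspace (Matrix.toLin' a) μ = ⊤) {w : ℂ}
    (hw : aeval w K.P = 0) (hwl : w ≠ (K.lam : ℂ)) {v : Fin n → ℂ} (hv : v ∈ K.Tl w) :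
    (a.map Complex.ofReal) *ᵥ v = 0 := by
  have hwr : w = ((w.re : ℝ) : ℂ) := Complex.ext (by simp) (by rw [K.real w hw]; simp)
  have hpj : ∀ v ∈ Vw K w.re, Matrix.toLin' a v ∈ Vw K w.re := fun v hv => by
    rw [Matrix.toLin'_apply]; exact pres_w K ha hv
  have htop : (⨆ μ : ℝ, Module.End.eigenspace ((Matrix.toLin' a).restrict hpj) μ) = ⊤ :=
    Module.End.genEigenspace_restrict_eq_top (f := Matrix.toLin' a) (k := 1) hpj hd
  have key : ∀ u ∈ Vw K w.re, a *ᵥ u = 0 := by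
    intro u hu
    have hx : (⟨u, hu⟩ : Vw K w.re) ∈ ⨆ μ : ℝ,
        Module.End.eigenspace ((Matrix.toLin' a).restrict hpj) μ := by
      rw [htop]; exact Submodule.mem_top
    refine Submodule.iSup_induction _ (motive := fun x : Vw K w.re => a *ᵥ (x : Fin n → ℝ) = 0)
      hx ?_ ?_ ?_
    · intro c y hy
      rw [Module.End.mem_eigenspace_iff] at hy
      have h1 : a *ᵥ (y : Fin n → ℝ) = c • (y : Fin n → ℝ) := by
        have h2 := congrArg Subtype.val hy
        rw [LinearMap.restrict_apply] at h2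
        exact h2
      have h3 := GPX.skew K ha 1 (y : Fin n → ℝ) (y : Fin n → ℝ)
      rw [h1, map_smul, LinearMap.smul_apply, map_smul, smul_eq_mul, ← add_mul, ← two_mul] at h3
      rw [h1]
      by_cases hy0 : (y : Fin n → ℝ) = 0
      · rw [hy0, smul_zero]
      · have hyw : (fun i => ((y : Fin n → ℝ) i : ℂ)) ∈ K.Tl w := by
          have h7 := ofReal_mem_w K y.2
          rwa [← hwr] at h7
        have h4 := RG.definite K hwl hyw hy0
        have h5 : Bq (fun i => 1 * GPX.qR K i) (y : Fin n → ℝ) (y : Fin n → ℝ) ≠ 0 := by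
          rw [Bq_apply]
          simpa [GPX.qR] using h4
        rcases mul_eq_zero.1 h3 with h6 | h6
        · have : c = 0 := by linarith
          rw [this, zero_smul]
        · exact absurd h6 h5
    · rw [Submodule.coe_zero, Matrix.mulVec_zero]
    · intro x y hx hy
      rw [Submodule.coe_add, Matrix.mulVec_add, hx, hy, add_zero]
  rw [hwr, ← cplx_Vw, mem_cplx] at hv
  rw [re_im v, Matrix.mulVec_add, Matrix.mulVec_smul, E8Y.ofReal_mulVec, E8Y.ofReal_mulVec,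
    key _ hv.1, key _ hv.2]
  funext i
  simp

/-- Real parts of a hyperbolic plane. -/
theorem hyp_rm {e f : Fin n → ℝ} (hee : Bq (fun i => (K.q i : ℝ)) e e = 0)
    (hff : Bq (fun i => (K.q i : ℝ)) f f = 0) (hef : Bq (fun i => (K.q i : ℝ)) e f ≠ 0)
    {h : Matrix (Fin n) (Fin n) ℝ} (hh : ∀ (c : ℝ) v, Matrix.toLin' (GPX.rm K e f) v = c • v →
      Matrix.toLin' h v = c • v) : h = GPX.rm K e f := by
  set q : Fin n → ℝ := fun i => (K.q i : ℝ) with hq
  have hmv : ∀ v, GPX.rm K e f *ᵥ v = Bq q f v • e - Bq q e v • f := by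
    intro v
    rw [GPX.rm_mulVec]
    rfl
  have hfe : Bq q f e = Bq q e f := Bq_symm f e
  have he : h *ᵥ e = GPX.rm K e f *ᵥ e := by
    have h1 : GPX.rm K e f *ᵥ e = Bq q e f • e := by
      rw [hmv, hee, hfe, zero_smul, sub_zero]
    rw [h1]
    have h2 := hh _ e (by rw [Matrix.toLin'_apply, h1])
    rwa [Matrix.toLin'_apply] at h2
  have hf : h *ᵥ f = GPX.rm K e f *ᵥ f := by
    have h1 : GPX.rm K e f *ᵥ f = (-Bq q e f) • f := by
      rw [hmv, hff, zero_smul, zero_sub, neg_smul]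
    rw [h1]
    have h2 := hh _ f (by rw [Matrix.toLin'_apply, h1])
    rwa [Matrix.toLin'_apply] at h2
  have hu : ∀ u, Bq q e u = 0 → Bq q f u = 0 → h *ᵥ u = GPX.rm K e f *ᵥ u := by
    intro u h1 h2
    have h3 : GPX.rm K e f *ᵥ u = (0 : ℝ) • u := by
      rw [hmv, h1, h2, zero_smul, zero_smul, zero_smul, sub_zero]
    rw [h3]
    have h4 := hh _ u (by rw [Matrix.toLin'_apply, h3])
    rwa [Matrix.toLin'_apply] at h4
  have key : ∀ v, h *ᵥ v = GPX.rm K e f *ᵥ v := by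
    intro v
    have h1 : v = (Bq q f v / Bq q e f) • e + (Bq q e v / Bq q e f) • f +
        (v - ((Bq q f v / Bq q e f) • e + (Bq q e v / Bq q e f) • f)) := by abel
    have h2 := hu (v - ((Bq q f v / Bq q e f) • e + (Bq q e v / Bq q e f) • f)) (by
      rw [map_sub, map_add, map_smul, map_smul, hee, smul_zero, zero_add, smul_eq_mul,
        div_mul_cancel₀ _ hef, sub_self]) (by
      rw [map_sub, map_add, map_smul, map_smul, hff, hfe, smul_zero, add_zero, smul_eq_mul,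
        div_mul_cancel₀ _ hef, sub_self])
    rw [h1, Matrix.mulVec_add, Matrix.mulVec_add, Matrix.mulVec_smul, Matrix.mulVec_smul, he, hf, h2,
      ← Matrix.mulVec_smul, ← Matrix.mulVec_smul, ← Matrix.mulVec_add, ← Matrix.mulVec_add]
  ext i j
  have := congrFun (key (Pi.single j 1)) i
  simpa using this

end one

section tuples

variable {r : ℕ} {h : Fin r → ℕ} {B : ∀ i, AbVar (h i)} {n m : Fin r → ℕ}
  {K : ∀ i, KSE (B i) (n i) (m i)} {d : (∀ i, Matrix (Fin (n i)) (Fin (n i)) ℂ) → Prop}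

/-- The matrices which lift to tuples vanishing at a given place. -/
def Fr (T : TupAlg K d) (i : Fin r) (z : ℂ) (j : Fin r) (w : ℂ) :
    Submodule ℂ (Matrix (Fin (n i)) (Fin (n i)) ℂ) where
  carrier := {X | ∃ t, d t ∧ (∀ v ∈ (K i).Tl z, t i *ᵥ v = X *ᵥ v) ∧ ∀ v ∈ (K j).Tl w, t j *ᵥ v = 0}
  add_mem' := by
    rintro X Y ⟨t, ht, h1, h2⟩ ⟨s, hs, h3, h4⟩
    refine ⟨t + s, (sub T).add_mem ht hs, fun v hv => ?_, fun v hv => ?_⟩
    · rw [Pi.add_apply, Matrix.add_mulVec, h1 v hv, h3 v hv, Matrix.add_mulVec]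
    · rw [Pi.add_apply, Matrix.add_mulVec, h2 v hv, h4 v hv, add_zero]
  zero_mem' := by
    refine ⟨0, (sub T).zero_mem, fun v _ => ?_, fun v _ => ?_⟩
    · rw [Pi.zero_apply]
    · rw [Pi.zero_apply, Matrix.zero_mulVec]
  smul_mem' := by
    rintro c X ⟨t, ht, h1, h2⟩
    refine ⟨c • t, (sub T).smul_mem c ht, fun v hv => ?_, fun v hv => ?_⟩
    · rw [Pi.smul_apply, Matrix.smul_mulVec, h1 v hv, Matrix.smul_mulVec]
    · rw [Pi.smul_apply, Matrix.smul_mulVec, h2 v hv, smul_zero]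

theorem free_iff (T : TupAlg K d) (i : Fin r) (z : ℂ) (j : Fin r) (w : ℂ) :
    Free K d i z j w ↔ ∀ x ∈ (K i).Tl z, ∀ y ∈ (K i).Tl z, E5L.wm (K i) x y ∈ Fr T i z j w :=
  Iff.rfl

theorem Fr_brk (T : TupAlg K d) {i : Fin r} {z : ℂ} {j : Fin r} {w : ℂ} :
    ∀ X ∈ Fr T i z j w, X ∈ (K i).S → ∀ x ∈ (K i).Tl z, ∀ y ∈ (K i).Tl z,
      X * E5L.wm (K i) x y - E5L.wm (K i) x y * X ∈ Fr T i z j w := by
  rintro X ⟨t, ht, h1, h2⟩ hX x hx y hy
  have hwS := E5L.wm_mem (K i) hx hy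
  obtain ⟨s, hs, hsi⟩ := T.onto i _ hwS
  refine ⟨fun k => t k * s k - s k * t k, T.brk t s ht hs, fun v hv => ?_, fun v hv => ?_⟩
  · rw [Matrix.sub_mulVec, Matrix.sub_mulVec, ← Matrix.mulVec_mulVec, ← Matrix.mulVec_mulVec,
      ← Matrix.mulVec_mulVec, ← Matrix.mulVec_mulVec, hsi, h1 v hv,
      h1 _ (E5L.S_pres (K i) hwS hv)]
  · rw [Matrix.sub_mulVec, ← Matrix.mulVec_mulVec, ← Matrix.mulVec_mulVec, h2 v hv,
      h2 _ (pres T hs j hv), Matrix.mulVec_zero, sub_zero]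

/-- The compact case. -/
theorem free_compact (T : TupAlg K d) (Lg : TupLog d) {i j : Fin r}
    (hn : 2 ≤ n i) (hV : 3 ≤ Module.finrank ℝ (E8Y.V0 (K i))) {w : ℂ} (hw : aeval w (K j).P = 0)
    (hwl : w ≠ ((K j).lam : ℂ)) : Free K d i ((K i).lam : ℂ) j w := by
  obtain ⟨e, he, f, hf, hee, hff, hef⟩ := RG.iso_pair (K i) hn hV
  obtain ⟨b, hb, hbi⟩ := GPX.real_onto K T i (GPX.rm_mem (K i) he hf)
  obtain ⟨u, hu, hul⟩ := Lg b hb
  have hui : u i = GPX.rm (K i) e f := by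
    have h1 := hypq (GPX.hypPart_of_log (hul i))
    rw [hbi] at h1
    exact hyp_rm (K i) hee hff hef h1.2
  have huj := (hypq (GPX.hypPart_of_log (hul j))).1
  have hwm : (GPX.rm (K i) e f).map Complex.ofReal =
      E5L.wm (K i) (fun k => (e k : ℂ)) (fun k => (f k : ℂ)) := by
    ext p q
    simp only [GPX.rm, E5L.wm, Matrix.map_apply, Matrix.of_apply, GPX.qR]
    push_cast
    ring
  rw [free_iff T]
  refine ideal (K i) (Fr T i ((K i).lam : ℂ) j w) (Fr_brk T) (ofReal_mem (K i) he)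
    (ofReal_mem (K i) hf) ?_ ?_ ?_ ?_
  · rw [bil_ofReal, hee, Complex.ofReal_zero]
  · rw [bil_ofReal, hff, Complex.ofReal_zero]
  · rw [bil_ofReal]
    exact_mod_cast hef
  · refine ⟨_, hu, fun v _ => ?_, fun v hv => ?_⟩
    · show (u i).map Complex.ofReal *ᵥ v = _
      rw [hui, hwm]
    · exact compact_zero (K j) (T.mem _ hu j) huj hw hwl hv

/-- The real place. -/
theorem free_real (T : TupAlg K d) {i j : Fin r}
    (hP : ∀ x ∈ E8Y.V0 (K i), ∀ y ∈ E8Y.V0 (K i), ∃ a : (∀ k, Matrix (Fin (n k)) (Fin (n k)) ℝ),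
      d (fun k => (a k).map Complex.ofReal) ∧
      (∀ v ∈ E8Y.V0 (K i), a i *ᵥ v =
        (∑ k, ((K i).q k : ℝ) * y k * v k) • x - (∑ k, ((K i).q k : ℝ) * x k * v k) • y) ∧
      ∀ w ∈ E8Y.V0 (K j), a j *ᵥ w = 0) :
    Free K d i ((K i).lam : ℂ) j ((K j).lam : ℂ) := by
  have h0 : ∀ x ∈ E8Y.V0 (K i), ∀ y ∈ E8Y.V0 (K i),
      E5L.wm (K i) (fun k => (x k : ℂ)) (fun k => (y k : ℂ)) ∈
        Fr T i ((K i).lam : ℂ) j ((K j).lam : ℂ) := by
    intro x hx y hy
    obtain ⟨a, ha, h1, h2⟩ := hP x hx y hy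
    have h3 : ∀ v ∈ E8Y.V0 (K i), (a i).map Complex.ofReal *ᵥ (fun k => (v k : ℂ)) =
        E5L.wm (K i) (fun k => (x k : ℂ)) (fun k => (y k : ℂ)) *ᵥ (fun k => (v k : ℂ)) := by
      intro v hv
      rw [E8Y.ofReal_mulVec, h1 v hv, E5L.wm_mulVec, bil_ofReal, bil_ofReal]
      funext k
      simp only [Pi.sub_apply, Pi.smul_apply, smul_eq_mul, Bq_apply]
      push_cast
      ring
    refine ⟨_, ha, fun v hv => ?_, fun v hv => ?_⟩
    · rw [← E8Y.cplx_V0, mem_cplx] at hv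
      show (a i).map Complex.ofReal *ᵥ v = _
      rw [re_im v, Matrix.mulVec_add, Matrix.mulVec_smul, h3 _ hv.1, h3 _ hv.2, Matrix.mulVec_add,
        Matrix.mulVec_smul]
    · rw [← E8Y.cplx_V0, mem_cplx] at hv
      show (a j).map Complex.ofReal *ᵥ v = _
      rw [re_im v, Matrix.mulVec_add, Matrix.mulVec_smul, E8Y.ofReal_mulVec, E8Y.ofReal_mulVec,
        h2 _ hv.1, h2 _ hv.2]
      funext k
      simp
  have hx : ∀ x ∈ E8Y.V0 (K i), ∀ y ∈ (K i).Tl ((K i).lam : ℂ),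
      E5L.wm (K i) (fun k => (x k : ℂ)) y ∈ Fr T i ((K i).lam : ℂ) j ((K j).lam : ℂ) := by
    intro x hx y hy
    rw [← E8Y.cplx_V0, mem_cplx] at hy
    have h1 : E5L.wm (K i) (fun k => (x k : ℂ)) y =
        E5L.wm (K i) (fun k => (x k : ℂ)) (fun k => (((y k).re : ℝ) : ℂ)) +
        Complex.I • E5L.wm (K i) (fun k => (x k : ℂ)) (fun k => (((y k).im : ℝ) : ℂ)) := by
      rw [wm_swap, re_im y, wm_add_left, wm_smul_left, neg_add, ← smul_neg, ← wm_swap, ← wm_swap]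
      simp
    rw [h1]
    exact Submodule.add_mem _ (h0 x hx _ hy.1) (Submodule.smul_mem _ _ (h0 x hx _ hy.2))
  rw [free_iff T]
  intro x hx' y hy
  rw [← E8Y.cplx_V0, mem_cplx] at hx'
  rw [re_im x, wm_add_left, wm_smul_left]
  exact Submodule.add_mem _ (hx _ hx'.1 y hy) (Submodule.smul_mem _ _ (hx _ hx'.2 y hy))

end tuples

end GGX

end Pool.Agent.K3P
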