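import Pool.Agent.K3P.Stmts
import Pool.Agent.DRB.Adj
import Pool.Agent.DRB.Gb1

/-!
# Products of Kuga-Satake varieties: blocks, part 1 (intertwining, twins)
-/

open scoped BigOperators
open Matrix

set_option linter.unusedSectionVars false

namespace Pool.Agent.K3P

open Pool.Agent.DRB Pool.Agent.K3D Pool.Agent.K3E Pool.Agent.DRB.ADJX

namespace Q1

variable {ι ι' : Type} [Fintype ι] [DecidableEq ι] [Fintype ι'] [DecidableEq ι'] {n : ℕ}

theorem prod_update (s : Fin n) (x : Matrix ι' ι ℂ) (J : Fin n → ι') (K : Fin n → ι) (i : ι) :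
    (∏ s', x (J s') (Function.update K s i s')) =
      (∏ s' ∈ Finset.univ.erase s, x (J s') (K s')) * x (J s) i := by
  rw [← Finset.mul_prod_erase Finset.univ _ (Finset.mem_univ s), Function.update_self, mul_comm]
  congr 1
  refine Finset.prod_congr rfl fun s' hs' => ?_
  rw [Function.update_of_ne (Finset.ne_of_mem_erase hs')]

theorem prod_update' (s : Fin n) (x : Matrix ι' ι ℂ) (J : Fin n → ι') (K : Fin n → ι) (i : ι') :
    (∏ s', x (Function.update J s i s') (K s')) =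
      (∏ s' ∈ Finset.univ.erase s, x (J s') (K s')) * x i (K s) := by
  rw [← Finset.mul_prod_erase Finset.univ _ (Finset.mem_univ s), Function.update_self, mul_comm]
  congr 1
  refine Finset.prod_congr rfl fun s' hs' => ?_
  rw [Function.update_of_ne (Finset.ne_of_mem_erase hs')]

/-- intertwining in one slot -/
theorem slot_conj (s : Fin n) (x : Matrix ι' ι ℂ) (X : Matrix ι ι ℂ) (Y : Matrix ι' ι' ℂ) (h : Y * x = x * X)
    (u : (Fin n → ι) → ℂ) (J : Fin n → ι') :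
    ∑ K, (∏ s', x (J s') (K s')) * Sl s X u K =
      Sl s Y (fun L => ∑ K, (∏ s', x (L s') (K s')) * u K) J := by
  have h1 : ∑ K, (∏ s', x (J s') (K s')) * Sl s X u K =
      ∑ K, ∑ i, (∏ s' ∈ Finset.univ.erase s, x (J s') (K s')) * x (J s) i * X i (K s) * u K := by
    simp only [Sl, Finset.mul_sum]
    rw [slot_sum s]
    refine Finset.sum_congr rfl fun K _ => Finset.sum_congr rfl fun i _ => ?_
    rw [prod_update, Function.update_self, Function.update_idem, Function.update_eq_self]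
    ring
  have h2 : Sl s Y (fun L => ∑ K, (∏ s', x (L s') (K s')) * u K) J =
      ∑ K, ∑ j, (∏ s' ∈ Finset.univ.erase s, x (J s') (K s')) * Y (J s) j * x j (K s) * u K := by
    simp only [Sl, Finset.mul_sum]
    rw [Finset.sum_comm]
    refine Finset.sum_congr rfl fun K _ => Finset.sum_congr rfl fun j _ => ?_
    rw [prod_update']
    ring
  rw [h1, h2]
  refine Finset.sum_congr rfl fun K _ => ?_
  have h3 : ∑ i, x (J s) i * X i (K s) = ∑ j, Y (J s) j * x j (K s) := by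
    have := congrFun (congrFun h (J s)) (K s)
    rw [Matrix.mul_apply, Matrix.mul_apply] at this
    exact this.symm
  have h4 : ∑ i, (∏ s' ∈ Finset.univ.erase s, x (J s') (K s')) * x (J s) i * X i (K s) * u K =
      (∏ s' ∈ Finset.univ.erase s, x (J s') (K s')) * (∑ i, x (J s) i * X i (K s)) * u K := by
    rw [Finset.mul_sum, Finset.sum_mul]
    exact Finset.sum_congr rfl fun i _ => by ring
  have h5 : ∑ i, (∏ s' ∈ Finset.univ.erase s, x (J s') (K s')) * Y (J s) i * x i (K s) * u K =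
      (∏ s' ∈ Finset.univ.erase s, x (J s') (K s')) * (∑ i, Y (J s) i * x i (K s)) * u K := by
    rw [Finset.mul_sum, Finset.sum_mul]
    exact Finset.sum_congr rfl fun i _ => by ring
  rw [h4, h5, h3]

/-- rectangular intertwining -/
theorem inter (t : TData) (x : Matrix ι' ι ℂ) (X : Matrix ι ι ℂ) (Y : Matrix ι' ι' ℂ) (h : Y * x = x * X)
    (ν μ : ℂ) (u : TIdx t ι → ℂ) :
    TAct t x ν (DAct t X μ u) = DAct t Y μ (TAct t x ν u) := by
  funext p
  obtain ⟨r, J⟩ := p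
  rw [TAct_apply, DAct_eq]
  simp only [TAct_apply, DAct_eq]
  have h1 : ∑ K : Fin (t.a r) → ι, (∏ s, x (J s) (K s)) *
      ((t.k r : ℂ) * μ * u ⟨r, K⟩ + ∑ s, Sl s X (fun K => u ⟨r, K⟩) K) =
      (t.k r : ℂ) * μ * ∑ K : Fin (t.a r) → ι, (∏ s, x (J s) (K s)) * u ⟨r, K⟩ +
      ∑ s, ∑ K : Fin (t.a r) → ι, (∏ s, x (J s) (K s)) * Sl s X (fun K => u ⟨r, K⟩) K := by
    rw [Finset.sum_comm, Finset.mul_sum, ← Finset.sum_add_distrib]
    refine Finset.sum_congr rfl fun K _ => ?_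
    rw [mul_add, Finset.mul_sum]
    ring
  rw [h1, mul_add]
  have h2 : ∀ s : Fin (t.a r), ∑ K : Fin (t.a r) → ι,
      (∏ s, x (J s) (K s)) * Sl s X (fun K => u ⟨r, K⟩) K =
      Sl s Y (fun L => ∑ K : Fin (t.a r) → ι, (∏ s', x (L s') (K s')) * u ⟨r, K⟩) J :=
    fun s => slot_conj s x X Y h (fun K => u ⟨r, K⟩) J
  rw [Finset.sum_congr rfl fun s _ => h2 s]
  have h3 : ∀ s : Fin (t.a r), Sl s Y (fun K => ν ^ t.k r * ∑ J : Fin (t.a r) → ι,
      (∏ s, x (K s) (J s)) * u ⟨r, J⟩) J = ν ^ t.k r *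
      Sl s Y (fun K => ∑ J : Fin (t.a r) → ι, (∏ s, x (K s) (J s)) * u ⟨r, J⟩) J :=
    fun s => Sl_smul s Y _ _ J
  rw [Finset.sum_congr rfl fun s _ => h3 s, ← Finset.mul_sum]
  ring

end Q1

namespace Q1

noncomputable section

theorem map_mulR {ι κ μ : Type} [Fintype κ] (σ : ℂ ≃ₐ[ℚ] ℂ) (x : Matrix ι κ ℂ) (y : Matrix κ μ ℂ) :
    (x * y).map σ = x.map σ * y.map σ := by
  have := Matrix.map_mul (L := x) (M := y) (f := (σ : ℂ →+* ℂ))
  exact this

theorem toR_map {ι κ : Type} (σ : ℂ ≃ₐ[ℚ] ℂ) (α : Matrix ι κ ℚ) : (toR α).map σ = toR α := by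
  ext i j
  simp only [toR, Matrix.map_apply]
  exact σ.commutes _

theorem toR_mul {ι κ μ : Type} [Fintype κ] (α : Matrix ι κ ℚ) (β : Matrix κ μ ℚ) :
    toR (α * β) = toR α * toR β := by
  unfold toR; exact Matrix.map_mul

theorem toR_one {ι : Type} [Fintype ι] [DecidableEq ι] : toR (1 : Matrix ι ι ℚ) = 1 := by
  unfold toR
  exact Matrix.map_one _ (map_zero _) (map_one _)

theorem toR_zero {ι κ : Type} : toR (0 : Matrix ι κ ℚ) = 0 := by
  unfold toR
  exact Matrix.map_zero _ (map_zero _)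

theorem toR_sum {ι κ μ : Type} (s : Finset μ) (f : μ → Matrix ι κ ℚ) :
    toR (∑ i ∈ s, f i) = ∑ i ∈ s, toR (f i) := by
  ext i j
  simp only [toR, Matrix.map_apply, Matrix.sum_apply, map_sum]

/-- The cocycle commutes with homomorphisms. -/
theorem coc_hom {g h : ℕ} (A : AbVar g) (B : AbVar h) {τ : ℂ ≃ₐ[ℚ] ℂ} (hτ : τ ∈ GalA)
    (α : Matrix (Idx h) (Idx g) ℚ) (hα : IsHom A B α) :
    (B.per⁻¹ * B.per.map τ) * toR α = toR α * (A.per⁻¹ * A.per.map τ) := by
  obtain ⟨ρ, h1, _, h3⟩ := hα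
  have hρ : ρ.map τ = ρ := by
    ext i j
    exact hτ _ (h1 i j)
  have h4 : B.per.map τ * toR α = ρ * A.per.map τ := by
    have := congrArg (fun M : Matrix (Idx h) (Idx g) ℂ => M.map τ) h3
    simp only [map_mulR, toR_map, hρ] at this
    exact this
  have h5 : B.per⁻¹ * ρ = toR α * A.per⁻¹ := by
    have h6 : B.per⁻¹ * (B.per * toR α) * A.per⁻¹ = B.per⁻¹ * (ρ * A.per) * A.per⁻¹ := by
      rw [h3]
    rw [← Matrix.mul_assoc, GB1X.per_inv_mul, Matrix.one_mul, Matrix.mul_assoc, Matrix.mul_assoc,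
      GB1X.per_mul_inv, Matrix.mul_one] at h6
    exact h6.symm
  rw [Matrix.mul_assoc, h4, ← Matrix.mul_assoc, h5, Matrix.mul_assoc]

theorem exists_gen {g : ℕ} (A : AbVar g) (σ τ : ℂ ≃ₐ[ℚ] ℂ) (hτ : τ ∈ GalA) (ν : ℂˣ)
    (hν : (ν : ℂ) = σ (τ tpi / tpi)) :
    ∃ p ∈ Gam A, p.1.val = (A.per⁻¹ * A.per.map τ).map σ ∧ p.2 = ν := by
  have h1 : IsUnit ((A.per⁻¹ * A.per.map τ).map σ).det := by
    have e1 : ((A.per⁻¹ * A.per.map τ).map σ).det = σ (A.per⁻¹ * A.per.map τ).det := by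
      have := (RingHom.map_det (σ : ℂ →+* ℂ) (A.per⁻¹ * A.per.map τ)).symm
      simpa [RingHom.mapMatrix_apply] using this
    rw [e1]
    refine IsUnit.map σ ?_
    rw [Matrix.det_mul]
    refine IsUnit.mul ?_ ?_
    · exact (Matrix.isUnit_nonsing_inv_det_iff).2 A.nondeg
    · have : (A.per.map τ).det = τ A.per.det := by
        have := (RingHom.map_det (τ : ℂ →+* ℂ) A.per).symm
        simpa [RingHom.mapMatrix_apply] using this
      rw [this]
      exact (show IsUnit A.per.det from A.nondeg).map τ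
  refine ⟨⟨Matrix.GeneralLinearGroup.mk'' _ h1, ν⟩, ?_, rfl, rfl⟩
  exact Subgroup.subset_closure ⟨σ, τ, hτ, rfl, hν⟩

theorem val_inv_mul {ι : Type} [Fintype ι] [DecidableEq ι] (x : GL ι ℂ) : (x⁻¹).val * x.val = 1 := by
  rw [← Units.val_mul, inv_mul_cancel, Units.val_one]

theorem val_mul_inv {ι : Type} [Fintype ι] [DecidableEq ι] (x : GL ι ℂ) : x.val * (x⁻¹).val = 1 := by
  rw [← Units.val_mul, mul_inv_cancel, Units.val_one]

/-- Elements of the groups of two abelian varieties, compatible with the homomorphisms. -/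
theorem twin {g h : ℕ} (A : AbVar g) (B : AbVar h) : ∀ p ∈ Gam A, ∃ q ∈ Gam B, q.2 = p.2 ∧
    (∀ α, IsHom A B α → q.1.val * toR α = toR α * p.1.val) ∧
    (∀ β, IsHom B A β → p.1.val * toR β = toR β * q.1.val) := by
  intro p hp
  unfold Gam at hp
  refine Subgroup.closure_induction (p := fun p _ => ∃ q ∈ Gam B, q.2 = p.2 ∧
    (∀ α, IsHom A B α → q.1.val * toR α = toR α * p.1.val) ∧
    (∀ β, IsHom B A β → p.1.val * toR β = toR β * q.1.val)) ?_ ?_ ?_ ?_ hp
  · rintro x ⟨σ, τ, hτ, h1, h2⟩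
    obtain ⟨q, hq, h3, h4⟩ := exists_gen B σ τ hτ x.2 h2
    refine ⟨q, hq, h4, ?_, ?_⟩
    · intro α hα
      have h5 := congrArg (fun M : Matrix (Idx h) (Idx g) ℂ => M.map σ) (coc_hom A B hτ α hα)
      rw [map_mulR σ (B.per⁻¹ * B.per.map τ) (toR α), map_mulR σ (toR α) (A.per⁻¹ * A.per.map τ),
        toR_map] at h5
      rw [h1, h3]
      exact h5
    · intro β hβ
      have h5 := congrArg (fun M : Matrix (Idx g) (Idx h) ℂ => M.map σ) (coc_hom B A hτ β hβ)
      rw [map_mulR σ (A.per⁻¹ * A.per.map τ) (toR β), map_mulR σ (toR β) (B.per⁻¹ * B.per.map τ),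
        toR_map] at h5
      rw [h1, h3]
      exact h5
  · refine ⟨1, Subgroup.one_mem _, rfl, ?_, ?_⟩
    · intro α _
      simp
    · intro β _
      simp
  · rintro x y _ _ ⟨q, hq, a1, a2, a3⟩ ⟨q', hq', b1, b2, b3⟩
    refine ⟨q * q', Subgroup.mul_mem _ hq hq', ?_, ?_, ?_⟩
    · rw [Prod.snd_mul, Prod.snd_mul, a1, b1]
    · intro α hα
      simp only [Prod.fst_mul, Units.val_mul]
      rw [Matrix.mul_assoc, b2 α hα, ← Matrix.mul_assoc, a2 α hα, Matrix.mul_assoc]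
    · intro β hβ
      simp only [Prod.fst_mul, Units.val_mul]
      rw [Matrix.mul_assoc, b3 β hβ, ← Matrix.mul_assoc, a3 β hβ, Matrix.mul_assoc]
  · rintro x _ ⟨q, hq, a1, a2, a3⟩
    refine ⟨q⁻¹, Subgroup.inv_mem _ hq, ?_, ?_, ?_⟩
    · rw [Prod.snd_inv, Prod.snd_inv, a1]
    · intro α hα
      simp only [Prod.fst_inv]
      calc (q.1⁻¹).val * toR α = (q.1⁻¹).val * (toR α * x.1.val) * (x.1⁻¹).val := by
            rw [Matrix.mul_assoc, Matrix.mul_assoc, val_mul_inv, Matrix.mul_one]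
        _ = (q.1⁻¹).val * (q.1.val * toR α) * (x.1⁻¹).val := by rw [a2 α hα]
        _ = toR α * (x.1⁻¹).val := by rw [← Matrix.mul_assoc, val_inv_mul, Matrix.one_mul]
    · intro β hβ
      simp only [Prod.fst_inv]
      calc (x.1⁻¹).val * toR β = (x.1⁻¹).val * (toR β * q.1.val) * (q.1⁻¹).val := by
            rw [Matrix.mul_assoc, Matrix.mul_assoc, val_mul_inv, Matrix.mul_one]
        _ = (x.1⁻¹).val * (x.1.val * toR β) * (q.1⁻¹).val := by rw [a3 β hβ]
        _ = toR β * (q.1⁻¹).val := by rw [← Matrix.mul_assoc, val_inv_mul, Matrix.one_mul]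

end

end Q1

end Pool.Agent.K3P
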