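import Pool.Agent.K3P.Q1
import Pool.Agent.K3D.K8a
import Pool.Agent.K3D.K2

/-!
# Products of Kuga-Satake varieties: blocks, part 2 (exponentials and logarithms)
-/

open scoped BigOperators
open Matrix

set_option linter.unusedSectionVars false

namespace Pool.Agent.K3P

open Pool.Agent.DRB Pool.Agent.K3D Pool.Agent.K3E

noncomputable section

namespace Q2

open Q1

section expo

attribute [local instance] Matrix.linftyOpNormedAddCommGroup Matrix.linftyOpNormedRing
  Matrix.linftyOpNormedAlgebra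

variable {ι κ : Type} [Fintype ι] [DecidableEq ι] [Fintype κ] [DecidableEq κ]

theorem pow_rect (X : Matrix ι ι ℂ) (Y : Matrix κ κ ℂ) (x : Matrix ι κ ℂ) (h : X * x = x * Y) (k : ℕ) :
    X ^ k * x = x * Y ^ k := by
  induction k with
  | zero => rw [pow_zero, pow_zero, Matrix.one_mul, Matrix.mul_one]
  | succ k ih => rw [pow_succ, pow_succ, Matrix.mul_assoc, h, ← Matrix.mul_assoc, ih, Matrix.mul_assoc]

theorem exp_rect (X : Matrix ι ι ℂ) (Y : Matrix κ κ ℂ) (x : Matrix ι κ ℂ) (h : X * x = x * Y) :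
    NormedSpace.exp X * x = x * NormedSpace.exp Y := by
  have h1 := NormedSpace.exp_series_hasSum_exp' (𝕂 := ℂ) X
  have h2 := NormedSpace.exp_series_hasSum_exp' (𝕂 := ℂ) Y
  let F : Matrix ι ι ℂ →+ Matrix ι κ ℂ :=
    { toFun := fun M => M * x
      map_zero' := Matrix.zero_mul x
      map_add' := fun M N => Matrix.add_mul M N x }
  let G : Matrix κ κ ℂ →+ Matrix ι κ ℂ :=
    { toFun := fun M => x * M
      map_zero' := Matrix.mul_zero x
      map_add' := fun M N => Matrix.mul_add x M N }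
  have hF : Continuous F := continuous_id.matrix_mul continuous_const
  have hG : Continuous G := continuous_const.matrix_mul continuous_id
  have h3 := h1.map F hF
  have h4 := h2.map G hG
  have h5 : (F ∘ fun n : ℕ => ((n.factorial : ℂ)⁻¹ • X ^ n)) = (G ∘ fun n : ℕ => ((n.factorial : ℂ)⁻¹ • Y ^ n)) := by
    funext k
    simp only [F, G, Function.comp_apply, AddMonoidHom.coe_mk, ZeroHom.coe_mk]
    rw [Matrix.smul_mul, Matrix.mul_smul, pow_rect X Y x h]
  rw [h5] at h3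
  exact h3.unique h4

end expo

section gen

variable {ι κ : Type} [Fintype ι] [DecidableEq ι] [Fintype κ] [DecidableEq κ]

theorem prod_rect (Xs : List (Matrix ι ι ℂ × ℂ)) (f : Matrix ι ι ℂ → Matrix κ κ ℂ) (x : Matrix ι κ ℂ)
    (h : ∀ p ∈ Xs, p.1 * x = x * f p.1) :
    (Xs.map fun p => NormedSpace.exp p.1).prod * x = x * (Xs.map fun p => NormedSpace.exp (f p.1)).prod := by
  induction Xs with
  | nil => simp
  | cons p Xs ih =>
    rw [List.map_cons, List.prod_cons, List.map_cons, List.prod_cons, Matrix.mul_assoc,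
      ih fun q hq => h q (List.mem_cons_of_mem _ hq), ← Matrix.mul_assoc,
      exp_rect _ _ _ (h p List.mem_cons_self), Matrix.mul_assoc]

theorem lift_list' (hK3 : Stmt_K3) (Γ : Subgroup (GL ι ℂ × ℂˣ)) (Xs : List (Matrix ι ι ℂ × ℂ))
    (hX : ∀ p ∈ Xs, InLie Γ p.1 p.2) :
    ∃ (x : GL ι ℂ) (ν : ℂˣ), (∀ (t : TData) (D : Submodule ℂ (TIdx t ι → ℂ)),
      StabG Γ t D → D.map (TAct t x.val ν.val) ≤ D) ∧
      x.val = (Xs.map fun p => NormedSpace.exp p.1).prod := by
  induction Xs with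
  | nil =>
    refine ⟨1, 1, fun t D _ => ?_, ?_⟩
    · rw [Units.val_one, Units.val_one, TAct_one, Submodule.map_id]
    · simp
  | cons p Xs ih =>
    obtain ⟨x, ν, h1, h2⟩ := ih fun q hq => hX q (List.mem_cons_of_mem _ hq)
    have h3 := hX p List.mem_cons_self
    let e : GL ι ℂ := ⟨NormedSpace.exp p.1, NormedSpace.exp (-p.1), (K8X.exp_mul_exp_neg p.1).1,
      (K8X.exp_mul_exp_neg p.1).2⟩
    let ε : ℂˣ := Units.mk0 (Complex.exp p.2) (Complex.exp_ne_zero p.2)
    refine ⟨e * x, ε * ν, fun t D hD => ?_, ?_⟩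
    · rw [Units.val_mul, Units.val_mul, TAct_comp, Submodule.map_comp]
      refine le_trans (Submodule.map_mono (h1 t D hD)) ?_
      exact hK3 ι t p.1 p.2 D (h3 t D hD)
    · rw [Units.val_mul, h2, List.map_cons, List.prod_cons]

/-- The key computation for vectors: `u = diag(α) (1 + N)`. -/
theorem vec_of_gen (α : ι → ℂˣ) (N : Matrix ι ι ℂ) (hN : IsNilpotent N)
    (hc : Matrix.diagonal (fun i => (α i).val) * N = N * Matrix.diagonal (fun i => (α i).val))
    (β : ℂ) (w : ι → ℂ) (k : ℕ)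
    (hw : ((Matrix.diagonal (fun i => (α i).val) * (1 + N) - β • (1 : Matrix ι ι ℂ)) ^ k) *ᵥ w = 0) :
    ∀ i, w i ≠ 0 → (α i).val = β := by
  set Dg := Matrix.diagonal (fun i => (α i).val) with hDg
  have hDN : Dg * (Dg * N) = (Dg * N) * Dg := by rw [mul_assoc, hc]
  have hnil : IsNilpotent (Dg * N) := by
    have : Commute Dg N := hc
    exact this.isNilpotent_mul_left hN
  obtain ⟨m, hm⟩ := hnil
  have hU : Dg * (1 + N) - β • (1 : Matrix ι ι ℂ) = (Dg - β • 1) + Dg * N := by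
    rw [mul_add, mul_one]
    abel
  have hcomm : Commute (Dg * (1 + N) - β • (1 : Matrix ι ι ℂ)) (Dg * N) := by
    rw [hU]
    refine Commute.add_left (Commute.sub_left hDN ?_) (Commute.refl _)
    exact (Commute.one_left _).smul_left β
  set f : Module.End ℂ (ι → ℂ) := Matrix.toLin' (Dg * (1 + N) - β • (1 : Matrix ι ι ℂ)) with hf
  set b : Module.End ℂ (ι → ℂ) := Matrix.toLin' (Dg * N) with hb
  have hfb : Commute f b := by
    have h0 := congrArg Matrix.toLin' hcomm.eq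
    rw [Matrix.toLin'_mul (Dg * (1 + N) - β • (1 : Matrix ι ι ℂ)) (Dg * N),
      Matrix.toLin'_mul (Dg * N) (Dg * (1 + N) - β • (1 : Matrix ι ι ℂ))] at h0
    exact h0
  have h1 : (f ^ k) w = 0 := by
    rw [hf, ← Matrix.toLin'_pow, Matrix.toLin'_apply]
    exact hw
  have h2 : b ^ m = 0 := by
    rw [hb, ← Matrix.toLin'_pow, hm, map_zero]
  have h3 := K8X.pow_sub_apply hfb h1 h2
  have h4 : f - b = Matrix.toLin' (Dg - β • (1 : Matrix ι ι ℂ)) := by
    rw [hf, hb, ← map_sub, hU, add_sub_cancel_right]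
  have h5 : Dg - β • (1 : Matrix ι ι ℂ) = Matrix.diagonal (fun i => (α i).val - β) := by
    rw [hDg]
    ext i j
    rw [Matrix.sub_apply, Matrix.smul_apply, Matrix.diagonal_apply, Matrix.one_apply, Matrix.diagonal_apply]
    split_ifs <;> simp
  rw [h4, h5, ← Matrix.toLin'_pow, Matrix.diagonal_pow, Matrix.toLin'_apply] at h3
  intro i hi
  have h6 := congrFun h3 i
  rw [Matrix.mulVec_diagonal, Pi.zero_apply, Pi.pow_apply] at h6
  rcases mul_eq_zero.1 h6 with h7 | h7
  · exact sub_eq_zero.1 (eq_zero_of_pow_eq_zero h7)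
  · exact absurd h7 hi

/-- The logarithm. -/
theorem log_gen (hK1 : Stmt_K1) (hK3 : Stmt_K3) (Γ : Subgroup (GL ι ℂ × ℂˣ))
    (Xs : List (Matrix ι ι ℂ × ℂ)) (hX : ∀ p ∈ Xs, InLie Γ p.1 p.2) :
    ∃ (H : Matrix ι ι ℂ) (η : ℂ), InLie Γ H η ∧ ∀ (β : ℂ) (v : ι → ℂ),
      (∃ k : ℕ, (((Xs.map fun p => NormedSpace.exp p.1).prod -
        β • (1 : Matrix ι ι ℂ)) ^ k) *ᵥ v = 0) → H *ᵥ v = (Real.log ‖β‖ : ℂ) • v := by
  obtain ⟨x, ν, hst, hx⟩ := lift_list' hK3 Γ Xs hX
  obtain ⟨S, α, N, M, hN, hcomm, hxe, _, hstab⟩ := hK1 ι x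
  set Dg : Matrix ι ι ℂ := Matrix.diagonal (fun i => (α i).val) with hDg
  set lg : Matrix ι ι ℂ := Matrix.diagonal (fun i => K8X.logAbs (Additive.ofMul (α i))) with hlg
  refine ⟨S.val * lg * (S⁻¹).val, K8X.logAbs (Additive.ofMul ν), ?_, ?_⟩
  · intro t D hD
    exact (hstab ν t D (hst t D hD)).1 K8X.logAbs
  · rintro β v ⟨k, hk⟩
    rw [← hx] at hk
    have hSS : (S⁻¹).val * S.val = 1 := val_inv_mul S
    have hSS' : S.val * (S⁻¹).val = 1 := val_mul_inv S
    set u := Dg * (1 + N) with hu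
    have h1 : x.val * S.val = S.val * u := by
      rw [hxe, hu]
      calc S.val * Dg * (1 + N) * (S⁻¹).val * S.val = S.val * Dg * (1 + N) * ((S⁻¹).val * S.val) := by
            simp only [mul_assoc]
        _ = _ := by rw [hSS, mul_one, mul_assoc]
    have h2 : (x.val - β • (1 : Matrix ι ι ℂ)) * S.val = S.val * (u - β • (1 : Matrix ι ι ℂ)) := by
      rw [sub_mul, mul_sub, h1, smul_mul_assoc, mul_smul_comm, one_mul, mul_one]
    have h3 := pow_rect _ _ _ h2 k
    set w := (S⁻¹).val *ᵥ v with hw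
    have hv : v = S.val *ᵥ w := by
      rw [hw, Matrix.mulVec_mulVec, hSS', Matrix.one_mulVec]
    have h4 : ((u - β • (1 : Matrix ι ι ℂ)) ^ k) *ᵥ w = 0 := by
      have h5 : S.val *ᵥ (((u - β • (1 : Matrix ι ι ℂ)) ^ k) *ᵥ w) = 0 := by
        rw [Matrix.mulVec_mulVec, ← h3, ← Matrix.mulVec_mulVec, ← hv, hk]
      have h6 := congrArg (fun z => (S⁻¹).val *ᵥ z) h5
      rw [Matrix.mulVec_mulVec, hSS, Matrix.one_mulVec, Matrix.mulVec_zero] at h6
      exact h6
    have h5 := vec_of_gen α N hN hcomm β w k h4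
    have h6 : lg *ᵥ w = (Real.log ‖β‖ : ℂ) • w := by
      funext i
      rw [hlg, Matrix.mulVec_diagonal, K8X.logAbs_apply, Pi.smul_apply, smul_eq_mul]
      by_cases hi : w i = 0
      · rw [hi, mul_zero, mul_zero]
      · rw [h5 i hi]
    rw [← Matrix.mulVec_mulVec, ← hw, ← Matrix.mulVec_mulVec, h6, Matrix.mulVec_smul, ← hv]

end gen

end Q2

end

end Pool.Agent.K3P
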