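import Pool.Agent.K3P.StmtsG

/-!
# The real place: signature of `V0`, isotropic pairs, definiteness at the other places
-/

set_option autoImplicit false

open scoped BigOperators
open Matrix

namespace Pool.Agent.K3P

open Pool.Agent.DRB Pool.Agent.K3D Pool.Agent.K3E
open Pool.Agent.K3D.K7w Pool.Agent.K3D.K7x

namespace RG

variable {g n m : ℕ} {A : AbVar g} (K : KSE A n m)

/-- the sign -/
theorem sgn : ∃ s : ℝ, s * s = 1 ∧ (∀ i : Fin n, (i : ℕ) < 2 → 0 < s * (K.q i : ℝ)) ∧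
    (∀ i : Fin n, 2 ≤ (i : ℕ) → s * (K.q i : ℝ) < 0) ∧
    ∀ v : Fin n → ℝ, (∀ w ∈ E8Y.V0 K, ∑ i, (K.q i : ℝ) * w i * v i = 0) → v ≠ 0 →
      s * ∑ i, (K.q i : ℝ) * v i * v i < 0 := by
  have hsw : ∀ v w : Fin n → ℝ, ∑ i, (K.q i : ℝ) * v i * w i = ∑ i, (K.q i : ℝ) * w i * v i :=
    fun v w => Finset.sum_congr rfl fun i _ => by ring
  rcases K.sig with ⟨hs, hs2⟩ | ⟨hs, hs2⟩
  · refine ⟨1, one_mul 1, fun i hi => ?_, fun i hi => ?_, fun v hv hv0 => ?_⟩
    · rw [one_mul]
      exact_mod_cast (hs i).2 hi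
    · rw [one_mul]
      have h1 : ¬ 0 < K.q i := by rw [hs]; omega
      have h2 : K.q i < 0 := lt_of_le_of_ne (not_lt.1 h1) (K.q_ne i)
      exact_mod_cast h2
    · rw [one_mul]
      exact hs2 v hv0 fun w hw => by rw [hsw]; exact hv w hw
  · refine ⟨-1, by norm_num, fun i hi => ?_, fun i hi => ?_, fun v hv hv0 => ?_⟩
    · have h1 : K.q i < 0 := (hs i).2 hi
      have h2 : ((K.q i : ℚ) : ℝ) < 0 := by exact_mod_cast h1
      linarith
    · have h1 : ¬ K.q i < 0 := by rw [hs]; omega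
      have h2 : 0 < K.q i := lt_of_le_of_ne (not_lt.1 h1) (K.q_ne i).symm
      have h3 : (0 : ℝ) < ((K.q i : ℚ) : ℝ) := by exact_mod_cast h2
      linarith
    · have := hs2 v hv0 fun w hw => by rw [hsw]; exact hv w hw
      linarith

/-- The signature of `V0` is `(2, *)`. -/
theorem pos2 (hn : 2 ≤ n) : ∃ s : ℝ, s * s = 1 ∧ ∃ x ∈ E8Y.V0 K, ∃ y ∈ E8Y.V0 K,
    0 < s * Bq (fun i => (K.q i : ℝ)) x x ∧ 0 < s * Bq (fun i => (K.q i : ℝ)) y y ∧
    Bq (fun i => (K.q i : ℝ)) x y = 0 ∧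
    (∀ z ∈ E8Y.V0 K, z ≠ 0 → Bq (fun i => (K.q i : ℝ)) x z = 0 → Bq (fun i => (K.q i : ℝ)) y z = 0 →
      s * Bq (fun i => (K.q i : ℝ)) z z < 0) ∧
    ∀ v : Fin n → ℝ, (∀ w ∈ E8Y.V0 K, Bq (fun i => (K.q i : ℝ)) w v = 0) → v ≠ 0 →
      s * Bq (fun i => (K.q i : ℝ)) v v < 0 := by
  obtain ⟨s, hs, hpos, hneg, hcomp⟩ := sgn K
  set q : Fin n → ℝ := fun i => s * (K.q i : ℝ) with hq
  have hBq : ∀ v w, Bq q v w = s * Bq (fun i => (K.q i : ℝ)) v w := by
    intro v w
    rw [Bq_apply, Bq_apply, Finset.mul_sum]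
    exact Finset.sum_congr rfl fun i _ => by simp only [hq]; ring
  have hs0 : s ≠ 0 := by
    rintro rfl
    norm_num at hs
  set V := E8Y.V0 K with hV
  have hc : ∀ v : Fin n → ℝ, (∀ w ∈ V, Bq q w v = 0) → v ≠ 0 → Bq q v v < 0 := by
    intro v hv hv0
    rw [hBq]
    refine hcomp v (fun w hw => ?_) hv0
    have h1 := hv w hw
    rw [hBq] at h1
    exact (mul_eq_zero.1 h1).resolve_left hs0
  have hnd : ∀ x ∈ V, (∀ y ∈ V, Bq q x y = 0) → x = 0 := by
    intro x hx h
    by_contra hx0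
    have h1 := hc x (fun y hy => by rw [Bq_symm]; exact h y hy) hx0
    rw [h x hx] at h1
    exact lt_irrefl _ h1
  have hrefl : (LinearMap.BilinForm.restrict (Bq q) V).Nondegenerate := by
    refine ⟨?_, ?_⟩
    · intro x hx
      exact Subtype.ext (hnd x x.2 fun y hy => hx ⟨y, hy⟩)
    · intro x hx
      exact Subtype.ext (hnd x x.2 fun y hy => by rw [Bq_symm]; exact hx ⟨y, hy⟩)
  have hcompl := LinearMap.BilinForm.isCompl_orthogonal_of_restrict_nondegenerate
    (B := Bq q) (W := V) (fun x y h => by rw [Bq_symm]; exact h) hrefl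
  have hdec : ∀ v, ∃ v0 ∈ V, ∃ v1, (∀ x ∈ V, Bq q x v1 = 0) ∧ v = v0 + v1 := by
    intro v
    have htop : v ∈ V ⊔ LinearMap.BilinForm.orthogonal (Bq q) V := by
      rw [hcompl.sup_eq_top]; exact Submodule.mem_top
    obtain ⟨k, hk, k', hk', hkk⟩ := Submodule.mem_sup.1 htop
    exact ⟨k, hk, k', fun x hx => hk' x hx, hkk.symm⟩
  -- projections of positive vectors are positive
  have hproj : ∀ v v0 v1 : Fin n → ℝ, v0 ∈ V → (∀ x ∈ V, Bq q x v1 = 0) → v = v0 + v1 →
      0 < Bq q v v → 0 < Bq q v0 v0 := by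
    intro v v0 v1 h0 h1 h2 h3
    have h4 : Bq q v v = Bq q v0 v0 + Bq q v1 v1 := by
      rw [h2, map_add, map_add, LinearMap.add_apply, LinearMap.add_apply, h1 v0 h0,
        Bq_symm v1 v0, h1 v0 h0]
      ring
    have h5 : Bq q v1 v1 ≤ 0 := by
      by_cases h6 : v1 = 0
      · rw [h6, map_zero]
      · exact (hc v1 h1 h6).le
    linarith
  let i0 : Fin n := ⟨0, by omega⟩
  let i1 : Fin n := ⟨1, by omega⟩
  obtain ⟨x, hx, x', hx', hxx⟩ := hdec (Pi.single i0 1)
  obtain ⟨y, hy, y', hy', hyy⟩ := hdec (Pi.single i1 1)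
  have e0 : Bq q (Pi.single i0 1) (Pi.single i0 1) = q i0 := by
    rw [Bq_single_left, Pi.single_eq_same, mul_one]
  have e1 : Bq q (Pi.single i1 1) (Pi.single i1 1) = q i1 := by
    rw [Bq_single_left, Pi.single_eq_same, mul_one]
  have e01 : Bq q (Pi.single i0 1) (Pi.single i1 1) = 0 := by
    rw [Bq_single_left, Pi.single_eq_of_ne, mul_zero]
    intro h
    have := congrArg Fin.val h
    simp [i0, i1] at this
  have q0 : 0 < q i0 := hpos i0 (by simp [i0])
  have q1 : 0 < q i1 := hpos i1 (by simp [i1])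
  have hxpos : 0 < Bq q x x := hproj _ x x' hx hx' hxx (by rw [e0]; exact q0)
  set c : ℝ := Bq q x y / Bq q x x with hcdef
  have hypos : 0 < Bq q (y - c • x) (y - c • x) := by
    refine hproj (Pi.single i1 1 - c • Pi.single i0 1) (y - c • x) (y' - c • x')
      (V.sub_mem hy (V.smul_mem c hx)) (fun w hw => ?_) ?_ ?_
    · rw [map_sub, map_smul, hy' w hw, hx' w hw, smul_zero, sub_zero]
    · rw [hyy, hxx, smul_add]
      abel
    · have : Bq q (Pi.single i1 1 - c • Pi.single i0 1) (Pi.single i1 1 - c • Pi.single i0 1) =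
          q i1 + c * c * q i0 := by
        simp only [map_sub, map_smul, LinearMap.sub_apply, LinearMap.smul_apply, smul_eq_mul]
        rw [e0, e1, e01, Bq_symm (Pi.single i1 1), e01]
        ring
      rw [this]
      have := mul_nonneg (mul_self_nonneg c) q0.le
      linarith
  have hxy : Bq q x (y - c • x) = 0 := by
    rw [map_sub, map_smul, smul_eq_mul, hcdef, div_mul_cancel₀ _ hxpos.ne', sub_self]
  set y₀ := y - c • x with hy₀
  have hy₀V : y₀ ∈ V := V.sub_mem hy (V.smul_mem c hx)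
  refine ⟨s, hs, x, hx, y₀, hy₀V, by rw [← hBq]; exact hxpos, by rw [← hBq]; exact hypos, ?_, ?_, ?_⟩
  · rw [hBq] at hxy
    exact (mul_eq_zero.1 hxy).resolve_left hs0
  · intro z hz hz0 h1 h2
    rw [← hBq]
    have h1' : Bq q x z = 0 := by rw [hBq, h1, mul_zero]
    have h2' : Bq q y₀ z = 0 := by rw [hBq, h2, mul_zero]
    by_contra hcon
    rw [not_lt] at hcon
    have hlin : LinearIndependent ℝ ![x, y₀, z] := by
      rw [Fintype.linearIndependent_iff]
      intro a ha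
      rw [Fin.sum_univ_three] at ha
      simp only [Matrix.cons_val_zero, Matrix.cons_val_one, Matrix.cons_val_two, Matrix.head_cons,
        Matrix.tail_cons, Matrix.cons_val] at ha
      have ha0 : a 0 = 0 := by
        have := congrArg (Bq q x) ha
        simp only [map_add, map_smul, smul_eq_mul, map_zero, hxy, h1', mul_zero, add_zero] at this
        exact (mul_eq_zero.1 this).resolve_right hxpos.ne'
      have ha1 : a 1 = 0 := by
        have := congrArg (Bq q y₀) ha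
        rw [map_add, map_add, map_smul, map_smul, map_smul, map_zero, Bq_symm y₀ x, hxy, h2'] at this
        simp only [smul_eq_mul, mul_zero, add_zero, zero_add] at this
        exact (mul_eq_zero.1 this).resolve_right hypos.ne'
      have ha2 : a 2 = 0 := by
        rw [ha0, ha1, zero_smul, zero_smul, zero_add, zero_add] at ha
        exact (smul_eq_zero.1 ha).resolve_right hz0
      intro i
      fin_cases i
      · exact ha0
      · exact ha1
      · exact ha2
    obtain ⟨a, ha⟩ := sigq (n2 := hn) (q := q) hpos hneg _ hlin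
    rw [Fin.sum_univ_three] at ha
    simp only [Matrix.cons_val_zero, Matrix.cons_val_one, Matrix.cons_val_two, Matrix.head_cons,
      Matrix.tail_cons, Matrix.cons_val] at ha
    have : Bq q (a 0 • x + a 1 • y₀ + a 2 • z) (a 0 • x + a 1 • y₀ + a 2 • z) =
        a 0 * a 0 * Bq q x x + a 1 * a 1 * Bq q y₀ y₀ + a 2 * a 2 * Bq q z z := by
      have g1 : Bq q y₀ x = 0 := by rw [Bq_symm]; exact hxy
      have g2 : Bq q z x = 0 := by rw [Bq_symm]; exact h1'
      have g3 : Bq q z y₀ = 0 := by rw [Bq_symm]; exact h2'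
      simp only [map_add, map_smul, LinearMap.add_apply, LinearMap.smul_apply, smul_eq_mul, hxy, h1',
        h2', g1, g2, g3]
      ring
    rw [this] at ha
    have := mul_nonneg (mul_self_nonneg (a 0)) hxpos.le
    have := mul_nonneg (mul_self_nonneg (a 1)) hypos.le
    have := mul_nonneg (mul_self_nonneg (a 2)) hcon
    linarith
  · intro v hv hv0
    rw [← hBq]
    refine hc v (fun w hw => ?_) hv0
    rw [hBq, hv w hw, mul_zero]

/-- An isotropic pair in `V0`. -/
theorem iso_pair (hn : 2 ≤ n) (hm : 3 ≤ Module.finrank ℝ (E8Y.V0 K)) :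
    ∃ e ∈ E8Y.V0 K, ∃ f ∈ E8Y.V0 K, Bq (fun i => (K.q i : ℝ)) e e = 0 ∧
      Bq (fun i => (K.q i : ℝ)) f f = 0 ∧ Bq (fun i => (K.q i : ℝ)) e f ≠ 0 := by
  obtain ⟨s, hs, x, hx, y, hy, hxx, hyy, hxy, hz, -⟩ := pos2 K hn
  set q : Fin n → ℝ := fun i => (K.q i : ℝ) with hq
  have hs0 : s ≠ 0 := by
    rintro rfl
    norm_num at hs
  -- a vector orthogonal to x and y
  let φ : E8Y.V0 K →ₗ[ℝ] (Fin 2 → ℝ) :=
    LinearMap.pi ![(Bq q x).comp (E8Y.V0 K).subtype, (Bq q y).comp (E8Y.V0 K).subtype]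
  have hk : LinearMap.ker φ ≠ ⊥ := by
    apply LinearMap.ker_ne_bot_of_finrank_lt
    rw [Module.finrank_fin_fun]
    omega
  obtain ⟨z, hzk, hz0⟩ := Submodule.exists_mem_ne_zero_of_ne_bot hk
  rw [LinearMap.mem_ker] at hzk
  have h0 : Bq q x (z : Fin n → ℝ) = 0 := congrFun hzk 0
  have h1 : Bq q y (z : Fin n → ℝ) = 0 := congrFun hzk 1
  have hzz := hz z z.2 (fun h => hz0 (Subtype.ext h)) h0 h1
  -- the scaling factor
  set a := s * Bq q x x with ha
  set b := s * Bq q (z : Fin n → ℝ) z with hb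
  set c := Real.sqrt (a / -b) with hc
  have hab : 0 ≤ a / -b := by
    apply div_nonneg hxx.le
    linarith
  have hcc : c * c = a / -b := Real.mul_self_sqrt hab
  have hccb : c * c * b = -a := by
    rw [hcc]
    have hb0 : b ≠ 0 := hzz.ne
    field_simp
  have hB : ∀ u v : Fin n → ℝ, Bq q u v = s * (s * Bq q u v) := by
    intro u v
    rw [← mul_assoc, hs, one_mul]
  have e1 : ∀ ε : ℝ, ε * ε = 1 → Bq q (x + (ε * c) • (z : Fin n → ℝ)) (x + (ε * c) • (z : Fin n → ℝ)) = 0 := by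
    intro ε hε
    rw [map_add, map_smul]
    simp only [LinearMap.add_apply, LinearMap.smul_apply, smul_eq_mul, map_add, map_smul]
    rw [h0, Bq_symm (z : Fin n → ℝ) x, h0, hB x x, hB (z : Fin n → ℝ) z, ← ha, ← hb]
    have : s * a + ε * c * 0 + (ε * c * 0 + ε * c * (ε * c * (s * b))) =
        s * (a + (ε * ε) * (c * c * b)) := by ring
    linear_combination this + s * (c * c * b) * hε + s * hccb
  refine ⟨x + (1 * c) • (z : Fin n → ℝ), Submodule.add_mem _ hx (Submodule.smul_mem _ _ z.2),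
    x + (-1 * c) • (z : Fin n → ℝ), Submodule.add_mem _ hx (Submodule.smul_mem _ _ z.2),
    e1 1 (by norm_num), e1 (-1) (by norm_num), ?_⟩
  have e2 : Bq q (x + (1 * c) • (z : Fin n → ℝ)) (x + (-1 * c) • (z : Fin n → ℝ)) = s * (2 * a) := by
    rw [map_add, map_smul]
    simp only [LinearMap.add_apply, LinearMap.smul_apply, smul_eq_mul, map_add, map_smul]
    rw [h0, Bq_symm (z : Fin n → ℝ) x, h0, hB x x, hB (z : Fin n → ℝ) z, ← ha, ← hb]
    linear_combination -s * hccb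
  rw [e2]
  exact mul_ne_zero hs0 (mul_ne_zero two_ne_zero hxx.ne')

/-- Definiteness at the other places. -/
theorem definite {w : ℂ} (hw : w ≠ (K.lam : ℂ)) {v : Fin n → ℝ}
    (hv : (fun i => (v i : ℂ)) ∈ K.Tl w) (hv0 : v ≠ 0) : ∑ i, (K.q i : ℝ) * v i * v i ≠ 0 := by
  obtain ⟨s, hs, -, -, hcomp⟩ := sgn K
  have h1 := hcomp v (fun x hx => ?_) hv0
  · intro h
    rw [h, mul_zero] at h1
    exact lt_irrefl _ h1
  · have hxC : (fun i => (x i : ℂ)) ∈ K.Tl (K.lam : ℂ) := by
      rw [← E8Y.cplx_V0, mem_cplx]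
      refine ⟨by simpa using hx, ?_⟩
      have : (fun i : Fin n => ((x i : ℂ)).im) = 0 := by funext i; simp
      rw [this]; exact Submodule.zero_mem _
    have h2 := E5L.orth K hw.symm hxC hv
    rw [KSE.bil] at h2
    have h3 : (((∑ i, (K.q i : ℝ) * x i * v i : ℝ)) : ℂ) = 0 := by
      rw [← h2]
      push_cast
      rfl
    exact_mod_cast h3

end RG

end Pool.Agent.K3P
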